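import Pool.Agent.N880.HQ.Hur

/-! # Arithmetic of the Hurwitz order: Euclidean division, principal ideals, factorisations -/

set_option autoImplicit false

namespace Pool.Agent.N880.HQ

namespace Hur

lemma exists_near (a n : ℤ) (hn : 0 < n) : ∃ k : ℤ, |2 * (a - n * k)| ≤ n := by
  refine ⟨round ((a : ℚ) / n), ?_⟩
  have h := abs_sub_round ((a : ℚ) / n)
  have hn' : (0 : ℚ) < n := by exact_mod_cast hn
  have h2 : |(2 * (a - n * round ((a : ℚ) / n)) : ℚ)| ≤ n := by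
    have e : (2 * (a - n * round ((a : ℚ) / n)) : ℚ) = (2 * n) * ((a : ℚ) / n - round ((a : ℚ) / n)) := by
      field_simp
    rw [e, abs_mul, abs_of_pos (by positivity)]
    nlinarith
  exact_mod_cast h2

lemma euclid_int (x : Hur) (n : ℤ) (hn : 0 < n) : ∃ g : Hur, nrm (x - (n : Hur) * g) < n ^ 2 := by
  obtain ⟨k0, h0⟩ := exists_near x.a n hn
  -- a' = x.a - n k0
  have half : ∀ t : ℤ, ∃ k : ℤ, |(x.a - n * k0) + 2 * (t - n * k)| ≤ n := by
    intro t
    obtain ⟨k, hk⟩ := exists_near ((x.a - n * k0) + 2 * t) (2 * n) (by linarith)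
    refine ⟨k, ?_⟩
    have e : (2 * ((x.a - n * k0) + 2 * t - 2 * n * k)) = 2 * ((x.a - n * k0) + 2 * (t - n * k)) := by
      ring
    rw [e, abs_mul, abs_of_pos (by norm_num : (0 : ℤ) < 2)] at hk
    linarith
  obtain ⟨k1, h1⟩ := half x.b
  obtain ⟨k2, h2⟩ := half x.c
  obtain ⟨k3, h3⟩ := half x.d
  refine ⟨⟨k0, k1, k2, k3⟩, ?_⟩
  have hf := four_nrm (x - (n : Hur) * ⟨k0, k1, k2, k3⟩)
  simp only [sub_a, sub_b, sub_c, sub_d, intCast_mul_a, intCast_mul_b, intCast_mul_c,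
    intCast_mul_d] at hf
  have s0 : (2 * (x.a - n * k0)) ^ 2 ≤ n ^ 2 := sq_le_sq' (by linarith [abs_le.1 h0]) (abs_le.1 h0).2
  have s1 : (x.a - n * k0 + 2 * (x.b - n * k1)) ^ 2 ≤ n ^ 2 :=
    sq_le_sq' (by linarith [abs_le.1 h1]) (abs_le.1 h1).2
  have s2 : (x.a - n * k0 + 2 * (x.c - n * k2)) ^ 2 ≤ n ^ 2 :=
    sq_le_sq' (by linarith [abs_le.1 h2]) (abs_le.1 h2).2
  have s3 : (x.a - n * k0 + 2 * (x.d - n * k3)) ^ 2 ≤ n ^ 2 :=
    sq_le_sq' (by linarith [abs_le.1 h3]) (abs_le.1 h3).2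
  have hn2 : 0 < n ^ 2 := by positivity
  nlinarith

/-- division with remainder: `x = y g + r`, `N(r) < N(y)` -/
lemma euclid_right (x y : Hur) (hy : y ≠ 0) : ∃ g : Hur, nrm (x - y * g) < nrm y := by
  have hn := nrm_pos hy
  obtain ⟨g, hg⟩ := euclid_int (conj y * x) (nrm y) hn
  refine ⟨g, ?_⟩
  have e : conj y * (x - y * g) = conj y * x - ((nrm y : ℤ) : Hur) * g := by
    rw [mul_sub, ← mul_assoc, conj_mul_self]
  rw [← e, nrm_mul, nrm_conj, sq] at hg
  exact lt_of_mul_lt_mul_left hg hn.le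

/-- right ideals are principal -/
theorem right_principal (J : Set Hur) (h0 : ∃ x ∈ J, x ≠ 0)
    (hs : ∀ x ∈ J, ∀ y ∈ J, x - y ∈ J) (hm : ∀ x ∈ J, ∀ y : Hur, x * y ∈ J) :
    ∃ α ∈ J, α ≠ 0 ∧ ∀ x ∈ J, ∃ y : Hur, x = α * y := by
  classical
  obtain ⟨x0, hx0, hx0'⟩ := h0
  have hex : ∃ n : ℕ, ∃ x ∈ J, x ≠ 0 ∧ nrm x = (n : ℤ) :=
    ⟨(nrm x0).toNat, x0, hx0, hx0', (Int.toNat_of_nonneg (nrm_nonneg x0)).symm⟩
  obtain ⟨α, hα, hα0, hαn⟩ := Nat.find_spec hex
  refine ⟨α, hα, hα0, fun x hx => ?_⟩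
  obtain ⟨g, hg⟩ := euclid_right x α hα0
  refine ⟨g, ?_⟩
  by_contra hne
  have hr0 : x - α * g ≠ 0 := sub_ne_zero.2 hne
  have hrJ : x - α * g ∈ J := hs x hx _ (hm α hα g)
  have hlt : (nrm (x - α * g)).toNat < Nat.find hex := by
    rw [hαn] at hg
    have := Int.toNat_of_nonneg (nrm_nonneg (x - α * g))
    omega
  exact Nat.find_min hex hlt ⟨_, hrJ, hr0, (Int.toNat_of_nonneg (nrm_nonneg _)).symm⟩

/-- units -/
lemma eq_mul_conj_of_unit {u x y : Hur} (hu : nrm u = 1) (h : x = u * y) : y = conj u * x := by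
  rw [h, ← mul_assoc, conj_mul_self, hu]; simp

lemma isUnit_of_nrm {u : Hur} (hu : nrm u = 1) : conj u * u = 1 ∧ u * conj u = 1 := by
  rw [conj_mul_self, mul_conj, hu]; simp

/-- coprime factorisation -/
theorem factor_coprime {m n : ℕ} (hm : 0 < m) (hn : 0 < n) (hc : Nat.Coprime m n) {γ : Hur}
    (hγ : nrm γ = (m : ℤ) * n) : ∃ α β : Hur, γ = α * β ∧ nrm α = m ∧ nrm β = n := by
  have hmZ : (0 : ℤ) < m := by exact_mod_cast hm
  obtain ⟨α, ⟨x, y, hxy⟩, hα0, hα⟩ := right_principal {z | ∃ x y : Hur, z = γ * x + (m : Hur) * y}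
    ⟨(m : Hur), ⟨0, 1, by simp⟩, by
      intro h
      have := congrArg Hur.a h
      simp at this
      omega⟩
    (by
      rintro _ ⟨x, y, rfl⟩ _ ⟨x', y', rfl⟩
      exact ⟨x - x', y - y', by simp only [mul_sub]; abel⟩)
    (by
      rintro _ ⟨x, y, rfl⟩ z
      exact ⟨x * z, y * z, by rw [add_mul, mul_assoc, mul_assoc]⟩)
  obtain ⟨β, hβ⟩ := hα γ ⟨1, 0, by simp⟩
  obtain ⟨μ, hμ⟩ := hα (m : Hur) ⟨0, 1, by simp⟩
  have n1 : (m : ℤ) * n = nrm α * nrm β := by rw [← hγ, hβ, nrm_mul]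
  have n2 : (m : ℤ) ^ 2 = nrm α * nrm μ := by rw [← nrm_natCast, hμ, nrm_mul]
  have hαp := nrm_pos hα0
  have d1 : nrm α ∣ (m : ℤ) := by
    have hcz : IsCoprime (m : ℤ) (n : ℤ) := Nat.isCoprime_iff_coprime.2 hc
    obtain ⟨s, t, hst⟩ := hcz
    have e : (m : ℤ) = s * (m : ℤ) ^ 2 + t * ((m : ℤ) * n) := by
      linear_combination (-(m : ℤ)) * hst
    rw [e, n1, n2]
    exact ⟨s * nrm μ + t * nrm β, by ring⟩
  have d2 : (m : ℤ) ∣ nrm α := by
    rw [hxy, nrm_add, nrm_mul, nrm_mul, nrm_natCast, hγ]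
    have e : (γ * x * conj ((m : Hur) * y)) = ((m : ℤ) : Hur) * (γ * x * conj y) := by
      rw [conj_mul]
      have : conj (m : Hur) = ((m : ℤ) : Hur) := by ext <;> simp <;> ring
      rw [this, ← mul_assoc, ← intCast_comm]
    rw [e, intCast_mul_a]
    exact ⟨n * nrm x + m * nrm y + (γ * x * conj y).a, by ring⟩
  have hαm : nrm α = m := Int.dvd_antisymm hαp.le hmZ.le d1 d2
  refine ⟨α, β, hβ, hαm, ?_⟩
  rw [hαm] at n1
  exact (mul_left_cancel₀ hmZ.ne' n1).symm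

/-- uniqueness of coprime factorisations -/
theorem factor_coprime_unique {m n : ℕ} (hm : 0 < m) (hc : Nat.Coprime m n)
    {α β α' β' : Hur} (h : α * β = α' * β') (h1 : nrm α = m) (h2 : nrm β = n) (h3 : nrm α' = m)
    (h4 : nrm β' = n) : ∃ u : Hur, nrm u = 1 ∧ α' = α * u := by
  have hcz : IsCoprime (m : ℤ) (n : ℤ) := Nat.isCoprime_iff_coprime.2 hc
  obtain ⟨s, t, hst⟩ := hcz
  have e1 : ((m : ℤ) : Hur) * α' = α * (conj α * α') := by
    rw [← mul_assoc, mul_conj, h1]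
  have e2 : ((n : ℤ) : Hur) * α' = α * (β * conj β') := by
    rw [← mul_assoc, h, mul_assoc, mul_conj, h4, intCast_comm]
  refine ⟨(s : Hur) * (conj α * α') + (t : Hur) * (β * conj β'), ?_, ?_⟩
  swap
  · have e3 : α' = (s : Hur) * (((m : ℤ) : Hur) * α') + (t : Hur) * (((n : ℤ) : Hur) * α') := by
      rw [← mul_assoc, ← mul_assoc, ← add_mul]
      have : ((s : Hur) * ((m : ℤ) : Hur) + (t : Hur) * ((n : ℤ) : Hur)) = 1 := by
        rw [← Int.cast_mul, ← Int.cast_mul, ← Int.cast_add, hst, Int.cast_one]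
      rw [this, one_mul]
    rw [e1, e2] at e3
    rw [mul_add, ← mul_assoc α (s : Hur), ← intCast_comm, ← mul_assoc α (t : Hur), ← intCast_comm,
      mul_assoc, mul_assoc]
    exact e3
  · have e3 : α' = (s : Hur) * (((m : ℤ) : Hur) * α') + (t : Hur) * (((n : ℤ) : Hur) * α') := by
      rw [← mul_assoc, ← mul_assoc, ← add_mul]
      have : ((s : Hur) * ((m : ℤ) : Hur) + (t : Hur) * ((n : ℤ) : Hur)) = 1 := by
        rw [← Int.cast_mul, ← Int.cast_mul, ← Int.cast_add, hst, Int.cast_one]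
      rw [this, one_mul]
    rw [e1, e2] at e3
    have e4 : α' = α * ((s : Hur) * (conj α * α') + (t : Hur) * (β * conj β')) := by
      rw [mul_add, ← mul_assoc α (s : Hur), ← intCast_comm, ← mul_assoc α (t : Hur), ← intCast_comm,
        mul_assoc, mul_assoc]
      exact e3
    have e5 := congrArg nrm e4
    rw [nrm_mul, h1, h3] at e5
    have hmZ : (m : ℤ) ≠ 0 := by exact_mod_cast hm.ne'
    have e6 : (m : ℤ) * 1 = m * nrm ((s : Hur) * (conj α * α') + (t : Hur) * (β * conj β')) := by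
      rw [mul_one]; exact e5
    exact (mul_left_cancel₀ hmZ e6).symm

/-- factorisation at a prime -/
theorem factor_prime {p : ℕ} (hp : p.Prime) {γ : Hur} {k : ℕ} (hγ : nrm γ = (p : ℤ) ^ (k + 1))
    (hnd : ∀ δ : Hur, γ ≠ (p : Hur) * δ) :
    ∃ α β : Hur, γ = α * β ∧ nrm α = p ∧ nrm β = (p : ℤ) ^ k ∧
      ∀ α' β' : Hur, γ = α' * β' → nrm α' = p → ∃ u : Hur, nrm u = 1 ∧ α' = α * u := by
  have hpZ : (0 : ℤ) < p := by exact_mod_cast hp.pos
  have hpp : Prime (p : ℤ) := Nat.prime_iff_prime_int.1 hp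
  obtain ⟨α, ⟨x, y, hxy⟩, hα0, hα⟩ := right_principal {z | ∃ x y : Hur, z = γ * x + (p : Hur) * y}
    ⟨(p : Hur), ⟨0, 1, by simp⟩, by
      intro h
      have := congrArg Hur.a h
      simp at this
      have := hp.pos
      omega⟩
    (by
      rintro _ ⟨x, y, rfl⟩ _ ⟨x', y', rfl⟩
      exact ⟨x - x', y - y', by simp only [mul_sub]; abel⟩)
    (by
      rintro _ ⟨x, y, rfl⟩ z
      exact ⟨x * z, y * z, by rw [add_mul, mul_assoc, mul_assoc]⟩)
  obtain ⟨β, hβ⟩ := hα γ ⟨1, 0, by simp⟩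
  obtain ⟨μ, hμ⟩ := hα (p : Hur) ⟨0, 1, by simp⟩
  have n1 : (p : ℤ) ^ (k + 1) = nrm α * nrm β := by rw [← hγ, hβ, nrm_mul]
  have n2 : (p : ℤ) ^ 2 = nrm α * nrm μ := by rw [← nrm_natCast, hμ, nrm_mul]
  have hαp := nrm_pos hα0
  have hμp : 0 < nrm μ := by
    by_contra h
    have : (0 : ℤ) < (p : ℤ) ^ 2 := by positivity
    nlinarith
  have d2 : (p : ℤ) ∣ nrm α := by
    rw [hxy, nrm_add, nrm_mul, nrm_mul, nrm_natCast, hγ]
    have e : (γ * x * conj ((p : Hur) * y)) = ((p : ℤ) : Hur) * (γ * x * conj y) := by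
      rw [conj_mul]
      have : conj (p : Hur) = ((p : ℤ) : Hur) := by ext <;> simp <;> ring
      rw [this, ← mul_assoc, ← intCast_comm]
    rw [e, intCast_mul_a]
    exact ⟨(p : ℤ) ^ k * nrm x + p * nrm y + (γ * x * conj y).a, by ring⟩
  -- nrm α = p
  have hαn : nrm α = p := by
    obtain ⟨e, he⟩ := d2
    have he0 : 0 < e := by
      by_contra h
      nlinarith
    have h3 : (p : ℤ) = e * nrm μ := by
      have : (p : ℤ) * p = p * (e * nrm μ) := by rw [← sq, n2, he]; ring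
      exact mul_left_cancel₀ hpZ.ne' this
    have h4 : nrm μ ∣ (p : ℤ) := ⟨e, by rw [h3]; ring⟩
    rcases (hpp.irreducible.isUnit_or_isUnit h3) with h5 | h5
    · rw [he, (Int.isUnit_iff.1 h5).resolve_right (by omega), mul_one]
    · exfalso
      have h6 : nrm μ = 1 := (Int.isUnit_iff.1 h5).resolve_right (by omega)
      -- α = p * conj μ
      have h7 : α = (p : Hur) * conj μ := by
        rw [hμ, mul_assoc, (isUnit_of_nrm h6).2, mul_one]
      exact hnd (conj μ * β) (by rw [← mul_assoc, ← h7]; exact hβ)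
  refine ⟨α, β, hβ, hαn, ?_, ?_⟩
  · rw [hαn, pow_succ, mul_comm] at n1
    exact (mul_left_cancel₀ hpZ.ne' n1).symm
  · intro α' β' h1 h2
    refine ⟨conj (β' * x + conj α' * y), ?_, ?_⟩
    · have e : α = α' * (β' * x + conj α' * y) := by
        rw [hxy, h1, mul_add, ← mul_assoc α' (conj α'), mul_conj, h2, mul_assoc]
        rfl
      have := congrArg nrm e
      rw [nrm_mul, hαn, h2] at this
      rw [nrm_conj]
      have h8 : (p : ℤ) * 1 = p * nrm (β' * x + conj α' * y) := by rw [mul_one]; exact this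
      exact (mul_left_cancel₀ hpZ.ne' h8).symm
    · have e : α = α' * (β' * x + conj α' * y) := by
        rw [hxy, h1, mul_add, ← mul_assoc α' (conj α'), mul_conj, h2, mul_assoc]
        rfl
      have h7 : nrm (β' * x + conj α' * y) = 1 := by
        have := congrArg nrm e
        rw [nrm_mul, hαn, h2] at this
        have h8 : (p : ℤ) * 1 = p * nrm (β' * x + conj α' * y) := by rw [mul_one]; exact this
        exact (mul_left_cancel₀ hpZ.ne' h8).symm
      rw [e, mul_assoc, (isUnit_of_nrm h7).2, mul_one]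

end Hur

end Pool.Agent.N880.HQ
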