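import Mathlib

/-! # An orthonormal basis of joint eigenvectors of a commuting family closed under adjoints -/

set_option autoImplicit false

open Module

namespace Pool.Agent.N880.HQ

section
variable {E : Type*} [NormedAddCommGroup E] [InnerProductSpace ℂ E] [FiniteDimensional ℂ E]

/-- a joint eigenvector -/
lemma joint_vec {ι : Type*} (F Fs : ι → E →ₗ[ℂ] E)
    (hadj : ∀ i (x y : E), inner ℂ (F i x) y = inner ℂ x (Fs i y)) (W : Submodule ℂ E)
    (hW : finrank ℂ W ≠ 0)
    (hF : ∀ i, ∀ x ∈ W, F i x ∈ W) (hFs : ∀ i, ∀ x ∈ W, Fs i x ∈ W)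
    (h1 : ∀ i j, ∀ x ∈ W, F i (F j x) = F j (F i x))
    (h2 : ∀ i j, ∀ x ∈ W, F i (Fs j x) = Fs j (F i x))
    (h3 : ∀ i j, ∀ x ∈ W, Fs i (Fs j x) = Fs j (Fs i x)) :
    ∃ v ∈ W, ‖v‖ = 1 ∧ ∀ i, ∃ c : ℂ, F i v = c • v ∧ Fs i v = (starRingEnd ℂ) c • v := by
  classical
  have hadj' : ∀ i (x y : E), inner ℂ (Fs i x) y = inner ℂ x (F i y) := by
    intro i x y
    rw [← inner_conj_symm, ← hadj, inner_conj_symm]
  set A : ι ⊕ ι → W →ₗ[ℂ] W := fun k => match k with
    | Sum.inl i => (F i + Fs i).restrict (fun x hx => W.add_mem (hF i x hx) (hFs i x hx))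
    | Sum.inr i => (Complex.I • (F i - Fs i)).restrict
        (fun x hx => W.smul_mem _ (W.sub_mem (hF i x hx) (hFs i x hx))) with hA
  have hsym : ∀ k, (A k).IsSymmetric := by
    rintro (i | i) x y
    · change inner ℂ (F i (x : E) + Fs i x) (y : E) = inner ℂ (x : E) (F i y + Fs i y)
      rw [inner_add_left, inner_add_right, hadj, hadj', add_comm]
    · change inner ℂ (Complex.I • (F i (x : E) - Fs i x)) (y : E) =
        inner ℂ (x : E) (Complex.I • (F i y - Fs i y))
      rw [inner_smul_left, inner_smul_right, inner_sub_left, inner_sub_right, hadj, hadj']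
      simp only [Complex.conj_I]
      ring
  have hcomm : Pairwise (Function.onFun Commute A) := by
    intro k l _
    change A k * A l = A l * A k
    ext x
    have hx := x.2
    rcases k with i | i <;> rcases l with j | j
    · change F i (F j (x : E) + Fs j x) + Fs i (F j (x : E) + Fs j x) =
        F j (F i (x : E) + Fs i x) + Fs j (F i (x : E) + Fs i x)
      simp only [map_add]
      rw [h1 i j x hx, h2 i j x hx, h3 i j x hx, ← h2 j i x hx]
      abel
    · change F i (Complex.I • (F j (x : E) - Fs j x)) + Fs i (Complex.I • (F j (x : E) - Fs j x)) =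
        Complex.I • (F j (F i (x : E) + Fs i x) - Fs j (F i (x : E) + Fs i x))
      simp only [map_add, map_smul, map_sub, ← smul_add]
      rw [h1 i j x hx, h2 i j x hx, h3 i j x hx, ← h2 j i x hx]
      congr 1
      abel
    · change Complex.I • (F i (F j (x : E) + Fs j x) - Fs i (F j (x : E) + Fs j x)) =
        F j (Complex.I • (F i (x : E) - Fs i x)) + Fs j (Complex.I • (F i (x : E) - Fs i x))
      simp only [map_add, map_smul, map_sub, ← smul_add]
      rw [h1 i j x hx, h2 i j x hx, h3 i j x hx, ← h2 j i x hx]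
      congr 1
      abel
    · change Complex.I • (F i (Complex.I • (F j (x : E) - Fs j x)) -
          Fs i (Complex.I • (F j (x : E) - Fs j x))) =
        Complex.I • (F j (Complex.I • (F i (x : E) - Fs i x)) -
          Fs j (Complex.I • (F i (x : E) - Fs i x)))
      simp only [map_smul, map_sub, ← smul_sub]
      rw [h1 i j x hx, h2 i j x hx, h3 i j x hx, ← h2 j i x hx]
      congr 2
      abel
  have htop := LinearMap.IsSymmetric.iSup_iInf_eq_top_of_commute hsym hcomm
  have hne : ∃ χ : ι ⊕ ι → ℂ, (⨅ k, Module.End.eigenspace (A k) (χ k)) ≠ ⊥ := by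
    by_contra hcon
    push Not at hcon
    simp only [hcon, iSup_bot] at htop
    have : finrank ℂ (⊤ : Submodule ℂ W) = 0 := by rw [← htop]; simp
    rw [finrank_top] at this
    exact hW this
  obtain ⟨χ, hχ⟩ := hne
  obtain ⟨v, hv, hv0⟩ := Submodule.exists_mem_ne_zero_of_ne_bot hχ
  rw [Submodule.mem_iInf] at hv
  have hv0' : (v : E) ≠ 0 := fun h => hv0 (Subtype.ext h)
  have hn : ‖(v : E)‖ ≠ 0 := norm_ne_zero_iff.2 hv0'
  -- eigenvalue equations
  have heig : ∀ i, ∃ c : ℂ, F i (v : E) = c • (v : E) ∧ Fs i (v : E) = (starRingEnd ℂ) c • (v : E) := by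
    intro i
    have e1 := congrArg (Subtype.val) (Module.End.mem_eigenspace_iff.1 (hv (Sum.inl i)))
    have e2 := congrArg (Subtype.val) (Module.End.mem_eigenspace_iff.1 (hv (Sum.inr i)))
    change F i (v : E) + Fs i v = χ (Sum.inl i) • (v : E) at e1
    change Complex.I • (F i (v : E) - Fs i v) = χ (Sum.inr i) • (v : E) at e2
    set α := χ (Sum.inl i)
    set β := χ (Sum.inr i)
    have e3 : F i (v : E) - Fs i v = (-Complex.I * β) • (v : E) := by
      have := congrArg (fun z => (-Complex.I) • z) e2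
      simp only [smul_smul] at this
      rw [neg_mul, Complex.I_mul_I, neg_neg, one_smul] at this
      exact this
    have e4 : F i (v : E) = ((α - Complex.I * β) / 2) • (v : E) := by
      have : (2 : ℂ) • F i (v : E) = (α - Complex.I * β) • (v : E) := by
        rw [two_smul, sub_smul, ← e1]
        have : F i (v : E) = Fs i v + (-Complex.I * β) • (v : E) := by rw [← e3]; abel
        nth_rw 2 [this]
        rw [neg_mul, neg_smul]
        abel
      rw [div_eq_inv_mul, mul_smul, ← this, smul_smul]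
      norm_num
    have e5 : Fs i (v : E) = ((α + Complex.I * β) / 2) • (v : E) := by
      have : Fs i (v : E) = F i v - (-Complex.I * β) • (v : E) := by rw [← e3]; abel
      rw [this, e4, ← sub_smul]
      congr 1
      ring
    refine ⟨(α - Complex.I * β) / 2, e4, ?_⟩
    rw [e5]
    have h6 := hadj i v v
    rw [e4, e5, inner_smul_left, inner_smul_right] at h6
    have h7 : inner ℂ (v : E) (v : E) ≠ 0 := by
      rw [Ne, inner_self_eq_zero]
      exact hv0'
    have h8 := mul_right_cancel₀ h7 h6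
    rw [h8]
  refine ⟨((‖(v : E)‖⁻¹ : ℝ) : ℂ) • (v : E), W.smul_mem _ v.2, ?_, fun i => ?_⟩
  · rw [norm_smul, Complex.norm_real, norm_inv, norm_norm, inv_mul_cancel₀ hn]
  · obtain ⟨c, hc1, hc2⟩ := heig i
    refine ⟨c, ?_, ?_⟩
    · rw [map_smul, hc1, smul_comm]
    · rw [map_smul, hc2, smul_comm]

theorem joint_basis_aux {ι : Type*} (F Fs : ι → E →ₗ[ℂ] E)
    (hadj : ∀ i (x y : E), inner ℂ (F i x) y = inner ℂ x (Fs i y)) :
    ∀ (n : ℕ) (W : Submodule ℂ E), finrank ℂ W = n →
    (∀ i, ∀ x ∈ W, F i x ∈ W) → (∀ i, ∀ x ∈ W, Fs i x ∈ W) →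
    (∀ i j, ∀ x ∈ W, F i (F j x) = F j (F i x)) →
    (∀ i j, ∀ x ∈ W, F i (Fs j x) = Fs j (F i x)) →
    (∀ i j, ∀ x ∈ W, Fs i (Fs j x) = Fs j (Fs i x)) →
    ∃ b : Fin n → E, Orthonormal ℂ b ∧ (∀ k, b k ∈ W) ∧
      ∀ i k, ∃ c : ℂ, F i (b k) = c • b k ∧ Fs i (b k) = (starRingEnd ℂ) c • b k := by
  intro n
  induction n with
  | zero =>
    intro W _ _ _ _ _ _
    exact ⟨Fin.elim0, ⟨fun i => i.elim0, fun i => i.elim0⟩, fun k => k.elim0, fun _ k => k.elim0⟩
  | succ n ih =>
    intro W hW hF hFs h1 h2 h3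
    obtain ⟨v, hvW, hv1, hve⟩ := joint_vec F Fs hadj W (by omega) hF hFs h1 h2 h3
    have hadj' : ∀ i (x y : E), inner ℂ (Fs i x) y = inner ℂ x (F i y) := by
      intro i x y
      rw [← inner_conj_symm, ← hadj, inner_conj_symm]
    have hv0 : v ≠ 0 := by
      rintro rfl
      simp at hv1
    set W' : Submodule ℂ E := (ℂ ∙ v)ᗮ ⊓ W with hW'
    have hmem : ∀ x : E, x ∈ W' ↔ inner ℂ v x = 0 ∧ x ∈ W := by
      intro x
      rw [hW', Submodule.mem_inf, Submodule.mem_orthogonal_singleton_iff_inner_right]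
    have hdim : finrank ℂ W' = n := by
      have hle : (ℂ ∙ v) ≤ W := by
        rw [Submodule.span_singleton_le_iff_mem]
        exact hvW
      have : finrank ℂ (ℂ ∙ v) + finrank ℂ W' = finrank ℂ W :=
        Submodule.finrank_add_inf_finrank_orthogonal hle
      rw [hW, finrank_span_singleton hv0] at this
      omega
    have g1 : ∀ i, ∀ x ∈ W', F i x ∈ W' := by
      intro i x hx
      obtain ⟨hx1, hx2⟩ := (hmem x).1 hx
      refine (hmem _).2 ⟨?_, hF i x hx2⟩
      obtain ⟨c, _, hc2⟩ := hve i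
      rw [← hadj', hc2, inner_smul_left, hx1, mul_zero]
    have g2 : ∀ i, ∀ x ∈ W', Fs i x ∈ W' := by
      intro i x hx
      obtain ⟨hx1, hx2⟩ := (hmem x).1 hx
      refine (hmem _).2 ⟨?_, hFs i x hx2⟩
      obtain ⟨c, hc1, _⟩ := hve i
      rw [← hadj, hc1, inner_smul_left, hx1, mul_zero]
    obtain ⟨b, hb1, hb2, hb3⟩ := ih W' hdim g1 g2
      (fun i j x hx => h1 i j x ((hmem x).1 hx).2)
      (fun i j x hx => h2 i j x ((hmem x).1 hx).2)
      (fun i j x hx => h3 i j x ((hmem x).1 hx).2)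
    · refine ⟨Fin.cons v b, ?_, ?_, ?_⟩
      · rw [orthonormal_iff_ite]
        intro i j
        refine Fin.cases ?_ (fun i => ?_) i <;> refine Fin.cases ?_ (fun j => ?_) j
        · simp only [Fin.cons_zero, if_true]
          rw [inner_self_eq_norm_sq_to_K, hv1]
          simp
        · simp only [Fin.cons_zero, Fin.cons_succ]
          rw [if_neg (Fin.succ_ne_zero j).symm]
          exact ((hmem _).1 (hb2 j)).1
        · simp only [Fin.cons_zero, Fin.cons_succ]
          rw [if_neg (Fin.succ_ne_zero i), ← inner_conj_symm, ((hmem _).1 (hb2 i)).1, map_zero]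
        · simp only [Fin.cons_succ]
          rw [orthonormal_iff_ite.1 hb1 i j]
          simp
      · intro k
        refine Fin.cases ?_ (fun k => ?_) k
        · exact hvW
        · exact ((hmem _).1 (hb2 k)).2
      · intro i k
        refine Fin.cases ?_ (fun k => ?_) k
        · exact hve i
        · exact hb3 i k

end

/-- joint eigenbasis for operators on functions on a finite set -/
theorem joint_basis {V ι : Type*} [Fintype V] (F Fs : ι → (V → ℂ) →ₗ[ℂ] (V → ℂ))
    (hadj : ∀ i (φ ψ : V → ℂ), ∑ v, F i φ v * (starRingEnd ℂ) (ψ v) =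
      ∑ v, φ v * (starRingEnd ℂ) (Fs i ψ v))
    (W : Submodule ℂ (V → ℂ))
    (hF : ∀ i, ∀ x ∈ W, F i x ∈ W) (hFs : ∀ i, ∀ x ∈ W, Fs i x ∈ W)
    (h1 : ∀ i j, ∀ x ∈ W, F i (F j x) = F j (F i x))
    (h2 : ∀ i j, ∀ x ∈ W, F i (Fs j x) = Fs j (F i x))
    (h3 : ∀ i j, ∀ x ∈ W, Fs i (Fs j x) = Fs j (Fs i x)) :
    ∃ b : Fin (finrank ℂ W) → (V → ℂ), (∀ k, b k ∈ W) ∧
      (∀ k l, ∑ v, b k v * (starRingEnd ℂ) (b l v) = if k = l then 1 else 0) ∧
      ∀ i k, ∃ c : ℂ, F i (b k) = c • b k ∧ Fs i (b k) = (starRingEnd ℂ) c • b k := by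
  classical
  set e := (WithLp.linearEquiv 2 ℂ (V → ℂ)) with he
  set E := EuclideanSpace ℂ V
  have hin : ∀ x y : E, inner ℂ x y = ∑ v, y v * (starRingEnd ℂ) (x v) := by
    intro x y
    rw [PiLp.inner_apply]
    refine Finset.sum_congr rfl fun v _ => ?_
    simp
  set G : ι → E →ₗ[ℂ] E := fun i => e.symm.toLinearMap ∘ₗ F i ∘ₗ e.toLinearMap with hG
  set Gs : ι → E →ₗ[ℂ] E := fun i => e.symm.toLinearMap ∘ₗ Fs i ∘ₗ e.toLinearMap with hGs
  have hGe : ∀ i (x : E), e (G i x) = F i (e x) := by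
    intro i x
    simp [hG]
  have hGse : ∀ i (x : E), e (Gs i x) = Fs i (e x) := by
    intro i x
    simp [hGs]
  have hee : ∀ (x : E) (v : V), e x v = x v := fun x v => rfl
  have hadjE : ∀ i (x y : E), inner ℂ (G i x) y = inner ℂ x (Gs i y) := by
    intro i x y
    rw [hin, hin]
    have := hadj i (e x) (e y)
    rw [← hGe, ← hGse] at this
    simp only [hee] at this
    have h := congrArg (starRingEnd ℂ) this
    rw [map_sum, map_sum] at h
    simp only [map_mul, Complex.conj_conj] at h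
    calc _ = ∑ v, (starRingEnd ℂ) ((G i x) v) * y v := Finset.sum_congr rfl fun v _ => mul_comm _ _
      _ = _ := h
      _ = _ := Finset.sum_congr rfl fun v _ => mul_comm _ _
  set W' : Submodule ℂ E := W.comap e.toLinearMap with hW'
  have hmem : ∀ x : E, x ∈ W' ↔ e x ∈ W := fun x => Iff.rfl
  have hdim : finrank ℂ W' = finrank ℂ W := by
    have h := LinearEquiv.finrank_eq (e.submoduleMap W')
    have : Submodule.map (e : E →ₗ[ℂ] (V → ℂ)) W' = W := by
      rw [hW']
      exact Submodule.map_comap_eq_of_surjective e.surjective W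
    rw [h, this]
  obtain ⟨b, hb1, hb2, hb3⟩ := joint_basis_aux G Gs hadjE (finrank ℂ W) W' hdim
    (fun i x hx => by rw [hmem, hGe]; exact hF i _ hx)
    (fun i x hx => by rw [hmem, hGse]; exact hFs i _ hx)
    (fun i j x hx => by
      apply e.injective
      rw [hGe, hGe, hGe, hGe]
      exact h1 i j _ hx)
    (fun i j x hx => by
      apply e.injective
      rw [hGe, hGse, hGse, hGe]
      exact h2 i j _ hx)
    (fun i j x hx => by
      apply e.injective
      rw [hGse, hGse, hGse, hGse]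
      exact h3 i j _ hx)
  refine ⟨fun k => e (b k), hb2, ?_, ?_⟩
  · intro k l
    have := orthonormal_iff_ite.1 hb1 l k
    rw [hin] at this
    simp only [hee]
    rw [this]
    simp only [eq_comm]
  · intro i k
    obtain ⟨c, hc1, hc2⟩ := hb3 i k
    refine ⟨c, ?_, ?_⟩
    · rw [← hGe, hc1, map_smul]
    · rw [← hGse, hc2, map_smul]

end Pool.Agent.N880.HQ
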