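import Pool.Agent.N880.HQ.Norm
import Pool.Agent.N880.HQ.Joint

/-! # Joint eigenbasis of the space of forms -/

set_option autoImplicit false

open Complex Matrix Filter Topology Module

namespace Pool.Agent.N880.HQ

open Hur

variable {q : ℕ} [Fact q.Prime] {x y : ZMod q}

lemma conj_char (a : ZMod q) : (starRingEnd ℂ) (ZMod.stdAddChar a : ℂ) = ZMod.stdAddChar (-a) := by
  rw [AddChar.map_neg_eq_conj]

lemma SF_self (φ ψ : (Fin 2 → ZMod q) → ℂ) : ∑ v, SF φ v * (starRingEnd ℂ) (ψ v) =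
    ∑ v, φ v * (starRingEnd ℂ) (SF ψ v) := by
  unfold SF
  simp_rw [Finset.sum_mul, map_sum, Finset.mul_sum]
  rw [Finset.sum_comm]
  refine Finset.sum_congr rfl fun u _ => Finset.sum_congr rfl fun v _ => ?_
  rw [map_mul, conj_char, ← sy_neg]
  ring

lemma sum_conj_S (n : ℕ) (f : Hur → ℂ) : ∑ α ∈ S n, f (Hur.conj α) = ∑ α ∈ S n, f α := by
  refine Finset.sum_bij (fun α _ => Hur.conj α) (fun α hα => conj_mem_S hα) ?_ ?_ (fun _ _ => rfl)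
  · intro a _ b _ h
    have h' : Hur.conj a = Hur.conj b := h
    rw [← Hur.conj_conj a, ← Hur.conj_conj b, h']
  · intro b hb
    exact ⟨Hur.conj b, conj_mem_S hb, Hur.conj_conj b⟩

section
variable (h2 : (2 : ZMod q) ≠ 0) (hxy : x ^ 2 + y ^ 2 = -1)
include h2 hxy

omit hxy in
lemma adj_one (α : Hur) (φ ψ : (Fin 2 → ZMod q) → ℂ) :
    ∑ v, SF φ v * (starRingEnd ℂ) (SF ψ (v ᵥ* mat x y α)) =
      (q : ℂ) ^ 2 * ∑ w, φ (w ᵥ* mat x y (Hur.conj α)) * (starRingEnd ℂ) (ψ w) := by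
  classical
  have e3 : ∀ v, SF φ v * (starRingEnd ℂ) (SF ψ (v ᵥ* mat x y α)) =
      ∑ w : Fin 2 → ZMod q, ∑ u : Fin 2 → ZMod q, (φ u * (starRingEnd ℂ) (ψ w)) *
        ZMod.stdAddChar (sy (u - w ᵥ* mat x y (Hur.conj α)) v) := by
    intro v
    unfold SF
    rw [map_sum, Finset.sum_mul_sum, Finset.sum_comm]
    refine Finset.sum_congr rfl fun w _ => Finset.sum_congr rfl fun u _ => ?_
    rw [map_mul, conj_char, sy_sub_left, mat_conj h2, sub_eq_add_neg, AddChar.map_add_eq_mul]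
    have : sy (w ᵥ* (mat x y α).adjugate) v = sy w (v ᵥ* mat x y α) := by
      rw [sy_vecMul, Matrix.adjugate_adjugate _ (by decide)]
      simp
    rw [this]
    ring
  simp_rw [e3]
  rw [Finset.sum_comm, Finset.mul_sum]
  refine Finset.sum_congr rfl fun w _ => ?_
  rw [Finset.sum_comm]
  simp_rw [← Finset.mul_sum, sum_sy, sub_eq_zero, mul_ite, mul_zero]
  rw [Finset.sum_ite_eq']
  simp only [Finset.mem_univ, if_true]
  ring

omit hxy in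
lemma T_adj_aux (n : ℕ) (φ ψ : (Fin 2 → ZMod q) → ℂ) :
    ∑ v, SF φ v * (starRingEnd ℂ) (T x y n (SF ψ) v) =
      (q : ℂ) ^ 2 * ∑ v, T x y n φ v * (starRingEnd ℂ) (ψ v) := by
  have e1 : ∀ v, SF φ v * (starRingEnd ℂ) (T x y n (SF ψ) v) = ∑ α ∈ S n, (1 / 24 : ℂ) *
      (SF φ v * (starRingEnd ℂ) (SF ψ (v ᵥ* mat x y α))) := by
    intro v
    rw [T_apply, map_mul, map_sum, Finset.mul_sum, Finset.mul_sum]
    refine Finset.sum_congr rfl fun α _ => ?_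
    simp only [map_div₀, map_one, map_ofNat]
    ring
  have e2 : ∀ v, T x y n φ v * (starRingEnd ℂ) (ψ v) = ∑ α ∈ S n, (1 / 24 : ℂ) *
      (φ (v ᵥ* mat x y (Hur.conj α)) * (starRingEnd ℂ) (ψ v)) := by
    intro v
    rw [T_apply, ← sum_conj_S, mul_assoc, Finset.sum_mul, Finset.mul_sum]
  simp_rw [e1, e2]
  rw [Finset.sum_comm, Finset.sum_comm (s := Finset.univ) (t := S n), Finset.mul_sum]
  refine Finset.sum_congr rfl fun α _ => ?_
  rw [← Finset.mul_sum, ← Finset.mul_sum, adj_one h2]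
  ring

omit hxy in
lemma T_adj (n : ℕ) (φ ψ : (Fin 2 → ZMod q) → ℂ) :
    ∑ v, T x y n φ v * (starRingEnd ℂ) (ψ v) = ∑ v, φ v * (starRingEnd ℂ) (Ts x y n ψ v) := by
  have hq0 : (0 : ℝ) < q := by exact_mod_cast (Fact.out : q.Prime).pos
  have h4 : ((q : ℂ) ^ 2) ≠ 0 := pow_ne_zero 2 (by exact_mod_cast hq0.ne')
  have h := T_adj_aux (x := x) (y := y) h2 n φ ψ
  rw [SF_self] at h
  have e : ∀ v, φ v * (starRingEnd ℂ) (Ts x y n ψ v) = ((q : ℂ) ^ 2)⁻¹ *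
      (φ v * (starRingEnd ℂ) (SF (T x y n (SF ψ)) v)) := by
    intro v
    rw [Ts_apply, Pi.smul_apply, smul_eq_mul, map_mul, map_inv₀, map_pow, map_natCast]
    ring
  simp_rw [e]
  rw [← Finset.mul_sum, h, ← mul_assoc, inv_mul_cancel₀ h4, one_mul]

omit h2 hxy in
lemma Dm_adj (c : (ZMod q)ˣ) (φ ψ : (Fin 2 → ZMod q) → ℂ) :
    ∑ v, Dm (c : ZMod q) φ v * (starRingEnd ℂ) (ψ v) =
      ∑ v, φ v * (starRingEnd ℂ) (Dm ((c⁻¹ : (ZMod q)ˣ) : ZMod q) ψ v) := by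
  have hb : Function.Bijective (fun v : Fin 2 → ZMod q => ((c⁻¹ : (ZMod q)ˣ) : ZMod q) • v) :=
    (Finite.injective_iff_bijective).1 (smul_right_injective _ (Units.ne_zero _))
  rw [← (Equiv.ofBijective _ hb).sum_comp]
  refine Finset.sum_congr rfl fun v _ => ?_
  simp only [Equiv.ofBijective_apply, Dm_apply, smul_smul, Units.mul_inv, one_smul]

omit h2 hxy in
lemma Dm_Dm (c d : ZMod q) (φ : (Fin 2 → ZMod q) → ℂ) : Dm c (Dm d φ) = Dm (c * d) φ := by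
  funext v
  rw [Dm_apply, Dm_apply, Dm_apply, smul_smul, mul_comm]

omit h2 hxy in
lemma Dm_one (φ : (Fin 2 → ZMod q) → ℂ) : Dm (1 : ZMod q) φ = φ := by
  funext v
  rw [Dm_apply, one_smul]

omit h2 hxy in
lemma Dm_T' (c : ZMod q) (n : ℕ) (φ : (Fin 2 → ZMod q) → ℂ) :
    Dm c (T x y n φ) = T x y n (Dm c φ) := by
  have := congrFun (congrArg DFunLike.coe (Dm_T (x := x) (y := y) c n)) φ
  exact this

/-- the joint eigenbasis -/
theorem exists_basis (hq : Odd q) : ∃ (b : Fin (finrank ℂ (A0 x y)) → ((Fin 2 → ZMod q) → ℂ))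
    (lam : Fin (finrank ℂ (A0 x y)) → ℕ → ℂ) (ch : Fin (finrank ℂ (A0 x y)) → (ZMod q)ˣ → ℂ),
    (∀ k, b k ∈ A0 x y) ∧
    (∀ k l, ∑ v, b k v * (starRingEnd ℂ) (b l v) = if k = l then 1 else 0) ∧
    (∀ k n, T x y n (b k) = lam k n • b k) ∧
    (∀ k n, Ts x y n (b k) = (starRingEnd ℂ) (lam k n) • b k) ∧
    (∀ k (c : (ZMod q)ˣ), Dm (c : ZMod q) (b k) = ch k c • b k) ∧
    (∀ k (c : (ZMod q)ˣ), Dm ((c⁻¹ : (ZMod q)ˣ) : ZMod q) (b k) = (starRingEnd ℂ) (ch k c) • b k) := by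
  have hq2 : q ≠ 2 := by
    rintro rfl
    exact h2 rfl
  set F : ℕ ⊕ (ZMod q)ˣ → ((Fin 2 → ZMod q) → ℂ) →ₗ[ℂ] ((Fin 2 → ZMod q) → ℂ) := fun k => match k with
    | Sum.inl n => T x y n
    | Sum.inr c => Dm (c : ZMod q) with hF
  set Fs : ℕ ⊕ (ZMod q)ˣ → ((Fin 2 → ZMod q) → ℂ) →ₗ[ℂ] ((Fin 2 → ZMod q) → ℂ) := fun k => match k with
    | Sum.inl n => Ts x y n
    | Sum.inr c => Dm ((c⁻¹ : (ZMod q)ˣ) : ZMod q) with hFs
  have hTc : ∀ m n : ℕ, ∀ φ ∈ A0 x y, T x y m (T x y n φ) = T x y n (T x y m φ) :=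
    fun m n φ h => T_comm h2 hxy hq2 m n h
  have hTTs : ∀ m n : ℕ, ∀ φ ∈ A0 x y, T x y m (Ts x y n φ) = Ts x y n (T x y m φ) :=
    fun m n φ h => X_Ts h2 hxy hq (T x y m) (fun φ h => T_mem h2 hxy hq2 m h)
      (fun φ h n => T_comm h2 hxy hq2 m n h) n h
  have hDTs : ∀ (c : (ZMod q)ˣ) (n : ℕ), ∀ φ ∈ A0 x y,
      Dm (c : ZMod q) (Ts x y n φ) = Ts x y n (Dm (c : ZMod q) φ) :=
    fun c n φ h => X_Ts h2 hxy hq (Dm (c : ZMod q)) (fun φ h => Dm_mem h c.ne_zero)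
      (fun φ h n => Dm_T' _ n φ) n h
  have hTsTs : ∀ m n : ℕ, ∀ φ ∈ A0 x y, Ts x y m (Ts x y n φ) = Ts x y n (Ts x y m φ) := by
    intro m n φ h
    have e : ∀ m n : ℕ, Ts x y m (Ts x y n φ) = ((q : ℂ) ^ 2)⁻¹ • SF (T x y m (T x y n (SF φ))) := by
      intro m n
      rw [Ts_apply m, Ts_apply n, SF_surj]
    rw [e, e, hTc m n _ (SF_mem h2 hxy h)]
  have hjb := joint_basis F Fs ?_ (A0 x y) ?_ ?_ ?_ ?_ ?_
  · obtain ⟨b, hb1, hb2, hb3⟩ := hjb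
    choose c hc1 hc2 using hb3
    exact ⟨b, fun k n => c (Sum.inl n) k, fun k u => c (Sum.inr u) k, hb1, hb2,
      fun k n => hc1 (Sum.inl n) k, fun k n => hc2 (Sum.inl n) k, fun k u => hc1 (Sum.inr u) k,
      fun k u => hc2 (Sum.inr u) k⟩
  · rintro (n | c) φ ψ
    · exact T_adj h2 n φ ψ
    · exact Dm_adj c φ ψ
  · rintro (n | c) φ h
    · exact T_mem h2 hxy hq2 n h
    · exact Dm_mem h c.ne_zero
  · rintro (n | c) φ h
    · exact Ts_mem h2 hxy n h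
    · exact Dm_mem h (Units.ne_zero _)
  · rintro (m | c) (n | d) φ h
    · exact hTc m n φ h
    · exact (Dm_T' _ m φ).symm
    · exact Dm_T' _ n φ
    · change Dm _ (Dm _ _) = Dm _ (Dm _ _)
      rw [Dm_Dm, Dm_Dm, mul_comm]
  · rintro (m | c) (n | d) φ h
    · exact hTTs m n φ h
    · exact (Dm_T' _ m φ).symm
    · exact hDTs c n φ h
    · change Dm _ (Dm _ _) = Dm _ (Dm _ _)
      rw [Dm_Dm, Dm_Dm, mul_comm]
  · rintro (m | c) (n | d) φ h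
    · exact hTsTs m n φ h
    · exact (hDTs d⁻¹ m φ h).symm
    · exact hDTs c⁻¹ n φ h
    · change Dm _ (Dm _ _) = Dm _ (Dm _ _)
      rw [Dm_Dm, Dm_Dm, mul_comm]

end

end Pool.Agent.N880.HQ
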