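import Pool.Agent.N880.HQ.Rho

/-! # Counting Hurwitz quaternions of given norm and their factorisations -/

set_option autoImplicit false

namespace Pool.Agent.N880.HQ

open Hur Matrix

/-- box of Hurwitz quaternions -/
noncomputable def box (m : ℤ) : Finset Hur :=
  (Finset.Icc (-m) m ×ˢ (Finset.Icc (-m) m ×ˢ (Finset.Icc (-m) m ×ˢ Finset.Icc (-m) m))).map
    ⟨fun t => ⟨t.1, t.2.1, t.2.2.1, t.2.2.2⟩, by
      rintro ⟨a, b, c, d⟩ ⟨a', b', c', d'⟩ h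
      injection h with h1 h2 h3 h4
      simp_all⟩

/-- The Hurwitz quaternions of norm `n`. -/
noncomputable def S (n : ℕ) : Finset Hur := (box (2 * n)).filter (fun x => nrm x = n)

lemma mem_box {m : ℤ} {x : Hur} : x ∈ box m ↔ |x.a| ≤ m ∧ |x.b| ≤ m ∧ |x.c| ≤ m ∧ |x.d| ≤ m := by
  simp only [box, Finset.mem_map, Finset.mem_product, Finset.mem_Icc, Function.Embedding.coeFn_mk,
    abs_le]
  constructor
  · rintro ⟨⟨a, b, c, d⟩, h, rfl⟩
    exact h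
  · intro h
    exact ⟨⟨x.a, x.b, x.c, x.d⟩, h, rfl⟩

lemma abs_le_of_sq {a n : ℤ} (hn : 0 ≤ n) (h : a ^ 2 ≤ 4 * n) : |a| ≤ 2 * n := by
  rcases hn.eq_or_lt with h0 | h0
  · subst h0
    have : a = 0 := by nlinarith [sq_nonneg a]
    simp [this]
  · apply abs_le_of_sq_le_sq _ (by linarith)
    nlinarith

lemma mem_S {n : ℕ} {x : Hur} : x ∈ S n ↔ nrm x = n := by
  unfold S
  rw [Finset.mem_filter, mem_box]
  refine ⟨fun h => h.2, fun h => ⟨?_, h⟩⟩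
  have h4 := four_nrm x
  have h1 := sq_nonneg x.a
  have h2 := sq_nonneg (x.a + 2 * x.b)
  have h3 := sq_nonneg (x.a + 2 * x.c)
  have h5 := sq_nonneg (x.a + 2 * x.d)
  have hn : (0 : ℤ) ≤ n := Int.natCast_nonneg n
  have k0 := abs_le_of_sq hn (show x.a ^ 2 ≤ 4 * n by linarith)
  have k1 := abs_le_of_sq hn (show (x.a + 2 * x.b) ^ 2 ≤ 4 * n by linarith)
  have k2 := abs_le_of_sq hn (show (x.a + 2 * x.c) ^ 2 ≤ 4 * n by linarith)
  have k3 := abs_le_of_sq hn (show (x.a + 2 * x.d) ^ 2 ≤ 4 * n by linarith)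
  rw [abs_le] at k0 k1 k2 k3
  refine ⟨abs_le.2 k0, ?_, ?_, ?_⟩ <;> rw [abs_le] <;> constructor <;> linarith [k0.1, k0.2, k1.1,
    k1.2, k2.1, k2.2, k3.1, k3.2]

set_option maxRecDepth 100000 in
lemma card_S_one : (S 1).card = 24 := by
  decide +kernel

lemma conj_mem_S {n : ℕ} {x : Hur} (h : x ∈ S n) : conj x ∈ S n := by
  rw [mem_S] at h ⊢; rw [nrm_conj, h]

lemma mem_S_ne {n : ℕ} (hn : 0 < n) {x : Hur} (h : x ∈ S n) : x ≠ 0 := by
  rintro rfl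
  rw [mem_S, nrm_zero] at h
  omega

lemma unit_mul_mem {n : ℕ} {u x : Hur} (hu : u ∈ S 1) (h : x ∈ S n) : u * x ∈ S n := by
  rw [mem_S] at *; rw [nrm_mul, hu, h]; simp

lemma mul_unit_mem {n : ℕ} {u x : Hur} (hu : u ∈ S 1) (h : x ∈ S n) : x * u ∈ S n := by
  rw [mem_S] at *; rw [nrm_mul, hu, h]; simp

/-- fibers of the multiplication -/
lemma fiber_card {m n : ℕ} (hm : 0 < m) {γ α β : Hur} (h : γ = α * β) (hα : α ∈ S m)
    (hβ : β ∈ S n) (hu : ∀ α' β' : Hur, γ = α' * β' → nrm α' = m → ∃ u : Hur, nrm u = 1 ∧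
      α' = α * u) :
    ((S m ×ˢ S n).filter (fun p => p.1 * p.2 = γ)).card = 24 := by
  rw [← card_S_one]
  symm
  have hα0 : α ≠ 0 := mem_S_ne hm hα
  refine Finset.card_bij (fun u _ => (α * u, conj u * β)) ?_ ?_ ?_
  · intro u hu'
    rw [Finset.mem_filter, Finset.mem_product]
    refine ⟨⟨mul_unit_mem hu' hα, unit_mul_mem (conj_mem_S hu') hβ⟩, ?_⟩
    rw [mem_S, Nat.cast_one] at hu'
    rw [h, mul_assoc, ← mul_assoc u, (isUnit_of_nrm hu').2, one_mul]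
  · intro u _ u' _ h1
    rw [Prod.mk.injEq] at h1
    exact mul_left_cancel' hα0 h1.1
  · rintro ⟨α', β'⟩ h1
    rw [Finset.mem_filter, Finset.mem_product] at h1
    obtain ⟨⟨h2, h3⟩, h4⟩ := h1
    simp only at h2 h3 h4
    obtain ⟨u, hu1, hu2⟩ := hu α' β' h4.symm (mem_S.1 h2)
    refine ⟨u, mem_S.2 (by rw [hu1]; rfl), ?_⟩
    rw [Prod.mk.injEq]
    refine ⟨hu2.symm, ?_⟩
    have h5 : u * β' = β := by
      rw [hu2, h, mul_assoc] at h4
      exact mul_left_cancel' hα0 h4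
    rw [← h5, ← mul_assoc, (isUnit_of_nrm hu1).1, one_mul]

section sums
variable {M : Type*} [AddCommMonoid M]

lemma sum_fiber {m n k : ℕ} (hk : m * n = k) (f : Hur → M) :
    ∑ α ∈ S m, ∑ β ∈ S n, f (α * β) =
      ∑ γ ∈ S k, ((S m ×ˢ S n).filter (fun p => p.1 * p.2 = γ)).card • f γ := by
  rw [← Finset.sum_product' (f := fun α β => f (α * β))]
  rw [← Finset.sum_fiberwise_of_maps_to (s := S m ×ˢ S n) (t := S k)
    (g := fun p => p.1 * p.2)]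
  · refine Finset.sum_congr rfl fun γ _ => ?_
    rw [← Finset.sum_const]
    refine Finset.sum_congr rfl fun p hp => ?_
    rw [(Finset.mem_filter.1 hp).2]
  · intro p hp
    rw [Finset.mem_product, mem_S, mem_S] at hp
    rw [mem_S, nrm_mul, hp.1, hp.2, ← hk]
    push_cast
    ring

/-- `T_m T_n = T_{mn}` for coprime `m`, `n` -/
theorem sum_coprime {m n : ℕ} (hm : 0 < m) (hn : 0 < n) (hc : Nat.Coprime m n) (f : Hur → M) :
    ∑ α ∈ S m, ∑ β ∈ S n, f (α * β) = 24 • ∑ γ ∈ S (m * n), f γ := by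
  rw [sum_fiber rfl, ← Finset.sum_nsmul]
  refine Finset.sum_congr rfl fun γ hγ => ?_
  congr 1
  have hγ' := mem_S.1 hγ
  push_cast at hγ'
  obtain ⟨α, β, h1, h2, h3⟩ := factor_coprime hm hn hc hγ'
  refine fiber_card hm h1 (mem_S.2 h2) (mem_S.2 h3) fun α' β' h4 h5 => ?_
  have h6 : nrm β' = n := by
    have := congrArg nrm h4
    rw [hγ', nrm_mul, h5] at this
    have hmZ : (m : ℤ) ≠ 0 := by exact_mod_cast hm.ne'
    exact (mul_left_cancel₀ hmZ this).symm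
  exact factor_coprime_unique hm hc (h1 ▸ h4) h2 h3 h5 h6

/-- `T_p T_{p^(k+1)} = T_{p^(k+2)} + (card S p / 24 - 1) ⟨p⟩ T_{p^k}` -/
theorem sum_prime {p : ℕ} (hp : p.Prime) (k : ℕ) (f : Hur → M) :
    ∑ α ∈ S p, ∑ β ∈ S (p ^ (k + 1)), f (α * β) + 24 • ∑ γ ∈ S (p ^ k), f ((p : Hur) * γ) =
      24 • ∑ γ ∈ S (p ^ (k + 2)), f γ + (S p).card • ∑ γ ∈ S (p ^ k), f ((p : Hur) * γ) := by
  classical
  have hpZ : (0 : ℤ) < p := by exact_mod_cast hp.pos
  have hp0 : (p : Hur) ≠ 0 := by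
    intro h
    have := congrArg Hur.a h
    simp at this
    have := hp.pos
    omega
  rw [sum_fiber (k := p ^ (k + 2)) (by rw [pow_succ, pow_succ, pow_succ]; ring)]
  -- split according to divisibility by p
  have hinj : Set.InjOn (fun γ : Hur => (p : Hur) * γ) (S (p ^ k) : Set Hur) :=
    fun a _ b _ h => mul_left_cancel' hp0 h
  have himg : ∀ g : Hur → M, ∑ γ ∈ S (p ^ k), g ((p : Hur) * γ) =
      ∑ γ ∈ (S (p ^ (k + 2))).filter (fun γ => ∃ δ : Hur, γ = (p : Hur) * δ), g γ := by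
    intro g
    rw [← Finset.sum_image (f := g) hinj]
    congr 1
    ext γ
    rw [Finset.mem_image, Finset.mem_filter, mem_S]
    constructor
    · rintro ⟨δ, hδ, rfl⟩
      rw [mem_S] at hδ
      refine ⟨?_, δ, rfl⟩
      rw [nrm_mul, nrm_natCast, hδ]
      push_cast
      ring
    · rintro ⟨h1, δ, rfl⟩
      refine ⟨δ, ?_, rfl⟩
      rw [mem_S]
      rw [nrm_mul, nrm_natCast] at h1
      push_cast at h1 ⊢
      have : (p : ℤ) ^ 2 * nrm δ = (p : ℤ) ^ 2 * (p : ℤ) ^ k := by rw [h1]; ring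
      exact mul_left_cancel₀ (by positivity) this
  rw [himg f]
  rw [← Finset.sum_filter_add_sum_filter_not (S (p ^ (k + 2))) (fun γ => ∃ δ : Hur, γ = (p : Hur) * δ)
    (fun γ => ((S p ×ˢ S (p ^ (k + 1))).filter (fun q => q.1 * q.2 = γ)).card • f γ),
    ← Finset.sum_filter_add_sum_filter_not (S (p ^ (k + 2))) (fun γ => ∃ δ : Hur, γ = (p : Hur) * δ) f]
  have e1 : ∑ γ ∈ (S (p ^ (k + 2))).filter (fun γ => ∃ δ : Hur, γ = (p : Hur) * δ),
      ((S p ×ˢ S (p ^ (k + 1))).filter (fun q => q.1 * q.2 = γ)).card • f γ =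
      (S p).card • ∑ γ ∈ (S (p ^ (k + 2))).filter (fun γ => ∃ δ : Hur, γ = (p : Hur) * δ), f γ := by
    rw [← Finset.sum_nsmul]
    refine Finset.sum_congr rfl fun γ hγ => ?_
    congr 1
    rw [Finset.mem_filter, mem_S] at hγ
    obtain ⟨h1, δ, rfl⟩ := hγ
    have hδ : nrm δ = (p : ℤ) ^ k := by
      rw [nrm_mul, nrm_natCast] at h1
      push_cast at h1
      have : (p : ℤ) ^ 2 * nrm δ = (p : ℤ) ^ 2 * (p : ℤ) ^ k := by rw [h1]; ring
      exact mul_left_cancel₀ (by positivity) this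
    symm
    have key : ∀ α ∈ S p, α * (conj α * δ) = (p : Hur) * δ := by
      intro α hα
      rw [mem_S] at hα
      rw [← mul_assoc, mul_conj, hα]
      rfl
    refine Finset.card_bij (fun α _ => (α, conj α * δ)) ?_ ?_ ?_
    · intro α hα
      rw [Finset.mem_filter, Finset.mem_product]
      refine ⟨⟨hα, ?_⟩, key α hα⟩
      rw [mem_S] at hα ⊢
      rw [nrm_mul, nrm_conj, hα, hδ]
      push_cast
      ring
    · intro α _ α' _ h2
      rw [Prod.mk.injEq] at h2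
      exact h2.1
    · rintro ⟨α, β⟩ h2
      rw [Finset.mem_filter, Finset.mem_product] at h2
      obtain ⟨⟨h3, h4⟩, h5⟩ := h2
      refine ⟨α, h3, ?_⟩
      rw [Prod.mk.injEq]
      refine ⟨rfl, ?_⟩
      have h6 := key α h3
      simp only at h3 h5
      rw [← h5] at h6
      exact mul_left_cancel' (mem_S_ne hp.pos h3) h6
  have e2 : ∑ γ ∈ (S (p ^ (k + 2))).filter (fun γ => ¬ ∃ δ : Hur, γ = (p : Hur) * δ),
      ((S p ×ˢ S (p ^ (k + 1))).filter (fun q => q.1 * q.2 = γ)).card • f γ =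
      24 • ∑ γ ∈ (S (p ^ (k + 2))).filter (fun γ => ¬ ∃ δ : Hur, γ = (p : Hur) * δ), f γ := by
    rw [← Finset.sum_nsmul]
    refine Finset.sum_congr rfl fun γ hγ => ?_
    congr 1
    rw [Finset.mem_filter, mem_S] at hγ
    obtain ⟨h1, h2⟩ := hγ
    push Not at h2
    obtain ⟨α, β, h3, h4, h5, h6⟩ := factor_prime hp (k := k + 1) (γ := γ)
      (by rw [h1]; push_cast; ring) h2
    exact fiber_card hp.pos h3 (mem_S.2 h4) (mem_S.2 (by rw [h5]; push_cast; ring)) h6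
  rw [e1, e2, nsmul_add]
  abel

end sums

/-! ### even norms -/

/-- `1 + i` -/
def pi2 : Hur := ⟨2, 0, -1, -1⟩

lemma nrm_pi2 : nrm pi2 = 2 := by decide

lemma even_nrm {γ : Hur} (h : 2 ∣ nrm γ) : 2 ∣ γ.a ∧ 2 ∣ γ.b + γ.c + γ.d := by
  have e : nrm γ = (1 + γ.a) * (1 + (γ.b + γ.c + γ.d)) - 1 +
      (γ.a * (γ.a - 1) + γ.b * (γ.b - 1) + γ.c * (γ.c - 1) + γ.d * (γ.d - 1)) := by
    unfold nrm; ring
  have ev : ∀ z : ℤ, 2 ∣ z * (z - 1) := fun z => by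
    rcases Int.even_or_odd z with hz | hz
    · exact Dvd.dvd.mul_right hz.two_dvd _
    · exact Dvd.dvd.mul_left (hz.sub_odd odd_one).two_dvd _
  have h1 : 2 ∣ (1 + γ.a) * (1 + (γ.b + γ.c + γ.d)) - 1 := by
    have h2 := ev γ.a
    have h3 := ev γ.b
    have h4 := ev γ.c
    have h5 := ev γ.d
    omega
  have h2 : Odd ((1 + γ.a) * (1 + (γ.b + γ.c + γ.d))) := by
    obtain ⟨k, hk⟩ := h1
    exact ⟨k, by omega⟩
  rw [Int.odd_mul] at h2
  obtain ⟨⟨s, hs⟩, ⟨t, ht⟩⟩ := h2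
  constructor <;> omega

lemma exists_right_pi2 {γ : Hur} (h : 2 ∣ nrm γ) : ∃ ε : Hur, γ = ε * pi2 := by
  obtain ⟨⟨s, hs⟩, ⟨t, ht⟩⟩ := even_nrm h
  refine ⟨⟨γ.b + 2 * s, -s, t - γ.b - γ.d - s, t - γ.b⟩, ?_⟩
  ext <;> simp only [mul_a, mul_b, mul_c, mul_d, pi2] <;> omega

lemma exists_left_pi2 {γ : Hur} (h : 2 ∣ nrm γ) : ∃ ε : Hur, γ = pi2 * ε := by
  obtain ⟨⟨s, hs⟩, ⟨t, ht⟩⟩ := even_nrm h
  refine ⟨⟨γ.b + 2 * s, -s, t - γ.b, t - γ.b - γ.c - s⟩, ?_⟩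
  ext <;> simp only [mul_a, mul_b, mul_c, mul_d, pi2] <;> omega

end Pool.Agent.N880.HQ
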