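import Pool.Agent.N880.HQ.HS

/-! # The dimension of the space of forms -/

set_option autoImplicit false

open Complex Matrix Filter Topology Module

namespace Pool.Agent.N880.HQ

open Hur

variable {q : ℕ} [Fact q.Prime]

/-- the functions invariant under the units -/
def UI (x y : ZMod q) : Submodule ℂ ((Fin 2 → ZMod q) → ℂ) where
  carrier := {φ | UInv x y φ}
  zero_mem' := fun _ _ _ => rfl
  add_mem' := by
    intro φ ψ a3 b3 u hu v
    simp [a3 u hu v, b3 u hu v]
  smul_mem' := by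
    intro c φ a3 u hu v
    simp [a3 u hu v]

variable {x y : ZMod q}

lemma mem_UI {φ : (Fin 2 → ZMod q) → ℂ} : φ ∈ UI x y ↔ UInv x y φ := Iff.rfl

section
variable (h2 : (2 : ZMod q) ≠ 0) (hxy : x ^ 2 + y ^ 2 = -1)
include h2 hxy

lemma stab (hq : 5 ≤ q) {v : Fin 2 → ZMod q} (hv : v ≠ 0) :
    (S 1).filter (fun u => v ᵥ* mat x y u = v) = {1} := by
  classical
  rw [Finset.eq_singleton_iff_unique_mem]
  have h1 : (1 : Hur) ∈ S 1 := by rw [mem_S, nrm_one]; rfl
  have hm : v ᵥ* mat x y 1 = v := by rw [mat_one h2, Matrix.vecMul_one]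
  refine ⟨?_, fun u hu => ?_⟩
  · rw [Finset.mem_filter]
    exact ⟨h1, hm⟩
  · rw [Finset.mem_filter, mem_S] at hu
    refine small_inj h2 hxy hv ?_ ?_ (by rw [hu.2, hm])
    · rw [hu.1]; push_cast; omega
    · rw [nrm_one]; push_cast; omega

lemma trace_T1 (hq : 5 ≤ q) : LinearMap.trace ℂ ((Fin 2 → ZMod q) → ℂ) (T x y 1) =
    1 + ((q : ℂ) ^ 2 - 1) / 24 := by
  classical
  rw [LinearMap.trace_eq_matrix_trace ℂ (Pi.basisFun ℂ (Fin 2 → ZMod q))]
  unfold Matrix.trace
  simp only [Matrix.diag_apply, LinearMap.toMatrix_apply, Pi.basisFun_apply, Pi.basisFun_repr]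
  have e1 : ∀ v : Fin 2 → ZMod q, T x y 1 (Pi.single v 1) v = (1 / 24 : ℂ) *
      (((S 1).filter (fun u => v ᵥ* mat x y u = v)).card : ℂ) := by
    intro v
    rw [T_apply]
    congr 1
    rw [Finset.card_eq_sum_ones, Finset.sum_filter]
    push_cast
    refine Finset.sum_congr rfl fun u _ => ?_
    rw [Pi.single_apply]
  simp_rw [e1]
  have e2 : ∀ v : Fin 2 → ZMod q, (((S 1).filter (fun u => v ᵥ* mat x y u = v)).card : ℂ) =
      if v = 0 then 24 else 1 := by
    intro v
    split_ifs with hv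
    · subst hv
      rw [Finset.filter_true_of_mem (fun u _ => Matrix.zero_vecMul _), card_S_one]
      norm_num
    · rw [stab h2 hxy hq hv]
      simp
  simp_rw [e2, ← Finset.mul_sum]
  rw [Finset.sum_ite, Finset.sum_const, Finset.sum_const]
  have c1 : (Finset.univ.filter (fun v : Fin 2 → ZMod q => v = 0)).card = 1 := by
    rw [Finset.filter_eq', if_pos (Finset.mem_univ _), Finset.card_singleton]
  have c2 : (Finset.univ.filter (fun v : Fin 2 → ZMod q => ¬ v = 0)).card = q ^ 2 - 1 := by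
    rw [Finset.filter_not, Finset.filter_eq', if_pos (Finset.mem_univ _),
      Finset.card_univ_sdiff, Fintype.card_fun, ZMod.card, Fintype.card_fin, Finset.card_singleton]
  rw [c1, c2]
  have : 1 ≤ q ^ 2 := Nat.one_le_pow _ _ (Fact.out : q.Prime).pos
  simp only [nsmul_eq_mul]
  push_cast [Nat.cast_sub this]
  ring

lemma finrank_UI (hq : 5 ≤ q) : (finrank ℂ (UI x y) : ℂ) = 1 + ((q : ℂ) ^ 2 - 1) / 24 := by
  rw [← trace_T1 h2 hxy hq]
  symm
  apply LinearMap.IsProj.trace
  exact ⟨fun φ => T_uinv h2 hxy 1 φ, fun φ hφ => T_one hφ⟩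

omit h2 in
/-- the dimension of the space of forms -/
theorem finrank_A0 (hq : 5 ≤ q) : 24 * (finrank ℂ (A0 x y) + 1) = q ^ 2 - 1 := by
  classical
  have h2 : (2 : ZMod q) ≠ 0 := by
    intro h
    have : ((2 : ℕ) : ZMod q) = 0 := by exact_mod_cast h
    rw [ZMod.natCast_eq_zero_iff] at this
    have := Nat.le_of_dvd (by norm_num) this
    omega
  set f : UI x y →ₗ[ℂ] ℂ × ℂ :=
    (LinearMap.prod (LinearMap.proj (0 : Fin 2 → ZMod q))
      (∑ v : Fin 2 → ZMod q, (LinearMap.proj v : ((Fin 2 → ZMod q) → ℂ) →ₗ[ℂ] ℂ))) ∘ₗ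
      (UI x y).subtype with hf
  have hfa : ∀ φ : UI x y, f φ = ((φ : (Fin 2 → ZMod q) → ℂ) 0, ∑ v, (φ : (Fin 2 → ZMod q) → ℂ) v) := by
    intro φ
    simp [hf, LinearMap.sum_apply]
  have hker : Submodule.map (UI x y).subtype (LinearMap.ker f) = A0 x y := by
    ext φ
    rw [Submodule.mem_map, mem_A0]
    constructor
    · rintro ⟨ψ, hψ, rfl⟩
      rw [LinearMap.mem_ker, hfa, Prod.mk_eq_zero] at hψ
      exact ⟨hψ.1, hψ.2, ψ.2⟩
    · rintro ⟨h0, h1, h3⟩
      refine ⟨⟨φ, h3⟩, ?_, rfl⟩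
      rw [LinearMap.mem_ker, hfa, Prod.mk_eq_zero]
      exact ⟨h0, h1⟩
  have hq1 : ((q : ℂ) ^ 2 - 1) ≠ 0 := by
    have : (1 : ℝ) < (q : ℝ) ^ 2 := by
      have : (5 : ℝ) ≤ q := by exact_mod_cast hq
      nlinarith
    have h3 : ((q : ℝ) ^ 2 - 1) ≠ 0 := by linarith
    exact_mod_cast h3
  have hsurj : Function.Surjective f := by
    rintro ⟨a, c⟩
    -- φ = α + β δ_0
    set α : ℂ := (c - a) / ((q : ℂ) ^ 2 - 1) with hα
    have hmem : (fun v : Fin 2 → ZMod q => α + if v = 0 then a - α else 0) ∈ UI x y := by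
      intro u hu v
      have hu' : nrm u = 1 := by have := mem_S.1 hu; simpa using this
      have hb := mat_unit h2 hxy (α := u) (by rw [hu']; simp)
      have : v ᵥ* mat x y u = 0 ↔ v = 0 := by
        constructor
        · intro h
          apply hb.1
          simp only
          rw [h, Matrix.zero_vecMul]
        · rintro rfl
          exact Matrix.zero_vecMul _
      simp only [this]
    refine ⟨⟨_, hmem⟩, ?_⟩
    rw [hfa]
    simp only [if_true]
    rw [Finset.sum_add_distrib, Finset.sum_const, Finset.sum_ite_eq' , if_pos (Finset.mem_univ _),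
      Finset.card_univ, Fintype.card_fun, ZMod.card, Fintype.card_fin, nsmul_eq_mul]
    ext
    · simp
    · simp only
      push_cast
      rw [hα]
      field_simp
      ring
  have hr := LinearMap.finrank_range_add_finrank_ker f
  rw [LinearMap.range_eq_top.2 hsurj, finrank_top, Module.finrank_prod, Module.finrank_self] at hr
  have hk : finrank ℂ (LinearMap.ker f) = finrank ℂ (A0 x y) := by
    rw [← hker]
    exact (Submodule.finrank_map_subtype_eq _ _).symm
  rw [hk] at hr
  have hU := finrank_UI h2 hxy hq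
  rw [← hr] at hU
  have h4 : (24 * ((finrank ℂ (A0 x y) : ℂ) + 1) + 1) = (q : ℂ) ^ 2 := by
    push_cast at hU
    linear_combination 24 * hU
  have h5 : 24 * (finrank ℂ (A0 x y) + 1) + 1 = q ^ 2 := by exact_mod_cast h4
  omega

end

end Pool.Agent.N880.HQ
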