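import Pool.Agent.N880.HQ.Basis
import Pool.Agent.N7.HeckeId

/-! # Eigenfunctions: multiplicativity of the eigenvalues, bounds -/

set_option autoImplicit false

open Complex Matrix Filter Topology Module

namespace Pool.Agent.N880.HQ

open Hur

/-! ### numbers of elements of given norm -/

lemma card_coprime {m n : ℕ} (hm : 0 < m) (hn : 0 < n) (hc : Nat.Coprime m n) :
    (S m).card * (S n).card = 24 * (S (m * n)).card := by
  have h := sum_coprime hm hn hc (fun _ => (1 : ℕ))
  simpa using h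

lemma card_two (n : ℕ) : (S (2 * n)).card = (S n).card := by
  have h := sum_two n (fun _ => (1 : ℂ))
  simp only [Finset.sum_const, nsmul_eq_mul, mul_one] at h
  exact_mod_cast h

lemma card_pow_aux {p : ℕ} (hp : p.Prime) (hp2 : p ≠ 2) (k : ℕ) :
    (S (p ^ (k + 1))).card = (S (p ^ k)).card + 24 * p ^ (k + 1) := by
  have : Fact p.Prime := ⟨hp⟩
  induction k with
  | zero => rw [pow_zero, card_S_one, zero_add, pow_one, card_S_prime hp2]; ring
  | succ k ih =>
    have h := sum_prime hp k (fun _ => (1 : ℕ))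
    rw [card_S_prime hp2] at h
    simp only [Finset.sum_const, smul_eq_mul, mul_one] at h
    rw [card_S_prime hp2] at h
    have h3 : (S (p ^ (k + 2))).card + p * (S (p ^ k)).card = (p + 1) * (S (p ^ (k + 1))).card := by
      have : 24 * ((S (p ^ (k + 2))).card + p * (S (p ^ k)).card) =
          24 * ((p + 1) * (S (p ^ (k + 1))).card) := by
        nlinarith
      omega
    have h4 : p * (S (p ^ (k + 1))).card = p * (S (p ^ k)).card + 24 * p ^ (k + 2) := by
      rw [ih]; ring
    rw [show k + 1 + 1 = k + 2 from rfl]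
    nlinarith

lemma card_pow_le {p : ℕ} (hp : p.Prime) (k : ℕ) : (S (p ^ k)).card ≤ 24 * (2 * p ^ k) := by
  by_cases hp2 : p = 2
  · subst hp2
    induction k with
    | zero => rw [pow_zero, card_S_one]; norm_num
    | succ k ih =>
      rw [pow_succ', card_two]
      refine ih.trans ?_
      have : 0 < 2 ^ k := by positivity
      omega
  · have key : (p - 1) * (S (p ^ k)).card + 24 = 24 * p ^ (k + 1) := by
      induction k with
      | zero =>
        rw [pow_zero, card_S_one, zero_add, pow_one]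
        have := hp.one_lt
        obtain ⟨m, rfl⟩ : ∃ m, p = m + 1 := ⟨p - 1, by omega⟩
        simp only [Nat.add_sub_cancel]
        ring
      | succ k ih =>
        rw [card_pow_aux hp hp2, mul_add]
        have h1 := hp.one_lt
        obtain ⟨m, rfl⟩ : ∃ m, p = m + 1 := ⟨p - 1, by omega⟩
        simp only [Nat.add_sub_cancel] at *
        have : 24 * (m + 1) ^ (k + 1 + 1) = 24 * (m + 1) ^ (k + 1) + m * (24 * (m + 1) ^ (k + 1)) := by
          ring
        omega
    have h3 : 3 ≤ p := by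
      have := hp.two_le
      omega
    -- p^(k+1) ≤ 2 (p-1) p^k
    have h4 : p ≤ 2 * (p - 1) := by omega
    have h5 : (p - 1) * (S (p ^ k)).card ≤ (p - 1) * (24 * (2 * p ^ k)) := by
      calc (p - 1) * (S (p ^ k)).card ≤ 24 * p ^ (k + 1) := by omega
        _ = 24 * (p * p ^ k) := by rw [pow_succ']
        _ ≤ 24 * (2 * (p - 1) * p ^ k) := by gcongr
        _ = _ := by ring
    exact Nat.le_of_mul_le_mul_left h5 (by omega)

lemma card_le {n : ℕ} (hn : 0 < n) : (S n).card ≤ 24 * n ^ 2 := by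
  induction n using Nat.recOnPosPrimePosCoprime with
  | prime_pow p k hp hk =>
    refine (card_pow_le hp k).trans ?_
    have h2 := hp.two_le
    have : 2 * p ^ k ≤ (p ^ k) ^ 2 := by
      rw [sq]
      apply Nat.mul_le_mul_right
      calc 2 ≤ p := h2
        _ = p ^ 1 := (pow_one p).symm
        _ ≤ p ^ k := Nat.pow_le_pow_right (by omega) hk
    omega
  | zero => omega
  | one => rw [card_S_one]; norm_num
  | coprime a b ha hb hab iha ihb =>
    have h := card_coprime (by omega : 0 < a) (by omega : 0 < b) hab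
    have h1 := iha (by omega)
    have h3 := ihb (by omega)
    have : 24 * (S (a * b)).card ≤ 24 * (24 * (a * b) ^ 2) := by
      rw [← h]
      calc (S a).card * (S b).card ≤ (24 * a ^ 2) * (24 * b ^ 2) := Nat.mul_le_mul h1 h3
        _ = _ := by ring
    omega

/-! ### eigenfunctions -/

variable {q : ℕ} [Fact q.Prime] {x y : ZMod q}

/-- a joint eigenfunction of the Hecke operators, their adjoints and the diamond operators -/
structure Eig (x y : ZMod q) (b : (Fin 2 → ZMod q) → ℂ) (lam : ℕ → ℂ) (ch : (ZMod q)ˣ → ℂ) : Prop where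
  mem : b ∈ A0 x y
  ne : b ≠ 0
  T : ∀ n, T x y n b = lam n • b
  Ts : ∀ n, Ts x y n b = (starRingEnd ℂ) (lam n) • b
  D : ∀ c : (ZMod q)ˣ, Dm (c : ZMod q) b = ch c • b
  D' : ∀ c : (ZMod q)ˣ, Dm ((c⁻¹ : (ZMod q)ˣ) : ZMod q) b = (starRingEnd ℂ) (ch c) • b

open Classical in
/-- the numbers `e(p) = p χ(p)`, `e(2) = 0` -/
noncomputable def eP (ch : (ZMod q)ˣ → ℂ) (p : ℕ) : ℂ :=
  if p = 2 then 0 else if h : (p : ZMod q) = 0 then 0 else p * ch (Units.mk0 (p : ZMod q) h)

section
variable {b : (Fin 2 → ZMod q) → ℂ} {lam : ℕ → ℂ} {ch : (ZMod q)ˣ → ℂ}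

lemma Eig.exists_ne (E : Eig x y b lam ch) : ∃ v, b v ≠ 0 := by
  by_contra h
  push Not at h
  exact E.ne (funext h)

lemma smul_eq_zero' {c : ℂ} (hb : ∃ v, b v ≠ 0) (h : c • b = 0) : c = 0 := by
  obtain ⟨v, hv⟩ := hb
  have := congrFun h v
  simpa [hv] using this

lemma smul_inj {c d : ℂ} (hb : ∃ v, b v ≠ 0) (h : c • b = d • b) : c = d := by
  obtain ⟨v, hv⟩ := hb
  have := congrFun h v
  simp only [Pi.smul_apply, smul_eq_mul] at this
  exact mul_right_cancel₀ hv this

lemma Eig.ch_norm (E : Eig x y b lam ch) (c : (ZMod q)ˣ) : ‖ch c‖ = 1 := by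
  have h1 : Dm ((c⁻¹ : (ZMod q)ˣ) : ZMod q) (Dm (c : ZMod q) b) = b := by
    rw [Dm_Dm, Units.inv_mul, Dm_one]
  rw [E.D, map_smul, E.D', smul_smul] at h1
  have h3 : (ch c * (starRingEnd ℂ) (ch c)) • b = (1 : ℂ) • b := by rw [h1, one_smul]
  have h4 := smul_inj E.exists_ne h3
  rw [Complex.mul_conj, ← Complex.ofReal_one, Complex.ofReal_inj, Complex.normSq_eq_norm_sq] at h4
  have h5 := norm_nonneg (ch c)
  nlinarith

lemma Eig.eP_norm (E : Eig x y b lam ch) (p : ℕ) : ‖eP ch p‖ ≤ p := by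
  unfold eP
  split_ifs
  · simp
  · simp
  · rw [norm_mul, E.ch_norm, mul_one, Complex.norm_natCast]

lemma Eig.lam_zero (E : Eig x y b lam ch) : lam 0 = 0 := by
  have h := E.T 0
  rw [T_zero E.mem.1] at h
  exact smul_eq_zero' E.exists_ne h.symm

lemma Eig.lam_one (E : Eig x y b lam ch) : lam 1 = 1 := by
  have h := E.T 1
  rw [T_one E.mem.2.2] at h
  have : (1 : ℂ) • b = lam 1 • b := by rw [← h, one_smul]
  exact (smul_inj E.exists_ne this).symm

/-- the trivial bound -/
lemma Eig.lam_card (E : Eig x y b lam ch) (n : ℕ) : ‖lam n‖ ≤ (S n).card / 24 := by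
  obtain ⟨v, hv⟩ := Finite.exists_max (fun v => ‖b v‖)
  have hv0 : 0 < ‖b v‖ := by
    obtain ⟨w, hw⟩ := E.exists_ne
    exact (norm_pos_iff.2 hw).trans_le (hv w)
  have h := congrFun (E.T n) v
  rw [T_apply, Pi.smul_apply, smul_eq_mul] at h
  have h3 := congrArg norm h
  rw [norm_mul, norm_mul] at h3
  have h4 : ‖∑ α ∈ S n, b (v ᵥ* mat x y α)‖ ≤ (S n).card * ‖b v‖ := by
    refine (norm_sum_le _ _).trans ?_
    rw [← nsmul_eq_mul, ← Finset.sum_const]
    exact Finset.sum_le_sum fun α _ => hv _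
  have h5 : ‖(1 / 24 : ℂ)‖ = 1 / 24 := by norm_num
  rw [h5] at h3
  have h6 : ‖lam n‖ * ‖b v‖ ≤ ((S n).card / 24) * ‖b v‖ := by
    rw [← h3]
    nlinarith
  exact le_of_mul_le_mul_right h6 hv0

lemma Eig.lam_le (E : Eig x y b lam ch) (n : ℕ) : ‖lam n‖ ≤ 1 * (n : ℝ) ^ (2 : ℝ) := by
  rcases Nat.eq_zero_or_pos n with rfl | hn
  · rw [E.lam_zero, norm_zero]; positivity
  · refine (E.lam_card n).trans ?_
    have : ((S n).card : ℝ) ≤ 24 * (n : ℝ) ^ 2 := by exact_mod_cast card_le hn
    rw [one_mul, Real.rpow_two]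
    linarith

lemma Eig.lam_prime_le (E : Eig x y b lam ch) {p : ℕ} (hp : p.Prime) (k : ℕ) :
    ‖lam (p ^ k)‖ ≤ 2 * (p : ℝ) ^ k := by
  refine (E.lam_card _).trans ?_
  have : ((S (p ^ k)).card : ℝ) ≤ 24 * (2 * (p : ℝ) ^ k) := by exact_mod_cast card_pow_le hp k
  linarith

variable (h2 : (2 : ZMod q) ≠ 0) (hxy : x ^ 2 + y ^ 2 = -1)
include h2 hxy

lemma Eig.lam_mul (E : Eig x y b lam ch) (m n : ℕ) (hc : Nat.Coprime m n) :
    lam (m * n) = lam m * lam n := by
  rcases Nat.eq_zero_or_pos m with rfl | hm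
  · rw [Nat.coprime_zero_left] at hc
    subst hc
    rw [mul_one, E.lam_one, mul_one]
  rcases Nat.eq_zero_or_pos n with rfl | hn
  · rw [Nat.coprime_zero_right] at hc
    subst hc
    rw [one_mul, E.lam_one, one_mul]
  have h := congrFun (congrArg DFunLike.coe (T_mul h2 hxy hm hn hc)) b
  rw [LinearMap.comp_apply, E.T n, map_smul, E.T m, E.T (m * n), smul_smul] at h
  have := smul_inj E.exists_ne h
  rw [← this, mul_comm]

lemma Eig.lam_pow (E : Eig x y b lam ch) (p j : ℕ) (hp : p.Prime) :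
    lam (p ^ (j + 2)) = lam p * lam (p ^ (j + 1)) - eP ch p * lam (p ^ j) := by
  by_cases hp2 : p = 2
  · subst hp2
    have h := congrFun (congrArg DFunLike.coe (two_pow_succ h2 hxy j)) b
    rw [LinearMap.comp_apply, E.T, map_smul, E.T 2, E.T, smul_smul] at h
    have := smul_inj E.exists_ne h
    rw [← this]
    unfold eP
    simp only [if_true]
    ring
  · have h := congrFun (congrArg DFunLike.coe (T_prime h2 hxy hp hp2 j)) b
    rw [LinearMap.comp_apply, LinearMap.add_apply, LinearMap.smul_apply, LinearMap.comp_apply,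
      E.T (p ^ (j + 1)), map_smul, E.T p, E.T (p ^ (j + 2)), E.T (p ^ j), map_smul, smul_smul] at h
    have hD : Dm (p : ZMod q) b = (if h : (p : ZMod q) = 0 then (0 : ℂ) else
        ch (Units.mk0 (p : ZMod q) h)) • b := by
      split_ifs with h0
      · rw [h0, Dm_zero_of h2 hxy E.mem.1, zero_smul]
      · exact E.D (Units.mk0 (p : ZMod q) h0)
    rw [hD, smul_smul, smul_smul, ← add_smul] at h
    have h5 := smul_inj E.exists_ne h
    unfold eP
    rw [if_neg hp2]
    split_ifs with h0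
    · rw [dif_pos h0] at h5
      linear_combination -h5
    · rw [dif_neg h0] at h5
      linear_combination -h5

lemma Eig.hecke (E : Eig x y b lam ch) : Pool.Agent.N7.HeckeId.HeckeC (eP ch) lam where
  zero := E.lam_zero
  one := E.lam_one
  mul := E.lam_mul h2 hxy
  pow := E.lam_pow h2 hxy

end

end Pool.Agent.N880.HQ
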