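import Pool.Agent.N880.HQ.Eig
import Pool.Agent.W108.TW.Mellin

/-! # The functional equation of the L-function of an eigenfunction -/

set_option autoImplicit false

open Complex Matrix Filter Topology Module

namespace Pool.Agent.N880.HQ

open Hur

variable {q : ℕ} [Fact q.Prime] {x y : ZMod q}
variable {b : (Fin 2 → ZMod q) → ℂ} {lam : ℕ → ℂ} {ch : (ZMod q)ˣ → ℂ}

/-- the theta series of the eigenvalues -/
noncomputable def fth (lam : ℕ → ℂ) (t : ℝ) : ℂ :=
  ∑' n : ℕ, lam n * ((Real.exp (-Real.pi * t * n) : ℝ) : ℂ)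

lemma fth_conj (lam : ℕ → ℂ) (t : ℝ) :
    (starRingEnd ℂ) (fth lam t) = fth (fun n => (starRingEnd ℂ) (lam n)) t := by
  unfold fth
  rw [Complex.conj_tsum]
  refine tsum_congr fun n => ?_
  rw [map_mul, Complex.conj_ofReal]

section
variable (h2 : (2 : ZMod q) ≠ 0) (hxy : x ^ 2 + y ^ 2 = -1)
include h2 hxy

omit h2 hxy in
lemma Eig.Th (E : Eig x y b lam ch) (hq : Odd q) {t : ℝ} (ht : 0 < t) (v : Fin 2 → ZMod q) :
    Th x y b v t = 24 * fth lam t * b v := by
  rw [Th_eq hq ht]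
  unfold fth
  rw [← tsum_mul_left, ← tsum_mul_right]
  refine tsum_congr fun n => ?_
  rw [E.T n, Pi.smul_apply, smul_eq_mul]
  ring

omit h2 hxy in
lemma Eig.T_SF (E : Eig x y b lam ch) (n : ℕ) : HQ.T x y n (SF b) = (starRingEnd ℂ) (lam n) • SF b := by
  have h : SF (HQ.Ts x y n b) = HQ.T x y n (SF b) := by
    rw [Ts_apply, SF_surj]
  rw [← h, E.Ts, SF_smul]

omit h2 hxy in
lemma Eig.Th' (E : Eig x y b lam ch) (hq : Odd q) {t : ℝ} (ht : 0 < t) (v : Fin 2 → ZMod q) :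
    HQ.Th x y (SF b) v t = 24 * (starRingEnd ℂ) (fth lam t) * SF b v := by
  rw [Th_eq hq ht, fth_conj]
  unfold fth
  rw [← tsum_mul_left, ← tsum_mul_right]
  refine tsum_congr fun n => ?_
  rw [E.T_SF n, Pi.smul_apply, smul_eq_mul]
  ring

/-- the functional equation of the theta series of the eigenvalues -/
lemma Eig.fe (E : Eig x y b lam ch) (hq : Odd q) : ∃ w : ℂ, ‖w‖ = 1 ∧ ∀ t : ℝ, 0 < t →
    fth lam t = (2 / ((q : ℂ) * (t : ℂ) ^ 2)) * w * (starRingEnd ℂ) (fth lam (2 / (q * t))) := by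
  have hq0 : (0 : ℝ) < q := by exact_mod_cast (Fact.out : q.Prime).pos
  have hqC : (q : ℂ) ≠ 0 := by exact_mod_cast hq0.ne'
  obtain ⟨v, hv⟩ := E.exists_ne
  set w0 : ℂ := SF b (nv x y v) / b v with hw0
  have h1 : ∀ t : ℝ, 0 < t → fth lam t =
      (2 / ((q : ℂ) ^ 2 * (t : ℂ) ^ 2)) * w0 * (starRingEnd ℂ) (fth lam (2 / (q * t))) := by
    intro t ht
    have ht' : 0 < 2 / (q * t) := by positivity
    have h := Th_fe' h2 hxy hq E.mem v ht
    rw [E.Th hq ht, E.Th' hq ht'] at h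
    rw [hw0]
    have htC : (t : ℂ) ≠ 0 := by exact_mod_cast ht.ne'
    field_simp
    field_simp at h
    linear_combination h
  -- the modulus of w0
  have h3 : ∀ t : ℝ, 0 < t → fth lam t * (1 - ((‖w0‖ ^ 2 / q ^ 2 : ℝ) : ℂ)) = 0 := by
    intro t ht
    have ht' : 0 < 2 / (q * t) := by positivity
    have htC : (t : ℂ) ≠ 0 := by exact_mod_cast ht.ne'
    have a1 := h1 t ht
    have a2 := h1 (2 / (q * t)) ht'
    have e4 : 2 / ((q : ℝ) * (2 / (q * t))) = t := by field_simp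
    rw [e4] at a2
    rw [a2] at a1
    simp only [map_mul, map_div₀, map_pow, Complex.conj_conj, Complex.conj_ofReal, map_ofNat,
      map_natCast] at a1
    have h5 : w0 * (starRingEnd ℂ) w0 = ((‖w0‖ ^ 2 : ℝ) : ℂ) := by
      rw [Complex.mul_conj, Complex.normSq_eq_norm_sq]
    have h6 : fth lam t = ((‖w0‖ ^ 2 / q ^ 2 : ℝ) : ℂ) * fth lam t := by
      calc fth lam t = _ := a1
        _ = (2 / ((q : ℂ) ^ 2 * (t : ℂ) ^ 2)) * (2 / ((q : ℂ) ^ 2 * (((2 / (q * t) : ℝ)) : ℂ) ^ 2)) *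
            (w0 * (starRingEnd ℂ) w0) * fth lam t := by ring
        _ = _ := by
            rw [h5]
            push_cast
            field_simp
    linear_combination h6
  have h7 : ∃ t : ℝ, 0 < t ∧ fth lam t ≠ 0 := by
    by_contra hcon
    push Not at hcon
    have := coeff_zero lam ?_ hcon 1
    · rw [E.lam_one] at this
      exact one_ne_zero this
    · intro t ht
      have h := (Th_hasSum (x := x) (y := y) hq ht b v).summable
      refine (h.mul_left (24 * b v)⁻¹).congr fun n => ?_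
      rw [E.T n, Pi.smul_apply, smul_eq_mul]
      field_simp
  obtain ⟨t, ht, hft⟩ := h7
  have h8 : ‖w0‖ ^ 2 / q ^ 2 = 1 := by
    have := (mul_eq_zero.1 (h3 t ht)).resolve_left hft
    have h9 : ((‖w0‖ ^ 2 / q ^ 2 : ℝ) : ℂ) = 1 := (sub_eq_zero.1 this).symm
    exact_mod_cast h9
  have h10 : ‖w0‖ = q := by
    rw [div_eq_one_iff_eq (by positivity)] at h8
    exact (sq_eq_sq₀ (norm_nonneg _) hq0.le).1 h8
  refine ⟨w0 / q, ?_, fun t ht => ?_⟩
  · rw [norm_div, h10, Complex.norm_natCast, div_self hq0.ne']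
  · rw [h1 t ht]
    have htC : (t : ℂ) ≠ 0 := by exact_mod_cast ht.ne'
    field_simp

/-- the L-function -/
theorem Eig.exists_L (E : Eig x y b lam ch) (hq : Odd q) :
    ∃ F : ℂ → ℂ, W388.FE2 2 2 (Real.sqrt q) F ∧ ∀ s : ℂ, 4 < s.re →
      F s = ∑' n : ℕ, lam n * (n : ℂ) ^ (-(s + 1 / 2)) := by
  have hq0 : (0 : ℝ) < q := by exact_mod_cast (Fact.out : q.Prime).pos
  have hq1 : (1 : ℝ) ≤ q := by exact_mod_cast (Fact.out : q.Prime).one_lt.le
  have hqC : (q : ℂ) ≠ 0 := by exact_mod_cast hq0.ne'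
  obtain ⟨w, hw, hfe⟩ := E.fe h2 hxy hq
  have hR : Real.sqrt 2 * Real.sqrt q = Real.sqrt (2 * q) := by
    rw [Real.sqrt_mul (by norm_num)]
  set R := Real.sqrt (2 * q) with hRdef
  have hR0 : 0 < R := Real.sqrt_pos.2 (by positivity)
  have hR2 : R ^ 2 = 2 * q := Real.sq_sqrt (by positivity)
  obtain ⟨F, hF1, hF2⟩ := Pool.Agent.W108.TW.t_mellin 2 (by norm_num) 2 (Real.sqrt q) (by norm_num)
    (Real.one_le_sqrt.2 hq1) lam 2 1 E.lam_zero (by norm_num) (fun n _ => E.lam_le n) w hw (by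
      intro t ht
      rw [hR]
      have ht1 : 0 < 2 / (R * t) := by positivity
      have h := hfe (2 / (R * t)) ht1
      have e1 : 2 / ((q : ℝ) * (2 / (R * t))) = 2 / R * t := by
        field_simp
        rw [hR2]
      rw [e1, fth_conj] at h
      unfold fth at h
      have htC : (t : ℂ) ≠ 0 := by exact_mod_cast ht.ne'
      have hRC : (R : ℂ) ≠ 0 := by exact_mod_cast hR0.ne'
      have hR2C : (R : ℂ) ^ 2 = 2 * q := by exact_mod_cast hR2
      have e2 : (2 / ((q : ℂ) * (((2 / (R * t) : ℝ)) : ℂ) ^ 2)) * w = w * (t : ℂ) ^ (2 : ℤ) := by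
        push_cast
        rw [zpow_ofNat]
        field_simp
        rw [hR2C]
      rw [e2] at h
      have e3 : ∀ n : ℕ, -(2 * Real.pi * n / R) / t = -Real.pi * (2 / (R * t)) * n := by
        intro n
        field_simp
      have e4 : ∀ n : ℕ, -(2 * Real.pi * n / R) * t = -Real.pi * (2 / R * t) * n := by
        intro n
        field_simp
      simp only [e3, e4]
      exact h)
  refine ⟨F, hF1, fun s hs => ?_⟩
  rw [hF2 s (by norm_num; linarith)]
  refine tsum_congr fun n => ?_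
  congr 3
  norm_num

end

end Pool.Agent.N880.HQ
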