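import Pool.Agent.N880.HQ.Basis

/-! # Existence of a basis of joint eigenfunctions -/

set_option autoImplicit false

open Module

namespace Pool.Agent.N880.HQ

/-- an orthonormal family of the right size is a basis -/
lemma basis_of_on {q : ℕ} [Fact q.Prime] {x y : ZMod q} {g : ℕ} (hg : finrank ℂ (A0 x y) = g)
    (b0 : Fin g → (Fin 2 → ZMod q) → ℂ) (k1 : ∀ k, b0 k ∈ A0 x y)
    (k2 : ∀ k l, ∑ v, b0 k v * (starRingEnd ℂ) (b0 l v) = if k = l then 1 else 0) :
    ∃ b : Basis (Fin g) ℂ (A0 x y), ∀ k, ((b k : A0 x y) : (Fin 2 → ZMod q) → ℂ) = b0 k := by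
  have hLI : LinearIndependent ℂ (fun k : Fin g => (⟨b0 k, k1 k⟩ : A0 x y)) := by
    rw [Fintype.linearIndependent_iff]
    intro c hc l
    have h1 : ∑ k, c k • b0 k = 0 := by
      have := congrArg (Subtype.val) hc
      simpa using this
    have h3 : ∑ v, (∑ k, c k • b0 k) v * (starRingEnd ℂ) (b0 l v) = c l := by
      have : ∀ v, (∑ k, c k • b0 k) v * (starRingEnd ℂ) (b0 l v) =
          ∑ k, c k * (b0 k v * (starRingEnd ℂ) (b0 l v)) := by
        intro v
        rw [Finset.sum_apply, Finset.sum_mul]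
        refine Finset.sum_congr rfl fun k _ => ?_
        rw [Pi.smul_apply, smul_eq_mul]
        ring
      simp_rw [this]
      rw [Finset.sum_comm]
      simp_rw [← Finset.mul_sum, k2]
      simp
    rw [← h3, h1]
    simp
  have hcard : Fintype.card (Fin g) = finrank ℂ (A0 x y) := by rw [Fintype.card_fin, hg]
  rcases Nat.eq_zero_or_pos g with hg0 | hg0
  · subst hg0
    have hsub : Subsingleton (A0 x y) := finrank_zero_iff.1 hg
    exact ⟨Basis.empty _, fun k => k.elim0⟩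
  · have : Nonempty (Fin g) := ⟨⟨0, hg0⟩⟩
    refine ⟨basisOfLinearIndependentOfCardEqFinrank hLI hcard, fun k => ?_⟩
    rw [coe_basisOfLinearIndependentOfCardEqFinrank]

theorem exists_eigenbasis {q : ℕ} [Fact q.Prime] {x y : ZMod q} (h2 : (2 : ZMod q) ≠ 0)
    (hxy : x ^ 2 + y ^ 2 = -1) (hq : Odd q) {g : ℕ} (hg : finrank ℂ (A0 x y) = g) :
    ∃ (b : Basis (Fin g) ℂ (A0 x y)) (lam : Fin g → ℕ → ℂ),
      ∀ k n, T x y n ((b k : A0 x y) : (Fin 2 → ZMod q) → ℂ) =
        lam k n • ((b k : A0 x y) : (Fin 2 → ZMod q) → ℂ) := by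
  have hbasis := exists_basis (x := x) (y := y) h2 hxy hq
  rw [hg] at hbasis
  obtain ⟨b0, lam0, ch0, k1, k2, k3, k4, k5, k6⟩ := hbasis
  obtain ⟨b, hb⟩ := basis_of_on hg b0 k1 k2
  exact ⟨b, lam0, fun k n => by rw [hb, k3]⟩

end Pool.Agent.N880.HQ
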