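import Mathlib

/-! # Two bases of joint eigenvectors have the same eigenvalues -/

set_option autoImplicit false

open Module

namespace Pool.Agent.N880.HQ

section
variable {W : Type*} [AddCommGroup W] [Module ℂ W]

/-- a joint eigenspace -/
def JE {ι : Type*} (T : ι → W →ₗ[ℂ] W) (χ : ι → ℂ) : Submodule ℂ W where
  carrier := {w | ∀ n, T n w = χ n • w}
  zero_mem' := by intro n; simp
  add_mem' := by
    intro a b ha hb n
    rw [map_add, ha n, hb n, smul_add]
  smul_mem' := by
    intro c a ha n
    rw [map_smul, ha n, smul_comm]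

lemma JE_card {ι : Type*} {g : ℕ} (T : ι → W →ₗ[ℂ] W) (b : Basis (Fin g) ℂ W)
    (lam : Fin g → ι → ℂ) (hb : ∀ k n, T n (b k) = lam k n • b k) (χ : ι → ℂ) [DecidableEq (ι → ℂ)] :
    finrank ℂ (JE T χ) = Fintype.card {k : Fin g // lam k = χ} := by
  have hspan : JE T χ = Submodule.span ℂ (Set.range (fun k : {k : Fin g // lam k = χ} => b k)) := by
    apply le_antisymm
    · intro w hw
      have hw' : ∀ n, T n w = χ n • w := hw
      -- coefficients vanish outside
      have hc : ∀ k, b.repr w k ≠ 0 → lam k = χ := by
        intro k hk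
        funext n
        have h1 : b.repr (T n w) k = lam k n * b.repr w k := by
          conv_lhs => rw [← b.sum_repr w]
          rw [map_sum, map_sum, Finsupp.finsetSum_apply]
          have : ∀ j, (b.repr (T n (b.repr w j • b j))) k = if j = k then lam k n * b.repr w k else 0 := by
            intro j
            rw [map_smul, hb, map_smul, map_smul, Basis.repr_self, Finsupp.smul_apply,
              Finsupp.smul_apply, Finsupp.single_apply]
            split_ifs with h
            · subst h
              simp only [smul_eq_mul]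
              ring
            · simp
          simp_rw [this]
          rw [Finset.sum_ite_eq']
          simp
        rw [hw' n, map_smul, Finsupp.smul_apply, smul_eq_mul] at h1
        exact (mul_right_cancel₀ hk h1).symm
      rw [← b.sum_repr w]
      refine Submodule.sum_mem _ fun k _ => ?_
      by_cases hk : b.repr w k = 0
      · rw [hk, zero_smul]; exact Submodule.zero_mem _
      · exact Submodule.smul_mem _ _ (Submodule.subset_span ⟨⟨k, hc k hk⟩, rfl⟩)
    · rw [Submodule.span_le]
      rintro _ ⟨k, rfl⟩ n
      rw [hb, k.2]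
  rw [hspan]
  exact finrank_span_eq_card (b.linearIndependent.comp _ Subtype.val_injective)

theorem exists_perm {ι : Type*} {g : ℕ} (T : ι → W →ₗ[ℂ] W) (b b' : Basis (Fin g) ℂ W)
    (lam lam' : Fin g → ι → ℂ) (hb : ∀ k n, T n (b k) = lam k n • b k)
    (hb' : ∀ k n, T n (b' k) = lam' k n • b' k) :
    ∃ σ : Fin g ≃ Fin g, ∀ k, lam k = lam' (σ k) := by
  classical
  have h : ∀ χ : ι → ℂ, Nonempty ({k : Fin g // lam k = χ} ≃ {k : Fin g // lam' k = χ}) := by
    intro χ
    apply Fintype.card_eq.1
    rw [← JE_card T b lam hb χ, ← JE_card T b' lam' hb' χ]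
  refine ⟨Equiv.ofFiberEquiv (f := lam) (g := lam') fun χ => (h χ).some, fun k => ?_⟩
  exact (Equiv.ofFiberEquiv_map (f := lam) (g := lam') (fun χ => (h χ).some) k).symm

end

end Pool.Agent.N880.HQ
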