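import Pool.Agent.N880.HQ.Main2
import Pool.Agent.N880.HQ.Perm

/-! # The final theorem, in terms of the L-functions in the arithmetic normalisation -/

set_option autoImplicit false

open Complex Filter Topology Module Set
open H370 (zset mult NN Nd Ns)

namespace Pool.Agent.N880.HQ

/-- zeros with imaginary part in `(T, 2 T]` -/
def zeroSet (F : ℂ → ℂ) (T : ℝ) : Set ℂ := {s : ℂ | T < s.im ∧ s.im ≤ 2 * T ∧ F s = 0}

/-- number of zeros, with multiplicity -/
noncomputable def numZeros (F : ℂ → ℂ) (T : ℝ) : ℕ := ∑ᶠ s ∈ zeroSet F T, analyticOrderNatAt F s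

/-- number of distinct zeros -/
noncomputable def numDistinct (F : ℂ → ℂ) (T : ℝ) : ℕ := (zeroSet F T).ncard

/-- number of simple zeros on the line `Re s = 1` -/
noncomputable def numSimple (F : ℂ → ℂ) (T : ℝ) : ℕ :=
  {s : ℂ | s ∈ zeroSet F T ∧ s.re = 1 ∧ analyticOrderNatAt F s = 1}.ncard

section count
variable {L : ℂ → ℂ} {T : ℝ}

lemma zset_image (hz : ∀ w : ℂ, T < w.im → L w = 0 → -4 < w.re ∧ w.re < 6) :
    (fun s : ℂ => 10 * s - 4) '' zset (fun s => L (10 * s - 4)) (T / 10) (2 * (T / 10)) =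
      zeroSet L T := by
  ext w
  constructor
  · rintro ⟨s, ⟨h1, h2, h3, h4, h5⟩, rfl⟩
    refine ⟨?_, ?_, h5⟩
    · simp only [Complex.sub_im, Complex.mul_im]
      norm_num
      linarith
    · simp only [Complex.sub_im, Complex.mul_im]
      norm_num
      linarith
  · rintro ⟨h1, h2, h3⟩
    obtain ⟨h4, h5⟩ := hz w h1 h3
    refine ⟨(w + 4) / 10, ⟨?_, ?_, ?_, ?_, ?_⟩, by ring⟩
    · have : ((w + 4) / 10 : ℂ).re = (w.re + 4) / 10 := by
        rw [show (10 : ℂ) = ((10 : ℝ) : ℂ) by norm_num, Complex.div_ofReal_re]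
        simp
      rw [this]; linarith
    · have : ((w + 4) / 10 : ℂ).re = (w.re + 4) / 10 := by
        rw [show (10 : ℂ) = ((10 : ℝ) : ℂ) by norm_num, Complex.div_ofReal_re]
        simp
      rw [this]; linarith
    · have : ((w + 4) / 10 : ℂ).im = w.im / 10 := by
        rw [show (10 : ℂ) = ((10 : ℝ) : ℂ) by norm_num, Complex.div_ofReal_im]
        simp
      rw [this]; linarith
    · have : ((w + 4) / 10 : ℂ).im = w.im / 10 := by
        rw [show (10 : ℂ) = ((10 : ℝ) : ℂ) by norm_num, Complex.div_ofReal_im]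
        simp
      rw [this]; linarith
    · simp only
      rw [show 10 * ((w + 4) / 10) - 4 = w by ring]
      exact h3

lemma aff_inj : Function.Injective (fun s : ℂ => 10 * s - 4) := by
  intro a b h
  have h' : 10 * a - 4 = 10 * b - 4 := h
  have : 10 * a = 10 * b := by linear_combination h'
  exact mul_left_cancel₀ (by norm_num) this

lemma aff_order (s : ℂ) : analyticOrderNatAt (fun s => L (10 * s - 4)) s =
    analyticOrderNatAt L (10 * s - 4) := by
  have h1 : HasDerivAt (fun z : ℂ => 10 * z - 4) 10 s := by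
    simpa using ((hasDerivAt_id s).const_mul (10 : ℂ)).sub_const 4
  have h3 : AnalyticAt ℂ (fun z : ℂ => 10 * z - 4) s := by fun_prop
  have h4 := analyticOrderAt_comp_of_deriv_ne_zero (f := L) h3 (by rw [h1.deriv]; norm_num)
  unfold analyticOrderNatAt
  rw [← h4]
  rfl

lemma cnt_N (hz : ∀ w : ℂ, T < w.im → L w = 0 → -4 < w.re ∧ w.re < 6) :
    NN (fun s => L (10 * s - 4)) (T / 10) (2 * (T / 10)) = numZeros L T := by
  unfold numZeros NN
  rw [← zset_image hz, finsum_mem_image (aff_inj.injOn)]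
  refine finsum_mem_congr rfl fun s _ => ?_
  unfold mult
  exact aff_order s

lemma cnt_d (hz : ∀ w : ℂ, T < w.im → L w = 0 → -4 < w.re ∧ w.re < 6) :
    Nd (fun s => L (10 * s - 4)) (T / 10) (2 * (T / 10)) = numDistinct L T := by
  unfold numDistinct Nd
  rw [← zset_image hz, Set.ncard_image_of_injective _ aff_inj]

lemma cnt_s (hz : ∀ w : ℂ, T < w.im → L w = 0 → -4 < w.re ∧ w.re < 6) :
    Ns (fun s => L (10 * s - 4)) (T / 10) (2 * (T / 10)) = numSimple L T := by
  unfold numSimple Ns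
  have h : {s : ℂ | s ∈ zeroSet L T ∧ s.re = 1 ∧ analyticOrderNatAt L s = 1} =
      (fun s : ℂ => 10 * s - 4) '' {s : ℂ | s ∈ zset (fun s => L (10 * s - 4)) (T / 10)
        (2 * (T / 10)) ∧ s.re = 1 / 2 ∧ mult (fun s => L (10 * s - 4)) s = 1} := by
    ext w
    rw [← zset_image hz]
    constructor
    · rintro ⟨⟨s, hs, rfl⟩, h1, h2⟩
      refine ⟨s, ⟨hs, ?_, ?_⟩, rfl⟩
      · simp only [Complex.sub_re, Complex.mul_re] at h1
        norm_num at h1
        linarith
      · unfold mult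
        rw [aff_order]
        exact h2
    · rintro ⟨s, ⟨hs, h1, h2⟩, rfl⟩
      refine ⟨⟨s, hs, rfl⟩, ?_, ?_⟩
      · simp only [Complex.sub_re, Complex.mul_re]
        norm_num
        linarith
      · unfold mult at h2
        rw [aff_order] at h2
        exact h2
  rw [h, Set.ncard_image_of_injective _ aff_inj]

end count

/-- the completed L-function of level `2 q`, weight 2 -/
noncomputable def Lam (q : ℕ) (F : ℂ → ℂ) (s : ℂ) : ℂ :=
  ((Real.sqrt (2 * q) / (2 * Real.pi) : ℝ) : ℂ) ^ s * Complex.Gamma s * F s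

lemma Lam_fe {q : ℕ} (hq : 0 < q) {F : ℂ → ℂ} (h : W388.FE2 2 2 (Real.sqrt q) F) :
    ∃ w : ℂ, ‖w‖ = 1 ∧ ∀ s : ℂ, s.im ≠ 0 → Lam q (fun s => F (s - 1 / 2)) s =
      w * (starRingEnd ℂ) (Lam q (fun s => F (s - 1 / 2)) (2 - (starRingEnd ℂ) s)) := by
  obtain ⟨w, hw, hfe⟩ := h.fe
  refine ⟨w, hw, fun s hs => ?_⟩
  have hq0 : (0 : ℝ) < q := by exact_mod_cast hq
  have hR : Real.sqrt 2 * Real.sqrt q = Real.sqrt (2 * q) := by rw [Real.sqrt_mul (by norm_num)]
  set c : ℝ := Real.sqrt (2 * q) / (2 * Real.pi) with hc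
  have hc0 : 0 < c := by
    rw [hc]
    have := Real.pi_pos
    have : 0 < Real.sqrt (2 * q) := Real.sqrt_pos.2 (by positivity)
    positivity
  have hcC : (c : ℂ) ≠ 0 := by exact_mod_cast hc0.ne'
  have h1 := hfe (s - 1 / 2) (by simpa using hs)
  unfold W388.GG at h1
  rw [hR] at h1
  -- GG (s - 1/2) = c^(s - 1/2) Γ(s)
  have e1 : (s - 1 / 2 + (((2 : ℤ) : ℂ) - 1) / 2) = s := by push_cast; ring
  have e2 : (1 - (starRingEnd ℂ) (s - 1 / 2) + (((2 : ℤ) : ℂ) - 1) / 2) = 2 - (starRingEnd ℂ) s := by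
    simp only [map_sub, map_div₀, map_one, map_ofNat]
    push_cast
    ring
  have e3 : 1 - (starRingEnd ℂ) (s - 1 / 2) = 2 - (starRingEnd ℂ) s - 1 / 2 := by
    simp only [map_sub, map_div₀, map_one, map_ofNat]
    ring
  rw [e1, e2, e3] at h1
  have e4 : (c : ℂ) ^ (s - 1 / 2) = (c : ℂ) ^ s * (c : ℂ) ^ (-(1 / 2) : ℂ) := by
    rw [← Complex.cpow_add _ _ hcC]
    congr 1
  have e5 : (c : ℂ) ^ (2 - (starRingEnd ℂ) s - 1 / 2) =
      (c : ℂ) ^ (2 - (starRingEnd ℂ) s) * (c : ℂ) ^ (-(1 / 2) : ℂ) := by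
    rw [← Complex.cpow_add _ _ hcC]
    congr 1
  rw [e4, e5] at h1
  -- c^(-1/2) is real and nonzero
  have e6 : (starRingEnd ℂ) ((c : ℂ) ^ (-(1 / 2) : ℂ)) = (c : ℂ) ^ (-(1 / 2) : ℂ) := by
    have : ((c : ℂ) ^ (-(1 / 2) : ℂ)) = ((c ^ (-(1 / 2) : ℝ) : ℝ) : ℂ) := by
      rw [Complex.ofReal_cpow hc0.le]
      norm_num
    rw [this, Complex.conj_ofReal]
  have e7 : (c : ℂ) ^ (-(1 / 2) : ℂ) ≠ 0 := by
    rw [Ne, Complex.cpow_eq_zero_iff]
    tauto
  unfold Lam
  rw [← hc]
  apply mul_left_cancel₀ e7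
  simp only [map_mul, e6] at h1 ⊢
  linear_combination h1

/-- the final theorem for the space `A0` -/
theorem final : ∃ η q0 : ℝ, 0 < η ∧ 25 ≤ q0 ∧ ∀ (q : ℕ) [Fact q.Prime] (x y : ZMod q),
    q0 ≤ q → x ^ 2 + y ^ 2 = -1 →
    ∀ (g : ℕ) (b : Basis (Fin g) ℂ (A0 x y)) (lam : Fin g → ℕ → ℂ),
      (∀ k n, T x y n ((b k : A0 x y) : (Fin 2 → ZMod q) → ℂ) =
        lam k n • ((b k : A0 x y) : (Fin 2 → ZMod q) → ℂ)) →
    ∃ F : Fin g → ℂ → ℂ,
      (∀ k, Differentiable ℂ (F k) ∧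
        (∀ s : ℂ, 9 / 2 < s.re → F k s = ∑' n : ℕ, lam k n * (n : ℂ) ^ (-s)) ∧
        ∃ w : ℂ, ‖w‖ = 1 ∧ ∀ s : ℂ, s.im ≠ 0 →
          Lam q (F k) s = w * (starRingEnd ℂ) (Lam q (F k) (2 - (starRingEnd ℂ) s))) ∧
      ∀ T : ℝ, 10 * Real.log q ^ 2 ≤ T → T ≤ (q : ℝ) ^ η →
        0.6725 * ∑ k, (numZeros (F k) T : ℝ) ≤ ∑ k, (numSimple (F k) T : ℝ) ∧
        0.83625 * ∑ k, (numZeros (F k) T : ℝ) ≤ ∑ k, (numDistinct (F k) T : ℝ) := by
  obtain ⟨η, q0, hη, hq0, hmain⟩ := main_core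
  refine ⟨η, q0, hη, hq0, ?_⟩
  intro q _ x y hq hxy g b lam hb
  have hqp : q.Prime := Fact.out
  have hq25 : (25 : ℝ) ≤ q := hq0.trans hq
  have hqn : 25 ≤ q := by exact_mod_cast hq25
  have hodd : Odd q := hqp.odd_of_ne_two (by omega)
  have h2 : (2 : ZMod q) ≠ 0 := by
    intro h
    have : ((2 : ℕ) : ZMod q) = 0 := by exact_mod_cast h
    rw [ZMod.natCast_eq_zero_iff] at this
    have := Nat.le_of_dvd (by norm_num) this
    omega
  have hdim := finrank_A0 (x := x) (y := y) hxy (by omega : 5 ≤ q)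
  have hbasis := exists_basis (x := x) (y := y) h2 hxy hodd
  have hg : finrank ℂ (A0 x y) = g := by
    rw [finrank_eq_card_basis b, Fintype.card_fin]
  rw [hg] at hdim hbasis
  obtain ⟨b0, lam0, ch0, k1, k2, k3, k4, k5, k6⟩ := hbasis
  have hne : ∀ k, b0 k ≠ 0 := by
    intro k h0
    have := k2 k k
    rw [h0] at this
    simp at this
  have hF : Fam x y b0 lam0 ch0 := ⟨fun k => ⟨k1 k, hne k, k3 k, k4 k, k5 k, k6 k⟩, k2⟩
  -- the basis of `A0`
  have hLI : LinearIndependent ℂ (fun k : Fin g => (⟨b0 k, k1 k⟩ : A0 x y)) := by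
    rw [Fintype.linearIndependent_iff]
    intro c hc l
    have h1 : ∑ k, c k • b0 k = 0 := by
      have := congrArg (Subtype.val) hc
      simpa using this
    have h3 : ∑ v, (∑ k, c k • b0 k) v * (starRingEnd ℂ) (b0 l v) = c l := by
      have : ∀ v, (∑ k, c k • b0 k) v * (starRingEnd ℂ) (b0 l v) =
          ∑ k, c k * (b0 k v * (starRingEnd ℂ) (b0 l v)) := by
        intro v
        rw [Finset.sum_apply, Finset.sum_mul]
        refine Finset.sum_congr rfl fun k _ => ?_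
        rw [Pi.smul_apply, smul_eq_mul]
        ring
      simp_rw [this]
      rw [Finset.sum_comm]
      simp_rw [← Finset.mul_sum, k2]
      simp
    rw [← h3, h1]
    simp
  have hcard : Fintype.card (Fin g) = finrank ℂ (A0 x y) := by rw [Fintype.card_fin, hg]
  have hTm : ∀ n : ℕ, ∀ φ ∈ A0 x y, T x y n φ ∈ A0 x y := by
    have hq2 : q ≠ 2 := by omega
    exact fun n φ h => T_mem h2 hxy hq2 n h
  obtain ⟨σ, hσ⟩ : ∃ σ : Fin g ≃ Fin g, ∀ k, lam k = lam0 (σ k) := by
    rcases Nat.eq_zero_or_pos g with hg0 | hg0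
    · subst hg0
      exact ⟨Equiv.refl _, fun k => k.elim0⟩
    · have : Nonempty (Fin g) := ⟨⟨0, hg0⟩⟩
      set b' : Basis (Fin g) ℂ (A0 x y) := basisOfLinearIndependentOfCardEqFinrank hLI hcard with hb'
      have hb'k : ∀ k, ((b' k : A0 x y) : (Fin 2 → ZMod q) → ℂ) = b0 k := by
        intro k
        rw [hb', coe_basisOfLinearIndependentOfCardEqFinrank]
      refine exists_perm (fun n => (T x y n).restrict (hTm n)) b b' lam lam0 ?_ ?_
      · intro k n
        apply Subtype.ext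
        rw [LinearMap.coe_restrict_apply]
        exact hb k n
      · intro k n
        apply Subtype.ext
        rw [LinearMap.coe_restrict_apply, hb'k, k3]
        simp [hb'k]
  -- the L-functions
  have hL : ∀ k, ∃ F : ℂ → ℂ, LF (Real.sqrt q) (eP (ch0 k)) (lam0 k) F := by
    intro k
    obtain ⟨F, hF1, hF2⟩ := (hF.E k).exists_L h2 hxy hodd
    exact ⟨F, (hF.E k).seq h2 hxy, hF1, hF2⟩
  choose F hLF using hL
  refine ⟨fun k s => F (σ k) (s - 1 / 2), fun k => ⟨?_, ?_, ?_⟩, ?_⟩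
  · exact (hLF (σ k)).diff.comp (differentiable_id.sub_const _)
  · intro s hs
    change F (σ k) (s - 1 / 2) = _
    rw [(hLF (σ k)).ds (s - 1 / 2) (by simp; linarith), hσ k]
    refine tsum_congr fun n => ?_
    rw [sub_add_cancel]
  · exact Lam_fe hqp.pos (hLF (σ k)).fe
  · intro T hT1 hT2
    have hL25 : 0 ≤ Real.log q ^ 2 := sq_nonneg _
    obtain ⟨m1, m2⟩ := hmain q x y hq hxy g b0 lam0 ch0 hdim hF F hLF (T / 10) (by linarith)
      (by
        have : 0 ≤ T := by linarith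
        linarith)
    -- zeros lie in the strip
    obtain ⟨A, hA, hgood⟩ := good
    have hL1 : 1 ≤ Real.log q := by
      rw [Real.le_log_iff_exp_le (by linarith)]
      linarith [Real.exp_one_lt_d9]
    have hT10 : 10 ≤ T := by nlinarith
    have hsq1 : 1 ≤ Real.sqrt q := Real.one_le_sqrt.2 (by linarith)
    have hz : ∀ j, ∀ w : ℂ, T < w.im → F j (w - 1 / 2) = 0 → -4 < w.re ∧ w.re < 6 := by
      intro j w hw h0
      have hG := hgood (Real.sqrt q) hsq1 _ _ _ (hLF j)
      have e0 : GF (F j) ((w + 4) / 10) = 0 := by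
        unfold GF
        rw [show (10 : ℂ) * ((w + 4) / 10) - 9 / 2 = w - 1 / 2 by ring]
        exact h0
      have hre : ((w + 4) / 10 : ℂ).re = (w.re + 4) / 10 := by
        rw [show (10 : ℂ) = ((10 : ℝ) : ℂ) by norm_num, Complex.div_ofReal_re]
        simp
      have him : ((w + 4) / 10 : ℂ).im = w.im / 10 := by
        rw [show (10 : ℂ) = ((10 : ℝ) : ℂ) by norm_num, Complex.div_ofReal_im]
        simp
      constructor
      · by_contra hcon
        push Not at hcon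
        exact hG.nzl _ (by rw [hre]; linarith) (by rw [him]; linarith) e0
      · by_contra hcon
        push Not at hcon
        exact hG.nzr _ (by rw [hre]; linarith) (by rw [him]; linarith) e0
    have hGF : ∀ j, GF (F j) = fun s => (fun s => F j (s - 1 / 2)) (10 * s - 4) := by
      intro j
      funext s
      unfold GF
      simp only
      congr 1
      ring
    have c1 : ∀ j, NN (GF (F j)) (T / 10) (2 * (T / 10)) = numZeros (fun s => F j (s - 1 / 2)) T := by
      intro j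
      rw [hGF j]
      exact cnt_N (L := fun s => F j (s - 1 / 2)) (hz j)
    have c2 : ∀ j, Nd (GF (F j)) (T / 10) (2 * (T / 10)) =
        numDistinct (fun s => F j (s - 1 / 2)) T := by
      intro j
      rw [hGF j]
      exact cnt_d (L := fun s => F j (s - 1 / 2)) (hz j)
    have c3 : ∀ j, Ns (GF (F j)) (T / 10) (2 * (T / 10)) =
        numSimple (fun s => F j (s - 1 / 2)) T := by
      intro j
      rw [hGF j]
      exact cnt_s (L := fun s => F j (s - 1 / 2)) (hz j)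
    simp only [c1, c2, c3] at m1 m2
    rw [Finset.sum_sub_distrib, ← Finset.mul_sum] at m1
    rw [Finset.sum_sub_distrib, ← Finset.mul_sum, ← Finset.mul_sum] at m2
    have r1 : ∑ k, (numZeros (fun s => F (σ k) (s - 1 / 2)) T : ℝ) =
        ∑ k, (numZeros (fun s => F k (s - 1 / 2)) T : ℝ) :=
      Equiv.sum_comp σ (fun j => (numZeros (fun s => F j (s - 1 / 2)) T : ℝ))
    have r2 : ∑ k, (numSimple (fun s => F (σ k) (s - 1 / 2)) T : ℝ) =
        ∑ k, (numSimple (fun s => F k (s - 1 / 2)) T : ℝ) :=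
      Equiv.sum_comp σ (fun j => (numSimple (fun s => F j (s - 1 / 2)) T : ℝ))
    have r3 : ∑ k, (numDistinct (fun s => F (σ k) (s - 1 / 2)) T : ℝ) =
        ∑ k, (numDistinct (fun s => F k (s - 1 / 2)) T : ℝ) :=
      Equiv.sum_comp σ (fun j => (numDistinct (fun s => F j (s - 1 / 2)) T : ℝ))
    rw [r1, r2, r3]
    constructor
    · linarith
    · linarith

end Pool.Agent.N880.HQ
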