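import Pool.Agent.N880.HQ.EigFE
import Pool.Agent.N615.Wide
import Pool.Agent.W388.TW.Defs

/-! # The rescaled L-function satisfies the analytic axioms -/

set_option autoImplicit false

open Complex Matrix Filter Topology Module
open Pool.Agent.N7.HeckeId (HeckeC cC)

namespace Pool.Agent.N880.HQ

open Hur

variable {e lam : ℕ → ℂ}

/-- conditions on the sequence of eigenvalues -/
structure Seq (e lam : ℕ → ℂ) : Prop where
  hecke : HeckeC e lam
  le : ∀ n : ℕ, ‖lam n‖ ≤ 1 * (n : ℝ) ^ (2 : ℝ)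
  e_le : ∀ p : ℕ, p.Prime → ‖e p‖ ≤ p

lemma Seq.term_le (S : Seq e lam) {w : ℂ} (hw : 6 ≤ w.re) (n : ℕ) :
    ‖lam n * (n : ℂ) ^ (-w)‖ ≤ 1 / (n : ℝ) ^ 2 := by
  rcases Nat.eq_zero_or_pos n with rfl | hn
  · rw [S.hecke.zero, zero_mul, norm_zero]; simp
  · have hn1 : (1 : ℝ) ≤ n := by exact_mod_cast hn
    have hn0 : (0 : ℝ) < n := by linarith
    rw [norm_mul, Complex.norm_natCast_cpow_of_pos hn, Complex.neg_re]
    calc ‖lam n‖ * (n : ℝ) ^ (-w.re) ≤ (1 * (n : ℝ) ^ (2 : ℝ)) * (n : ℝ) ^ (-(4 : ℝ)) :=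
          mul_le_mul (S.le n) (Real.rpow_le_rpow_of_exponent_le hn1 (by linarith)) (by positivity)
            (by positivity)
      _ = 1 / (n : ℝ) ^ 2 := by
          rw [one_mul, ← Real.rpow_add hn0, one_div, ← Real.rpow_natCast, ← Real.rpow_neg hn0.le]
          norm_num

lemma zt2 : Summable (fun n : ℕ => 1 / (n : ℝ) ^ 2) := hasSum_zeta_two.summable

lemma zt2_tail : ∑' n : ℕ, 1 / ((n + 2 : ℕ) : ℝ) ^ 2 ≤ 2 / 3 := by
  have h := zt2.sum_add_tsum_nat_add 2
  rw [hasSum_zeta_two.tsum_eq] at h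
  simp only [Finset.sum_range_succ, Finset.sum_range_zero] at h
  norm_num at h
  have h3 : Real.pi ^ 2 ≤ 10 := by
    have := Real.pi_lt_d2
    have := Real.pi_pos
    nlinarith
  have e : ∀ n : ℕ, 1 / ((n + 2 : ℕ) : ℝ) ^ 2 = (((n : ℝ) + 2) ^ 2)⁻¹ := by
    intro n
    push_cast
    rw [one_div]
  simp_rw [e]
  linarith

lemma Seq.near_one (S : Seq e lam) {w : ℂ} (hw : 6 ≤ w.re) :
    ‖(∑' n : ℕ, lam n * (n : ℂ) ^ (-w)) - 1‖ ≤ 2 / 3 := by
  have hs : Summable (fun n : ℕ => lam n * (n : ℂ) ^ (-w)) :=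
    Summable.of_norm_bounded zt2 (S.term_le hw)
  have h := hs.sum_add_tsum_nat_add 2
  simp only [Finset.sum_range_succ, Finset.sum_range_zero, S.hecke.zero, S.hecke.one, zero_mul,
    Nat.cast_one, Complex.one_cpow, mul_one, zero_add] at h
  rw [← h, add_sub_cancel_left]
  refine (norm_tsum_le_tsum_norm ?_).trans (le_trans ?_ zt2_tail)
  · exact ((summable_nat_add_iff 2).2 hs).norm
  · exact Summable.tsum_le_tsum (fun n => S.term_le hw _) ((summable_nat_add_iff 2).2 hs).norm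
      ((summable_nat_add_iff 2).2 zt2)

/-- the coefficients of the rescaled function -/
noncomputable def aG (e lam : ℕ → ℂ) : ℕ → ℂ :=
  Function.extend (fun m : ℕ => m ^ 10)
    (fun m => 10 * ((ArithmeticFunction.vonMangoldt m : ℂ) * cC e lam m) * (m : ℂ) ^ 4) 0

lemma pow10_inj : Function.Injective (fun m : ℕ => m ^ 10) :=
  Nat.pow_left_injective (by norm_num)

lemma aG_apply (m : ℕ) : aG e lam (m ^ 10) =
    10 * ((ArithmeticFunction.vonMangoldt m : ℂ) * cC e lam m) * (m : ℂ) ^ 4 := by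
  unfold aG
  exact pow10_inj.extend_apply _ _ m

lemma aG_eq_zero {n : ℕ} (h : ∀ m : ℕ, m ^ 10 ≠ n) : aG e lam n = 0 := by
  unfold aG
  rw [Function.extend_apply' _ _ _ (by rintro ⟨m, hm⟩; exact h m hm)]
  rfl

lemma aG_supp {M : Type*} [Zero M] (f : ℕ → M) (hf : ∀ n, aG e lam n = 0 → f n = 0) :
    Function.support f ⊆ Set.range (fun m : ℕ => m ^ 10) := by
  intro n hn
  by_contra hcon
  exact hn (hf n (aG_eq_zero (fun m hm => hcon ⟨m, hm⟩)))

lemma aG_tsum {M : Type*} [AddCommMonoid M] [TopologicalSpace M] (f : ℕ → M)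
    (hf : ∀ n, aG e lam n = 0 → f n = 0) : ∑' n, f n = ∑' m : ℕ, f (m ^ 10) :=
  (pow10_inj.tsum_eq (aG_supp f hf)).symm

lemma aG_summable (f : ℕ → ℝ)
    (hf : ∀ n, aG e lam n = 0 → f n = 0) (hs : Summable (fun m : ℕ => f (m ^ 10))) : Summable f := by
  refine (pow10_inj.summable_iff ?_).1 hs
  intro n hn
  exact hf n (aG_eq_zero (fun m hm => hn ⟨m, hm⟩))

lemma Seq.vM_le (S : Seq e lam) (m : ℕ) :
    ‖(ArithmeticFunction.vonMangoldt m : ℂ) * cC e lam m‖ ≤ 2 * (m : ℝ) ^ (4 : ℝ) := by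
  rcases eq_or_ne m 0 with rfl | hm
  · simp
  · have := Pool.Agent.N7.HeckeId.norm_vM_cC_le (K := 1) (a := 2) (by norm_num) S.le S.e_le hm
    norm_num at this ⊢
    exact this

lemma Seq.aG_bound (S : Seq e lam) (m : ℕ) :
    ‖aG e lam (m ^ 10)‖ * ((m ^ 10 : ℕ) : ℝ) ^ (-(3 / 2) : ℝ) ≤ 20 * (1 / (m : ℝ) ^ 2) := by
  rw [aG_apply]
  rcases Nat.eq_zero_or_pos m with rfl | hm
  · simp
  · have hm1 : (1 : ℝ) ≤ m := by exact_mod_cast hm
    have hm0 : (0 : ℝ) < m := by linarith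
    have h1 := S.vM_le m
    rw [norm_mul, norm_mul, norm_pow, Complex.norm_natCast]
    have h3 : ((m ^ 10 : ℕ) : ℝ) ^ (-(3 / 2) : ℝ) = (m : ℝ) ^ (-15 : ℝ) := by
      push_cast
      rw [← Real.rpow_natCast, ← Real.rpow_mul hm0.le]
      norm_num
    rw [h3]
    have h4 : ‖(10 : ℂ)‖ = 10 := by norm_num
    rw [h4]
    calc 10 * ‖(ArithmeticFunction.vonMangoldt m : ℂ) * cC e lam m‖ * (m : ℝ) ^ 4 *
          (m : ℝ) ^ (-15 : ℝ) ≤ 10 * (2 * (m : ℝ) ^ (4 : ℝ)) * (m : ℝ) ^ 4 * (m : ℝ) ^ (-15 : ℝ) := by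
          gcongr
      _ = 20 * (m : ℝ) ^ (-7 : ℝ) := by
          have : (m : ℝ) ^ (4 : ℕ) = (m : ℝ) ^ (4 : ℝ) := by
            rw [← Real.rpow_natCast]; norm_num
          rw [this]
          have e1 : (m : ℝ) ^ (-7 : ℝ) = (m : ℝ) ^ (4 : ℝ) * (m : ℝ) ^ (4 : ℝ) * (m : ℝ) ^ (-15 : ℝ) := by
            rw [← Real.rpow_add hm0, ← Real.rpow_add hm0]
            norm_num
          rw [e1]
          ring
      _ ≤ 20 * (m : ℝ) ^ (-2 : ℝ) := by
          have := Real.rpow_le_rpow_of_exponent_le hm1 (show (-7 : ℝ) ≤ -2 by norm_num)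
          linarith
      _ = _ := by
          rw [Real.rpow_neg hm0.le, one_div]
          norm_num

lemma Seq.aG_sm (S : Seq e lam) :
    Summable (fun n : ℕ => ‖aG e lam n‖ * (n : ℝ) ^ (-(3 / 2) : ℝ)) := by
  refine aG_summable (e := e) (lam := lam) _ (fun n hn => by rw [hn]; simp) ?_
  exact Summable.of_nonneg_of_le (fun m => by positivity) S.aG_bound (zt2.mul_left 20)

lemma Seq.aG_le (S : Seq e lam) :
    ∑' n : ℕ, ‖aG e lam n‖ * (n : ℝ) ^ (-(3 / 2) : ℝ) ≤ 40 := by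
  rw [aG_tsum (e := e) (lam := lam) _ (fun n hn => by rw [hn]; simp)]
  have h1 : Summable (fun m : ℕ => ‖aG e lam (m ^ 10)‖ * ((m ^ 10 : ℕ) : ℝ) ^ (-(3 / 2) : ℝ)) :=
    Summable.of_nonneg_of_le (fun m => by positivity) S.aG_bound (zt2.mul_left 20)
  refine (Summable.tsum_le_tsum S.aG_bound h1 (zt2.mul_left 20)).trans ?_
  rw [tsum_mul_left, hasSum_zeta_two.tsum_eq]
  have h3 : Real.pi ^ 2 ≤ 10 := by
    have := Real.pi_lt_d2
    have := Real.pi_pos
    nlinarith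
  linarith

/-- an `L`-function with its Dirichlet series -/
structure LF (Q : ℝ) (e lam : ℕ → ℂ) (F : ℂ → ℂ) : Prop where
  seq : Seq e lam
  fe : W388.FE2 2 2 Q F
  ds : ∀ s : ℂ, 4 < s.re → F s = ∑' n : ℕ, lam n * (n : ℂ) ^ (-(s + 1 / 2))

section
variable {Q : ℝ} {F : ℂ → ℂ}

lemma LF.near_one (H : LF Q e lam F) {s : ℂ} (hs : 11 / 2 ≤ s.re) : ‖F s - 1‖ ≤ 2 / 3 := by
  rw [H.ds s (by linarith)]
  exact H.seq.near_one (by simp; linarith)

lemma LF.ne_zero (H : LF Q e lam F) {s : ℂ} (hs : 11 / 2 ≤ s.re) : F s ≠ 0 := by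
  intro h
  have := H.near_one hs
  rw [h] at this
  norm_num at this

lemma LF.logder (H : LF Q e lam F) {s : ℂ} (hs : 9 / 2 < s.re) : deriv F s =
    - F s * ∑' n : ℕ, (ArithmeticFunction.vonMangoldt n : ℂ) * cC e lam n *
      (n : ℂ) ^ (-(s + 1 / 2)) := by
  have hopen : IsOpen {z : ℂ | 4 < z.re} := isOpen_lt continuous_const Complex.continuous_re
  have hev : F =ᶠ[𝓝 s] fun z => (fun w : ℂ => ∑' n : ℕ, lam n * (n : ℂ) ^ (-w)) (z + 1 / 2) := by
    filter_upwards [hopen.mem_nhds (show s ∈ {z : ℂ | 4 < z.re} by simp; linarith)] with z hz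
    exact H.ds z hz
  rw [hev.deriv_eq]
  obtain ⟨-, -, h3, -⟩ := Pool.Agent.N7.HeckeId.logder H.seq.hecke 1 2 (by norm_num) H.seq.le
    H.seq.e_le (s + 1 / 2) (by simp; linarith)
  have h4 : HasDerivAt (fun z : ℂ => z + 1 / 2) 1 s := (hasDerivAt_id s).add_const _
  have h5 := HasDerivAt.comp s h3 h4
  rw [mul_one] at h5
  rw [H.ds s (by linarith)]
  exact h5.deriv

/-- the rescaled function -/
noncomputable def GF (F : ℂ → ℂ) (s : ℂ) : ℂ := F (10 * s - 9 / 2)

lemma LF.diff (H : LF Q e lam F) : Differentiable ℂ F := H.fe.diff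

lemma LF.GF_deriv (H : LF Q e lam F) (s : ℂ) : deriv (GF F) s = 10 * deriv F (10 * s - 9 / 2) := by
  have h1 : HasDerivAt (fun z : ℂ => 10 * z - 9 / 2) 10 s := by
    simpa using ((hasDerivAt_id s).const_mul (10 : ℂ)).sub_const (9 / 2)
  have h3 := HasDerivAt.comp s (H.diff (10 * s - 9 / 2)).hasDerivAt h1
  have h4 := h3.deriv
  rw [mul_comm] at h4
  exact h4

lemma LF.GF_order (_ : LF Q e lam F) (s : ℂ) :
    analyticOrderAt (GF F) s = analyticOrderAt F (10 * s - 9 / 2) := by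
  have h1 : HasDerivAt (fun z : ℂ => 10 * z - 9 / 2) 10 s := by
    simpa using ((hasDerivAt_id s).const_mul (10 : ℂ)).sub_const (9 / 2)
  have h3 : AnalyticAt ℂ (fun z : ℂ => 10 * z - 9 / 2) s := by fun_prop
  exact analyticOrderAt_comp_of_deriv_ne_zero h3 (by rw [h1.deriv]; norm_num)

lemma GF_refl (s : ℂ) : (10 : ℂ) * (1 - (starRingEnd ℂ) s) - 9 / 2 =
    1 - (starRingEnd ℂ) (10 * s - 9 / 2) := by
  simp only [map_sub, map_mul, map_div₀, map_ofNat]
  ring

end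

theorem good : ∃ A : ℝ, 1 ≤ A ∧ ∀ Q : ℝ, 1 ≤ Q → ∀ (e lam : ℕ → ℂ) (F : ℂ → ℂ), LF Q e lam F →
    W388.GoodE 20 A Q (GF F) (aG e lam) := by
  obtain ⟨A, hA, hw⟩ := Pool.Agent.N615.Wide.wide 20 (by norm_num) 2 2 (by norm_num) (by norm_num)
  have hA' : (1 : ℝ) ≤ 10 * A + 20 * Real.log 10 + 40 := by
    have : 0 ≤ Real.log 10 := Real.log_nonneg (by norm_num)
    linarith
  have hlog10 : 0 ≤ Real.log 10 := Real.log_nonneg (by norm_num)
  set A' := (10 * A) ^ A * A + 10 * A + 20 * Real.log 10 + 40 with hA'def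
  have hpw : 0 ≤ (10 * A) ^ A * A := by positivity
  refine ⟨A', by linarith, ?_⟩
  intro Q hQ e lam F H
  obtain ⟨w1, w2, w3, w4⟩ := hw Q hQ F H.fe (by
    intro s hs
    have h1 : (11 : ℝ) / 2 ≤ s.re := by norm_num at hs; linarith
    have h3 := H.near_one h1
    have h4 := norm_le_norm_add_norm_sub' (F s) 1
    norm_num at h4
    linarith)
  have hre : ∀ s : ℂ, ((10 : ℂ) * s - 9 / 2).re = 10 * s.re - 9 / 2 := by
    intro s
    simp [Complex.sub_re, Complex.mul_re]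
  have him : ∀ s : ℂ, ((10 : ℂ) * s - 9 / 2).im = 10 * s.im := by
    intro s
    simp [Complex.sub_im, Complex.mul_im]
  have hnz : ∀ s : ℂ, 1 ≤ s.re → GF F s ≠ 0 := by
    intro s hs
    exact H.ne_zero (by rw [hre]; linarith)
  constructor
  · -- analytic
    intro s _
    have h3 : AnalyticAt ℂ (fun z : ℂ => 10 * z - 9 / 2) s := by fun_prop
    exact AnalyticAt.comp (H.diff.analyticAt (10 * s - 9 / 2)) h3
  · -- growth
    intro s h1 h3 h4
    have h5 := w1 (10 * s - 9 / 2) (by rw [hre]; norm_num; linarith) (by rw [him]; linarith)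
    rw [him] at h5
    refine h5.trans ?_
    have hQs : 1 ≤ Q * s.im := one_le_mul_of_one_le_of_one_le hQ h4
    have e1 : (Q * (10 * s.im)) ^ A = 10 ^ A * (Q * s.im) ^ A := by
      rw [← Real.mul_rpow (by norm_num) (by linarith)]
      congr 1
      ring
    rw [e1]
    have e2 : (Q * s.im) ^ A ≤ (Q * s.im) ^ A' :=
      Real.rpow_le_rpow_of_exponent_le hQs (by linarith)
    have e3 : A * 10 ^ A ≤ A' := by
      have : (10 : ℝ) ^ A ≤ (10 * A) ^ A := Real.rpow_le_rpow (by norm_num) (by linarith) (by linarith)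
      nlinarith
    calc A * (10 ^ A * (Q * s.im) ^ A) = (A * 10 ^ A) * (Q * s.im) ^ A := by ring
      _ ≤ A' * (Q * s.im) ^ A' := mul_le_mul e3 e2 (by positivity) (by linarith)
  · -- lower
    intro t ht
    have h1 := H.near_one (s := 10 * (⟨2, t⟩ : ℂ) - 9 / 2) (by rw [hre]; norm_num)
    have h3 : (1 : ℝ) / 3 ≤ ‖GF F ⟨2, t⟩‖ := by
      have h4 := norm_sub_norm_le (1 : ℂ) (1 - F (10 * (⟨2, t⟩ : ℂ) - 9 / 2))
      rw [sub_sub_cancel, norm_one, norm_sub_rev] at h4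
      unfold GF
      linarith
    refine le_trans ?_ h3
    rw [one_div]
    exact inv_anti₀ (by norm_num) (by linarith)
  · exact fun s hs _ => hnz s hs
  · -- left half plane
    intro s hs hs2 h0
    have h5 : (10 * s - 9 / 2 : ℂ).im ≠ 0 := by rw [him]; linarith
    have h6 := (w3 (10 * s - 9 / 2) h5).1 h0
    rw [← GF_refl] at h6
    exact hnz (1 - (starRingEnd ℂ) s) (by simp; linarith) h6
  · -- symmetry
    intro s _ _ h3
    rw [H.GF_order, H.GF_order, GF_refl]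
    exact w2 _ (by rw [him]; linarith)
  · -- a 0 = a 1 = 0
    intro n hn
    interval_cases n
    · have := aG_apply (e := e) (lam := lam) 0
      simpa using this
    · have := aG_apply (e := e) (lam := lam) 1
      simpa using this
  · exact H.seq.aG_sm
  · exact H.seq.aG_le.trans (by linarith)
  · -- logarithmic derivative
    intro s hs _
    have h1 : 9 / 2 < (10 * s - 9 / 2 : ℂ).re := by rw [hre]; linarith
    rw [H.GF_deriv, H.logder h1]
    have h0 : GF F s ≠ 0 := hnz s hs.le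
    have e1 : F (10 * s - 9 / 2) = GF F s := rfl
    rw [e1]
    have e2 : ∑' n : ℕ, aG e lam n * (n : ℂ) ^ (-s) = 10 * ∑' n : ℕ,
        (ArithmeticFunction.vonMangoldt n : ℂ) * cC e lam n *
        (n : ℂ) ^ (-(10 * s - 9 / 2 + 1 / 2)) := by
      rw [aG_tsum (e := e) (lam := lam) _ (fun n hn => by rw [hn, zero_mul]), ← tsum_mul_left]
      refine tsum_congr fun m => ?_
      rw [aG_apply]
      rcases Nat.eq_zero_or_pos m with rfl | hm
      · simp
      · have hmC : (m : ℂ) ≠ 0 := by exact_mod_cast hm.ne'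
        have e3 : (((m ^ 10 : ℕ) : ℂ)) ^ (-s) = (m : ℂ) ^ (-(10 * s)) := by
          rw [Nat.cast_pow, ← Complex.natCast_cpow_natCast_mul]
          congr 1
          push_cast
          ring
        have e4 : (m : ℂ) ^ (-(10 * s - 9 / 2 + 1 / 2)) = (m : ℂ) ^ (-(10 * s)) * (m : ℂ) ^ 4 := by
          rw [← Complex.cpow_natCast, ← Complex.cpow_add _ _ hmC]
          congr 1
          push_cast
          ring
        rw [e3, e4]
        ring
    rw [e2]
    field_simp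
  · -- left
    intro s h1 h3 h4 h5
    have h6 := w4 (10 * s - 9 / 2) (by rw [hre]; norm_num; linarith) (by rw [hre]; norm_num; linarith)
      (by rw [him]; linarith) h5
    rw [him] at h6
    rw [H.GF_deriv, H.GF_deriv]
    have e1 : GF F (1 - (starRingEnd ℂ) s) = F (10 * (1 - (starRingEnd ℂ) s) - 9 / 2) := rfl
    rw [e1, GF_refl]
    have hQs : 0 < Q * s.im := mul_pos (by linarith) (by linarith)
    have e2 : Real.log (Q * (10 * s.im)) = Real.log (Q * s.im) + Real.log 10 := by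
      rw [show Q * (10 * s.im) = (Q * s.im) * 10 by ring, Real.log_mul hQs.ne' (by norm_num)]
    rw [e2] at h6
    set X := deriv F (10 * s - 9 / 2) / F (10 * s - 9 / 2) with hX
    set Y := (starRingEnd ℂ) (deriv F (1 - (starRingEnd ℂ) (10 * s - 9 / 2)) /
      F (1 - (starRingEnd ℂ) (10 * s - 9 / 2))) with hY
    have e3 : 10 * deriv F (10 * s - 9 / 2) / GF F s = 10 * X := by
      rw [hX]
      unfold GF
      ring
    have e4 : (starRingEnd ℂ) (10 * deriv F (1 - (starRingEnd ℂ) (10 * s - 9 / 2)) /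
        F (1 - (starRingEnd ℂ) (10 * s - 9 / 2))) = 10 * Y := by
      rw [hY, mul_div_assoc, map_mul, map_ofNat]
    rw [e3, e4]
    have e5 : 10 * X + ((20 * Real.log (Q * s.im) : ℝ) : ℂ) + 10 * Y =
        10 * (X + ((2 * (Real.log (Q * s.im) + Real.log 10) : ℝ) : ℂ) + Y) -
          ((20 * Real.log 10 : ℝ) : ℂ) := by
      push_cast
      ring
    rw [e5]
    refine (norm_sub_le _ _).trans ?_
    rw [norm_mul, Complex.norm_real, Real.norm_of_nonneg (by positivity)]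
    have : ‖(10 : ℂ)‖ = 10 := by norm_num
    rw [this]
    have h7 : 10 * ‖X + ((2 * (Real.log (Q * s.im) + Real.log 10) : ℝ) : ℂ) + Y‖ ≤ 10 * A :=
      mul_le_mul_of_nonneg_left h6 (by norm_num)
    linarith

end Pool.Agent.N880.HQ
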