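import Pool.Agent.N880.HQ.Ops

/-! # Theta series as series over the norm; extraction of coefficients -/

set_option autoImplicit false

open Complex Matrix Filter Topology

namespace Pool.Agent.N880.HQ

open Hur

lemma hs_congr {ι M : Type*} [AddCommMonoid M] [TopologicalSpace M] {f g : ι → M} {a : M}
    (h : ∀ n, g n = f n) (hf : HasSum f a) : HasSum g a := by
  have : g = f := funext h
  rwa [this]

/-- extraction of coefficients -/
lemma coeff_zero (a : ℕ → ℂ)
    (hs : ∀ t : ℝ, 0 < t → Summable (fun n : ℕ => a n * ((Real.exp (-Real.pi * t * n) : ℝ) : ℂ)))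
    (h0 : ∀ t : ℝ, 0 < t → ∑' n : ℕ, a n * ((Real.exp (-Real.pi * t * n) : ℝ) : ℂ) = 0) (n : ℕ) :
    a n = 0 := by
  induction n using Nat.strong_induction_on with
  | _ n ih =>
  -- `f t k = a k exp(-π t (k - n))`
  set f : ℝ → ℕ → ℂ := fun t k => a k * ((Real.exp (-Real.pi * t * ((k : ℝ) - n)) : ℝ) : ℂ) with hf
  have hfe : ∀ t k, f t k = ((Real.exp (Real.pi * t * n) : ℝ) : ℂ) *
      (a k * ((Real.exp (-Real.pi * t * k) : ℝ) : ℂ)) := by
    intro t k
    rw [hf]
    simp only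
    have : -Real.pi * t * ((k : ℝ) - n) = Real.pi * t * n + -Real.pi * t * k := by ring
    rw [this, Real.exp_add]
    push_cast
    ring
  have hf0 : ∀ t : ℝ, 0 < t → ∑' k, f t k = 0 := by
    intro t ht
    simp_rw [hfe, tsum_mul_left, h0 t ht, mul_zero]
  have hfs : Summable (fun k => ‖f 1 k‖) := by
    have : Summable (fun k => f 1 k) := by
      simp_rw [hfe]
      exact (hs 1 one_pos).mul_left _
    exact this.norm
  have hlim := tendsto_tsum_of_dominated_convergence (𝓕 := atTop) (f := f)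
    (g := fun k => if k = n then a n else 0) hfs ?_ ?_
  · rw [tsum_ite_eq] at hlim
    have h2 : Tendsto (fun t : ℝ => ∑' k, f t k) atTop (𝓝 0) := by
      refine tendsto_const_nhds.congr' ?_
      filter_upwards [eventually_gt_atTop 0] with t ht
      exact (hf0 t ht).symm
    exact tendsto_nhds_unique hlim h2
  · intro k
    rcases lt_trichotomy k n with h | h | h
    · rw [if_neg h.ne]
      have : ∀ t, f t k = 0 := by
        intro t
        simp [hf, ih k h]
      simp only [this]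
      exact tendsto_const_nhds
    · subst h
      simp [hf]
    · rw [if_neg h.ne']
      have h1 : Tendsto (fun t : ℝ => Real.exp (-Real.pi * t * ((k : ℝ) - n))) atTop (𝓝 0) := by
        apply Real.tendsto_exp_atBot.comp
        have hkn : 0 < Real.pi * ((k : ℝ) - n) := by
          have : (n : ℝ) < k := by exact_mod_cast h
          have := Real.pi_pos
          nlinarith
        have := (tendsto_id (α := ℝ) (x := atTop)).const_mul_atTop hkn
        have h3 := tendsto_neg_atTop_atBot.comp this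
        refine h3.congr fun t => ?_
        simp only [Function.comp, id]
        ring
      have h2 := (Complex.continuous_ofReal.tendsto 0).comp h1
      have h3 := h2.const_mul (a k)
      simpa [hf] using h3
  · filter_upwards [eventually_ge_atTop 1] with t ht k
    rcases lt_or_ge k n with h | h
    · simp [hf, ih k h]
    · simp only [hf]
      rw [norm_mul, norm_mul]
      refine mul_le_mul_of_nonneg_left ?_ (norm_nonneg _)
      rw [Complex.norm_real, Complex.norm_real, Real.norm_of_nonneg (Real.exp_pos _).le,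
        Real.norm_of_nonneg (Real.exp_pos _).le]
      apply Real.exp_le_exp.2
      have h1 : 0 ≤ Real.pi * ((k : ℝ) - n) := by
        have : (n : ℝ) ≤ k := by exact_mod_cast h
        have := Real.pi_pos
        apply mul_nonneg this.le
        linarith
      nlinarith

variable {q : ℕ} [Fact q.Prime] {x y : ZMod q}

lemma fiber_eq_S (n : ℕ) : ((fun α : Hur => (nrm α).toNat) ⁻¹' {n}) = ((S n : Finset Hur) : Set Hur) := by
  ext α
  simp only [Set.mem_preimage, Set.mem_singleton_iff, Finset.mem_coe, mem_S]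
  have := nrm_nonneg α
  omega

/-- the theta series, grouped by the norm -/
lemma Th_hasSum (hq : Odd q) {t : ℝ} (ht : 0 < t) (φ : (Fin 2 → ZMod q) → ℂ)
    (v : Fin 2 → ZMod q) : HasSum (fun n : ℕ => 24 * T x y n φ v *
      ((Real.exp (-Real.pi * t * n) : ℝ) : ℂ)) (Th x y φ v t) := by
  have h := (Th_summable (x := x) (y := y) hq ht φ v).hasSum
  have h2 := h.tsum_fiberwise (fun α : Hur => (nrm α).toNat)
  refine hs_congr (fun n => ?_) h2
  have h3 : ∑' b : ((fun α : Hur => (nrm α).toNat) ⁻¹' {n} : Set Hur), φ (v ᵥ* mat x y b) *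
      ((Real.exp (-Real.pi * t * nrm (b : Hur)) : ℝ) : ℂ) = ∑ α ∈ S n, φ (v ᵥ* mat x y α) *
      ((Real.exp (-Real.pi * t * nrm α) : ℝ) : ℂ) := by
    rw [fiber_eq_S]
    exact Finset.tsum_subtype (S n) (fun α : Hur => φ (v ᵥ* mat x y α) *
      ((Real.exp (-Real.pi * t * nrm α) : ℝ) : ℂ))
  rw [h3, T_apply, ← mul_assoc, Finset.mul_sum, Finset.sum_mul]
  refine Finset.sum_congr rfl fun α hα => ?_
  rw [mem_S.1 hα]
  push_cast
  ring

lemma Th_eq (hq : Odd q) {t : ℝ} (ht : 0 < t) (φ : (Fin 2 → ZMod q) → ℂ)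
    (v : Fin 2 → ZMod q) : Th x y φ v t = ∑' n : ℕ, 24 * T x y n φ v *
      ((Real.exp (-Real.pi * t * n) : ℝ) : ℂ) := (Th_hasSum hq ht φ v).tsum_eq.symm

/-! ### the map `ν` -/

section
variable (h2 : (2 : ZMod q) ≠ 0) (hxy : x ^ 2 + y ^ 2 = -1)
include h2 hxy

lemma exists_nu {v : Fin 2 → ZMod q} (hv : v ≠ 0) : ∃ (u : Fin 2 → ZMod q) (δ : Hur),
    sy u v = 1 ∧ nrm δ = q ∧ v ᵥ* mat x y δ = 0 ∧
    (∀ γ : Hur, v ᵥ* mat x y γ = 0 → ∃ ε : Hur, γ = δ * ε) := by
  obtain ⟨u, hu⟩ := exists_dual hv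
  obtain ⟨δ, h1, h2', h3⟩ := ker_principal h2 hxy hv
  exact ⟨u, δ, hu, h1, h2', h3⟩

end

open Classical in
/-- the map `ν` on `F_q²` -/
noncomputable def nv (x y : ZMod q) (v : Fin 2 → ZMod q) : Fin 2 → ZMod q :=
  if h : ∃ p : (Fin 2 → ZMod q) × Hur, sy p.1 v = 1 ∧ nrm p.2 = q ∧ v ᵥ* mat x y p.2 = 0 ∧
    (∀ γ : Hur, v ᵥ* mat x y γ = 0 → ∃ ε : Hur, γ = p.2 * ε) then
    nu x y h.choose.1 h.choose.2 else 0

/-- the Fricke-type operator `h ↦ h ∘ ν` -/
noncomputable def Nl (x y : ZMod q) : ((Fin 2 → ZMod q) → ℂ) →ₗ[ℂ] ((Fin 2 → ZMod q) → ℂ) where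
  toFun φ v := φ (nv x y v)
  map_add' _ _ := rfl
  map_smul' _ _ := rfl

lemma Nl_apply (φ : (Fin 2 → ZMod q) → ℂ) (v : Fin 2 → ZMod q) : Nl x y φ v = φ (nv x y v) := rfl

lemma nv_zero : nv x y (0 : Fin 2 → ZMod q) = 0 := by
  unfold nv
  rw [dif_neg]
  rintro ⟨p, h, -⟩
  simp [sy] at h

section
variable (h2 : (2 : ZMod q) ≠ 0) (hxy : x ^ 2 + y ^ 2 = -1)
include h2 hxy

/-- the functional equation of the theta series, for forms -/
lemma Th_fe' (hq : Odd q) {φ : (Fin 2 → ZMod q) → ℂ} (hφ : φ ∈ A0 x y) (v : Fin 2 → ZMod q)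
    {t : ℝ} (ht : 0 < t) :
    Th x y φ v t = (2 / ((q : ℂ) ^ 2 * (t : ℂ) ^ 2)) * Th x y (SF φ) (nv x y v) (2 / (q * t)) := by
  by_cases hv : v = 0
  · subst hv
    have h0 : ∀ ψ : (Fin 2 → ZMod q) → ℂ, ψ ∈ A0 x y → ∀ s, Th x y ψ 0 s = 0 := by
      intro ψ hψ s
      unfold Th
      simp [Matrix.zero_vecMul, hψ.1]
    rw [nv_zero, h0 _ hφ, h0 _ (SF_mem h2 hxy hφ), mul_zero]
  · have hex : ∃ p : (Fin 2 → ZMod q) × Hur, sy p.1 v = 1 ∧ nrm p.2 = q ∧ v ᵥ* mat x y p.2 = 0 ∧
        (∀ γ : Hur, v ᵥ* mat x y γ = 0 → ∃ ε : Hur, γ = p.2 * ε) := by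
      obtain ⟨u, δ, a, b, c, d⟩ := exists_nu h2 hxy hv
      exact ⟨⟨u, δ⟩, a, b, c, d⟩
    have hn : nv x y v = nu x y hex.choose.1 hex.choose.2 := by
      unfold nv
      rw [dif_pos hex]
    obtain ⟨a, b, c, d⟩ := hex.choose_spec
    rw [hn]
    exact Th_fe hq hxy φ a b c d ht

/-- the theta series as a function-valued sum; any linear operator may be applied termwise -/
lemma Th_hasSum_op (hq : Odd q) {t : ℝ} (ht : 0 < t) (φ : (Fin 2 → ZMod q) → ℂ)
    (L : ((Fin 2 → ZMod q) → ℂ) →ₗ[ℂ] ℂ) : HasSum (fun n : ℕ => L (T x y n φ) *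
      (24 * ((Real.exp (-Real.pi * t * n) : ℝ) : ℂ))) (L (fun v => Th x y φ v t)) := by
  have h1 : HasSum (fun n : ℕ => (24 * ((Real.exp (-Real.pi * t * n) : ℝ) : ℂ)) • T x y n φ)
      (fun v => Th x y φ v t) := by
    rw [Pi.hasSum]
    intro v
    refine hs_congr (fun n => ?_) (Th_hasSum (x := x) (y := y) hq ht φ v)
    simp only [Pi.smul_apply, smul_eq_mul]
    ring
  have h3 := (L.toContinuousLinearMap).hasSum h1
  refine hs_congr (fun n => ?_) h3
  simp only [LinearMap.coe_toContinuousLinearMap', map_smul, smul_eq_mul]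
  ring

end

end Pool.Agent.N880.HQ
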