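import Pool.Agent.N880.HQ.Pois

/-! # Poisson summation for the Hurwitz order with an additive character modulo `q` -/

set_option autoImplicit false

open Complex

namespace Pool.Agent.N880.HQ

open Hur

/-- coordinates of a Hurwitz quaternion -/
def eH : Fin 2 × (ℤ × ℤ × ℤ × ℤ) ≃ Hur where
  toFun p := ⟨2 * p.2.1 + (p.1 : ℕ), p.2.2.1 - p.2.1, p.2.2.2.1 - p.2.1, p.2.2.2.2 - p.2.1⟩
  invFun x := (⟨(x.a % 2).toNat, by omega⟩, (x.a / 2, x.b + x.a / 2, x.c + x.a / 2, x.d + x.a / 2))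
  left_inv p := by
    obtain ⟨⟨e, he⟩, n0, n1, n2, n3⟩ := p
    have h1 : (2 * n0 + (e : ℤ)) % 2 = e := by omega
    have h2 : (2 * n0 + (e : ℤ)) / 2 = n0 := by omega
    simp only [h1, h2, Int.toNat_natCast, Prod.mk.injEq]
    refine ⟨trivial, trivial, ?_, ?_, ?_⟩ <;> ring
  right_inv x := by
    ext
    · show 2 * (x.a / 2) + (((x.a % 2).toNat : ℕ) : ℤ) = x.a
      omega
    · show x.b + x.a / 2 - x.a / 2 = x.b
      ring
    · show x.c + x.a / 2 - x.a / 2 = x.c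
      ring
    · show x.d + x.a / 2 - x.a / 2 = x.d
      ring

lemma eH_nrm (e : Fin 2) (n0 n1 n2 n3 : ℤ) : ((nrm (eH (e, (n0, n1, n2, n3))) : ℤ) : ℝ) =
    ((n0 : ℝ) + (e : ℕ) / 2) ^ 2 + ((n1 : ℝ) + (e : ℕ) / 2) ^ 2 + ((n2 : ℝ) + (e : ℕ) / 2) ^ 2 +
      ((n3 : ℝ) + (e : ℕ) / 2) ^ 2 := by
  have h := four_nrm (eH (e, (n0, n1, n2, n3)))
  have ha : (eH (e, (n0, n1, n2, n3))).a = 2 * n0 + (e : ℕ) := rfl
  have hb : (eH (e, (n0, n1, n2, n3))).b = n1 - n0 := rfl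
  have hc : (eH (e, (n0, n1, n2, n3))).c = n2 - n0 := rfl
  have hd : (eH (e, (n0, n1, n2, n3))).d = n3 - n0 := rfl
  rw [ha, hb, hc, hd] at h
  have h' : (4 : ℝ) * ((nrm (eH (e, (n0, n1, n2, n3))) : ℤ) : ℝ) =
      (((2 * n0 + (e : ℕ)) ^ 2 + (2 * n0 + (e : ℕ) + 2 * (n1 - n0)) ^ 2 +
        (2 * n0 + (e : ℕ) + 2 * (n2 - n0)) ^ 2 + (2 * n0 + (e : ℕ) + 2 * (n3 - n0)) ^ 2 : ℤ) : ℝ) := by
    rw [← h]; push_cast; ring
  push_cast at h'
  linarith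

/-- the map `m ↦ m' = β - q m` as Hurwitz quaternion -/
def jH (q : ℤ) (β : Fin 4 → ℤ) (m : ℤ × ℤ × ℤ × ℤ) : Hur :=
  ⟨2 * (β 0 - q * m.1), (β 1 - q * m.2.1) - (β 0 - q * m.1),
    (β 2 - q * m.2.2.1) - (β 0 - q * m.1), (β 3 - q * m.2.2.2) - (β 0 - q * m.1)⟩

lemma jH_nrm (q : ℤ) (β : Fin 4 → ℤ) (m : ℤ × ℤ × ℤ × ℤ) : nrm (jH q β m) =
    (β 0 - q * m.1) ^ 2 + (β 1 - q * m.2.1) ^ 2 + (β 2 - q * m.2.2.1) ^ 2 +
      (β 3 - q * m.2.2.2) ^ 2 := by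
  unfold nrm jH
  ring

lemma jH_inj {q : ℤ} (hq : q ≠ 0) (β : Fin 4 → ℤ) : Function.Injective (jH q β) := by
  rintro ⟨m0, m1, m2, m3⟩ ⟨k0, k1, k2, k3⟩ h
  simp only [jH, Hur.mk.injEq] at h
  obtain ⟨h0, h1, h2, h3⟩ := h
  have e0 : m0 = k0 := by
    apply mul_left_cancel₀ hq
    linarith
  subst e0
  have e1 : m1 = k1 := by
    apply mul_left_cancel₀ hq
    linarith
  have e2 : m2 = k2 := by
    apply mul_left_cancel₀ hq
    linarith
  have e3 : m3 = k3 := by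
    apply mul_left_cancel₀ hq
    linarith
  rw [e1, e2, e3]

variable {q : ℕ} [Fact q.Prime]

/-- the linear functional with given values on `h, i, j, k` -/
def Lf (lh li lj lk : ZMod q) (x : Hur) : ZMod q :=
  (x.a : ZMod q) * lh + (x.b : ZMod q) * li + (x.c : ZMod q) * lj + (x.d : ZMod q) * lk

/-- the condition on the dual side -/
def Cond (lh li lj lk : ZMod q) (μ : Hur) : Prop :=
  (μ.a : ZMod q) = 2 * (2 * lh - li - lj - lk) ∧ ((μ.a + 2 * μ.b : ℤ) : ZMod q) = 2 * li ∧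
    ((μ.a + 2 * μ.c : ℤ) : ZMod q) = 2 * lj ∧ ((μ.a + 2 * μ.d : ℤ) : ZMod q) = 2 * lk

open Classical in
/-- the dual summand -/
noncomputable def Gd (lh li lj lk : ZMod q) (t : ℝ) (μ : Hur) : ℂ :=
  if 2 ∣ nrm μ ∧ Cond lh li lj lk μ then
    ((Real.exp (-Real.pi * nrm μ / (q ^ 2 * t)) : ℝ) : ℂ) else 0

/-- the primal summand -/
noncomputable def Gp (lh li lj lk : ZMod q) (t : ℝ) (x : Hur) : ℂ :=
  ZMod.stdAddChar (Lf lh li lj lk x) * ((Real.exp (-Real.pi * t * nrm x) : ℝ) : ℂ)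

lemma exists_lift (hq : Odd q) (l0 l1 l2 l3 : ZMod q) : ∃ β : Fin 4 → ℤ, ((β 0 : ℤ) : ZMod q) = l0 ∧
    ((β 1 : ℤ) : ZMod q) = l1 ∧ ((β 2 : ℤ) : ZMod q) = l2 ∧ ((β 3 : ℤ) : ZMod q) = l3 ∧
    ∃ B : ℤ, β 0 + β 1 + β 2 + β 3 = 2 * B := by
  have c : ∀ z : ZMod q, (((ZMod.val z : ℕ) : ℤ) : ZMod q) = z := fun z => by
    rw [Int.cast_natCast]; exact ZMod.natCast_zmod_val z
  obtain ⟨k, hk⟩ := hq
  set T : ℤ := (ZMod.val l0 : ℤ) + ZMod.val l1 + ZMod.val l2 + ZMod.val l3 with hT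
  rcases Int.even_or_odd T with h | h
  · obtain ⟨B, hB⟩ := h
    refine ⟨![ZMod.val l0, ZMod.val l1, ZMod.val l2, ZMod.val l3], c _, c _, c _, c _, B, ?_⟩
    simp only [Matrix.cons_val_zero, Matrix.cons_val_one, Matrix.cons_val]
    omega
  · obtain ⟨B, hB⟩ := h
    refine ⟨![ZMod.val l0 + q, ZMod.val l1, ZMod.val l2, ZMod.val l3], ?_, c _, c _, c _,
      B + k + 1, ?_⟩
    · simp [c]
    · simp only [Matrix.cons_val_zero, Matrix.cons_val_one, Matrix.cons_val]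
      omega

theorem hpois (hq : Odd q) (lh li lj lk : ZMod q) {t : ℝ} (ht : 0 < t) :
    Summable (fun x => ‖Gp lh li lj lk t x‖) ∧ Summable (fun μ => ‖Gd lh li lj lk t μ‖) ∧
    ∑' x : Hur, Gp lh li lj lk t x = (2 / (t : ℂ) ^ 2) * ∑' μ : Hur, Gd lh li lj lk t μ := by
  classical
  have hqp : q.Prime := Fact.out
  have hq0 : (q : ℤ) ≠ 0 := by exact_mod_cast hqp.ne_zero
  have hqR : (q : ℝ) ≠ 0 := by exact_mod_cast hqp.ne_zero
  have hqC : (q : ℂ) ≠ 0 := by exact_mod_cast hqp.ne_zero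
  have htC : (t : ℂ) ≠ 0 := by exact_mod_cast ht.ne'
  have h2 : (2 : ZMod q) ≠ 0 := by
    intro h
    have h' : ((2 : ℕ) : ZMod q) = 0 := by exact_mod_cast h
    rw [ZMod.natCast_eq_zero_iff] at h'
    have := (Nat.prime_dvd_prime_iff_eq hqp Nat.prime_two).1 h'
    rw [this] at hq
    exact absurd hq (by decide)
  obtain ⟨β, hb0, hb1, hb2, hb3, B, hB⟩ := exists_lift hq (2 * lh - li - lj - lk) li lj lk
  have hBZ : (B : ZMod q) = lh := by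
    have h3 : (((β 0 + β 1 + β 2 + β 3 : ℤ)) : ZMod q) = ((2 * B : ℤ) : ZMod q) := by rw [hB]
    push_cast at h3
    rw [hb0, hb1, hb2, hb3] at h3
    have : (2 : ZMod q) * B = 2 * lh := by rw [← h3]; ring
    exact mul_left_cancel₀ h2 this
  -- the primal side
  have key : ∀ (e : Fin 2) (n : ℤ × ℤ × ℤ × ℤ), Gp lh li lj lk t (eH (e, n)) =
      ga t (β 0 / q) ((e : ℕ) / 2) n.1 * (ga t (β 1 / q) ((e : ℕ) / 2) n.2.1 *
      (ga t (β 2 / q) ((e : ℕ) / 2) n.2.2.1 * ga t (β 3 / q) ((e : ℕ) / 2) n.2.2.2)) := by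
    rintro e ⟨n0, n1, n2, n3⟩
    set J : ℤ := n0 * β 0 + n1 * β 1 + n2 * β 2 + n3 * β 3 + (e : ℕ) * B with hJ
    have hL : Lf lh li lj lk (eH (e, (n0, n1, n2, n3))) = (J : ZMod q) := by
      have ha : (eH (e, (n0, n1, n2, n3))).a = 2 * n0 + (e : ℕ) := rfl
      have hb : (eH (e, (n0, n1, n2, n3))).b = n1 - n0 := rfl
      have hc : (eH (e, (n0, n1, n2, n3))).c = n2 - n0 := rfl
      have hd : (eH (e, (n0, n1, n2, n3))).d = n3 - n0 := rfl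
      unfold Lf
      rw [ha, hb, hc, hd, hJ]
      push_cast
      rw [hb0, hb1, hb2, hb3, hBZ]
      ring
    unfold Gp ga
    rw [hL, ZMod.stdAddChar_coe, Complex.ofReal_exp, ← Complex.exp_add, ← Complex.exp_add,
      ← Complex.exp_add, ← Complex.exp_add]
    congr 1
    have hn := eH_nrm e n0 n1 n2 n3
    have hn' : ((-Real.pi * t * (nrm (eH (e, (n0, n1, n2, n3))) : ℤ) : ℝ) : ℂ) =
        -Real.pi * t * (((n0 : ℂ) + (e : ℕ) / 2) ^ 2 + ((n1 : ℂ) + (e : ℕ) / 2) ^ 2 +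
          ((n2 : ℂ) + (e : ℕ) / 2) ^ 2 + ((n3 : ℂ) + (e : ℕ) / 2) ^ 2) := by
      rw [hn]; push_cast; ring
    rw [hn']
    have hBc : (β 0 : ℂ) + β 1 + β 2 + β 3 = 2 * B := by exact_mod_cast congrArg (Int.cast (R := ℂ)) hB
    rw [hJ]
    push_cast
    field_simp
    linear_combination (-(4 * I * (e : ℕ) : ℂ)) * hBc
  have hsumP : ∀ e : Fin 2, Summable (fun n : ℤ × ℤ × ℤ × ℤ => ‖Gp lh li lj lk t (eH (e, n))‖) := by
    intro e
    simp_rw [key e]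
    exact (prod4 (ga_summable ht _ _) (ga_summable ht _ _) (ga_summable ht _ _)
      (ga_summable ht _ _)).1
  have hS1 : Summable (fun x => ‖Gp lh li lj lk t x‖) := by
    rw [← eH.summable_iff]
    refine (summable_prod_of_nonneg (f := (fun x => ‖Gp lh li lj lk t x‖) ∘ eH)
      (fun p => norm_nonneg _)).2 ⟨fun e => hsumP e, ?_⟩
    exact summable_of_finite_support (Set.toFinite _)
  -- the dual side
  have keyd : ∀ m : ℤ × ℤ × ℤ × ℤ, ∀ e : Fin 2,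
      gd t (β 0 / q) ((e : ℕ) / 2) m.1 * (gd t (β 1 / q) ((e : ℕ) / 2) m.2.1 *
      (gd t (β 2 / q) ((e : ℕ) / 2) m.2.2.1 * gd t (β 3 / q) ((e : ℕ) / 2) m.2.2.2)) =
      cexp (Real.pi * I * (e : ℕ) * (m.1 + m.2.1 + m.2.2.1 + m.2.2.2)) *
        ((Real.exp (-Real.pi * nrm (jH q β m) / (q ^ 2 * t)) : ℝ) : ℂ) := by
    rintro ⟨m0, m1, m2, m3⟩ e
    unfold gd
    rw [Complex.ofReal_exp, ← Complex.exp_add, ← Complex.exp_add, ← Complex.exp_add,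
      ← Complex.exp_add]
    congr 1
    rw [jH_nrm]
    push_cast
    field_simp
    ring
  have hcond : ∀ m : ℤ × ℤ × ℤ × ℤ, Cond lh li lj lk (jH q β m) := by
    rintro ⟨m0, m1, m2, m3⟩
    refine ⟨?_, ?_, ?_, ?_⟩ <;> simp only [jH] <;> push_cast <;> simp only [hb0, hb1, hb2, hb3,
      CharP.cast_eq_zero] <;> ring
  have hpar : ∀ m : ℤ × ℤ × ℤ × ℤ, (2 ∣ nrm (jH q β m) ↔ Even (m.1 + m.2.1 + m.2.2.1 + m.2.2.2)) := by
    rintro ⟨m0, m1, m2, m3⟩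
    rw [jH_nrm]
    obtain ⟨k, hk⟩ := hq
    have ev : ∀ z : ℤ, 2 ∣ z ^ 2 - z := fun z => by
      rcases Int.even_or_odd z with hz | hz
      · exact ⟨z ^ 2 / 2 - z / 2, by obtain ⟨w, hw⟩ := hz; subst hw; ring_nf; omega⟩
      · obtain ⟨w, hw⟩ := hz
        exact ⟨2 * w ^ 2 + w, by subst hw; ring⟩
    have h0 := ev (β 0 - q * m0)
    have h1 := ev (β 1 - q * m1)
    have h2' := ev (β 2 - q * m2)
    have h3 := ev (β 3 - q * m3)
    have hqz : (q : ℤ) = 2 * k + 1 := by exact_mod_cast hk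
    have hs : (β 0 - q * m0) + (β 1 - q * m1) + (β 2 - q * m2) + (β 3 - q * m3) =
        2 * (B - k * (m0 + m1 + m2 + m3)) - (m0 + m1 + m2 + m3) := by
      rw [hqz]; linear_combination hB
    rw [even_iff_two_dvd]
    simp only
    constructor
    · intro h; omega
    · intro h; omega
  have hGd : ∀ m : ℤ × ℤ × ℤ × ℤ, 2 * Gd lh li lj lk t (jH q β m) =
      (1 + cexp (Real.pi * I * (m.1 + m.2.1 + m.2.2.1 + m.2.2.2))) *
        ((Real.exp (-Real.pi * nrm (jH q β m) / (q ^ 2 * t)) : ℝ) : ℂ) := by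
    intro m
    have hz : cexp (Real.pi * I * (m.1 + m.2.1 + m.2.2.1 + m.2.2.2)) =
        (-1 : ℂ) ^ (m.1 + m.2.1 + m.2.2.1 + m.2.2.2) := by
      rw [← Complex.exp_pi_mul_I, ← Complex.exp_int_mul]
      congr 1
      push_cast
      ring
    unfold Gd
    rw [hz]
    by_cases h : Even (m.1 + m.2.1 + m.2.2.1 + m.2.2.2)
    · rw [if_pos ⟨(hpar m).2 h, hcond m⟩, h.neg_one_zpow]
      ring
    · rw [if_neg (fun h' => h ((hpar m).1 h'.1)), (Int.not_even_iff_odd.1 h).neg_one_zpow]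
      ring
  have hsupp : Function.support (fun μ => Gd lh li lj lk t μ) ⊆ Set.range (jH q β) := by
    intro μ hμ
    rw [Function.mem_support] at hμ
    unfold Gd at hμ
    have hc : 2 ∣ nrm μ ∧ Cond lh li lj lk μ := by
      by_contra h
      rw [if_neg h] at hμ
      exact hμ rfl
    obtain ⟨hev, hc0, hc1, hc2, hc3⟩ := hc
    obtain ⟨⟨s, hs⟩, -⟩ := even_nrm hev
    have f0 : ((β 0 - s : ℤ) : ZMod q) = 0 := by
      push_cast
      rw [hb0]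
      rw [hs] at hc0
      push_cast at hc0
      rw [mul_left_cancel₀ h2 hc0]
      ring
    have f1 : ((β 1 - (s + μ.b) : ℤ) : ZMod q) = 0 := by
      push_cast
      rw [hb1]
      rw [hs] at hc1
      push_cast at hc1
      have : (2 : ZMod q) * (s + μ.b) = 2 * li := by rw [← hc1]; ring
      rw [mul_left_cancel₀ h2 this]
      ring
    have f2 : ((β 2 - (s + μ.c) : ℤ) : ZMod q) = 0 := by
      push_cast
      rw [hb2]
      rw [hs] at hc2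
      push_cast at hc2
      have : (2 : ZMod q) * (s + μ.c) = 2 * lj := by rw [← hc2]; ring
      rw [mul_left_cancel₀ h2 this]
      ring
    have f3 : ((β 3 - (s + μ.d) : ℤ) : ZMod q) = 0 := by
      push_cast
      rw [hb3]
      rw [hs] at hc3
      push_cast at hc3
      have : (2 : ZMod q) * (s + μ.d) = 2 * lk := by rw [← hc3]; ring
      rw [mul_left_cancel₀ h2 this]
      ring
    rw [ZMod.intCast_zmod_eq_zero_iff_dvd] at f0 f1 f2 f3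
    obtain ⟨m0, hm0⟩ := f0
    obtain ⟨m1, hm1⟩ := f1
    obtain ⟨m2, hm2⟩ := f2
    obtain ⟨m3, hm3⟩ := f3
    refine ⟨(m0, m1, m2, m3), ?_⟩
    ext <;> simp only [jH] <;> linarith
  have hsd : ∀ e : Fin 2, Summable (fun m : ℤ × ℤ × ℤ × ℤ =>
      cexp (Real.pi * I * (e : ℕ) * (m.1 + m.2.1 + m.2.2.1 + m.2.2.2)) *
        ((Real.exp (-Real.pi * nrm (jH q β m) / (q ^ 2 * t)) : ℝ) : ℂ)) := by
    intro e
    have := (prod4 (gd_summable ht (β 0 / q) ((e : ℕ) / 2)) (gd_summable ht (β 1 / q) ((e : ℕ) / 2))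
      (gd_summable ht (β 2 / q) ((e : ℕ) / 2)) (gd_summable ht (β 3 / q) ((e : ℕ) / 2))).1.of_norm
    exact this.congr fun m => (keyd m e)
  have hsd0 : Summable (fun m : ℤ × ℤ × ℤ × ℤ => 2 * Gd lh li lj lk t (jH q β m)) := by
    have h0 := (hsd 0).add (hsd 1)
    refine h0.congr fun m => ?_
    rw [hGd]
    simp
    ring
  have hS2 : Summable (fun μ => Gd lh li lj lk t μ) := by
    rw [← (jH_inj hq0 β).summable_iff (fun μ hμ => by
      by_contra h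
      exact hμ (hsupp h))]
    have := hsd0.mul_left (2⁻¹ : ℂ)
    refine this.congr fun m => ?_
    simp
  refine ⟨hS1, hS2.norm, ?_⟩
  have hL : ∑' x : Hur, Gp lh li lj lk t x = ∑ e : Fin 2, ∑' n : ℤ × ℤ × ℤ × ℤ,
      Gp lh li lj lk t (eH (e, n)) := by
    rw [← eH.tsum_eq]
    exact (Summable.tsum_prod ((eH.summable_iff).2 hS1.of_norm)).trans (tsum_fintype _)
  rw [hL]
  simp_rw [key]
  rw [Fin.sum_univ_two, pois4 ht (fun i => (β i : ℝ) / q), pois4 ht (fun i => (β i : ℝ) / q),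
    ← mul_add]
  have hR : ∑' μ : Hur, Gd lh li lj lk t μ = ∑' m : ℤ × ℤ × ℤ × ℤ, Gd lh li lj lk t (jH q β m) := by
    exact ((jH_inj hq0 β).tsum_eq hsupp).symm
  rw [hR]
  have h2R : (2 / (t : ℂ) ^ 2) * ∑' m : ℤ × ℤ × ℤ × ℤ, Gd lh li lj lk t (jH q β m) =
      1 / (t : ℂ) ^ 2 * ∑' m : ℤ × ℤ × ℤ × ℤ, 2 * Gd lh li lj lk t (jH q β m) := by
    rw [tsum_mul_left]; ring
  rw [h2R]
  congr 1
  simp_rw [hGd]
  have k0 : ∀ m : ℤ × ℤ × ℤ × ℤ, (1 + cexp (Real.pi * I * (m.1 + m.2.1 + m.2.2.1 + m.2.2.2))) *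
        ((Real.exp (-Real.pi * nrm (jH q β m) / (q ^ 2 * t)) : ℝ) : ℂ) =
      cexp (Real.pi * I * ((0 : Fin 2) : ℕ) * (m.1 + m.2.1 + m.2.2.1 + m.2.2.2)) *
        ((Real.exp (-Real.pi * nrm (jH q β m) / (q ^ 2 * t)) : ℝ) : ℂ) +
      cexp (Real.pi * I * ((1 : Fin 2) : ℕ) * (m.1 + m.2.1 + m.2.2.1 + m.2.2.2)) *
        ((Real.exp (-Real.pi * nrm (jH q β m) / (q ^ 2 * t)) : ℝ) : ℂ) := by
    intro m
    simp
    ring
  simp_rw [k0]
  rw [(hsd 0).tsum_add (hsd 1)]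
  congr 1
  · exact tsum_congr fun m => keyd m 0
  · exact tsum_congr fun m => keyd m 1

end Pool.Agent.N880.HQ
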