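import Pool.Agent.N880.HQ.Eig

/-! # The Hilbert-Schmidt bound (only the diagonal is present for small norms) -/

set_option autoImplicit false

open Complex Matrix Filter Topology Module

namespace Pool.Agent.N880.HQ

open Hur

lemma bessel {V : Type*} [Fintype V] {g : ℕ} (b : Fin g → V → ℂ)
    (hb : ∀ k l, ∑ v, b k v * (starRingEnd ℂ) (b l v) = if k = l then 1 else 0) (h : V → ℂ) :
    ∑ k, ‖∑ w, h w * b k w‖ ^ 2 ≤ ∑ w, ‖h w‖ ^ 2 := by
  set E := EuclideanSpace ℂ V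
  have hin : ∀ x y : E, inner ℂ x y = ∑ v, y v * (starRingEnd ℂ) (x v) := by
    intro x y
    rw [PiLp.inner_apply]
    refine Finset.sum_congr rfl fun v _ => ?_
    simp
  set f : Fin g → E := fun k => WithLp.toLp 2 (b k) with hf
  set z : E := WithLp.toLp 2 (fun w => (starRingEnd ℂ) (h w)) with hz
  have ho : Orthonormal ℂ f := by
    rw [orthonormal_iff_ite]
    intro i j
    rw [hin]
    have := hb j i
    simp only [hf]
    rw [this]
    simp only [eq_comm]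
  have h1 := ho.sum_inner_products_le (x := z) (s := Finset.univ)
  have h3 : ‖z‖ ^ 2 = ∑ w, ‖h w‖ ^ 2 := by
    rw [EuclideanSpace.norm_sq_eq]
    refine Finset.sum_congr rfl fun w _ => ?_
    simp [hz]
  rw [h3] at h1
  refine le_trans (le_of_eq ?_) h1
  refine Finset.sum_congr rfl fun k _ => ?_
  congr 1
  rw [hin]
  have : ∑ v, z v * (starRingEnd ℂ) (f k v) = (starRingEnd ℂ) (∑ w, h w * b k w) := by
    rw [map_sum]
    refine Finset.sum_congr rfl fun w _ => ?_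
    rw [map_mul]
  rw [this, RCLike.norm_conj]

variable {q : ℕ} [Fact q.Prime] {x y : ZMod q}

lemma nrm_sub_le (α β : Hur) : nrm (α - β) ≤ 2 * nrm α + 2 * nrm β := by
  have h1 := nrm_nonneg (α + β)
  have h2 : nrm (α - β) + nrm (α + β) = 2 * nrm α + 2 * nrm β := by
    unfold nrm
    simp only [sub_a, sub_b, sub_c, sub_d, add_a, add_b, add_c, add_d]
    ring
  linarith

section
variable (h2 : (2 : ZMod q) ≠ 0) (hxy : x ^ 2 + y ^ 2 = -1)
include h2 hxy

lemma small_inj {v : Fin 2 → ZMod q} (hv : v ≠ 0) {α β : Hur} (hα : 4 * nrm α < q)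
    (hβ : 4 * nrm β < q) (h : v ᵥ* mat x y α = v ᵥ* mat x y β) : α = β := by
  have h0 : v ᵥ* mat x y (α - β) = 0 := by
    rw [mat_sub, Matrix.vecMul_sub, h, sub_self]
  have h1 : ((nrm (α - β) : ℤ) : ZMod q) = 0 := by
    rw [← mat_det h2 hxy]
    by_contra hne
    exact hv (Matrix.eq_zero_of_vecMul_eq_zero hne h0)
  rw [ZMod.intCast_zmod_eq_zero_iff_dvd] at h1
  have h3 := nrm_sub_le α β
  have h4 := nrm_nonneg (α - β)
  have h5 : nrm (α - β) = 0 := by
    by_contra hne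
    have := Int.le_of_dvd (by omega) h1
    omega
  have h6 := nrm_eq_zero.1 h5
  exact sub_eq_zero.1 h6

/-- the Hilbert-Schmidt bound -/
theorem hs_bound (𝒮 : Finset Hur) (h𝒮 : ∀ α ∈ 𝒮, 4 * nrm α < q) (G : Hur → ℂ) {g : ℕ}
    (b : Fin g → (Fin 2 → ZMod q) → ℂ) (hb0 : ∀ k, b k 0 = 0)
    (hb : ∀ k l, ∑ v, b k v * (starRingEnd ℂ) (b l v) = if k = l then 1 else 0) :
    ∑ k, ∑ v, ‖∑ α ∈ 𝒮, G α * b k (v ᵥ* mat x y α)‖ ^ 2 ≤
      ((q : ℝ) ^ 2 - 1) * ∑ α ∈ 𝒮, ‖G α‖ ^ 2 := by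
  classical
  rw [Finset.sum_comm]
  have hrow : ∀ v : Fin 2 → ZMod q, ∑ k, ‖∑ α ∈ 𝒮, G α * b k (v ᵥ* mat x y α)‖ ^ 2 ≤
      if v = 0 then 0 else ∑ α ∈ 𝒮, ‖G α‖ ^ 2 := by
    intro v
    split_ifs with hv
    · subst hv
      simp [Matrix.zero_vecMul, hb0]
    · set H : (Fin 2 → ZMod q) → ℂ := fun w => ∑ α ∈ 𝒮.filter (fun α => v ᵥ* mat x y α = w), G α
        with hH
      have e1 : ∀ k, ∑ α ∈ 𝒮, G α * b k (v ᵥ* mat x y α) = ∑ w, H w * b k w := by
        intro k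
        rw [← Finset.sum_fiberwise_of_maps_to (s := 𝒮) (t := Finset.univ)
          (g := fun α => v ᵥ* mat x y α) (fun _ _ => Finset.mem_univ _)]
        refine Finset.sum_congr rfl fun w _ => ?_
        rw [hH]
        simp only
        rw [Finset.sum_mul]
        refine Finset.sum_congr rfl fun α hα => ?_
        rw [(Finset.mem_filter.1 hα).2]
      simp_rw [e1]
      refine (bessel b hb H).trans (le_of_eq ?_)
      rw [← Finset.sum_fiberwise_of_maps_to (s := 𝒮) (t := Finset.univ)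
          (g := fun α => v ᵥ* mat x y α) (fun _ _ => Finset.mem_univ _)]
      refine Finset.sum_congr rfl fun w _ => ?_
      rw [hH]
      simp only
      -- the fibre has at most one element
      rcases (𝒮.filter (fun α => v ᵥ* mat x y α = w)).eq_empty_or_nonempty with h0 | ⟨α, hα⟩
      · rw [h0]; simp
      · have : 𝒮.filter (fun α => v ᵥ* mat x y α = w) = {α} := by
          rw [Finset.eq_singleton_iff_unique_mem]
          refine ⟨hα, fun β hβ => ?_⟩
          rw [Finset.mem_filter] at hα hβ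
          exact small_inj h2 hxy hv (h𝒮 β hβ.1) (h𝒮 α hα.1) (by rw [hα.2, hβ.2])
        rw [this, Finset.sum_singleton, Finset.sum_singleton]
  refine (Finset.sum_le_sum fun v _ => hrow v).trans (le_of_eq ?_)
  rw [Finset.sum_ite, Finset.sum_const_zero, zero_add, Finset.sum_const, nsmul_eq_mul]
  congr 1
  have h1 : (Finset.univ.filter (fun v : Fin 2 → ZMod q => ¬ v = 0)).card = q ^ 2 - 1 := by
    rw [Finset.filter_not, Finset.filter_eq', if_pos (Finset.mem_univ _),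
      Finset.card_univ_diff, Fintype.card_fun, ZMod.card, Fintype.card_fin, Finset.card_singleton]
  rw [h1]
  have : 1 ≤ q ^ 2 := Nat.one_le_pow _ _ (Fact.out : q.Prime).pos
  push_cast [Nat.cast_sub this]
  ring

/-- bound for eigenvalues -/
theorem hs_eig (𝒮 : Finset Hur) (h𝒮 : ∀ α ∈ 𝒮, 4 * nrm α < q) (G : Hur → ℂ) {g : ℕ}
    (b : Fin g → (Fin 2 → ZMod q) → ℂ) (hb0 : ∀ k, b k 0 = 0)
    (hb : ∀ k l, ∑ v, b k v * (starRingEnd ℂ) (b l v) = if k = l then 1 else 0) (μ : Fin g → ℂ)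
    (hμ : ∀ k v, ∑ α ∈ 𝒮, G α * b k (v ᵥ* mat x y α) = μ k * b k v) :
    ∑ k, ‖μ k‖ ^ 2 ≤ ((q : ℝ) ^ 2 - 1) * ∑ α ∈ 𝒮, ‖G α‖ ^ 2 := by
  refine le_trans (le_of_eq ?_) (hs_bound h2 hxy 𝒮 h𝒮 G b hb0 hb)
  refine Finset.sum_congr rfl fun k _ => ?_
  simp_rw [hμ, norm_mul, mul_pow]
  rw [← Finset.mul_sum]
  have h := hb k k
  rw [if_pos rfl] at h
  have h3 : ((∑ v, ‖b k v‖ ^ 2 : ℝ) : ℂ) = 1 := by
    rw [← h]
    push_cast
    refine Finset.sum_congr rfl fun v _ => ?_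
    rw [Complex.mul_conj, Complex.normSq_eq_norm_sq]
    push_cast
    rfl
  have h4 : ∑ v, ‖b k v‖ ^ 2 = 1 := by exact_mod_cast h3
  rw [h4, mul_one]

end

end Pool.Agent.N880.HQ
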