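import Mathlib

/-!
# The Hurwitz order

`Hur` is the ring of Hurwitz quaternions: the quadruple `(a, b, c, d)` of integers stands for
`a h + b i + c j + d k`, `h = (1 + i + j + k) / 2`.
-/

set_option autoImplicit false

namespace Pool.Agent.N880.HQ

/-- The Hurwitz quaternion `a h + b i + c j + d k`, `h = (1 + i + j + k) / 2`. -/
@[ext] structure Hur where
  /-- coefficient of `h = (1 + i + j + k) / 2` -/
  a : ℤ
  /-- coefficient of `i` -/
  b : ℤ
  /-- coefficient of `j` -/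
  c : ℤ
  /-- coefficient of `k` -/
  d : ℤ
deriving DecidableEq

namespace Hur

instance : Zero Hur := ⟨⟨0, 0, 0, 0⟩⟩
instance : One Hur := ⟨⟨2, -1, -1, -1⟩⟩
instance : Add Hur := ⟨fun x y => ⟨x.a + y.a, x.b + y.b, x.c + y.c, x.d + y.d⟩⟩
instance : Neg Hur := ⟨fun x => ⟨-x.a, -x.b, -x.c, -x.d⟩⟩
instance : Sub Hur := ⟨fun x y => ⟨x.a - y.a, x.b - y.b, x.c - y.c, x.d - y.d⟩⟩
instance : Mul Hur := ⟨fun x y =>
  ⟨-(x.a * y.a) - x.a * (y.b + y.c + y.d) - y.a * (x.b + x.c + x.d) -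
      2 * (x.b * y.b + x.c * y.c + x.d * y.d),
    x.a * y.a + x.a * y.b + x.a * y.d + y.a * x.b + y.a * x.c +
      (x.b * y.b + x.c * y.c + x.d * y.d) + x.c * y.d - x.d * y.c,
    x.a * y.a + x.a * y.c + x.a * y.b + y.a * x.c + y.a * x.d +
      (x.b * y.b + x.c * y.c + x.d * y.d) + x.d * y.b - x.b * y.d,
    x.a * y.a + x.a * y.d + x.a * y.c + y.a * x.d + y.a * x.b +
      (x.b * y.b + x.c * y.c + x.d * y.d) + x.b * y.c - x.c * y.b⟩⟩
instance : SMul ℕ Hur := ⟨fun n x => ⟨n * x.a, n * x.b, n * x.c, n * x.d⟩⟩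
instance : SMul ℤ Hur := ⟨fun n x => ⟨n * x.a, n * x.b, n * x.c, n * x.d⟩⟩
instance : NatCast Hur := ⟨fun n => ⟨2 * n, -n, -n, -n⟩⟩
instance : IntCast Hur := ⟨fun n => ⟨2 * n, -n, -n, -n⟩⟩

@[simp] lemma zero_a : (0 : Hur).a = 0 := rfl
@[simp] lemma zero_b : (0 : Hur).b = 0 := rfl
@[simp] lemma zero_c : (0 : Hur).c = 0 := rfl
@[simp] lemma zero_d : (0 : Hur).d = 0 := rfl
@[simp] lemma one_a : (1 : Hur).a = 2 := rfl
@[simp] lemma one_b : (1 : Hur).b = -1 := rfl
@[simp] lemma one_c : (1 : Hur).c = -1 := rfl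
@[simp] lemma one_d : (1 : Hur).d = -1 := rfl
@[simp] lemma add_a (x y : Hur) : (x + y).a = x.a + y.a := rfl
@[simp] lemma add_b (x y : Hur) : (x + y).b = x.b + y.b := rfl
@[simp] lemma add_c (x y : Hur) : (x + y).c = x.c + y.c := rfl
@[simp] lemma add_d (x y : Hur) : (x + y).d = x.d + y.d := rfl
@[simp] lemma neg_a (x : Hur) : (-x).a = -x.a := rfl
@[simp] lemma neg_b (x : Hur) : (-x).b = -x.b := rfl
@[simp] lemma neg_c (x : Hur) : (-x).c = -x.c := rfl
@[simp] lemma neg_d (x : Hur) : (-x).d = -x.d := rfl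
@[simp] lemma sub_a (x y : Hur) : (x - y).a = x.a - y.a := rfl
@[simp] lemma sub_b (x y : Hur) : (x - y).b = x.b - y.b := rfl
@[simp] lemma sub_c (x y : Hur) : (x - y).c = x.c - y.c := rfl
@[simp] lemma sub_d (x y : Hur) : (x - y).d = x.d - y.d := rfl
lemma mul_a (x y : Hur) : (x * y).a =
  -(x.a * y.a) - x.a * (y.b + y.c + y.d) - y.a * (x.b + x.c + x.d) -
      2 * (x.b * y.b + x.c * y.c + x.d * y.d) := rfl
lemma mul_b (x y : Hur) : (x * y).b =
  x.a * y.a + x.a * y.b + x.a * y.d + y.a * x.b + y.a * x.c +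
      (x.b * y.b + x.c * y.c + x.d * y.d) + x.c * y.d - x.d * y.c := rfl
lemma mul_c (x y : Hur) : (x * y).c =
  x.a * y.a + x.a * y.c + x.a * y.b + y.a * x.c + y.a * x.d +
      (x.b * y.b + x.c * y.c + x.d * y.d) + x.d * y.b - x.b * y.d := rfl
lemma mul_d (x y : Hur) : (x * y).d =
  x.a * y.a + x.a * y.d + x.a * y.c + y.a * x.d + y.a * x.b +
      (x.b * y.b + x.c * y.c + x.d * y.d) + x.b * y.c - x.c * y.b := rfl
@[simp] lemma nsmul_a (n : ℕ) (x : Hur) : (n • x).a = n * x.a := rfl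
@[simp] lemma nsmul_b (n : ℕ) (x : Hur) : (n • x).b = n * x.b := rfl
@[simp] lemma nsmul_c (n : ℕ) (x : Hur) : (n • x).c = n * x.c := rfl
@[simp] lemma nsmul_d (n : ℕ) (x : Hur) : (n • x).d = n * x.d := rfl
@[simp] lemma zsmul_a (n : ℤ) (x : Hur) : (n • x).a = n * x.a := rfl
@[simp] lemma zsmul_b (n : ℤ) (x : Hur) : (n • x).b = n * x.b := rfl
@[simp] lemma zsmul_c (n : ℤ) (x : Hur) : (n • x).c = n * x.c := rfl
@[simp] lemma zsmul_d (n : ℤ) (x : Hur) : (n • x).d = n * x.d := rfl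
@[simp] lemma natCast_a (n : ℕ) : (n : Hur).a = 2 * n := rfl
@[simp] lemma natCast_b (n : ℕ) : (n : Hur).b = -n := rfl
@[simp] lemma natCast_c (n : ℕ) : (n : Hur).c = -n := rfl
@[simp] lemma natCast_d (n : ℕ) : (n : Hur).d = -n := rfl
@[simp] lemma intCast_a (n : ℤ) : (n : Hur).a = 2 * n := rfl
@[simp] lemma intCast_b (n : ℤ) : (n : Hur).b = -n := rfl
@[simp] lemma intCast_c (n : ℤ) : (n : Hur).c = -n := rfl
@[simp] lemma intCast_d (n : ℤ) : (n : Hur).d = -n := rfl

instance : Ring Hur where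
  add_assoc x y z := by ext <;> simp <;> ring
  zero_add x := by ext <;> simp
  add_zero x := by ext <;> simp
  add_comm x y := by ext <;> simp <;> ring
  nsmul n x := n • x
  nsmul_zero x := by ext <;> simp
  nsmul_succ n x := by ext <;> simp <;> ring
  left_distrib x y z := by ext <;> simp [mul_a, mul_b, mul_c, mul_d] <;> ring
  right_distrib x y z := by ext <;> simp [mul_a, mul_b, mul_c, mul_d] <;> ring
  zero_mul x := by ext <;> simp [mul_a, mul_b, mul_c, mul_d]
  mul_zero x := by ext <;> simp [mul_a, mul_b, mul_c, mul_d]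
  mul_assoc x y z := by ext <;> simp only [mul_a, mul_b, mul_c, mul_d] <;> ring
  one_mul x := by ext <;> simp [mul_a, mul_b, mul_c, mul_d] <;> ring
  mul_one x := by ext <;> simp [mul_a, mul_b, mul_c, mul_d] <;> ring
  neg_add_cancel x := by ext <;> simp
  sub_eq_add_neg x y := by ext <;> simp <;> ring
  zsmul n x := n • x
  zsmul_zero' x := by ext <;> simp
  zsmul_succ' n x := by ext <;> simp <;> ring
  zsmul_neg' n x := by ext <;> simp [Int.negSucc_eq] <;> ring
  natCast n := (n : Hur)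
  natCast_zero := by ext <;> simp
  natCast_succ n := by ext <;> simp <;> ring
  intCast n := (n : Hur)
  intCast_ofNat n := by ext <;> simp
  intCast_negSucc n := by ext <;> simp [Int.negSucc_eq] <;> ring

lemma natCast_mul_a (n : ℕ) (x : Hur) : ((n : Hur) * x).a = n * x.a := by
  simp [mul_a]; ring
lemma natCast_mul_b (n : ℕ) (x : Hur) : ((n : Hur) * x).b = n * x.b := by
  simp [mul_b]; ring
lemma natCast_mul_c (n : ℕ) (x : Hur) : ((n : Hur) * x).c = n * x.c := by
  simp [mul_c]; ring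
lemma natCast_mul_d (n : ℕ) (x : Hur) : ((n : Hur) * x).d = n * x.d := by
  simp [mul_d]; ring

/-- conjugation -/
def conj (x : Hur) : Hur := ⟨x.a, -x.a - x.b, -x.a - x.c, -x.a - x.d⟩

@[simp] lemma conj_a (x : Hur) : (conj x).a = x.a := rfl
@[simp] lemma conj_b (x : Hur) : (conj x).b = -x.a - x.b := rfl
@[simp] lemma conj_c (x : Hur) : (conj x).c = -x.a - x.c := rfl
@[simp] lemma conj_d (x : Hur) : (conj x).d = -x.a - x.d := rfl

lemma conj_conj (x : Hur) : conj (conj x) = x := by ext <;> simp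
lemma conj_add (x y : Hur) : conj (x + y) = conj x + conj y := by ext <;> simp <;> ring
lemma conj_sub (x y : Hur) : conj (x - y) = conj x - conj y := by ext <;> simp <;> ring
lemma conj_zero : conj 0 = 0 := by ext <;> simp
lemma conj_one : conj 1 = 1 := by ext <;> simp
lemma conj_mul (x y : Hur) : conj (x * y) = conj y * conj x := by
  ext <;> simp only [mul_a, mul_b, mul_c, mul_d, conj_a, conj_b, conj_c, conj_d] <;> ring

/-- The reduced norm `a² + a b + a c + a d + b² + c² + d²` of `a h + b i + c j + d k`. -/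
def nrm (x : Hur) : ℤ := x.a ^ 2 + x.a * x.b + x.a * x.c + x.a * x.d + x.b ^ 2 + x.c ^ 2 + x.d ^ 2

lemma four_nrm (x : Hur) : 4 * nrm x = x.a ^ 2 + (x.a + 2 * x.b) ^ 2 + (x.a + 2 * x.c) ^ 2 +
    (x.a + 2 * x.d) ^ 2 := by
  unfold nrm; ring

lemma nrm_nonneg (x : Hur) : 0 ≤ nrm x := by
  have h := four_nrm x
  have h1 := sq_nonneg x.a
  have h2 := sq_nonneg (x.a + 2 * x.b)
  have h3 := sq_nonneg (x.a + 2 * x.c)
  have h4 := sq_nonneg (x.a + 2 * x.d)
  linarith

lemma nrm_mul (x y : Hur) : nrm (x * y) = nrm x * nrm y := by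
  unfold nrm
  simp only [mul_a, mul_b, mul_c, mul_d]
  ring

lemma nrm_zero : nrm 0 = 0 := by simp [nrm]
lemma nrm_one : nrm 1 = 1 := by simp [nrm]
lemma nrm_conj (x : Hur) : nrm (conj x) = nrm x := by
  unfold nrm; simp only [conj_a, conj_b, conj_c, conj_d]; ring
lemma nrm_neg (x : Hur) : nrm (-x) = nrm x := by
  unfold nrm; simp only [neg_a, neg_b, neg_c, neg_d]; ring
lemma nrm_natCast (n : ℕ) : nrm (n : Hur) = (n : ℤ) ^ 2 := by
  unfold nrm; simp only [natCast_a, natCast_b, natCast_c, natCast_d]; ring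

lemma mul_conj (x : Hur) : x * conj x = ((nrm x : ℤ) : Hur) := by
  ext <;> simp only [mul_a, mul_b, mul_c, mul_d, conj_a, conj_b, conj_c, conj_d, intCast_a,
    intCast_b, intCast_c, intCast_d, nrm] <;> ring

lemma conj_mul_self (x : Hur) : conj x * x = ((nrm x : ℤ) : Hur) := by
  ext <;> simp only [mul_a, mul_b, mul_c, mul_d, conj_a, conj_b, conj_c, conj_d, intCast_a,
    intCast_b, intCast_c, intCast_d, nrm] <;> ring

lemma nrm_eq_zero {x : Hur} : nrm x = 0 ↔ x = 0 := by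
  constructor
  · intro h
    have h0 := four_nrm x
    rw [h] at h0
    have h1 := sq_nonneg x.a
    have h2 := sq_nonneg (x.a + 2 * x.b)
    have h3 := sq_nonneg (x.a + 2 * x.c)
    have h4 := sq_nonneg (x.a + 2 * x.d)
    have e1 : x.a = 0 := by
      have : x.a ^ 2 = 0 := by linarith
      exact pow_eq_zero_iff (two_ne_zero) |>.1 this
    have e2 : x.a + 2 * x.b = 0 := by
      have : (x.a + 2 * x.b) ^ 2 = 0 := by linarith
      exact pow_eq_zero_iff (two_ne_zero) |>.1 this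
    have e3 : x.a + 2 * x.c = 0 := by
      have : (x.a + 2 * x.c) ^ 2 = 0 := by linarith
      exact pow_eq_zero_iff (two_ne_zero) |>.1 this
    have e4 : x.a + 2 * x.d = 0 := by
      have : (x.a + 2 * x.d) ^ 2 = 0 := by linarith
      exact pow_eq_zero_iff (two_ne_zero) |>.1 this
    ext <;> simp <;> omega
  · rintro rfl
    exact nrm_zero

lemma nrm_pos {x : Hur} (h : x ≠ 0) : 0 < nrm x :=
  lt_of_le_of_ne (nrm_nonneg x) (fun h' => h (nrm_eq_zero.1 h'.symm))

lemma intCast_comm (n : ℤ) (x : Hur) : (n : Hur) * x = x * (n : Hur) := Int.cast_comm n x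

lemma intCast_mul_a (n : ℤ) (x : Hur) : ((n : Hur) * x).a = n * x.a := by
  simp [mul_a]; ring
lemma intCast_mul_b (n : ℤ) (x : Hur) : ((n : Hur) * x).b = n * x.b := by
  simp [mul_b]; ring
lemma intCast_mul_c (n : ℤ) (x : Hur) : ((n : Hur) * x).c = n * x.c := by
  simp [mul_c]; ring
lemma intCast_mul_d (n : ℤ) (x : Hur) : ((n : Hur) * x).d = n * x.d := by
  simp [mul_d]; ring

lemma intCast_mul_cancel {n : ℤ} (hn : n ≠ 0) {x y : Hur} (h : (n : Hur) * x = (n : Hur) * y) :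
    x = y := by
  have h1 := congrArg Hur.a h
  have h2 := congrArg Hur.b h
  have h3 := congrArg Hur.c h
  have h4 := congrArg Hur.d h
  rw [intCast_mul_a, intCast_mul_a] at h1
  rw [intCast_mul_b, intCast_mul_b] at h2
  rw [intCast_mul_c, intCast_mul_c] at h3
  rw [intCast_mul_d, intCast_mul_d] at h4
  ext
  · exact mul_left_cancel₀ hn h1
  · exact mul_left_cancel₀ hn h2
  · exact mul_left_cancel₀ hn h3
  · exact mul_left_cancel₀ hn h4

lemma mul_left_cancel' {x y z : Hur} (hx : x ≠ 0) (h : x * y = x * z) : y = z := by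
  have h1 : conj x * (x * y) = conj x * (x * z) := by rw [h]
  rw [← mul_assoc, ← mul_assoc, conj_mul_self] at h1
  exact intCast_mul_cancel (nrm_pos hx).ne' h1

lemma mul_right_cancel' {x y z : Hur} (hx : x ≠ 0) (h : y * x = z * x) : y = z := by
  have h1 : (y * x) * conj x = (z * x) * conj x := by rw [h]
  rw [mul_assoc, mul_assoc, mul_conj, ← intCast_comm, ← intCast_comm] at h1
  exact intCast_mul_cancel (nrm_pos hx).ne' h1

/-- the trace form -/
lemma nrm_add (x y : Hur) : nrm (x + y) = nrm x + nrm y + (x * conj y).a := by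
  unfold nrm
  simp only [mul_a, add_a, add_b, add_c, add_d, conj_a, conj_b, conj_c, conj_d]
  ring

end Hur

end Pool.Agent.N880.HQ
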