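import Pool.Agent.N880.HQ.Count

/-! # The right ideal of a row vector modulo an odd prime; the number of elements of norm `p` -/

set_option autoImplicit false

namespace Pool.Agent.N880.HQ

open Hur Matrix

/-- the symplectic form on row vectors -/
def sy {F : Type*} [Ring F] (u v : Fin 2 → F) : F := u 0 * v 1 - u 1 * v 0

section
variable {p : ℕ} [Fact p.Prime] {x y : ZMod p}

lemma vecMul_two {F : Type*} [Semiring F] (v : Fin 2 → F) (M : Matrix (Fin 2) (Fin 2) F) :
    v ᵥ* M = ![v 0 * M 0 0 + v 1 * M 1 0, v 0 * M 0 1 + v 1 * M 1 1] := by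
  ext i
  fin_cases i <;> simp [Matrix.vecMul, dotProduct, Fin.sum_univ_two]

lemma sy_vecMul {F : Type*} [CommRing F] (u v : Fin 2 → F) (M : Matrix (Fin 2) (Fin 2) F) :
    sy (u ᵥ* M) v = sy u (v ᵥ* M.adjugate) := by
  rw [vecMul_two, vecMul_two, Matrix.adjugate_fin_two]
  simp [sy]
  ring

lemma sy_self {F : Type*} [CommRing F] (u : Fin 2 → F) : sy u u = 0 := by
  simp [sy]; ring

lemma sy_neg {F : Type*} [CommRing F] (u v : Fin 2 → F) : sy u v = - sy v u := by
  simp only [sy]; ring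

lemma exists_dual {F : Type*} [Field F] {v : Fin 2 → F} (hv : v ≠ 0) : ∃ u : Fin 2 → F, sy u v = 1 := by
  by_cases h0 : v 0 = 0
  · have h1 : v 1 ≠ 0 := by
      intro h1
      apply hv
      ext i
      fin_cases i
      · exact h0
      · exact h1
    refine ⟨![(v 1)⁻¹, 0], ?_⟩
    simp [sy, h1]
  · refine ⟨![0, -(v 0)⁻¹], ?_⟩
    simp [sy, h0]

/-- expansion in the basis `v`, `u` with `sy u v = 1` -/
lemma expand {F : Type*} [CommRing F] {u v : Fin 2 → F} (h : sy u v = 1) (z : Fin 2 → F) :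
    z = sy z v • u + sy u z • v := by
  ext i
  fin_cases i
  · simp only [sy, Pi.add_apply, Pi.smul_apply, smul_eq_mul, Fin.zero_eta, Fin.isValue] at h ⊢
    linear_combination (- z 0) * h
  · simp only [sy, Pi.add_apply, Pi.smul_apply, smul_eq_mul, Fin.mk_one, Fin.isValue] at h ⊢
    linear_combination (- z 1) * h

lemma mul_of_sy_zero {F : Type*} [Field F] {v z : Fin 2 → F} (hv : v ≠ 0) (h : sy v z = 0) :
    ∃ t : F, z = t • v := by
  obtain ⟨u, hu⟩ := exists_dual hv
  refine ⟨sy u z, ?_⟩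
  have := expand hu z
  rw [sy_neg z v, h] at this
  simpa using this

/-- there is an element of norm `p` generating the annihilator of `v` -/
theorem ker_principal (h2 : (2 : ZMod p) ≠ 0) (hxy : x ^ 2 + y ^ 2 = -1) {v : Fin 2 → ZMod p}
    (hv : v ≠ 0) : ∃ δ : Hur, nrm δ = p ∧ v ᵥ* mat x y δ = 0 ∧
      ∀ γ : Hur, v ᵥ* mat x y γ = 0 → ∃ ε : Hur, γ = δ * ε := by
  have hp : p.Prime := Fact.out
  have hpZ : (0 : ℤ) < p := by exact_mod_cast hp.pos
  have hpp : Prime (p : ℤ) := Nat.prime_iff_prime_int.1 hp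
  have hpm : v ᵥ* mat x y (p : Hur) = 0 := by
    rw [mat_natCast h2]; simp
  have hpne : (p : Hur) ≠ 0 := by
    intro h
    have := congrArg Hur.a h
    simp at this
    have := hp.pos
    omega
  obtain ⟨δ, hδ, hδ0, hJ⟩ := right_principal {γ : Hur | v ᵥ* mat x y γ = 0} ⟨(p : Hur), hpm, hpne⟩
    (fun a ha b hb => by
      simp only [Set.mem_ofPred_eq] at ha hb ⊢
      rw [mat_sub, Matrix.vecMul_sub, ha, hb, sub_zero])
    (fun a ha b => by
      simp only [Set.mem_ofPred_eq] at ha ⊢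
      rw [mat_mul h2 hxy, ← Matrix.vecMul_vecMul, ha, Matrix.zero_vecMul])
  have hδ' : v ᵥ* mat x y δ = 0 := hδ
  refine ⟨δ, ?_, hδ', hJ⟩
  obtain ⟨μ, hμ⟩ := hJ (p : Hur) hpm
  have n2 : (p : ℤ) ^ 2 = nrm δ * nrm μ := by rw [← nrm_natCast, hμ, nrm_mul]
  have hδp := nrm_pos hδ0
  -- p ∣ nrm δ
  have hdet : (mat x y δ).det = 0 := by
    rw [← Matrix.exists_vecMul_eq_zero_iff]
    exact ⟨v, hv, hδ'⟩
  have hd : (p : ℤ) ∣ nrm δ := by
    rw [mat_det h2 hxy] at hdet
    exact (ZMod.intCast_zmod_eq_zero_iff_dvd _ _).1 hdet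
  obtain ⟨e, he⟩ := hd
  have he0 : 0 < e := by
    by_contra h
    nlinarith
  have h3 : (p : ℤ) = e * nrm μ := by
    have : (p : ℤ) * p = p * (e * nrm μ) := by rw [← sq, n2, he]; ring
    exact mul_left_cancel₀ hpZ.ne' this
  have hμp : 0 < nrm μ := by
    by_contra h
    nlinarith
  rcases (hpp.irreducible.isUnit_or_isUnit h3) with h5 | h5
  · rw [he, (Int.isUnit_iff.1 h5).resolve_right (by omega), mul_one]
  · exfalso
    have h6 : nrm μ = 1 := (Int.isUnit_iff.1 h5).resolve_right (by omega)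
    have h7 : δ = (p : Hur) * conj μ := by
      rw [hμ, mul_assoc, (isUnit_of_nrm h6).2, mul_one]
    -- then everything in J is divisible by p
    obtain ⟨u, hu⟩ := exists_dual hv
    -- the matrix z ↦ sy z v • v kills v and is not zero
    obtain ⟨γ, hγ⟩ := mat_surj h2 hxy (x := x) (y := y) (!![v 1 * v 0, v 1 * v 1; -(v 0 * v 0), -(v 0 * v 1)])
    have h8 : v ᵥ* mat x y γ = 0 := by
      rw [hγ, vecMul_two]
      ext i
      fin_cases i <;> simp <;> ring
    obtain ⟨ε, hε⟩ := hJ γ h8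
    have h9 : mat x y γ = 0 := by
      rw [mat_eq_zero h2 hxy]
      exact ⟨conj μ * ε, by rw [hε, h7, mul_assoc]⟩
    rw [hγ] at h9
    apply hv
    have a1 := congrFun (congrFun h9 0) 1
    have a2 := congrFun (congrFun h9 1) 0
    simp at a1 a2
    ext i
    fin_cases i
    · exact a2
    · exact a1

theorem card_ker (h2 : (2 : ZMod p) ≠ 0) (hxy : x ^ 2 + y ^ 2 = -1) {v : Fin 2 → ZMod p}
    (hv : v ≠ 0) : ((S p).filter (fun α => v ᵥ* mat x y α = 0)).card = 24 := by
  have hp : p.Prime := Fact.out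
  have hpZ : (0 : ℤ) < p := by exact_mod_cast hp.pos
  obtain ⟨δ, h1, h3, h4⟩ := ker_principal h2 hxy hv
  rw [← card_S_one]
  symm
  have hδ0 : δ ≠ 0 := by
    rintro rfl
    rw [nrm_zero] at h1
    omega
  refine Finset.card_bij (fun u _ => δ * u) ?_ ?_ ?_
  · intro u hu
    rw [Finset.mem_filter, mat_mul h2 hxy, ← Matrix.vecMul_vecMul, h3, Matrix.zero_vecMul]
    exact ⟨mul_unit_mem hu (mem_S.2 h1), rfl⟩
  · intro u _ u' _ h
    exact mul_left_cancel' hδ0 h
  · intro γ hγ
    rw [Finset.mem_filter] at hγ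
    obtain ⟨ε, hε⟩ := h4 γ hγ.2
    refine ⟨ε, ?_, hε.symm⟩
    have h5 := mem_S.1 hγ.1
    rw [hε, nrm_mul, h1] at h5
    rw [mem_S, Nat.cast_one]
    have : (p : ℤ) * nrm ε = p * 1 := by rw [h5, mul_one]
    exact mul_left_cancel₀ hpZ.ne' this

/-- the left kernel of an element of norm `p` is a line -/
lemma card_left_ker (h2 : (2 : ZMod p) ≠ 0) (hxy : x ^ 2 + y ^ 2 = -1) {α : Hur} (hα : α ∈ S p) :
    (Finset.univ.filter (fun v : Fin 2 → ZMod p => v ≠ 0 ∧ v ᵥ* mat x y α = 0)).card = p - 1 := by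
  have hp : p.Prime := Fact.out
  have hdet : (mat x y α).det = 0 := by
    rw [mat_det h2 hxy, mem_S.1 hα]; simp
  obtain ⟨v, hv, hv0⟩ := Matrix.exists_vecMul_eq_zero_iff.2 hdet
  have hne : mat x y α ≠ 0 := by
    intro h
    rw [mat_eq_zero h2 hxy] at h
    obtain ⟨δ, hδ⟩ := h
    have h5 := mem_S.1 hα
    rw [hδ, nrm_mul, nrm_natCast] at h5
    have hpZ : (0 : ℤ) < p := by exact_mod_cast hp.pos
    have h6 : (p : ℤ) * nrm δ = 1 := by
      have : (p : ℤ) * (p * nrm δ) = p * 1 := by linear_combination h5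
      exact mul_left_cancel₀ hpZ.ne' this
    have h7 : (p : ℤ) ∣ 1 := ⟨_, h6.symm⟩
    have h8 := Int.le_of_dvd one_pos h7
    have h9 : (1 : ℤ) < p := by exact_mod_cast hp.one_lt
    omega
  have hset : (Finset.univ.filter (fun v : Fin 2 → ZMod p => v ≠ 0 ∧ v ᵥ* mat x y α = 0)) =
      (Finset.univ.filter (fun t : ZMod p => t ≠ 0)).image (fun t => t • v) := by
    ext z
    simp only [Finset.mem_filter, Finset.mem_univ, true_and, Finset.mem_image]
    constructor
    · rintro ⟨hz, hz0⟩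
      have hs : sy v z = 0 := by
        by_contra hs
        apply hne
        -- every row vector is killed
        have h5 : ∀ w : Fin 2 → ZMod p, w ᵥ* mat x y α = 0 := by
          intro w
          have h6 : sy ((sy v z)⁻¹ • v) z = 1 := by
            simp only [sy, Pi.smul_apply, smul_eq_mul] at hs ⊢
            field_simp
          have h7 := expand h6 w
          rw [h7, Matrix.add_vecMul, Matrix.smul_vecMul, Matrix.smul_vecMul, Matrix.smul_vecMul,
            hv0, hz0]
          simp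
        have h6 := h5 ![1, 0]
        have h7 := h5 ![0, 1]
        rw [vecMul_two] at h6 h7
        simp at h6 h7
        ext i j
        fin_cases i <;> fin_cases j
        · exact h6.1
        · exact h6.2
        · exact h7.1
        · exact h7.2
      obtain ⟨t, ht⟩ := mul_of_sy_zero hv hs
      refine ⟨t, ?_, ht.symm⟩
      rintro rfl
      apply hz
      rw [ht, zero_smul]
    · rintro ⟨t, ht, rfl⟩
      refine ⟨smul_ne_zero ht hv, ?_⟩
      rw [Matrix.smul_vecMul, hv0, smul_zero]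
  rw [hset, Finset.card_image_of_injective _ (smul_left_injective _ hv)]
  have : (Finset.univ.filter (fun t : ZMod p => t ≠ 0)) = Finset.univ.erase 0 := by
    ext t; simp
  rw [this, Finset.card_erase_of_mem (Finset.mem_univ _), Finset.card_univ, ZMod.card]

/-- the number of Hurwitz quaternions of norm `p` is `24 (p + 1)`, for odd primes `p` -/
theorem card_S_prime (hp2 : p ≠ 2) : (S p).card = 24 * (p + 1) := by
  have hp : p.Prime := Fact.out
  have h2 : (2 : ZMod p) ≠ 0 := by
    intro h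
    have : ((2 : ℕ) : ZMod p) = 0 := by exact_mod_cast h
    rw [ZMod.natCast_eq_zero_iff] at this
    exact hp2 ((Nat.prime_dvd_prime_iff_eq hp Nat.prime_two).1 this)
  obtain ⟨x, y, hxy⟩ := ZMod.sq_add_sq p (-1)
  have hdc : ∑ v ∈ Finset.univ.filter (fun v : Fin 2 → ZMod p => v ≠ 0),
      ((S p).filter (fun α => v ᵥ* mat x y α = 0)).card =
      ∑ α ∈ S p, (Finset.univ.filter (fun v : Fin 2 → ZMod p => v ≠ 0 ∧ v ᵥ* mat x y α = 0)).card := by
    simp only [Finset.card_filter (fun α => _ ᵥ* mat x y α = 0)]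
    rw [Finset.sum_comm]
    refine Finset.sum_congr rfl fun α _ => ?_
    rw [← Finset.card_filter, Finset.filter_filter]
  rw [Finset.sum_congr rfl (fun v hv => card_ker h2 hxy (Finset.mem_filter.1 hv).2),
    Finset.sum_congr rfl (fun α hα => card_left_ker h2 hxy hα), Finset.sum_const,
    Finset.sum_const] at hdc
  have hcv : (Finset.univ.filter (fun v : Fin 2 → ZMod p => v ≠ 0)).card = p ^ 2 - 1 := by
    have : (Finset.univ.filter (fun v : Fin 2 → ZMod p => v ≠ 0)) = Finset.univ.erase 0 := by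
      ext t; simp
    rw [this, Finset.card_erase_of_mem (Finset.mem_univ _), Finset.card_univ, Fintype.card_fun,
      ZMod.card, Fintype.card_fin]
  rw [hcv, smul_eq_mul, smul_eq_mul] at hdc
  have h1 := hp.one_lt
  obtain ⟨k, rfl⟩ : ∃ k, p = k + 1 + 1 := ⟨p - 2, by omega⟩
  have e : (k + 1 + 1) ^ 2 - 1 = (k + 1) * (k + 3) := by
    have : (k + 1 + 1) ^ 2 = (k + 1) * (k + 3) + 1 := by ring
    omega
  rw [e, show k + 1 + 1 - 1 = k + 1 by omega] at hdc
  have : (k + 1) * (24 * (k + 3)) = (k + 1) * (S (k + 1 + 1)).card := by linarith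
  have := Nat.eq_of_mul_eq_mul_left (by omega) this
  omega

end

end Pool.Agent.N880.HQ
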