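import Pool.Agent.N880.HQ.Mean2
import Pool.Agent.W388.TW.NLowE
import Pool.Agent.H385R2.WinE

/-! # The main inequality for the family of one level -/

set_option autoImplicit false

open Complex Filter Topology Module MeasureTheory Set
open Pool.Agent.N7.MainC (inner_summable inner_continuous inner_nonneg inner_le main_c)
open H385 (bt wt Rw Rw_nonneg fa_Rw_cont fa_Rw_le Rw_const_d2)
open H370 (zset mult NN Nd Ns)

namespace Pool.Agent.N880.HQ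

/-- the main term -/
noncomputable def innT (u : ℝ) : ℝ := Pool.Agent.N7.MainC.inner 10 u

lemma Y_int (γ : ℝ) (h0 : 0 < γ) (hπ : γ < Real.pi) {s : ℝ} (hs : 0 < s) :
    ∃ L0 : ℝ, 0 < L0 ∧ ∀ (Λ A B T κ : ℝ), L0 ≤ Λ → 0 ≤ A → 0 ≤ B → 0 ≤ T → 0 ≤ κ →
    ∫ u in (0 : ℝ)..Λ, Rw γ (u / Λ) * (A * innT u + B * (T + κ * (u + 1))) ≤
      A * (Real.sqrt Real.pi * Λ ^ 2 * ((∫ α in (0 : ℝ)..1, α * Rw γ α) + s)) +
        B * (Rw γ 0 * Λ * (T + κ * (Λ + 1))) := by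
  obtain ⟨L0, hL0, hmain⟩ := main_c 10 (by norm_num) γ h0 hπ s hs
  refine ⟨L0, hL0, ?_⟩
  intro Λ A B T κ hΛ hA hB hT hκ
  have hΛ0 : 0 < Λ := by linarith
  have hRc := fa_Rw_cont γ h0 hπ
  have hc1 : Continuous (fun u : ℝ => Rw γ (u / Λ)) := hRc.comp (continuous_id.div_const Λ)
  have hc2 : Continuous innT := inner_continuous (by norm_num)
  have e1 : ∀ u : ℝ, Rw γ (u / Λ) * (A * innT u + B * (T + κ * (u + 1))) =
      A * (Rw γ (u / Λ) * innT u) + B * (Rw γ (u / Λ) * (T + κ * (u + 1))) := by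
    intro u; ring
  simp_rw [e1]
  rw [intervalIntegral.integral_add, intervalIntegral.integral_const_mul,
    intervalIntegral.integral_const_mul]
  · refine add_le_add (mul_le_mul_of_nonneg_left (hmain Λ hΛ) hA) (mul_le_mul_of_nonneg_left ?_ hB)
    have h3 : ∫ u in (0 : ℝ)..Λ, Rw γ (u / Λ) * (T + κ * (u + 1)) ≤
        ∫ u in (0 : ℝ)..Λ, Rw γ 0 * (T + κ * (Λ + 1)) := by
      apply intervalIntegral.integral_mono_on hΛ0.le
      · exact (hc1.mul (by fun_prop)).intervalIntegrable _ _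
      · exact continuous_const.intervalIntegrable _ _
      · intro u hu
        have h4 : Rw γ (u / Λ) ≤ Rw γ 0 := fa_Rw_le γ h0 hπ (div_nonneg hu.1 hΛ0.le)
        have h5 := Rw_nonneg γ h0 hπ (u / Λ)
        have h6 := Rw_nonneg γ h0 hπ 0
        have h7 : κ * (u + 1) ≤ κ * (Λ + 1) := by
          have := hu.2
          gcongr
        have h8 : 0 ≤ κ * (u + 1) := mul_nonneg hκ (by linarith [hu.1])
        exact mul_le_mul h4 (by linarith) (by linarith) h6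
    refine h3.trans (le_of_eq ?_)
    rw [intervalIntegral.integral_const, smul_eq_mul]
    ring
  · exact ((hc1.mul hc2).const_mul A |>.intervalIntegrable _ _)
  · exact ((hc1.mul (by fun_prop)).const_mul B |>.intervalIntegrable _ _)

/-- choice of the small parameter -/
lemma choose_s {R J κ0 : ℝ} (hR : 0 ≤ R) (hJ : 0 ≤ J) (h : R + 2 * J < κ0) :
    ∃ s : ℝ, 0 < s ∧ s ≤ 1 / 10 ∧
      R * (1 + 2 * s) ^ 2 / (1 - s) + 2 * (1 + s) * (J + s) ≤ κ0 - (κ0 - (R + 2 * J)) / 2 := by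
  set e := κ0 - (R + 2 * J) with he
  have he0 : 0 < e := by rw [he]; linarith
  refine ⟨min (1 / 10) (e / (2 * (6 * R + 2 * J + 3))), by positivity, min_le_left _ _, ?_⟩
  set s := min (1 / 10) (e / (2 * (6 * R + 2 * J + 3))) with hs
  have hs0 : 0 < s := by rw [hs]; positivity
  have hs1 : s ≤ 1 / 10 := min_le_left _ _
  have hs2 : s * (6 * R + 2 * J + 3) ≤ e / 2 := by
    have h1 : s ≤ e / (2 * (6 * R + 2 * J + 3)) := min_le_right _ _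
    calc s * (6 * R + 2 * J + 3) ≤ e / (2 * (6 * R + 2 * J + 3)) * (6 * R + 2 * J + 3) := by
          gcongr
      _ = e / 2 := by
          have : (6 * R + 2 * J + 3) ≠ 0 := by positivity
          field_simp
  have h1 : R * (1 + 2 * s) ^ 2 / (1 - s) ≤ R * (1 + 6 * s) := by
    rw [div_le_iff₀ (by linarith), mul_assoc]
    refine mul_le_mul_of_nonneg_left ?_ hR
    nlinarith
  have h3 : 2 * (1 + s) * (J + s) ≤ 2 * J + s * (2 * J + 3) := by nlinarith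
  nlinarith

lemma nl1 {s L : ℝ} (hs1 : s ≤ 1 / 10) (hL : 1 ≤ L) : 9 * L ≤ 10 * (1 - s) * L := by
  nlinarith

lemma nl2 {s L : ℝ} (hs : 0 < s) (hL : 1 ≤ L) : 10 * (1 - s) * L ≤ 10 * L := by
  nlinarith

lemma nl3 {L T : ℝ} (hL : 1 ≤ L) (hT : L ^ 2 ≤ T) : L ≤ T := by
  nlinarith

lemma nl4 {x : ℝ} (hx : 0 ≤ x) : 10 / 6 * (11 / 5) * x ≤ 4 * x := by
  nlinarith

lemma nl5 {L T Λ : ℝ} (hL : 1 ≤ L) (hT : L ^ 2 ≤ T) (hΛ10 : Λ ≤ 10 * L) :
    T + L * (Λ + 1) ≤ 12 * T := by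
  have h1 : L * (Λ + 1) ≤ L * (10 * L + 1) := mul_le_mul_of_nonneg_left (by linarith) (by linarith)
  nlinarith

lemma nl6 {s L : ℝ} (hs1 : s ≤ 1 / 10) (hL : 1 ≤ L) : (1 / 2 + s) * L ≤ L := by
  nlinarith

lemma nl7 {a L T Λ : ℝ} (ha0 : 0 ≤ a) (ha : a ≤ L) (hΛ : L ≤ Λ) (hT : 0 ≤ T) : a * T ≤ T * Λ := by
  rw [mul_comm]
  exact mul_le_mul_of_nonneg_left (ha.trans hΛ) hT

lemma nl8 {a L T : ℝ} (hL : 0 ≤ L) (ha : a ≤ L) (hT : L ^ 2 ≤ T) : L * a ≤ T := by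
  calc L * a ≤ L * L := mul_le_mul_of_nonneg_left ha hL
    _ = L ^ 2 := by ring
    _ ≤ T := hT

lemma nl9 {z : ℝ} (hz : 0 ≤ z) : z ≤ (z + 1) ^ 2 := by nlinarith

lemma pa1 {g L T R s : ℝ} (hL : L ≠ 0) (hs : 1 - s ≠ 0) :
    g * (20 * ((1 / 2 + s) * L)) ^ 2 * R * T / (2 * Real.pi * (10 * (1 - s) * L)) =
      g * (T / (2 * Real.pi) * (10 * L)) * (R * (1 + 2 * s) ^ 2 / (1 - s)) := by
  have := Real.pi_ne_zero
  field_simp
  ring

lemma pb1 {G L T R s J CM Λ : ℝ} (hΛ : Λ ≠ 0) :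
    (2 / (Real.sqrt Real.pi * Λ)) * (((1 + s) * G * (T / (2 * Real.pi))) *
        (Real.sqrt Real.pi * Λ ^ 2 * (J + s)) + (CM * G) * (R * Λ * (T + L * (Λ + 1)))) =
      (T / (2 * Real.pi)) * Λ * G * (2 * (1 + s) * (J + s)) +
        (2 / Real.sqrt Real.pi) * (CM * G * R * (T + L * (Λ + 1))) := by
  have := Real.pi_ne_zero
  have : Real.sqrt Real.pi ≠ 0 := (Real.sqrt_pos.2 Real.pi_pos).ne'
  field_simp

lemma pb2 {g G L T s J Λ : ℝ} (hs : 0 < s) (hs1 : s ≤ 1 / 10) (hJ : 0 ≤ J) (hL : 0 < L)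
    (hT : 0 < T) (hg : L ≤ g) (hG : G = g + 1) (hΛ0 : 0 < Λ) (hΛ10 : Λ ≤ 10 * L) :
    (T / (2 * Real.pi)) * Λ * G * (2 * (1 + s) * (J + s)) ≤
      g * (T / (2 * Real.pi) * (10 * L)) * (2 * (1 + s) * (J + s)) + g * T * (4 * (J + 1)) := by
  have hpi3 := Real.pi_gt_three
  have hg0 : 0 < g := by linarith
  have hG0 : 0 < G := by linarith
  have hTp' : T / (2 * Real.pi) ≤ T / 6 := by
    apply div_le_div_of_nonneg_left hT.le (by norm_num) (by linarith)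
  have hTp : 0 < T / (2 * Real.pi) := by positivity
  have h1 : (T / (2 * Real.pi)) * Λ * G * (2 * (1 + s) * (J + s)) ≤
      (T / (2 * Real.pi)) * (10 * L) * G * (2 * (1 + s) * (J + s)) := by gcongr
  have h3 : (T / (2 * Real.pi)) * (10 * L) * G * (2 * (1 + s) * (J + s)) =
      g * (T / (2 * Real.pi) * (10 * L)) * (2 * (1 + s) * (J + s)) +
      (T / (2 * Real.pi)) * (10 * L) * (2 * (1 + s) * (J + s)) := by
    rw [hG]; ring
  have h4 : (T / (2 * Real.pi)) * (10 * L) * (2 * (1 + s) * (J + s)) ≤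
      (T / 6) * (10 * g) * (2 * (11 / 10) * (J + 1)) := by
    have a1 : 1 + s ≤ 11 / 10 := by linarith
    have a2 : J + s ≤ J + 1 := by linarith
    have a3 : 0 ≤ J + s := by linarith
    have a4 : 10 * L ≤ 10 * g := by linarith
    have a5 : 2 * (1 + s) * (J + s) ≤ 2 * (11 / 10) * (J + 1) :=
      mul_le_mul (by linarith) a2 a3 (by norm_num)
    have a6 : (T / (2 * Real.pi)) * (10 * L) ≤ (T / 6) * (10 * g) :=
      mul_le_mul hTp' a4 (by linarith) (by linarith)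
    exact mul_le_mul a6 a5 (by positivity) (by positivity)
  have h5 : (T / 6) * (10 * g) * (2 * (11 / 10) * (J + 1)) ≤ g * T * (4 * (J + 1)) := by
    have h6 : 0 ≤ g * T * (J + 1) := by positivity
    have h7 := nl4 h6
    calc (T / 6) * (10 * g) * (2 * (11 / 10) * (J + 1)) = 10 / 6 * (11 / 5) * (g * T * (J + 1)) := by
          ring
      _ ≤ 4 * (g * T * (J + 1)) := h7
      _ = _ := by ring
  linarith

lemma pb3 {g G L T R CM Λ : ℝ} (hR : 0 ≤ R) (hCM : 0 ≤ CM) (hL : 1 ≤ L) (hT : L ^ 2 ≤ T)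
    (hg : 0 < g) (hG2 : G ≤ 2 * g) (hG0 : 0 < G) (hΛ0 : 0 < Λ) (hΛ10 : Λ ≤ 10 * L) :
    (2 / Real.sqrt Real.pi) * (CM * G * R * (T + L * (Λ + 1))) ≤ g * T * (48 * CM * R) := by
  have hsq1 : 1 ≤ Real.sqrt Real.pi := Real.one_le_sqrt.2 (by linarith [Real.pi_gt_three])
  have h1 := nl5 hL hT hΛ10
  have h3 : 2 / Real.sqrt Real.pi ≤ 2 := div_le_self (by norm_num) hsq1
  have h4 : 0 ≤ T + L * (Λ + 1) := by
    have : 0 ≤ T := le_trans (sq_nonneg L) hT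
    positivity
  have a1 : CM * G ≤ CM * (2 * g) := mul_le_mul_of_nonneg_left hG2 hCM
  have a2 : CM * G * R ≤ CM * (2 * g) * R := mul_le_mul_of_nonneg_right a1 hR
  have a3 : CM * G * R * (T + L * (Λ + 1)) ≤ CM * (2 * g) * R * (12 * T) :=
    mul_le_mul a2 h1 h4 (by positivity)
  have a4 : 0 ≤ CM * G * R * (T + L * (Λ + 1)) := by positivity
  calc (2 / Real.sqrt Real.pi) * (CM * G * R * (T + L * (Λ + 1))) ≤
      2 * (CM * (2 * g) * R * (12 * T)) := mul_le_mul h3 a3 a4 (by norm_num)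
    _ = _ := by ring

lemma pd4 {g G z : ℝ} (hg : 0 < g) (hgG : g ≤ G) (hz : 0 ≤ z) :
    Real.sqrt g * Real.sqrt (G * z) ≤ G * (z + 1) := by
  have hG : 0 < G := by linarith
  rw [← Real.sqrt_mul hg.le]
  apply Real.sqrt_le_iff.2
  refine ⟨by positivity, ?_⟩
  have h1 := nl9 hz
  calc g * (G * z) ≤ G * (G * (z + 1) ^ 2) := by
        refine mul_le_mul hgG ?_ (by positivity) hG.le
        exact mul_le_mul_of_nonneg_left h1 hG.le
    _ = _ := by ring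

lemma pd6 {g G L T Λ a w1 w2 S1 : ℝ} (hT : 0 < T) (hΛ0 : 0 < Λ) (ha0 : 0 ≤ a) (ha : a ≤ Λ)
    (hG2 : G ≤ 2 * g) (hS1 : 0 ≤ S1) (hw1 : 0 ≤ w1) (hw2 : 0 ≤ w2) {Z : ℝ} (hZ : 0 ≤ Z)
    (hg : 0 < g) (h1 : S1 * (w1 + w2) ≤ G * Z) (_ : 0 < L) :
    S1 * a * T * (w1 + w2) / Λ ≤ g * T * (2 * Z) := by
  rw [div_le_iff₀ hΛ0]
  have h3 : G * Z ≤ (2 * g) * Z := mul_le_mul_of_nonneg_right hG2 hZ
  have h6 : 0 ≤ S1 * (w1 + w2) := by positivity
  calc S1 * a * T * (w1 + w2) = (S1 * (w1 + w2)) * (a * T) := by ring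
    _ ≤ ((2 * g) * Z) * (Λ * T) :=
      mul_le_mul (h1.trans h3) (mul_le_mul_of_nonneg_right ha hT.le) (by positivity)
        (by positivity)
    _ = _ := by ring

/-- the numerical part -/
lemma num_core {L T g G R J s κ0 C1 CM Ci C2 SM N Λ y1 y2 : ℝ} (hs : 0 < s) (hs1 : s ≤ 1 / 10)
    (hR : 0 ≤ R) (hJ : 0 ≤ J) (hκ0 : 0 ≤ κ0)
    (hch : R * (1 + 2 * s) ^ 2 / (1 - s) + 2 * (1 + s) * (J + s) ≤ κ0 - (κ0 - (R + 2 * J)) / 2)
    (hC1 : 0 ≤ C1) (hCM : 0 ≤ CM) (hCi : 0 ≤ Ci) (hL : 1 ≤ L) (hT : L ^ 2 ≤ T)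
    (hg : L ≤ g) (hG : G = g + 1) (hΛ : Λ = 10 * (1 - s) * L)
    (hy1 : y1 = G * (2 * Ci + CM)) (hy2 : y2 = CM * G)
    (hbig : 4 * (J + 1) + 48 * CM * R + 3 * C1 + 2 * C1 * (2 * Ci + 2 * CM + 2) + 5 * κ0 * C2 ≤
      5 * (κ0 - (R + 2 * J)) / (2 * Real.pi) * L)
    (hSM : SM ≤ g * (20 * ((1 / 2 + s) * L)) ^ 2 * R * T / (2 * Real.pi * Λ) +
      (2 / (Real.sqrt Real.pi * Λ)) * (((1 + s) * G * (T / (2 * Real.pi))) *
        (Real.sqrt Real.pi * Λ ^ 2 * (J + s)) + (CM * G) * (R * Λ * (T + L * (Λ + 1)))) +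
      C1 * (g * (((1 / 2 + s) * L) ^ 2 * L / Λ + ((1 / 2 + s) * L) * T / Λ +
        L * ((1 / 2 + s) * L)) + Real.sqrt g * ((1 / 2 + s) * L) * T *
          (Real.sqrt y1 + Real.sqrt y2) / Λ))
    (hN : g * (T / (2 * Real.pi) * (10 * L) - 5 * C2 * T) ≤ N) : SM ≤ κ0 * N := by
  have hpi := Real.pi_pos
  have hL0 : 0 < L := by linarith
  have hT0 : 0 < T := by linarith [nl3 hL hT]
  have hg1 : 1 ≤ g := hL.trans hg
  have hg0 : 0 < g := by linarith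
  have hG0 : 0 < G := by rw [hG]; linarith
  have hG2 : G ≤ 2 * g := by rw [hG]; linarith
  have hgG : g ≤ G := by rw [hG]; linarith
  have hs1' : 0 < 1 - s := by linarith
  have hΛ9 : 9 * L ≤ Λ := by rw [hΛ]; exact nl1 hs1 hL
  have hΛ10 : Λ ≤ 10 * L := by rw [hΛ]; exact nl2 hs hL
  have hΛ0 : 0 < Λ := by linarith
  have hLΛ : L ≤ Λ := by linarith
  have hLT : L ≤ T := nl3 hL hT
  -- (a)
  have a1 : g * (20 * ((1 / 2 + s) * L)) ^ 2 * R * T / (2 * Real.pi * Λ) =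
      g * (T / (2 * Real.pi) * (10 * L)) * (R * (1 + 2 * s) ^ 2 / (1 - s)) := by
    rw [hΛ]
    exact pa1 hL0.ne' hs1'.ne'
  have b1 := pb1 (G := G) (L := L) (T := T) (R := R) (s := s) (J := J) (CM := CM) hΛ0.ne'
  have b2 := pb2 hs hs1 hJ hL0 hT0 hg hG hΛ0 hΛ10
  have b3 := pb3 hR hCM hL hT hg0 hG2 hG0 hΛ0 hΛ10
  -- (d)
  obtain ⟨a, ha⟩ : ∃ a, a = (1 / 2 + s) * L := ⟨_, rfl⟩
  have hh1 : a ≤ L := by rw [ha]; exact nl6 hs1 hL
  have hh0 : 0 ≤ a := by rw [ha]; positivity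
  have d1 : a ^ 2 * L / Λ ≤ T := by
    rw [div_le_iff₀ hΛ0]
    calc a ^ 2 * L ≤ L ^ 2 * L :=
          mul_le_mul_of_nonneg_right (pow_le_pow_left₀ hh0 hh1 2) hL0.le
      _ ≤ T * Λ := mul_le_mul hT hLΛ hL0.le hT0.le
  have d2 : a * T / Λ ≤ T := by
    rw [div_le_iff₀ hΛ0]
    exact nl7 hh0 hh1 hLΛ hT0.le
  have d3 : L * a ≤ T := nl8 hL0.le hh1 hT
  have d4 : Real.sqrt g * Real.sqrt y1 ≤ G * (2 * Ci + CM + 1) := by
    rw [hy1]; exact pd4 hg0 hgG (by positivity)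
  have d5 : Real.sqrt g * Real.sqrt y2 ≤ G * (CM + 1) := by
    rw [hy2, mul_comm CM G]; exact pd4 hg0 hgG hCM
  have d5' : Real.sqrt g * (Real.sqrt y1 + Real.sqrt y2) ≤ G * (2 * Ci + 2 * CM + 2) := by
    have : G * (2 * Ci + CM + 1) + G * (CM + 1) = G * (2 * Ci + 2 * CM + 2) := by ring
    rw [mul_add]; linarith
  have d6 : Real.sqrt g * a * T * (Real.sqrt y1 + Real.sqrt y2) / Λ ≤
      g * T * (2 * (2 * Ci + 2 * CM + 2)) :=
    pd6 hT0 hΛ0 hh0 (hh1.trans hLΛ) hG2 (Real.sqrt_nonneg _) (Real.sqrt_nonneg _)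
      (Real.sqrt_nonneg _) (by positivity) hg0 d5' hL0
  have d7 : C1 * (g * (a ^ 2 * L / Λ + a * T / Λ + L * a) +
        Real.sqrt g * a * T * (Real.sqrt y1 + Real.sqrt y2) / Λ) ≤
        g * T * (3 * C1 + 2 * C1 * (2 * Ci + 2 * CM + 2)) := by
    have h1 : g * (a ^ 2 * L / Λ + a * T / Λ + L * a) ≤ g * (T + T + T) :=
      mul_le_mul_of_nonneg_left (by linarith) hg0.le
    calc _ ≤ C1 * (g * (T + T + T) + g * T * (2 * (2 * Ci + 2 * CM + 2))) :=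
          mul_le_mul_of_nonneg_left (by linarith) hC1
      _ = _ := by ring
  -- collect
  rw [a1, b1, ← ha] at hSM
  have hX : 0 ≤ g * (T / (2 * Real.pi) * (10 * L)) := by positivity
  have e1 : SM ≤ g * (T / (2 * Real.pi) * (10 * L)) * (κ0 - (κ0 - (R + 2 * J)) / 2) +
      g * T * (4 * (J + 1) + 48 * CM * R + 3 * C1 + 2 * C1 * (2 * Ci + 2 * CM + 2)) := by
    have h1 := mul_le_mul_of_nonneg_left hch hX
    rw [mul_add] at h1
    linarith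
  have e2 : g * T * (4 * (J + 1) + 48 * CM * R + 3 * C1 + 2 * C1 * (2 * Ci + 2 * CM + 2) +
      5 * κ0 * C2) ≤ g * T * (5 * (κ0 - (R + 2 * J)) / (2 * Real.pi) * L) :=
    mul_le_mul_of_nonneg_left hbig (by positivity)
  have e3 : g * T * (5 * (κ0 - (R + 2 * J)) / (2 * Real.pi) * L) =
      g * (T / (2 * Real.pi) * (10 * L)) * ((κ0 - (R + 2 * J)) / 2) := by
    field_simp
    ring
  have e4 := mul_le_mul_of_nonneg_left hN hκ0
  have e5 : κ0 * (g * (T / (2 * Real.pi) * (10 * L) - 5 * C2 * T)) =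
      g * (T / (2 * Real.pi) * (10 * L)) * κ0 - g * T * (5 * κ0 * C2) := by ring
  rw [e5] at e4
  rw [e3] at e2
  linarith

end Pool.Agent.N880.HQ
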