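import Pool.Agent.N880.HQ.Main

/-! # The main inequality for the family of one level, second part -/

set_option autoImplicit false

open Complex Filter Topology Module MeasureTheory Set
open Pool.Agent.N7.MainC (inner_summable inner_continuous inner_nonneg inner_le main_c)
open H385 (bt wt Rw Rw_nonneg fa_Rw_cont fa_Rw_le Rw_const_d2)
open H370 (zset mult NN Nd Ns)

namespace Pool.Agent.N880.HQ

lemma nm1 {s L : ℝ} (hs1 : s ≤ 1 / 10) (hL : 60 ≤ L) : 1 ≤ L * (10 * (1 - s)) := by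
  nlinarith

lemma nm2 {L g q : ℝ} (hq : 25 ≤ q) (hLq : L ≤ q) (h : 24 * (g + 1) = q ^ 2 - 1) : L ≤ g := by
  nlinarith

lemma nm3 {s L : ℝ} (hs : 0 < s) (hL : 60 ≤ L) : 1 ≤ (1 / 2 + s) * L := by nlinarith

lemma nm4 {s L : ℝ} (hs : s ≤ 1 / 10) (hL : 60 ≤ L) : (1 / 2 + s) * L ≤ 3 * L := by nlinarith

lemma nm5 {s G T P I C u : ℝ} (hs0 : 0 < s) (hs1 : s ≤ 1 / 10) (hG : 0 ≤ G) (hT : 0 < T)
    (hP0 : 0 ≤ P) (hP : P ≤ T / 6) (hI : 0 ≤ I) (hI1 : I ≤ C * (u + 1)) :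
    (1 + s) * G * P * I ≤ 2 * G * T * (C * (u + 1)) := by
  have h1 : (1 + s) * P ≤ 2 * T := by nlinarith
  have h6 : (1 + s) * G * P ≤ 2 * G * T := by
    calc (1 + s) * G * P = G * ((1 + s) * P) := by ring
      _ ≤ G * (2 * T) := mul_le_mul_of_nonneg_left h1 hG
      _ = _ := by ring
  exact mul_le_mul h6 hI1 hI (by positivity)

lemma nm6 {G T CM Ci L u V W : ℝ} (hG : 0 ≤ G) (hCM : 0 ≤ CM) (hLT : L ≤ T) (hu : 0 ≤ u + 1)
    (hV : V ≤ 2 * G * T * (Ci * (u + 1))) (hW : W = CM * G * (T + L * (u + 1))) :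
    V + W ≤ T * (G * (2 * Ci + CM) * (u + 1) + CM * G) := by
  have h7 : CM * G * (T + L * (u + 1)) ≤ CM * G * (T + T * (u + 1)) :=
    mul_le_mul_of_nonneg_left (by linarith [mul_le_mul_of_nonneg_right hLT hu]) (by positivity)
  have h8 : 2 * G * T * (Ci * (u + 1)) + CM * G * (T + T * (u + 1)) =
      T * (G * (2 * Ci + CM) * (u + 1) + CM * G) := by ring
  rw [hW]
  linarith

theorem main_core : ∃ η q0 : ℝ, 0 < η ∧ 25 ≤ q0 ∧ ∀ (q : ℕ) [Fact q.Prime] (x y : ZMod q),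
    q0 ≤ q → x ^ 2 + y ^ 2 = -1 →
    ∀ (g : ℕ) (b : Fin g → (Fin 2 → ZMod q) → ℂ)
      (lam : Fin g → ℕ → ℂ) (ch : Fin g → (ZMod q)ˣ → ℂ),
      24 * (g + 1) = q ^ 2 - 1 → Fam x y b lam ch →
    ∀ F : Fin g → ℂ → ℂ,
      (∀ k, LF (Real.sqrt q) (eP (ch k)) (lam k) (F k)) →
    ∀ T : ℝ, Real.log q ^ 2 ≤ T → T ≤ (q : ℝ) ^ η →
      ∑ k, (2 * (NN (GF (F k)) T (2 * T) : ℝ) - (Ns (GF (F k)) T (2 * T) : ℝ)) ≤
        1.3275 * ∑ k, (NN (GF (F k)) T (2 * T) : ℝ) ∧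
      ∑ k, (3 * (NN (GF (F k)) T (2 * T) : ℝ) - 2 * (Nd (GF (F k)) T (2 * T) : ℝ)) ≤
        1.3275 * ∑ k, (NN (GF (F k)) T (2 * T) : ℝ) := by
  set γ : ℝ := 1.414 with hγ
  have h0 : 0 < γ := by norm_num
  have hπ : γ < Real.pi := by rw [hγ]; linarith [Real.pi_gt_three]
  set R : ℝ := Rw γ 0 with hR
  have hR0 : 0 ≤ R := Rw_nonneg γ h0 hπ 0
  set J : ℝ := ∫ α in (0 : ℝ)..1, α * Rw γ α with hJ
  have hJ0 : 0 ≤ J := by
    apply intervalIntegral.integral_nonneg zero_le_one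
    intro α hα
    exact mul_nonneg hα.1 (Rw_nonneg γ h0 hπ α)
  have hRJ : R + 2 * J < 1.3275 := Rw_const_d2
  obtain ⟨s, hs0, hs1, hch⟩ := choose_s hR0 hJ0 hRJ
  obtain ⟨A, hA, hgood⟩ := good
  obtain ⟨C1, hC1, hfam⟩ := W388.fam_abstract_D γ h0 hπ 20 A (by norm_num) hA
  obtain ⟨C1', hC1', hfam'⟩ := W388.fam_abstract_d_D γ h0 hπ 20 A (by norm_num) hA
  obtain ⟨C2, hC2, hlow⟩ := W388.N_lower_D 20 A (by norm_num) hA
  obtain ⟨CM, hCM, hmean⟩ := mean_sq hs0 hs0 (by linarith : s ≤ 1)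
  obtain ⟨Ci, hCi, hinn⟩ := inner_le 10 (by norm_num)
  obtain ⟨LY, hLY, hYint⟩ := Y_int γ h0 hπ hs0
  have hpi := Real.pi_pos
  set CC : ℝ := max C1 C1' with hCC
  have hCC0 : 0 < CC := lt_max_of_lt_left hC1
  set e0 : ℝ := 1.3275 - (R + 2 * J) with he0
  have he0p : 0 < e0 := by rw [he0]; linarith
  set X : ℝ := 4 * (J + 1) + 48 * CM * R + 3 * CC + 2 * CC * (2 * Ci + 2 * CM + 2) +
    5 * 1.3275 * C2 with hX
  have hX0 : 0 ≤ X := by rw [hX]; positivity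
  set L0 : ℝ := 60 + LY + X / (5 * e0 / (2 * Real.pi)) with hL0
  have hL0' : 0 ≤ X / (5 * e0 / (2 * Real.pi)) := by positivity
  refine ⟨s, max 25 (Real.exp L0), hs0, le_max_left _ _, ?_⟩
  intro q _ x y hq hxy g b lam ch hdim hF F hLF T hT1 hT2
  have hqp : q.Prime := Fact.out
  have hq25 : (25 : ℝ) ≤ q := (le_max_left _ _).trans hq
  have hqn : 25 ≤ q := by exact_mod_cast hq25
  have hq0 : (0 : ℝ) < q := by linarith
  have h2 : (2 : ZMod q) ≠ 0 := by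
    intro h
    have : ((2 : ℕ) : ZMod q) = 0 := by exact_mod_cast h
    rw [ZMod.natCast_eq_zero_iff] at this
    have := Nat.le_of_dvd (by norm_num) this
    omega
  set L : ℝ := Real.log q with hL
  have hLL0 : L0 ≤ L := by
    rw [hL, Real.le_log_iff_exp_le hq0]
    exact (le_max_right _ _).trans hq
  have hL60 : 60 ≤ L := by linarith
  have hqexp : (q : ℝ) = Real.exp L := by rw [hL, Real.exp_log hq0]
  have hT2' : T ≤ Real.exp (s * L) := by
    rw [mul_comm, Real.exp_mul, ← hqexp]; exact hT2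
  set Λ : ℝ := 10 * (1 - s) * L with hΛ
  have hβ0 : 0 < 10 * (1 - s) := by linarith
  obtain ⟨p1, p2, p3, p4, p5, p6⟩ := H385.param_ok (10 * (1 - s)) L T s hβ0 (by linarith)
    (by linarith) (by rw [div_le_iff₀ hβ0]; exact nm1 hs1 hL60) hT1 hT2'
  have hTpos : 0 < T := by linarith
  have hT1' : 1 ≤ T := by linarith
  -- dimension
  have hdimR : 24 * ((g : ℝ) + 1) = (q : ℝ) ^ 2 - 1 := by
    have h1 : 24 * (g + 1) + 1 = q ^ 2 := by
      have : 1 ≤ q ^ 2 := Nat.one_le_pow _ _ hqp.pos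
      omega
    have h3 : 24 * ((g : ℝ) + 1) + 1 = (q : ℝ) ^ 2 := by exact_mod_cast h1
    linarith
  set G : ℝ := ((q : ℝ) ^ 2 - 1) / 24 with hGdef
  have hGg : G = g + 1 := by rw [hGdef]; linarith
  have hLq : L ≤ q := by
    have := Real.log_le_sub_one_of_pos hq0
    linarith
  have hLg : L ≤ g := nm2 hq25 hLq hdimR
  have hG0 : 0 ≤ G := by rw [hGg]; positivity
  have hgG : (g : ℝ) ≤ G := by rw [hGg]; linarith
  -- Lm
  have hsq1 : 1 ≤ Real.sqrt q := Real.one_le_sqrt.2 (by linarith)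
  have hlogsq : Real.log (Real.sqrt q) = L / 2 := by
    rw [Real.log_sqrt hq0.le]
  have hlogT : Real.log T ≤ s * L := by
    have := Real.log_le_log hTpos hT2'
    rwa [Real.log_exp] at this
  have hlogT0 : 0 ≤ Real.log T := Real.log_nonneg hT1'
  have hlogQT : Real.log (Real.sqrt q * T) = L / 2 + Real.log T := by
    rw [Real.log_mul (by positivity) hTpos.ne', hlogsq]
  have hLm : Real.log (Real.sqrt q * T) ≤ (1 / 2 + s) * L := by rw [hlogQT]; linarith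
  have hLm1 : 1 ≤ (1 / 2 + s) * L := nm3 hs0 hL60
  have hLmL : (1 / 2 + s) * L ≤ 3 * L := nm4 hs1 hL60
  have hLm2 : ((1 / 2 + s) * L) ^ 2 ≤ 9 * L ^ 2 := by
    have h0 : ((1 / 2 + s) * L) ^ 2 ≤ (3 * L) ^ 2 := pow_le_pow_left₀ (by linarith) hLmL 2
    linarith [show (3 * L) ^ 2 = 9 * L ^ 2 by ring]
  have hexp : ((1 / 2 + s) * L) ^ 2 * Real.exp (Λ - L ^ 2 / 2) ≤ Real.exp (-Λ) :=
    le_trans (mul_le_mul_of_nonneg_right hLm2 (Real.exp_pos _).le) p5
  have hTL : T ≤ Real.exp (L ^ 2) := p3.trans (Real.exp_le_exp.2 (half_le_self (sq_nonneg L)))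
  -- family data
  have hgoodk : ∀ k : Fin g, W388.GoodE 20 A (Real.sqrt q) (GF (F k)) (aG (eP (ch k)) (lam k)) :=
    fun k => hgood _ hsq1 _ _ _ (hLF k)
  have hdata : ∀ k ∈ (Finset.univ : Finset (Fin g)), 0 ≤ (1 : ℝ) ∧ (1 : ℝ) ≤ Real.sqrt q ∧
      W388.GoodE 20 A (Real.sqrt q) (GF (F k)) (aG (eP (ch k)) (lam k)) ∧
      Real.log (Real.sqrt q * T) ≤ (1 / 2 + s) * L :=
    fun k _ => ⟨zero_le_one, hsq1, hgoodk k, hLm⟩
  -- mean square
  set Y : ℝ → ℝ := fun u => ((1 + s) * G * (T / (2 * Real.pi))) * innT u +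
    (CM * G) * (T + L * (u + 1)) with hY
  have hms : ∀ u ∈ Set.Icc 0 Λ,
      ∫ t : ℝ, ∑ k : Fin g, (1 : ℝ) * ‖∑' n : ℕ, aG (eP (ch k)) (lam k) n *
        ((Real.sqrt n : ℂ)⁻¹ * bt T u t (Real.log n))‖ ^ 2 ≤ Y u := by
    intro u hu
    simp only [one_mul]
    exact hmean q x y h2 hxy g b lam ch hF hgG T L u (by linarith) hT1' hTL hu.1 hu.2
  set y1 : ℝ := G * (2 * Ci + CM) with hy1
  set y2 : ℝ := CM * G with hy2
  have hy10 : 0 ≤ y1 := by positivity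
  have hy20 : 0 ≤ y2 := by positivity
  have hLT : L ≤ T := by linarith
  have hYb : ∀ u ∈ Set.Icc 0 Λ, Y u ≤ T * (y1 * (u + 1) + y2) := by
    intro u hu
    have hu1 : 0 ≤ u + 1 := by linarith [hu.1]
    have h1 := hinn u hu.1
    have h3 : T / (2 * Real.pi) ≤ T / 6 := by
      apply div_le_div_of_nonneg_left hTpos.le (by norm_num) (by linarith [Real.pi_gt_three])
    have h4 : 0 ≤ T / (2 * Real.pi) := by positivity
    have h5 := nm5 hs0 hs1 hG0 hTpos h4 h3 (inner_nonneg 10 u) h1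
    exact nm6 hG0 hCM.le hLT hu1 h5 rfl
  have hYi : IntervalIntegrable Y volume 0 Λ := by
    have hc2 : Continuous innT := inner_continuous (by norm_num)
    have : Continuous Y := by
      rw [hY]
      exact (continuous_const.mul hc2).add (by fun_prop)
    exact this.intervalIntegrable _ _
  have k1 := hfam (Finset.univ : Finset (Fin g)) (fun _ => (1 : ℝ)) (fun _ => Real.sqrt q)
    (fun k => GF (F k)) (fun k => aG (eP (ch k)) (lam k)) T L Λ ((1 / 2 + s) * L) y1 y2 Y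
    hdata p1 p2 p3 p4 hLm1 hexp hy10 hy20 hms hYb hYi
  have k2 := hfam' (Finset.univ : Finset (Fin g)) (fun _ => (1 : ℝ)) (fun _ => Real.sqrt q)
    (fun k => GF (F k)) (fun k => aG (eP (ch k)) (lam k)) T L Λ ((1 / 2 + s) * L) y1 y2 Y
    hdata p1 p2 p3 p4 hLm1 hexp hy10 hy20 hms hYb hYi
  simp only [one_mul, Finset.sum_const, Finset.card_univ, Fintype.card_fin, nsmul_eq_mul,
    mul_one] at k1 k2
  -- the integral of Y
  have hΛY : LY ≤ Λ := by
    have : 9 * L ≤ Λ := nl1 hs1 (by linarith)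
    linarith
  have hYI := hYint Λ ((1 + s) * G * (T / (2 * Real.pi))) (CM * G) T L hΛY (by positivity)
    (by positivity) hTpos.le (by linarith)
  -- lower bound for the number of zeros
  have hN : (g : ℝ) * (T / (2 * Real.pi) * (10 * L) - 5 * C2 * T) ≤
      ∑ k, (NN (GF (F k)) T (2 * T) : ℝ) := by
    have : (g : ℝ) * (T / (2 * Real.pi) * (10 * L) - 5 * C2 * T) =
        ∑ _k : Fin g, (T / (2 * Real.pi) * (10 * L) - 5 * C2 * T) := by
      rw [Finset.sum_const, Finset.card_univ, Fintype.card_fin, nsmul_eq_mul]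
    rw [this]
    refine Finset.sum_le_sum fun k _ => ?_
    have hl := hlow (Real.sqrt q) (GF (F k)) _ hsq1 (hgoodk k) T L p1 p2
    refine le_trans ?_ hl
    have a1 : T / (2 * Real.pi) * (10 * L) ≤
        T / (2 * Real.pi) * (20 * Real.log (Real.sqrt q * T)) := by
      apply mul_le_mul_of_nonneg_left _ (by positivity)
      rw [hlogQT]; linarith
    have a2 : L * Real.log (Real.sqrt q * T) ≤ 3 * T := by
      have : L * Real.log (Real.sqrt q * T) ≤ L * (3 * L) :=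
        mul_le_mul_of_nonneg_left (hLm.trans hLmL) (by linarith)
      linarith [show L * (3 * L) = 3 * L ^ 2 by ring]
    have hlog0 : 0 ≤ Real.log (Real.sqrt q * T) := by rw [hlogQT]; linarith
    have a3 : T * Real.log (Real.sqrt q * T) ^ 2 * Real.exp (-L ^ 2 / 2) ≤ T := by
      have b1 : Real.log (Real.sqrt q * T) ^ 2 ≤ (3 * L) ^ 2 :=
        pow_le_pow_left₀ hlog0 (hLm.trans hLmL) 2
      have b2 : Real.log (Real.sqrt q * T) ^ 2 * Real.exp (-L ^ 2 / 2) ≤ 1 := by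
        refine le_trans (mul_le_mul_of_nonneg_right b1 (Real.exp_pos _).le) ?_
        rw [show (3 * L) ^ 2 = 9 * L ^ 2 by ring]; exact p6
      calc _ = T * (Real.log (Real.sqrt q * T) ^ 2 * Real.exp (-L ^ 2 / 2)) := by ring
        _ ≤ T * 1 := mul_le_mul_of_nonneg_left b2 hTpos.le
        _ = T := mul_one T
    have a4 : C2 * (T + L * Real.log (Real.sqrt q * T) +
        T * Real.log (Real.sqrt q * T) ^ 2 * Real.exp (-L ^ 2 / 2)) ≤ C2 * (5 * T) :=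
      mul_le_mul_of_nonneg_left (by linarith) hC2.le
    linarith
  have hbig : X ≤ 5 * e0 / (2 * Real.pi) * L := by
    have h5 : 0 < 5 * e0 / (2 * Real.pi) := by positivity
    have : X / (5 * e0 / (2 * Real.pi)) ≤ L := by linarith
    rw [div_le_iff₀ h5] at this
    linarith
  have core : ∀ (D SM : ℝ), 0 < D → D ≤ CC →
      SM ≤ (g : ℝ) * (20 * ((1 / 2 + s) * L)) ^ 2 * Rw γ 0 * T / (2 * Real.pi * Λ) +
        (2 / (Real.sqrt Real.pi * Λ)) * (∫ u in (0 : ℝ)..Λ, Rw γ (u / Λ) * Y u) +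
        D * ((g : ℝ) * (((1 / 2 + s) * L) ^ 2 * L / Λ + ((1 / 2 + s) * L) * T / Λ +
          L * ((1 / 2 + s) * L)) + Real.sqrt g * ((1 / 2 + s) * L) * T *
            (Real.sqrt y1 + Real.sqrt y2) / Λ) →
      SM ≤ 1.3275 * ∑ k, (NN (GF (F k)) T (2 * T) : ℝ) := by
    intro D SM hD hDC hSM
    have hpos : 0 ≤ (g : ℝ) * (((1 / 2 + s) * L) ^ 2 * L / Λ + ((1 / 2 + s) * L) * T / Λ +
          L * ((1 / 2 + s) * L)) + Real.sqrt g * ((1 / 2 + s) * L) * T *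
            (Real.sqrt y1 + Real.sqrt y2) / Λ := by positivity
    have h1 := mul_le_mul_of_nonneg_right hDC hpos
    have h3 : (2 / (Real.sqrt Real.pi * Λ)) * (∫ u in (0 : ℝ)..Λ, Rw γ (u / Λ) * Y u) ≤
        (2 / (Real.sqrt Real.pi * Λ)) * (((1 + s) * G * (T / (2 * Real.pi))) *
        (Real.sqrt Real.pi * Λ ^ 2 * (J + s)) + (CM * G) * (R * Λ * (T + L * (Λ + 1)))) :=
      mul_le_mul_of_nonneg_left hYI (by positivity)
    exact num_core (L := L) (T := T) (g := (g : ℝ)) (G := G) (R := R) (J := J) (s := s)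
      (κ0 := 1.3275) (C1 := CC) (CM := CM) (Ci := Ci) (C2 := C2) (Λ := Λ) (y1 := y1) (y2 := y2)
      hs0 hs1 hR0 hJ0 (by norm_num) hch hCC0.le hCM.le hCi.le (by linarith) hT1 hLg hGg
      rfl rfl rfl hbig (hSM.trans (add_le_add (add_le_add le_rfl h3) h1)) hN
  exact ⟨core C1 _ hC1 (le_max_left _ _) k1, core C1' _ hC1' (le_max_right _ _) k2⟩

end Pool.Agent.N880.HQ
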