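import Pool.Agent.N880.HQ.HS

/-! # Second moment of sums over prime powers -/

set_option autoImplicit false

open Complex Matrix Filter Topology Module
open Pool.Agent.N7.HeckeId (HeckeC cC cC_prime cC_pow)

namespace Pool.Agent.N880.HQ

open Hur

open Classical in
/-- the weights -/
noncomputable def wH (m : ℕ) (α : Hur) : ℝ :=
  1 - (if m.minFac ^ 2 ∣ m ∧ m.minFac ≠ 2 ∧ ∃ β : Hur, α = (m.minFac : Hur) * β then
    (m.minFac : ℝ) else 0)

open Classical in
/-- bound for the mean of the weights -/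
noncomputable def vH (m : ℕ) : ℝ := if m.Prime then 1 + 1 / m else 4

lemma vH_nonneg (m : ℕ) : 0 ≤ vH m := by
  unfold vH
  split_ifs <;> positivity

lemma vH_le (m : ℕ) : vH m ≤ 4 := by
  unfold vH
  split_ifs with h
  · have : (1 : ℝ) ≤ m := by exact_mod_cast h.one_lt.le
    have : 1 / (m : ℝ) ≤ 1 := by
      rw [div_le_one (by linarith)]
      exact this
    linarith
  · exact le_rfl

section weights
open Classical

lemma natCast_mul_inj {p : ℕ} (hp : 0 < p) {β γ : Hur} (h : (p : Hur) * β = (p : Hur) * γ) : β = γ := by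
  have hp0 : (p : Hur) ≠ 0 := by
    intro h0
    have := congrArg Hur.a h0
    simp at this
    omega
  exact mul_left_cancel' hp0 h

/-- sums over multiples of `p` -/
lemma sum_mult {M : Type*} [AddCommMonoid M] {p : ℕ} (hp : 0 < p) (n : ℕ) (f : Hur → M) :
    ∑ α ∈ (S (p ^ 2 * n)).filter (fun α => ∃ β : Hur, α = (p : Hur) * β), f α =
      ∑ β ∈ S n, f ((p : Hur) * β) := by
  symm
  refine Finset.sum_bij (fun β _ => (p : Hur) * β) ?_ ?_ ?_ (fun _ _ => rfl)
  · intro β hβ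
    rw [Finset.mem_filter, mem_S, nrm_mul, nrm_natCast, mem_S.1 hβ]
    exact ⟨by push_cast; ring, β, rfl⟩
  · intro a _ b _ h
    exact natCast_mul_inj hp h
  · intro α hα
    rw [Finset.mem_filter, mem_S] at hα
    obtain ⟨h1, β, rfl⟩ := hα
    refine ⟨β, ?_, rfl⟩
    rw [mem_S]
    rw [nrm_mul, nrm_natCast] at h1
    push_cast at h1
    have : (0 : ℤ) < (p : ℤ) ^ 2 := by positivity
    exact mul_left_cancel₀ this.ne' h1

lemma wH_sq_sum {p : ℕ} (hp : p.Prime) (k : ℕ) (hk : k ≠ 0) :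
    ∑ α ∈ S (p ^ k), wH (p ^ k) α ^ 2 ≤ 24 * ((p ^ k : ℕ) : ℝ) * vH (p ^ k) := by
  have hmf : (p ^ k).minFac = p := hp.pow_minFac hk
  rcases Nat.lt_or_ge k 2 with h1 | h1
  · have hk1 : k = 1 := by omega
    subst hk1
    rw [pow_one] at hmf ⊢
    have e1 : ∀ α, wH p α = 1 := by
      intro α
      unfold wH
      rw [if_neg, sub_zero]
      rintro ⟨h, -⟩
      rw [hmf] at h
      have h3 := Nat.le_of_dvd hp.pos h
      have h4 := hp.one_lt
      nlinarith
    simp only [e1, one_pow, Finset.sum_const, nsmul_eq_mul, mul_one]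
    unfold vH
    rw [if_pos hp]
    have hp0 : (0 : ℝ) < p := by exact_mod_cast hp.pos
    have : 24 * (p : ℝ) * (1 + 1 / p) = 24 * (p + 1) := by field_simp
    rw [this]
    by_cases hp2 : p = 2
    · subst hp2
      have := card_two 1
      rw [mul_one] at this
      rw [this, card_S_one]
      norm_num
    · have : Fact p.Prime := ⟨hp⟩
      rw [card_S_prime hp2]
      push_cast
      exact le_rfl
  · obtain ⟨j, rfl⟩ : ∃ j, k = j + 2 := ⟨k - 2, by omega⟩
    have hnp : ¬ (p ^ (j + 2)).Prime := Nat.Prime.not_prime_pow (by omega)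
    unfold vH
    rw [if_neg hnp]
    have e1 : ∀ α, wH (p ^ (j + 2)) α ^ 2 ≤ 1 + (if ∃ β : Hur, α = (p : Hur) * β then (p : ℝ) ^ 2 else 0) := by
      intro α
      unfold wH
      rw [hmf]
      have hp1 : (1 : ℝ) ≤ p := by exact_mod_cast hp.one_lt.le
      split_ifs with h3 h4 h4
      · nlinarith
      · exact absurd h3.2.2 h4
      · nlinarith
      · norm_num
    refine (Finset.sum_le_sum fun α _ => e1 α).trans ?_
    rw [Finset.sum_add_distrib, Finset.sum_const, nsmul_eq_mul, mul_one, ← Finset.sum_filter]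
    have e2 : p ^ (j + 2) = p ^ 2 * p ^ j := by ring
    have e3 := sum_mult (M := ℝ) hp.pos (p ^ j) (fun _ => (p : ℝ) ^ 2)
    rw [← e2] at e3
    rw [e3, Finset.sum_const, nsmul_eq_mul]
    have h5 : ((S (p ^ (j + 2))).card : ℝ) ≤ 24 * (2 * (p : ℝ) ^ (j + 2)) := by
      exact_mod_cast card_pow_le hp (j + 2)
    have h6 : ((S (p ^ j)).card : ℝ) ≤ 24 * (2 * (p : ℝ) ^ j) := by
      exact_mod_cast card_pow_le hp j
    have h7 : ((S (p ^ j)).card : ℝ) * (p : ℝ) ^ 2 ≤ 24 * (2 * (p : ℝ) ^ j) * (p : ℝ) ^ 2 := by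
      gcongr
    push_cast
    have h8 : (p : ℝ) ^ (j + 2) = (p : ℝ) ^ j * (p : ℝ) ^ 2 := by ring
    rw [h8] at h5 ⊢
    nlinarith

end weights

variable {q : ℕ} [Fact q.Prime] {x y : ZMod q}

section
variable (h2 : (2 : ZMod q) ≠ 0) (hxy : x ^ 2 + y ^ 2 = -1)
include h2 hxy

omit hxy in
lemma Eig.sum_S {b : (Fin 2 → ZMod q) → ℂ} {lam : ℕ → ℂ} {ch : (ZMod q)ˣ → ℂ}
    (E : Eig x y b lam ch) (n : ℕ) (v : Fin 2 → ZMod q) :
    ∑ α ∈ S n, b (v ᵥ* mat x y α) = 24 * lam n * b v := by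
  have h := congrFun (E.T n) v
  rw [T_apply, Pi.smul_apply, smul_eq_mul] at h
  linear_combination 24 * h

open Classical in
lemma Eig.cC_op {b : (Fin 2 → ZMod q) → ℂ} {lam : ℕ → ℂ} {ch : (ZMod q)ˣ → ℂ}
    (E : Eig x y b lam ch) {p : ℕ} (hp : p.Prime) (hpq : p ≠ q) {k : ℕ} (hk : k ≠ 0)
    (v : Fin 2 → ZMod q) :
    ∑ α ∈ S (p ^ k), (wH (p ^ k) α : ℂ) * b (v ᵥ* mat x y α) =
      24 * cC (eP ch) lam (p ^ k) * b v := by
  have hH := E.hecke h2 hxy
  have hmf : (p ^ k).minFac = p := hp.pow_minFac hk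
  rcases Nat.lt_or_ge k 2 with h1 | h1
  · have hk1 : k = 1 := by omega
    subst hk1
    rw [pow_one] at hmf ⊢
    have e1 : ∀ α, wH p α = 1 := by
      intro α
      unfold wH
      rw [if_neg, sub_zero]
      rintro ⟨h, -⟩
      rw [hmf] at h
      have h3 := Nat.le_of_dvd hp.pos h
      have h4 := hp.one_lt
      nlinarith
    simp only [e1, Complex.ofReal_one, one_mul]
    rw [E.sum_S h2, cC_prime hH hp]
  · obtain ⟨j, rfl⟩ : ∃ j, k = j + 2 := ⟨k - 2, by omega⟩
    rw [cC_pow hH hp]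
    by_cases hp2 : p = 2
    · subst hp2
      have e1 : ∀ α, wH (2 ^ (j + 2)) α = 1 := by
        intro α
        unfold wH
        rw [if_neg, sub_zero]
        rintro ⟨-, h, -⟩
        exact h hmf
      simp only [e1, Complex.ofReal_one, one_mul]
      rw [E.sum_S h2]
      unfold eP
      simp
    · have e1 : ∀ α, (wH (p ^ (j + 2)) α : ℂ) * b (v ᵥ* mat x y α) = b (v ᵥ* mat x y α) -
          (if ∃ β : Hur, α = (p : Hur) * β then (p : ℂ) * b (v ᵥ* mat x y α) else 0) := by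
        intro α
        unfold wH
        rw [hmf]
        have hd : p ^ 2 ∣ p ^ (j + 2) := Nat.pow_dvd_pow _ (by omega)
        split_ifs with h3 h4 h4
        · push_cast; ring
        · exact absurd h3.2.2 h4
        · exact absurd ⟨hd, hp2, h4⟩ h3
        · simp
      simp_rw [e1]
      rw [Finset.sum_sub_distrib, E.sum_S h2, ← Finset.sum_filter]
      have e2 : p ^ (j + 2) = p ^ 2 * p ^ j := by ring
      have e3 := sum_mult (M := ℂ) hp.pos (p ^ j) (fun α => (p : ℂ) * b (v ᵥ* mat x y α))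
      rw [← e2] at e3
      rw [e3, ← Finset.mul_sum]
      have e : ∀ γ : Hur, b (v ᵥ* mat x y ((p : Hur) * γ)) = b (((p : ZMod q) • v) ᵥ* mat x y γ) := by
        intro γ
        rw [mat_mul h2 hxy, mat_natCast h2, Matrix.smul_mul, one_mul, Matrix.vecMul_smul,
          Matrix.smul_vecMul]
      simp_rw [e]
      rw [E.sum_S h2]
      have hpz : (p : ZMod q) ≠ 0 := by
        rw [Ne, ZMod.natCast_eq_zero_iff]
        intro h
        exact hpq ((Nat.prime_dvd_prime_iff_eq (Fact.out : q.Prime) hp).1 h).symm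
      have h5 := congrFun (E.D (Units.mk0 (p : ZMod q) hpz)) v
      rw [Dm_apply, Pi.smul_apply, smul_eq_mul] at h5
      simp only [Units.val_mk0] at h5
      rw [h5]
      unfold eP
      rw [if_neg hp2, dif_neg hpz]
      ring

/-- the second moment -/
theorem second {g : ℕ} (b : Fin g → (Fin 2 → ZMod q) → ℂ) (lam : Fin g → ℕ → ℂ)
    (ch : Fin g → (ZMod q)ˣ → ℂ) (hE : ∀ k, Eig x y (b k) (lam k) (ch k))
    (hb : ∀ k l, ∑ v, b k v * (starRingEnd ℂ) (b l v) = if k = l then 1 else 0)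
    (M : ℕ) (hM : 4 * M ≤ q + 3) (c : ℕ → ℂ) :
    ∑ k, ‖∑ m ∈ Finset.range M, c m * ((ArithmeticFunction.vonMangoldt m : ℂ) *
        cC (eP (ch k)) (lam k) m)‖ ^ 2 ≤
      (((q : ℝ) ^ 2 - 1) / 24) * ∑ m ∈ Finset.range M, ‖c m‖ ^ 2 *
        ArithmeticFunction.vonMangoldt m ^ 2 * m * vH m := by
  classical
  set N : Hur → ℕ := fun α => (nrm α).toNat with hN
  have hNS : ∀ (m : ℕ) (α : Hur), α ∈ S m → N α = m := by
    intro m α hα
    rw [hN]
    simp only
    rw [mem_S.1 hα]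
    simp
  set 𝒮 : Finset Hur := (Finset.range M).biUnion S with h𝒮
  have hdisj : Set.PairwiseDisjoint (↑(Finset.range M)) S := by
    intro m _ n _ hmn
    rw [Function.onFun, Finset.disjoint_left]
    intro α h1 h3
    rw [mem_S] at h1 h3
    apply hmn
    exact_mod_cast h1.symm.trans h3
  set G : Hur → ℂ := fun α => (1 / 24 : ℂ) * (c (N α) * (ArithmeticFunction.vonMangoldt (N α) : ℂ)) *
    (wH (N α) α : ℂ) with hG
  have hsmall : ∀ α ∈ 𝒮, 4 * nrm α < q := by
    intro α hα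
    rw [h𝒮, Finset.mem_biUnion] at hα
    obtain ⟨m, hm, hα⟩ := hα
    rw [mem_S] at hα
    rw [Finset.mem_range] at hm
    rw [hα]
    -- 4 m ≤ 4 (M - 1) ≤ q - 1
    omega
  have hqp : q.Prime := Fact.out
  have hkey : ∀ k v, ∑ α ∈ 𝒮, G α * b k (v ᵥ* mat x y α) =
      (∑ m ∈ Finset.range M, c m * ((ArithmeticFunction.vonMangoldt m : ℂ) *
        cC (eP (ch k)) (lam k) m)) * b k v := by
    intro k v
    rw [h𝒮, Finset.sum_biUnion hdisj, Finset.sum_mul]
    refine Finset.sum_congr rfl fun m hm => ?_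
    rw [Finset.mem_range] at hm
    have e1 : ∑ α ∈ S m, G α * b k (v ᵥ* mat x y α) = (1 / 24 : ℂ) *
        (c m * (ArithmeticFunction.vonMangoldt m : ℂ)) *
        ∑ α ∈ S m, (wH m α : ℂ) * b k (v ᵥ* mat x y α) := by
      rw [Finset.mul_sum]
      refine Finset.sum_congr rfl fun α hα => ?_
      rw [hG]
      simp only
      rw [hNS m α hα]
      ring
    rw [e1]
    by_cases hpp : IsPrimePow m
    · obtain ⟨p, j, hp, hj, rfl⟩ := hpp
      have hp' : p.Prime := hp.nat_prime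
      have hpq : p ≠ q := by
        rintro rfl
        have : p ^ 1 ≤ p ^ j := Nat.pow_le_pow_right hp'.pos hj
        rw [pow_one] at this
        have := hp'.pos
        omega
      rw [(hE k).cC_op h2 hxy hp' hpq hj.ne' v]
      ring
    · rw [ArithmeticFunction.vonMangoldt_eq_zero_iff.2 hpp]
      simp
  refine (hs_eig h2 hxy 𝒮 hsmall G b (fun k => (hE k).mem.1) hb _ hkey).trans ?_
  rw [div_mul_eq_mul_div, mul_div_assoc]
  have hq1 : (0 : ℝ) ≤ (q : ℝ) ^ 2 - 1 := by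
    have : (1 : ℝ) ≤ q := by exact_mod_cast hqp.one_lt.le
    nlinarith
  refine mul_le_mul_of_nonneg_left ?_ hq1
  rw [h𝒮, Finset.sum_biUnion hdisj, Finset.sum_div]
  refine Finset.sum_le_sum fun m hm => ?_
  have e1 : ∑ α ∈ S m, ‖G α‖ ^ 2 = (1 / 576) * (‖c m‖ ^ 2 * ArithmeticFunction.vonMangoldt m ^ 2) *
      ∑ α ∈ S m, wH m α ^ 2 := by
    rw [Finset.mul_sum]
    refine Finset.sum_congr rfl fun α hα => ?_
    rw [hG]
    simp only
    rw [hNS m α hα, norm_mul, norm_mul, norm_mul, Complex.norm_real, Complex.norm_real,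
      Real.norm_eq_abs, Real.norm_eq_abs]
    have : ‖(1 / 24 : ℂ)‖ = 1 / 24 := by norm_num
    rw [this, mul_pow, mul_pow, mul_pow, sq_abs, sq_abs]
    ring
  rw [e1]
  by_cases hpp : IsPrimePow m
  · obtain ⟨p, j, hp, hj, rfl⟩ := hpp
    have h5 := wH_sq_sum hp.nat_prime j hj.ne'
    have h6 : 0 ≤ ‖c (p ^ j)‖ ^ 2 * ArithmeticFunction.vonMangoldt (p ^ j) ^ 2 := by positivity
    calc _ ≤ (1 / 576) * (‖c (p ^ j)‖ ^ 2 * ArithmeticFunction.vonMangoldt (p ^ j) ^ 2) *
          (24 * ((p ^ j : ℕ) : ℝ) * vH (p ^ j)) :=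
          mul_le_mul_of_nonneg_left h5 (by positivity)
      _ = _ := by ring
  · rw [ArithmeticFunction.vonMangoldt_eq_zero_iff.2 hpp]
    simp

end

end Pool.Agent.N880.HQ
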