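import Pool.Agent.N880.HQ.Good
import Pool.Agent.N880.HQ.Second
import Pool.Agent.N880.HQ.Dim
import Pool.Agent.N7.MainC
import Pool.Agent.W388.TW.FamAbsE

/-! # The mean square of the prime sums -/

set_option autoImplicit false

open Complex Filter Topology Module MeasureTheory Set
open Pool.Agent.N7.HeckeId (HeckeC cC cC_prime cC_pow)
open H385 (bt wt Rw bt_norm wt_nonneg wt_le_one bt_sq_int wt_sq_int)

namespace Pool.Agent.N880.HQ

/-! ### weights -/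

lemma log_sq_le {p : ℝ} (hp : 1 ≤ p) : Real.log p ^ 2 / p ^ 2 ≤ 16 * p ^ (-(3 / 2) : ℝ) := by
  have hp0 : 0 < p := by linarith
  have h1 := Real.log_le_rpow_div hp0.le (show (0 : ℝ) < 1 / 4 by norm_num)
  have h3 : 0 ≤ Real.log p := Real.log_nonneg hp
  have h4 : Real.log p ≤ 4 * p ^ (1 / 4 : ℝ) := by linarith
  have h5 : Real.log p ^ 2 ≤ 16 * p ^ (1 / 2 : ℝ) := by
    calc Real.log p ^ 2 ≤ (4 * p ^ (1 / 4 : ℝ)) ^ 2 := pow_le_pow_left₀ h3 h4 2
      _ = 16 * p ^ (1 / 2 : ℝ) := by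
        rw [mul_pow, ← Real.rpow_natCast (p ^ (1 / 4 : ℝ)), ← Real.rpow_mul hp0.le]
        norm_num
  rw [div_le_iff₀ (by positivity)]
  refine h5.trans (le_of_eq ?_)
  rw [mul_assoc, ← Real.rpow_natCast p 2, ← Real.rpow_add hp0]
  norm_num

lemma hw_summable : Summable (fun m : ℕ => ArithmeticFunction.vonMangoldt m ^ 2 / m * (vH m - 1)) := by
  have hsupp : Function.support (fun m : ℕ => ArithmeticFunction.vonMangoldt m ^ 2 / m * (vH m - 1)) ⊆
      {m : ℕ | IsPrimePow m} := by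
    intro m hm
    by_contra hcon
    apply hm
    have : ArithmeticFunction.vonMangoldt m = 0 := ArithmeticFunction.vonMangoldt_eq_zero_iff.2 hcon
    simp [this]
  have hind := summable_subtype_iff_indicator (s := {m : ℕ | IsPrimePow m})
    (f := fun m : ℕ => ArithmeticFunction.vonMangoldt m ^ 2 / m * (vH m - 1))
  rw [Set.indicator_eq_self.2 hsupp] at hind
  rw [← hind]
  refine (Nat.Primes.prodNatEquiv.summable_iff
    (f := (fun m : ℕ => ArithmeticFunction.vonMangoldt m ^ 2 / m * (vH m - 1)) ∘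
      (Subtype.val : {m : ℕ // IsPrimePow m} → ℕ))).1 ?_
  have hp1 : ∀ p : Nat.Primes, (1 : ℝ) ≤ (p : ℕ) := fun p => by exact_mod_cast p.2.one_lt.le
  have hb : Summable (fun x : Nat.Primes × ℕ => (96 * ((x.1 : ℕ) : ℝ) ^ (-(3 / 2) : ℝ)) * (1 / 2 : ℝ) ^ x.2) := by
    have h1 : Summable (fun p : Nat.Primes => 96 * ((p : ℕ) : ℝ) ^ (-(3 / 2) : ℝ)) := by
      apply Summable.mul_left
      exact (Real.summable_nat_rpow.2 (by norm_num : (-(3 / 2) : ℝ) < -1)).comp_injective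
        (i := fun p : Nat.Primes => (p : ℕ)) Subtype.val_injective
    exact h1.mul_of_nonneg summable_geometric_two (fun p => by positivity) (fun k => by positivity)
  refine Summable.of_nonneg_of_le (fun x => ?_) (fun x => ?_) hb
  · simp only [Function.comp]
    have h3 : 1 ≤ vH (Nat.Primes.prodNatEquiv x : ℕ) := by
      unfold vH
      split_ifs
      · have : (0 : ℝ) ≤ 1 / ((Nat.Primes.prodNatEquiv x : ℕ) : ℝ) := by positivity
        linarith
      · norm_num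
    have : 0 ≤ vH (Nat.Primes.prodNatEquiv x : ℕ) - 1 := by linarith
    positivity
  · obtain ⟨p, k⟩ := x
    simp only [Function.comp, Nat.Primes.coe_prodNatEquiv_apply]
    have hp := p.2
    have hpr := hp1 p
    have hp0 : (0 : ℝ) < (p : ℕ) := by linarith
    rw [ArithmeticFunction.vonMangoldt_apply_pow (by omega), ArithmeticFunction.vonMangoldt_apply_prime hp]
    have hl := log_sq_le hpr
    have hl0 : 0 ≤ Real.log (p : ℕ) ^ 2 := sq_nonneg _
    have hp2 : (2 : ℝ) ≤ (p : ℕ) := by exact_mod_cast hp.two_le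
    have key : Real.log (p : ℕ) ^ 2 / (((p : ℕ) ^ (k + 1) : ℕ) : ℝ) * (vH ((p : ℕ) ^ (k + 1)) - 1) ≤
        6 * (Real.log (p : ℕ) ^ 2 / ((p : ℕ) : ℝ) ^ 2) * (1 / 2 : ℝ) ^ k := by
      rcases Nat.eq_zero_or_pos k with rfl | hk
      · simp only [zero_add, pow_one, pow_zero, mul_one]
        unfold vH
        rw [if_pos hp]
        have : Real.log (p : ℕ) ^ 2 / ((p : ℕ) : ℝ) * (1 + 1 / ((p : ℕ) : ℝ) - 1) =
            Real.log (p : ℕ) ^ 2 / ((p : ℕ) : ℝ) ^ 2 := by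
          field_simp
          ring
        rw [this]
        have : 0 ≤ Real.log (p : ℕ) ^ 2 / ((p : ℕ) : ℝ) ^ 2 := by positivity
        linarith
      · obtain ⟨j, rfl⟩ : ∃ j, k = j + 1 := ⟨k - 1, by omega⟩
        unfold vH
        rw [if_neg (Nat.Prime.not_prime_pow (by omega))]
        have h5 : (2 : ℝ) ^ j ≤ ((p : ℕ) : ℝ) ^ j := pow_le_pow_left₀ (by norm_num) hp2 j
        push_cast
        have e1 : Real.log (p : ℕ) ^ 2 / ((p : ℕ) : ℝ) ^ (j + 1 + 1) * (4 - 1) =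
            3 * (Real.log (p : ℕ) ^ 2 / ((p : ℕ) : ℝ) ^ 2) * (1 / ((p : ℕ) : ℝ) ^ j) := by
          field_simp
          ring
        have e2 : 6 * (Real.log (p : ℕ) ^ 2 / ((p : ℕ) : ℝ) ^ 2) * (1 / 2 : ℝ) ^ (j + 1) =
            3 * (Real.log (p : ℕ) ^ 2 / ((p : ℕ) : ℝ) ^ 2) * (1 / 2 ^ j) := by
          rw [one_div_pow, pow_succ]
          field_simp
          ring
        rw [e1, e2]
        gcongr
    refine key.trans ?_
    have : (0 : ℝ) ≤ (1 / 2) ^ k := by positivity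
    calc 6 * (Real.log (p : ℕ) ^ 2 / ((p : ℕ) : ℝ) ^ 2) * (1 / 2 : ℝ) ^ k ≤
        6 * (16 * ((p : ℕ) : ℝ) ^ (-(3 / 2) : ℝ)) * (1 / 2 : ℝ) ^ k := by gcongr
      _ = _ := by ring

/-! ### the prime sum -/

/-- the coefficient of `Λ(m) c(m)` in the prime sum -/
noncomputable def cf (T u t : ℝ) (m : ℕ) : ℂ := (10 / (m : ℂ)) * bt T u t (10 * Real.log m)

variable {e lam : ℕ → ℂ}

lemma Pf_eq (T u t : ℝ) :
    ∑' n : ℕ, aG e lam n * ((Real.sqrt n : ℂ)⁻¹ * bt T u t (Real.log n)) =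
      ∑' m : ℕ, cf T u t m * ((ArithmeticFunction.vonMangoldt m : ℂ) * cC e lam m) := by
  rw [aG_tsum (e := e) (lam := lam) _ (fun n hn => by rw [hn, zero_mul])]
  refine tsum_congr fun m => ?_
  rw [aG_apply]
  rcases Nat.eq_zero_or_pos m with rfl | hm
  · simp
  · have hmC : (m : ℂ) ≠ 0 := by exact_mod_cast hm.ne'
    have h1 : Real.sqrt ((m ^ 10 : ℕ) : ℝ) = (m : ℝ) ^ 5 := by
      rw [show ((m ^ 10 : ℕ) : ℝ) = ((m : ℝ) ^ 5) ^ 2 by push_cast; ring]
      exact Real.sqrt_sq (by positivity)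
    have h3 : Real.log ((m ^ 10 : ℕ) : ℝ) = 10 * Real.log m := by
      rw [Nat.cast_pow, Real.log_pow]
      norm_num
    rw [h1, h3]
    unfold cf
    push_cast
    field_simp

lemma cf_norm (T u t : ℝ) (hT : 0 ≤ T) (m : ℕ) : ‖cf T u t m‖ ≤
    (10 / m) * (1 / Real.sqrt (2 * Real.pi) * Real.exp (-(u - 10 * Real.log m) ^ 2 / 4) * wt T t) := by
  unfold cf
  rw [norm_mul, norm_div, Complex.norm_natCast]
  have : ‖(10 : ℂ)‖ = 10 := by norm_num
  rw [this]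
  exact mul_le_mul_of_nonneg_left (bt_norm T u t _ hT) (by positivity)

lemma term_bd (S : Seq e lam) {K : ℝ} (T u t : ℝ) (hT : 0 ≤ T) {m : ℕ} (hm : 0 < m) :
    ‖cf T u t m * ((ArithmeticFunction.vonMangoldt m : ℂ) * cC e lam m)‖ ≤
      (20 * Real.exp (K ^ 2 + K * u) * wt T t) * (m : ℝ) ^ (3 - 10 * K) := by
  have hm0 : (0 : ℝ) < m := by exact_mod_cast hm
  have hw := wt_nonneg T t hT
  rw [norm_mul]
  have h1 := cf_norm T u t hT m
  have h3 := S.vM_le m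
  have h4 : Real.exp (-(u - 10 * Real.log m) ^ 2 / 4) ≤
      Real.exp (K ^ 2 + K * u) * (m : ℝ) ^ (-(10 * K)) := by
    rw [Real.rpow_def_of_pos hm0, ← Real.exp_add]
    apply Real.exp_le_exp.2
    nlinarith [sq_nonneg ((10 * Real.log m - u) / 2 - K)]
  have h5 : 1 / Real.sqrt (2 * Real.pi) ≤ 1 := by
    rw [div_le_one (Real.sqrt_pos.2 (by positivity))]
    apply Real.one_le_sqrt.2
    nlinarith [Real.pi_gt_three]
  have h6 : (m : ℝ) ^ (3 - 10 * K) = (m : ℝ) ^ (-(10 * K)) * (m : ℝ) ^ (4 : ℝ) * (1 / m) := by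
    rw [one_div, ← Real.rpow_neg_one, ← Real.rpow_add hm0, ← Real.rpow_add hm0]
    congr 1
    ring
  calc ‖cf T u t m‖ * ‖(ArithmeticFunction.vonMangoldt m : ℂ) * cC e lam m‖ ≤
      ((10 / m) * (1 * (Real.exp (K ^ 2 + K * u) * (m : ℝ) ^ (-(10 * K))) * wt T t)) *
        (2 * (m : ℝ) ^ (4 : ℝ)) := by
        refine mul_le_mul (h1.trans ?_) h3 (norm_nonneg _) (by positivity)
        gcongr
    _ = _ := by rw [h6]; ring

lemma sum_sh : Summable (fun j : ℕ => 1 / ((j : ℝ) + 1) ^ 2) := by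
  have := (summable_nat_add_iff 1).2 zt2
  refine this.congr fun j => ?_
  push_cast
  rfl

lemma sum_sh_le : ∑' j : ℕ, 1 / ((j : ℝ) + 1) ^ 2 ≤ 2 := by
  have h := zt2.sum_add_tsum_nat_add 1
  rw [hasSum_zeta_two.tsum_eq] at h
  simp only [Finset.sum_range_succ, Finset.sum_range_zero] at h
  norm_num at h
  have h3 : Real.pi ^ 2 ≤ 10 := by
    have := Real.pi_lt_d2
    have := Real.pi_pos
    nlinarith
  have e1 : ∀ n : ℕ, 1 / ((n : ℝ) + 1) ^ 2 = (((n : ℝ) + 1) ^ 2)⁻¹ := by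
    intro n
    rw [one_div]
  simp_rw [e1]
  linarith

lemma rpow_tail {K : ℝ} (hK : 1 ≤ K) {M : ℕ} (hM : 1 ≤ M) (j : ℕ) :
    ((j + M : ℕ) : ℝ) ^ (3 - 10 * K) ≤ (M : ℝ) ^ (5 - 10 * K) * (1 / ((j : ℝ) + 1) ^ 2) := by
  have hM1 : (1 : ℝ) ≤ M := by exact_mod_cast hM
  have hj : (0 : ℝ) ≤ j := Nat.cast_nonneg _
  have h0 : (0 : ℝ) < (j : ℝ) + M := by linarith
  push_cast
  have h1 : ((j : ℝ) + M) ^ (3 - 10 * K) = ((j : ℝ) + M) ^ (5 - 10 * K) * (1 / ((j : ℝ) + M) ^ 2) := by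
    rw [one_div, ← Real.rpow_natCast ((j : ℝ) + M) 2, ← Real.rpow_neg h0.le, ← Real.rpow_add h0]
    congr 1
    push_cast
    ring
  rw [h1]
  have h3 : ((j : ℝ) + M) ^ (5 - 10 * K) ≤ (M : ℝ) ^ (5 - 10 * K) :=
    Real.rpow_le_rpow_of_nonpos (by linarith) (by linarith) (by linarith)
  gcongr

lemma prime_sum_summable (S : Seq e lam) (T u t : ℝ) (hT : 0 ≤ T) :
    Summable (fun m : ℕ => cf T u t m * ((ArithmeticFunction.vonMangoldt m : ℂ) * cC e lam m)) := by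
  rw [← summable_nat_add_iff 1]
  refine Summable.of_norm_bounded (g := fun j : ℕ => (20 * Real.exp (1 ^ 2 + 1 * u) * wt T t) *
    (((1 : ℕ) : ℝ) ^ (5 - 10 * (1 : ℝ)) * (1 / ((j : ℝ) + 1) ^ 2))) ?_ fun j => ?_
  · exact (sum_sh.mul_left _).mul_left _
  · refine (term_bd S (K := 1) T u t hT (by omega : 0 < j + 1)).trans ?_
    have hw := wt_nonneg T t hT
    exact mul_le_mul_of_nonneg_left (rpow_tail (K := 1) le_rfl (M := 1) le_rfl j) (by positivity)

/-- the tail of the prime sum -/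
lemma tail_le (S : Seq e lam) {K : ℝ} (hK : 1 ≤ K) (T u t : ℝ) (hT : 0 ≤ T) {M : ℕ} (hM : 1 ≤ M) :
    ‖(∑' m : ℕ, cf T u t m * ((ArithmeticFunction.vonMangoldt m : ℂ) * cC e lam m)) -
      ∑ m ∈ Finset.range M, cf T u t m * ((ArithmeticFunction.vonMangoldt m : ℂ) * cC e lam m)‖ ≤
      40 * Real.exp (K ^ 2 + K * u) * (M : ℝ) ^ (5 - 10 * K) * wt T t := by
  have hs := prime_sum_summable S T u t hT
  rw [← hs.sum_add_tsum_nat_add M, add_sub_cancel_left]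
  have hw := wt_nonneg T t hT
  have hb : ∀ j : ℕ, ‖cf T u t (j + M) * ((ArithmeticFunction.vonMangoldt (j + M) : ℂ) *
      cC e lam (j + M))‖ ≤ (20 * Real.exp (K ^ 2 + K * u) * wt T t) *
      ((M : ℝ) ^ (5 - 10 * K) * (1 / ((j : ℝ) + 1) ^ 2)) := by
    intro j
    refine (term_bd S (K := K) T u t hT (by omega : 0 < j + M)).trans ?_
    exact mul_le_mul_of_nonneg_left (rpow_tail hK hM j) (by positivity)
  have hbs : Summable (fun j : ℕ => (20 * Real.exp (K ^ 2 + K * u) * wt T t) *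
      ((M : ℝ) ^ (5 - 10 * K) * (1 / ((j : ℝ) + 1) ^ 2))) := (sum_sh.mul_left _).mul_left _
  have hns := Summable.of_nonneg_of_le (fun j => norm_nonneg _) hb hbs
  refine (norm_tsum_le_tsum_norm hns).trans ((Summable.tsum_le_tsum hb hns hbs).trans ?_)
  rw [tsum_mul_left, tsum_mul_left]
  calc (20 * Real.exp (K ^ 2 + K * u) * wt T t) * ((M : ℝ) ^ (5 - 10 * K) *
        ∑' j : ℕ, 1 / ((j : ℝ) + 1) ^ 2) ≤
      (20 * Real.exp (K ^ 2 + K * u) * wt T t) * ((M : ℝ) ^ (5 - 10 * K) * 2) := by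
        gcongr
        exact sum_sh_le
    _ = _ := by ring

/-- the tail is bounded when `u ≤ 10 (1 - ε) log q` and `M ≥ q / 4` -/
lemma tail_le' {ε : ℝ} (hε : 0 < ε) (hε1 : ε ≤ 1) : ∃ C : ℝ, 0 < C ∧
    ∀ (e lam : ℕ → ℂ), Seq e lam → ∀ (T u t : ℝ), 0 ≤ T → ∀ (q M : ℕ), 1 ≤ q → q ≤ 4 * M →
    u ≤ 10 * (1 - ε) * Real.log q →
    ‖(∑' m : ℕ, cf T u t m * ((ArithmeticFunction.vonMangoldt m : ℂ) * cC e lam m)) -
      ∑ m ∈ Finset.range M, cf T u t m * ((ArithmeticFunction.vonMangoldt m : ℂ) * cC e lam m)‖ ≤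
      C * wt T t := by
  set K : ℝ := 1 / ε with hK
  have hK1 : 1 ≤ K := by rw [hK, le_div_iff₀ hε]; linarith
  refine ⟨40 * Real.exp (K ^ 2) * 4 ^ (10 * K - 5), by positivity, ?_⟩
  intro e lam S T u t hT q M hq hqM hu
  have hM1 : 1 ≤ M := by omega
  have hM0 : (0 : ℝ) < M := by exact_mod_cast hM1
  have hq0 : (0 : ℝ) < q := by exact_mod_cast hq
  have hL : 0 ≤ Real.log q := Real.log_nonneg (by exact_mod_cast hq)
  refine (tail_le S hK1 T u t hT hM1).trans ?_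
  have hw := wt_nonneg T t hT
  refine mul_le_mul_of_nonneg_right ?_ hw
  have h1 : (M : ℝ) ^ (5 - 10 * K) ≤ ((q : ℝ) / 4) ^ (5 - 10 * K) := by
    apply Real.rpow_le_rpow_of_nonpos (by positivity)
    · have : (q : ℝ) ≤ 4 * M := by exact_mod_cast hqM
      linarith
    · linarith
  have h3 : ((q : ℝ) / 4) ^ (5 - 10 * K) = (q : ℝ) ^ (5 - 10 * K) * 4 ^ (10 * K - 5) := by
    rw [Real.div_rpow hq0.le (by norm_num), div_eq_mul_inv, ← Real.rpow_neg (by norm_num)]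
    congr 2
    ring
  have h4 : Real.exp (K * u) * (q : ℝ) ^ (5 - 10 * K) ≤ 1 := by
    rw [Real.rpow_def_of_pos hq0, ← Real.exp_add, Real.exp_le_one_iff]
    have h5 : K * u ≤ K * (10 * (1 - ε) * Real.log q) :=
      mul_le_mul_of_nonneg_left hu (by linarith)
    have h6 : K * ε = 1 := by rw [hK]; field_simp
    have h7 : K * (10 * (1 - ε) * Real.log q) = 10 * K * Real.log q - 10 * (K * ε) * Real.log q := by
      ring
    rw [h7, h6] at h5
    nlinarith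
  rw [Real.exp_add]
  calc 40 * (Real.exp (K ^ 2) * Real.exp (K * u)) * (M : ℝ) ^ (5 - 10 * K) ≤
      40 * (Real.exp (K ^ 2) * Real.exp (K * u)) * ((q : ℝ) ^ (5 - 10 * K) * 4 ^ (10 * K - 5)) := by
        rw [← h3]; gcongr
    _ = 40 * Real.exp (K ^ 2) * 4 ^ (10 * K - 5) * (Real.exp (K * u) * (q : ℝ) ^ (5 - 10 * K)) := by
        ring
    _ ≤ 40 * Real.exp (K ^ 2) * 4 ^ (10 * K - 5) * 1 := by gcongr
    _ = _ := by ring

end Pool.Agent.N880.HQ
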