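import Pool.Agent.N880.HQ.Mean

/-! # The mean square of the prime sums over the family -/

set_option autoImplicit false

open Complex Filter Topology Module MeasureTheory Set
open Pool.Agent.N7.HeckeId (HeckeC cC cC_prime cC_pow)
open Pool.Agent.N7.MainC (inner inner_summable inner_continuous inner_nonneg inner_le main_c)
open H385 (bt wt Rw bt_norm wt_nonneg wt_le_one bt_sq_int wt_sq_int)

namespace Pool.Agent.N880.HQ

/-- the extra constant -/
noncomputable def K0 : ℝ := 100 * ∑' m : ℕ, ArithmeticFunction.vonMangoldt m ^ 2 / m * (vH m - 1)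

lemma vH_ge (m : ℕ) : 1 ≤ vH m := by
  unfold vH
  split_ifs
  · have : (0 : ℝ) ≤ 1 / (m : ℝ) := by positivity
    linarith
  · norm_num

lemma K0_nonneg : 0 ≤ K0 := by
  unfold K0
  have : 0 ≤ ∑' m : ℕ, ArithmeticFunction.vonMangoldt m ^ 2 / m * (vH m - 1) := by
    refine tsum_nonneg fun m => ?_
    have := vH_ge m
    have : 0 ≤ vH m - 1 := by linarith
    positivity
  linarith

lemma sum1 (M : ℕ) (u : ℝ) : ∑ m ∈ Finset.range M, 100 * (ArithmeticFunction.vonMangoldt m ^ 2 / m) *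
    vH m * Real.exp (-(u - 10 * Real.log m) ^ 2) ≤ inner 10 u + K0 := by
  have e1 : ∀ m : ℕ, 100 * (ArithmeticFunction.vonMangoldt m ^ 2 / m) *
      vH m * Real.exp (-(u - 10 * Real.log m) ^ 2) =
      100 * (ArithmeticFunction.vonMangoldt m ^ 2 / m * Real.exp (-(u - 10 * Real.log m) ^ 2)) +
      100 * (ArithmeticFunction.vonMangoldt m ^ 2 / m * (vH m - 1) *
        Real.exp (-(u - 10 * Real.log m) ^ 2)) := by
    intro m; ring
  simp_rw [e1]
  rw [Finset.sum_add_distrib, ← Finset.mul_sum, ← Finset.mul_sum]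
  unfold Pool.Agent.N7.MainC.inner K0
  have h1 : ∑ m ∈ Finset.range M, ArithmeticFunction.vonMangoldt m ^ 2 / m *
      Real.exp (-(u - 10 * Real.log m) ^ 2) ≤ ∑' m : ℕ, ArithmeticFunction.vonMangoldt m ^ 2 / m *
      Real.exp (-(u - 10 * Real.log m) ^ 2) :=
    (inner_summable (by norm_num : (0 : ℝ) < 10) u).sum_le_tsum _ (fun m _ => by positivity)
  have h3 : ∑ m ∈ Finset.range M, ArithmeticFunction.vonMangoldt m ^ 2 / m * (vH m - 1) *
      Real.exp (-(u - 10 * Real.log m) ^ 2) ≤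
      ∑' m : ℕ, ArithmeticFunction.vonMangoldt m ^ 2 / m * (vH m - 1) := by
    refine le_trans (Finset.sum_le_sum fun m _ => ?_)
      (hw_summable.sum_le_tsum (Finset.range M) fun m _ => ?_)
    · have h5 := vH_ge m
      have h6 : 0 ≤ ArithmeticFunction.vonMangoldt m ^ 2 / m * (vH m - 1) := by
        have : 0 ≤ vH m - 1 := by linarith
        positivity
      have h7 : Real.exp (-(u - 10 * Real.log m) ^ 2) ≤ 1 := by
        rw [Real.exp_le_one_iff]
        nlinarith [sq_nonneg (u - 10 * Real.log m)]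
      nlinarith
    · have h5 := vH_ge m
      have : 0 ≤ vH m - 1 := by linarith
      positivity
  have e3 : ((10 : ℝ) ^ 2) = 100 := by norm_num
  rw [e3]
  linarith

lemma sum2 : ∃ C : ℝ, 0 < C ∧ ∀ (M : ℕ) (u : ℝ), 0 ≤ u →
    ∑ m ∈ Finset.range M, 100 * (ArithmeticFunction.vonMangoldt m ^ 2 / m) *
    vH m * Real.exp (-(u - 10 * Real.log m) ^ 2 / 2) ≤ C * (u + 1) := by
  have hs2 : (0 : ℝ) < Real.sqrt 2 := Real.sqrt_pos.2 (by norm_num)
  have hsq : Real.sqrt 2 ^ 2 = 2 := Real.sq_sqrt (by norm_num)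
  have hs2' : Real.sqrt 2 ≤ 2 := by nlinarith
  have hs1 : 1 ≤ Real.sqrt 2 := by nlinarith
  have hc1 : 1 ≤ 10 / Real.sqrt 2 := by rw [le_div_iff₀ hs2]; linarith
  obtain ⟨C, hC, h⟩ := inner_le (10 / Real.sqrt 2) hc1
  refine ⟨8 * C, by positivity, fun M u hu => ?_⟩
  have hu' : 0 ≤ u / Real.sqrt 2 := by positivity
  have h1 := h (u / Real.sqrt 2) hu'
  have e1 : ∀ m : ℕ, (u / Real.sqrt 2 - 10 / Real.sqrt 2 * Real.log m) ^ 2 =
      (u - 10 * Real.log m) ^ 2 / 2 := by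
    intro m
    have : u / Real.sqrt 2 - 10 / Real.sqrt 2 * Real.log m = (u - 10 * Real.log m) / Real.sqrt 2 := by
      ring
    rw [this, div_pow, hsq]
  have hsum := inner_summable (c := 10 / Real.sqrt 2) (by positivity) (u / Real.sqrt 2)
  unfold Pool.Agent.N7.MainC.inner at h1
  simp_rw [e1] at h1 hsum
  have e3 : (10 / Real.sqrt 2) ^ 2 = 50 := by
    rw [div_pow, hsq]; norm_num
  rw [e3] at h1
  have h3 : ∑ m ∈ Finset.range M, ArithmeticFunction.vonMangoldt m ^ 2 / m *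
      Real.exp (-((u - 10 * Real.log m) ^ 2 / 2)) ≤ ∑' m : ℕ, ArithmeticFunction.vonMangoldt m ^ 2 / m *
      Real.exp (-((u - 10 * Real.log m) ^ 2 / 2)) :=
    hsum.sum_le_tsum _ (fun m _ => by positivity)
  have h4 : ∑ m ∈ Finset.range M, 100 * (ArithmeticFunction.vonMangoldt m ^ 2 / m) *
      vH m * Real.exp (-(u - 10 * Real.log m) ^ 2 / 2) ≤ 400 * ∑ m ∈ Finset.range M,
        ArithmeticFunction.vonMangoldt m ^ 2 / m * Real.exp (-((u - 10 * Real.log m) ^ 2 / 2)) := by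
    rw [Finset.mul_sum]
    refine Finset.sum_le_sum fun m _ => ?_
    have h5 := vH_le m
    have h6 : -(u - 10 * Real.log m) ^ 2 / 2 = -((u - 10 * Real.log m) ^ 2 / 2) := by ring
    rw [h6]
    have h7 : 0 ≤ ArithmeticFunction.vonMangoldt m ^ 2 / m *
      Real.exp (-((u - 10 * Real.log m) ^ 2 / 2)) := by positivity
    calc 100 * (ArithmeticFunction.vonMangoldt m ^ 2 / m) * vH m *
        Real.exp (-((u - 10 * Real.log m) ^ 2 / 2)) =
        (ArithmeticFunction.vonMangoldt m ^ 2 / m *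
      Real.exp (-((u - 10 * Real.log m) ^ 2 / 2))) * (100 * vH m) := by ring
      _ ≤ (ArithmeticFunction.vonMangoldt m ^ 2 / m *
      Real.exp (-((u - 10 * Real.log m) ^ 2 / 2))) * 400 :=
        mul_le_mul_of_nonneg_left (by linarith) h7
      _ = _ := by ring
  have h8 : u / Real.sqrt 2 + 1 ≤ u + 1 := by
    have : u / Real.sqrt 2 ≤ u := div_le_self hu hs1
    linarith
  have h9 : C * (u / Real.sqrt 2 + 1) ≤ C * (u + 1) := mul_le_mul_of_nonneg_left h8 hC.le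
  nlinarith

/-- a family of orthonormal eigenfunctions -/
structure Fam {q : ℕ} [Fact q.Prime] (x y : ZMod q) {g : ℕ} (b : Fin g → (Fin 2 → ZMod q) → ℂ)
    (lam : Fin g → ℕ → ℂ) (ch : Fin g → (ZMod q)ˣ → ℂ) : Prop where
  E : ∀ k, Eig x y (b k) (lam k) (ch k)
  on : ∀ k l, ∑ v, b k v * (starRingEnd ℂ) (b l v) = if k = l then 1 else 0

lemma Eig.seq {q : ℕ} [Fact q.Prime] {x y : ZMod q} {b : (Fin 2 → ZMod q) → ℂ} {lam : ℕ → ℂ}
    {ch : (ZMod q)ˣ → ℂ} (h2 : (2 : ZMod q) ≠ 0) (hxy : x ^ 2 + y ^ 2 = -1)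
    (E : Eig x y b lam ch) : Seq (eP ch) lam :=
  ⟨E.hecke h2 hxy, E.lam_le, fun p _ => E.eP_norm p⟩

lemma sq_add_le {δ : ℝ} (hδ : 0 < δ) (a b : ℝ) :
    (a + b) ^ 2 ≤ (1 + δ) * a ^ 2 + (1 + 1 / δ) * b ^ 2 := by
  have h : (1 + δ) * a ^ 2 + (1 + 1 / δ) * b ^ 2 - (a + b) ^ 2 = (1 / δ) * (δ * a - b) ^ 2 := by
    field_simp
    ring
  have : 0 ≤ (1 / δ) * (δ * a - b) ^ 2 := by positivity
  linarith

theorem mean_sq {δ ε : ℝ} (hδ : 0 < δ) (hε : 0 < ε) (hε1 : ε ≤ 1) : ∃ C : ℝ, 0 < C ∧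
    ∀ (q : ℕ) [Fact q.Prime] (x y : ZMod q), (2 : ZMod q) ≠ 0 → x ^ 2 + y ^ 2 = -1 →
    ∀ (g : ℕ) (b : Fin g → (Fin 2 → ZMod q) → ℂ) (lam : Fin g → ℕ → ℂ)
      (ch : Fin g → (ZMod q)ˣ → ℂ), Fam x y b lam ch → (g : ℝ) ≤ ((q : ℝ) ^ 2 - 1) / 24 →
    ∀ T κ u : ℝ, 1 ≤ κ → 1 ≤ T → T ≤ Real.exp (κ ^ 2) → 0 ≤ u → u ≤ 10 * (1 - ε) * Real.log q →
    ∫ t : ℝ, ∑ k : Fin g, ‖∑' n : ℕ, aG (eP (ch k)) (lam k) n *
      ((Real.sqrt n : ℂ)⁻¹ * bt T u t (Real.log n))‖ ^ 2 ≤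
      (1 + δ) * (((q : ℝ) ^ 2 - 1) / 24) * (T / (2 * Real.pi)) * inner 10 u +
        C * (((q : ℝ) ^ 2 - 1) / 24) * (T + κ * (u + 1)) := by
  obtain ⟨C1, hC1, htail⟩ := tail_le' hε hε1
  obtain ⟨C3, hC3, hwt⟩ := wt_sq_int
  obtain ⟨C4, hC4, hbt⟩ := bt_sq_int
  obtain ⟨C5, hC5, hs2⟩ := sum2
  have hK0 := K0_nonneg
  refine ⟨(1 + δ) * K0 + (1 + δ) * C4 * C5 + (1 + 1 / δ) * C1 ^ 2 * (1 + C3), by positivity, ?_⟩
  intro q _ x y h2 hxy g b lam ch hF hg T κ u hκ hT hTκ hu0 hu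
  have hqp : q.Prime := Fact.out
  set G : ℝ := ((q : ℝ) ^ 2 - 1) / 24 with hG
  have hG0 : 0 ≤ G := le_trans (Nat.cast_nonneg g) hg
  set M : ℕ := (q + 3) / 4 with hM
  have hM1 : 4 * M ≤ q + 3 := by omega
  have hM2 : q ≤ 4 * M := by omega
  have hT0 : 0 ≤ T := by linarith
  set A : Fin g → ℝ → ℂ := fun k t => ∑ m ∈ Finset.range M, cf T u t m *
    ((ArithmeticFunction.vonMangoldt m : ℂ) * cC (eP (ch k)) (lam k) m) with hA
  have hpt : ∀ t : ℝ, ∑ k : Fin g, ‖∑' n : ℕ, aG (eP (ch k)) (lam k) n *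
      ((Real.sqrt n : ℂ)⁻¹ * bt T u t (Real.log n))‖ ^ 2 ≤
      (1 + δ) * G * (∑ m ∈ Finset.range M, 100 * (ArithmeticFunction.vonMangoldt m ^ 2 / m) * vH m *
        ‖bt T u t (10 * Real.log m)‖ ^ 2) + (1 + 1 / δ) * G * C1 ^ 2 * wt T t ^ 2 := by
    intro t
    have hk : ∀ k : Fin g, ‖∑' n : ℕ, aG (eP (ch k)) (lam k) n *
        ((Real.sqrt n : ℂ)⁻¹ * bt T u t (Real.log n))‖ ^ 2 ≤ (1 + δ) * ‖A k t‖ ^ 2 +
        (1 + 1 / δ) * (C1 * wt T t) ^ 2 := by
      intro k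
      rw [Pf_eq]
      have h1 := htail _ _ ((hF.E k).seq h2 hxy) T u t hT0 q M hqp.one_lt.le hM2 hu
      have h3 : ‖∑' m : ℕ, cf T u t m * ((ArithmeticFunction.vonMangoldt m : ℂ) *
          cC (eP (ch k)) (lam k) m)‖ ≤ ‖A k t‖ + C1 * wt T t := by
        have := norm_le_norm_add_norm_sub' (∑' m : ℕ, cf T u t m *
          ((ArithmeticFunction.vonMangoldt m : ℂ) * cC (eP (ch k)) (lam k) m)) (A k t)
        linarith
      exact (pow_le_pow_left₀ (norm_nonneg _) h3 2).trans (sq_add_le hδ _ _)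
    refine (Finset.sum_le_sum fun k _ => hk k).trans ?_
    rw [Finset.sum_add_distrib, ← Finset.mul_sum, Finset.sum_const, Finset.card_univ,
      Fintype.card_fin, nsmul_eq_mul]
    have h4 := second h2 hxy b lam ch hF.E hF.on M hM1 (cf T u t)
    have h5 : ∑ m ∈ Finset.range M, ‖cf T u t m‖ ^ 2 * ArithmeticFunction.vonMangoldt m ^ 2 * m *
        vH m = ∑ m ∈ Finset.range M, 100 * (ArithmeticFunction.vonMangoldt m ^ 2 / m) * vH m *
        ‖bt T u t (10 * Real.log m)‖ ^ 2 := by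
      refine Finset.sum_congr rfl fun m _ => ?_
      unfold cf
      rw [norm_mul, norm_div, Complex.norm_natCast]
      have : ‖(10 : ℂ)‖ = 10 := by norm_num
      rw [this]
      rcases Nat.eq_zero_or_pos m with rfl | hm
      · simp
      · have hm0 : (0 : ℝ) < m := by exact_mod_cast hm
        field_simp
        ring
    rw [h5] at h4
    have h6 : (g : ℝ) * ((1 + 1 / δ) * (C1 * wt T t) ^ 2) ≤ G * ((1 + 1 / δ) * (C1 * wt T t) ^ 2) :=
      mul_le_mul_of_nonneg_right hg (by positivity)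
    have h7 : (1 + δ) * ∑ k : Fin g, ‖A k t‖ ^ 2 ≤ (1 + δ) * (G * ∑ m ∈ Finset.range M,
        100 * (ArithmeticFunction.vonMangoldt m ^ 2 / m) * vH m *
        ‖bt T u t (10 * Real.log m)‖ ^ 2) := mul_le_mul_of_nonneg_left h4 (by linarith)
    nlinarith
  -- integrate
  have hbti : ∀ m : ℕ, Integrable (fun t => ‖bt T u t (10 * Real.log m)‖ ^ 2) := fun m =>
    (hbt T κ u (10 * Real.log m) hκ hT hTκ).1
  have hi1 : Integrable (fun t => ∑ m ∈ Finset.range M, 100 *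
      (ArithmeticFunction.vonMangoldt m ^ 2 / m) * vH m * ‖bt T u t (10 * Real.log m)‖ ^ 2) :=
    integrable_finsetSum _ fun m _ => (hbti m).const_mul _
  have hi2 : Integrable (fun t => wt T t ^ 2) := (hwt T hT0).1
  have hint : Integrable (fun t => (1 + δ) * G * (∑ m ∈ Finset.range M, 100 *
      (ArithmeticFunction.vonMangoldt m ^ 2 / m) * vH m * ‖bt T u t (10 * Real.log m)‖ ^ 2) +
      (1 + 1 / δ) * G * C1 ^ 2 * wt T t ^ 2) := (hi1.const_mul _).add (hi2.const_mul _)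
  refine (integral_mono_of_nonneg (Eventually.of_forall fun t =>
    Finset.sum_nonneg fun k _ => by positivity) hint (Eventually.of_forall hpt)).trans ?_
  rw [integral_add (hi1.const_mul _) (hi2.const_mul _), integral_const_mul, integral_const_mul,
    integral_finsetSum _ (fun m _ => (hbti m).const_mul _)]
  simp_rw [integral_const_mul]
  have hb1 : ∀ m ∈ Finset.range M, 100 * (ArithmeticFunction.vonMangoldt m ^ 2 / m) * vH m *
      ∫ t : ℝ, ‖bt T u t (10 * Real.log m)‖ ^ 2 ≤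
      (T / (2 * Real.pi)) * (100 * (ArithmeticFunction.vonMangoldt m ^ 2 / m) * vH m *
        Real.exp (-(u - 10 * Real.log m) ^ 2)) +
      C4 * κ * (100 * (ArithmeticFunction.vonMangoldt m ^ 2 / m) * vH m *
        Real.exp (-(u - 10 * Real.log m) ^ 2 / 2)) := by
    intro m _
    have h1 := (hbt T κ u (10 * Real.log m) hκ hT hTκ).2
    have h3 : 0 ≤ 100 * (ArithmeticFunction.vonMangoldt m ^ 2 / m) * vH m := by
      have := vH_nonneg m
      positivity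
    refine (mul_le_mul_of_nonneg_left h1 h3).trans (le_of_eq ?_)
    ring
  have hb2 := Finset.sum_le_sum hb1
  rw [Finset.sum_add_distrib, ← Finset.mul_sum, ← Finset.mul_sum] at hb2
  have h8 := sum1 M u
  have h9 := hs2 M u hu0
  have hTp : 0 ≤ T / (2 * Real.pi) := by positivity
  have hTp' : T / (2 * Real.pi) ≤ T := div_le_self hT0 (by nlinarith [Real.pi_gt_three])
  have h10 : (∑ m ∈ Finset.range M, 100 * (ArithmeticFunction.vonMangoldt m ^ 2 / m) * vH m *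
      ∫ t : ℝ, ‖bt T u t (10 * Real.log m)‖ ^ 2) ≤ (T / (2 * Real.pi)) * (inner 10 u + K0) +
      C4 * κ * (C5 * (u + 1)) := by
    refine hb2.trans (add_le_add ?_ ?_)
    · exact mul_le_mul_of_nonneg_left h8 hTp
    · exact mul_le_mul_of_nonneg_left h9 (by positivity)
  have h11 := (hwt T hT0).2
  have h12 : (1 + δ) * G * (∑ m ∈ Finset.range M, 100 * (ArithmeticFunction.vonMangoldt m ^ 2 / m) *
      vH m * ∫ t : ℝ, ‖bt T u t (10 * Real.log m)‖ ^ 2) ≤ (1 + δ) * G *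
      ((T / (2 * Real.pi)) * (inner 10 u + K0) + C4 * κ * (C5 * (u + 1))) :=
    mul_le_mul_of_nonneg_left h10 (by positivity)
  have h13 : (1 + 1 / δ) * G * C1 ^ 2 * ∫ t : ℝ, wt T t ^ 2 ≤ (1 + 1 / δ) * G * C1 ^ 2 * (T + C3) :=
    mul_le_mul_of_nonneg_left h11 (by positivity)
  refine (add_le_add h12 h13).trans ?_
  have h14 : T + C3 ≤ (1 + C3) * T := by nlinarith
  have h15 : 0 ≤ κ * (u + 1) := by positivity
  have h16 : (1 + 1 / δ) * G * C1 ^ 2 * (T + C3) ≤ (1 + 1 / δ) * G * C1 ^ 2 * ((1 + C3) * T) :=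
    mul_le_mul_of_nonneg_left h14 (by positivity)
  have h17 : (1 + δ) * G * ((T / (2 * Real.pi)) * K0) ≤ (1 + δ) * G * (T * K0) := by
    gcongr
  have a1 : 0 ≤ (1 + δ) * K0 * G * (κ * (u + 1)) := by positivity
  have a2 : 0 ≤ (1 + δ) * C4 * C5 * G * T := by positivity
  have a3 : 0 ≤ (1 + 1 / δ) * C1 ^ 2 * (1 + C3) * G * (κ * (u + 1)) := by positivity
  calc (1 + δ) * G * (T / (2 * Real.pi) * (inner 10 u + K0) + C4 * κ * (C5 * (u + 1))) +
      (1 + 1 / δ) * G * C1 ^ 2 * (T + C3) =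
      (1 + δ) * G * (T / (2 * Real.pi)) * inner 10 u + (1 + δ) * G * ((T / (2 * Real.pi)) * K0) +
      (1 + δ) * C4 * C5 * G * (κ * (u + 1)) + (1 + 1 / δ) * G * C1 ^ 2 * (T + C3) := by ring
    _ ≤ (1 + δ) * G * (T / (2 * Real.pi)) * inner 10 u + (1 + δ) * G * (T * K0) +
      (1 + δ) * C4 * C5 * G * (κ * (u + 1)) + (1 + 1 / δ) * G * C1 ^ 2 * ((1 + C3) * T) := by
        linarith
    _ ≤ _ := by nlinarith

end Pool.Agent.N880.HQ
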