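import Pool.Agent.N880.HQ.Group

/-! # Normality of the Hecke operators, from the functional equation -/

set_option autoImplicit false

open Complex Matrix Filter Topology

namespace Pool.Agent.N880.HQ

open Hur

variable {q : ℕ} [Fact q.Prime] {x y : ZMod q}

/-- the theta series as a function on `F_q²` -/
noncomputable def ThF (x y : ZMod q) (φ : (Fin 2 → ZMod q) → ℂ) (t : ℝ) : (Fin 2 → ZMod q) → ℂ :=
  fun v => Th x y φ v t

section
variable (h2 : (2 : ZMod q) ≠ 0) (hxy : x ^ 2 + y ^ 2 = -1)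
include h2 hxy

/-- functionals which agree on theta series agree on the Hecke translates -/
lemma ext_T (hq : Odd q) {φ ψ : (Fin 2 → ZMod q) → ℂ}
    (L M : ((Fin 2 → ZMod q) → ℂ) →ₗ[ℂ] ℂ)
    (h : ∀ t : ℝ, 0 < t → L (ThF x y φ t) = M (ThF x y ψ t)) (n : ℕ) :
    L (T x y n φ) = M (T x y n ψ) := by
  have key := coeff_zero (fun n => L (T x y n φ) - M (T x y n ψ)) ?_ ?_ n
  · exact sub_eq_zero.1 key
  · intro t ht
    have h1 := (Th_hasSum_op h2 hxy hq ht φ L).summable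
    have h3 := (Th_hasSum_op h2 hxy hq ht ψ M).summable
    refine ((h1.sub h3).mul_left (24 : ℂ)⁻¹).congr fun n => ?_
    ring
  · intro t ht
    have h1 := (Th_hasSum_op h2 hxy hq ht φ L)
    have h3 := (Th_hasSum_op h2 hxy hq ht ψ M)
    have h4 := (h1.sub h3).mul_left (24 : ℂ)⁻¹
    have h5 : HasSum (fun n : ℕ => (L (T x y n φ) - M (T x y n ψ)) *
        ((Real.exp (-Real.pi * t * n) : ℝ) : ℂ)) 0 := by
      have e : (24 : ℂ)⁻¹ * (L (fun v => Th x y φ v t) - M (fun v => Th x y ψ v t)) = 0 := by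
        have := h t ht
        unfold ThF at this
        rw [this, sub_self, mul_zero]
      rw [← e]
      refine hs_congr (fun n => ?_) h4
      ring
    exact h5.tsum_eq

lemma ThF_fe (hq : Odd q) {φ : (Fin 2 → ZMod q) → ℂ} (hφ : φ ∈ A0 x y) {t : ℝ} (ht : 0 < t) :
    Nl x y (ThF x y (SF φ) t) =
      ((q : ℂ) ^ 2 * ((2 / (q * t) : ℝ) : ℂ) ^ 2 / 2) • ThF x y φ (2 / (q * t)) := by
  funext v
  have hq0 : (0 : ℝ) < q := by exact_mod_cast (Fact.out : q.Prime).pos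
  have ht' : 0 < 2 / (q * t) := by positivity
  have h := Th_fe' h2 hxy hq hφ v ht'
  have e : 2 / ((q : ℝ) * (2 / (q * t))) = t := by field_simp
  rw [e] at h
  rw [Nl_apply, Pi.smul_apply, smul_eq_mul]
  unfold ThF
  rw [h]
  have h3 : ((2 / (q * t) : ℝ) : ℂ) ≠ 0 := by exact_mod_cast ht'.ne'
  have h4 : (q : ℂ) ≠ 0 := by exact_mod_cast hq0.ne'
  field_simp

lemma kt_ne (t : ℝ) (ht : 0 < t) : ((q : ℂ) ^ 2 * ((2 / (q * t) : ℝ) : ℂ) ^ 2 / 2) ≠ 0 := by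
  have hq0 : (0 : ℝ) < q := by exact_mod_cast (Fact.out : q.Prime).pos
  have ht' : 0 < 2 / (q * t) := by positivity
  have h3 : ((2 / (q * t) : ℝ) : ℂ) ≠ 0 := by exact_mod_cast ht'.ne'
  have h4 : (q : ℂ) ≠ 0 := by exact_mod_cast hq0.ne'
  exact div_ne_zero (mul_ne_zero (pow_ne_zero _ h4) (pow_ne_zero _ h3)) two_ne_zero

/-- apply an operator which commutes with the Hecke operators to a theta series -/
lemma X_ThF (hq : Odd q) (X : ((Fin 2 → ZMod q) → ℂ) →ₗ[ℂ] ((Fin 2 → ZMod q) → ℂ))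
    {φ : (Fin 2 → ZMod q) → ℂ} (hX : ∀ n : ℕ, X (T x y n φ) = T x y n (X φ)) {t : ℝ} (ht : 0 < t) :
    X (ThF x y φ t) = ThF x y (X φ) t := by
  funext v
  have h1 := Th_hasSum_op h2 hxy hq ht φ (LinearMap.proj v ∘ₗ X)
  have h3 := Th_hasSum_op h2 hxy hq ht (X φ) (LinearMap.proj v)
  simp only [LinearMap.comp_apply, LinearMap.proj_apply, hX] at h1 h3
  exact h1.unique h3

/-- `N² = 1` on forms -/
lemma N_N (hq : Odd q) {φ : (Fin 2 → ZMod q) → ℂ} (hφ : φ ∈ A0 x y) :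
    Nl x y (Nl x y φ) = φ := by
  have hq0 : (0 : ℝ) < q := by exact_mod_cast (Fact.out : q.Prime).pos
  have h4 : (q : ℂ) ≠ 0 := by exact_mod_cast hq0.ne'
  funext v
  have h := ext_T h2 hxy hq (φ := φ) (ψ := φ) (LinearMap.proj v ∘ₗ Nl x y ∘ₗ Nl x y)
    (LinearMap.proj v) ?_ 1
  · rw [T_one hφ.2.2] at h
    exact h
  · intro t ht
    have ht' : 0 < 2 / (q * t) := by positivity
    simp only [LinearMap.comp_apply, LinearMap.proj_apply]
    -- SF SF φ = q² φ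
    have e1 : SF (SF φ) = (q : ℂ) ^ 2 • φ := by
      funext z
      rw [SF_SF]
      rfl
    have e2 := ThF_fe h2 hxy hq (SF_mem h2 hxy hφ) ht
    rw [e1] at e2
    have e3 := ThF_fe h2 hxy hq hφ ht'
    have e4 : 2 / ((q : ℝ) * (2 / (q * t))) = t := by field_simp
    rw [e4] at e3
    have e5 : ThF x y ((q : ℂ) ^ 2 • φ) t = (q : ℂ) ^ 2 • ThF x y φ t := by
      funext z
      unfold ThF Th
      simp only [Pi.smul_apply, smul_eq_mul, mul_assoc, tsum_mul_left]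
    rw [e5, map_smul] at e2
    have e6 : Nl x y (Nl x y ((q : ℂ) ^ 2 • ThF x y φ t)) = (q : ℂ) ^ 2 • ThF x y φ t := by
      rw [map_smul, e2, map_smul, e3, smul_smul]
      congr 1
      push_cast
      have : (t : ℂ) ≠ 0 := by exact_mod_cast ht.ne'
      field_simp
    rw [map_smul, map_smul] at e6
    have e7 := smul_right_injective _ (pow_ne_zero 2 h4) e6
    exact congrFun e7 v

omit hxy h2 in
lemma SF_smul (c : ℂ) (φ : (Fin 2 → ZMod q) → ℂ) : SF (c • φ) = c • SF φ := by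
  have := (SFl (q := q)).map_smul c φ
  exact this

omit hxy h2 in
lemma SF_surj (φ : (Fin 2 → ZMod q) → ℂ) : SF (((q : ℂ) ^ 2)⁻¹ • SF φ) = φ := by
  have hq0 : (0 : ℝ) < q := by exact_mod_cast (Fact.out : q.Prime).pos
  have h4 : (q : ℂ) ≠ 0 := by exact_mod_cast hq0.ne'
  rw [SF_smul]
  funext z
  rw [Pi.smul_apply, SF_SF, smul_eq_mul, ← mul_assoc, inv_mul_cancel₀ (pow_ne_zero 2 h4), one_mul]

/-- `N` preserves forms -/
lemma N_mem (hq : Odd q) {φ : (Fin 2 → ZMod q) → ℂ} (hφ : φ ∈ A0 x y) : Nl x y φ ∈ A0 x y := by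
  -- φ = SF ψ
  obtain ⟨ψ, hψ, rfl⟩ : ∃ ψ ∈ A0 x y, SF ψ = φ :=
    ⟨((q : ℂ) ^ 2)⁻¹ • SF φ, Submodule.smul_mem _ _ (SF_mem h2 hxy hφ), SF_surj φ⟩
  have hq2 : q ≠ 2 := by
    rintro rfl
    exact h2 rfl
  have hq0 : (0 : ℝ) < q := by exact_mod_cast (Fact.out : q.Prime).pos
  refine ⟨?_, ?_, ?_⟩
  · rw [Nl_apply, nv_zero, hφ.1]
  · have h := ext_T h2 hxy hq (φ := SF ψ) (ψ := 0)
      ((∑ v : Fin 2 → ZMod q, (LinearMap.proj v : ((Fin 2 → ZMod q) → ℂ) →ₗ[ℂ] ℂ)) ∘ₗ Nl x y)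
      0 ?_ 1
    · rw [T_one hφ.2.2] at h
      simpa [LinearMap.sum_apply] using h
    · intro t ht
      have ht' : 0 < 2 / (q * t) := by positivity
      rw [LinearMap.comp_apply, ThF_fe h2 hxy hq hψ ht, map_smul, LinearMap.zero_apply,
        smul_eq_mul]
      convert mul_zero _
      have h3 := Th_hasSum_op h2 hxy hq ht' ψ
        (∑ v : Fin 2 → ZMod q, (LinearMap.proj v : ((Fin 2 → ZMod q) → ℂ) →ₗ[ℂ] ℂ))
      have h4 : ∀ n : ℕ, (∑ v : Fin 2 → ZMod q,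
          (LinearMap.proj v : ((Fin 2 → ZMod q) → ℂ) →ₗ[ℂ] ℂ)) (T x y n ψ) = 0 := by
        intro n
        have := (T_mem h2 hxy hq2 n hψ).2.1
        simpa [LinearMap.sum_apply] using this
      simp only [h4, zero_mul] at h3
      exact h3.unique hasSum_zero
  · intro u hu v
    have h := ext_T h2 hxy hq (φ := SF ψ) (ψ := SF ψ)
      (LinearMap.proj (v ᵥ* mat x y u) ∘ₗ Nl x y) (LinearMap.proj v ∘ₗ Nl x y) ?_ 1
    · rw [T_one hφ.2.2] at h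
      exact h
    · intro t ht
      have ht' : 0 < 2 / (q * t) := by positivity
      rw [LinearMap.comp_apply, LinearMap.comp_apply, ThF_fe h2 hxy hq hψ ht]
      simp only [LinearMap.proj_apply, Pi.smul_apply]
      congr 1
      unfold ThF
      rw [Th_eq hq ht', Th_eq hq ht']
      refine tsum_congr fun n => ?_
      rw [T_uinv h2 hxy n ψ u hu v]

/-- the main consequence of the functional equation -/
lemma X_N_T_S (hq : Odd q) (X : ((Fin 2 → ZMod q) → ℂ) →ₗ[ℂ] ((Fin 2 → ZMod q) → ℂ))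
    {φ : (Fin 2 → ZMod q) → ℂ} (hφ : φ ∈ A0 x y) (hXφ : X φ ∈ A0 x y)
    (hX : ∀ n : ℕ, X (T x y n φ) = T x y n (X φ)) (n : ℕ) :
    X (Nl x y (T x y n (SF φ))) = Nl x y (T x y n (SF (X φ))) := by
  have hq0 : (0 : ℝ) < q := by exact_mod_cast (Fact.out : q.Prime).pos
  funext v
  refine ext_T h2 hxy hq (φ := SF φ) (ψ := SF (X φ)) (LinearMap.proj v ∘ₗ X ∘ₗ Nl x y)
    (LinearMap.proj v ∘ₗ Nl x y) ?_ n
  intro t ht
  have ht' : 0 < 2 / (q * t) := by positivity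
  simp only [LinearMap.comp_apply, LinearMap.proj_apply]
  rw [ThF_fe h2 hxy hq hφ ht, ThF_fe h2 hxy hq hXφ ht, map_smul, X_ThF h2 hxy hq X hX ht']

/-- the adjoint Hecke operator -/
noncomputable def Ts (x y : ZMod q) (n : ℕ) : ((Fin 2 → ZMod q) → ℂ) →ₗ[ℂ] ((Fin 2 → ZMod q) → ℂ) :=
  ((q : ℂ) ^ 2)⁻¹ • (SFl ∘ₗ T x y n ∘ₗ SFl)

omit h2 hxy in
lemma Ts_apply (n : ℕ) (φ : (Fin 2 → ZMod q) → ℂ) :
    Ts x y n φ = ((q : ℂ) ^ 2)⁻¹ • SF (T x y n (SF φ)) := rfl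

lemma Ts_mem (n : ℕ) {φ : (Fin 2 → ZMod q) → ℂ} (h : φ ∈ A0 x y) : Ts x y n φ ∈ A0 x y := by
  have hq2 : q ≠ 2 := by
    rintro rfl
    exact h2 rfl
  rw [Ts_apply]
  exact Submodule.smul_mem _ _ (SF_mem h2 hxy (T_mem h2 hxy hq2 n (SF_mem h2 hxy h)))

/-- an operator which commutes with the Hecke operators commutes with their adjoints -/
lemma X_Ts (hq : Odd q) (X : ((Fin 2 → ZMod q) → ℂ) →ₗ[ℂ] ((Fin 2 → ZMod q) → ℂ))
    (hXm : ∀ φ ∈ A0 x y, X φ ∈ A0 x y)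
    (hX : ∀ φ ∈ A0 x y, ∀ n : ℕ, X (T x y n φ) = T x y n (X φ)) (n : ℕ)
    {φ : (Fin 2 → ZMod q) → ℂ} (hφ : φ ∈ A0 x y) : X (Ts x y n φ) = Ts x y n (X φ) := by
  have hq2 : q ≠ 2 := by
    rintro rfl
    exact h2 rfl
  have hq0 : (0 : ℝ) < q := by exact_mod_cast (Fact.out : q.Prime).pos
  have h4 : ((q : ℂ) ^ 2) ≠ 0 := pow_ne_zero 2 (by exact_mod_cast hq0.ne')
  -- N S commutes with X on forms
  have hNS : ∀ ψ ∈ A0 x y, X (Nl x y (SF ψ)) = Nl x y (SF (X ψ)) := by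
    intro ψ hψ
    have := X_N_T_S h2 hxy hq X hψ (hXm ψ hψ) (hX ψ hψ) 1
    rwa [T_one (SF_mem h2 hxy hψ).2.2, T_one (SF_mem h2 hxy (hXm ψ hψ)).2.2] at this
  -- N T_n S φ = N S (Ts n φ)
  have hST : ∀ ψ ∈ A0 x y, SF (Ts x y n ψ) = T x y n (SF ψ) := by
    intro ψ _
    rw [Ts_apply, SF_surj]
  have e1 := X_N_T_S h2 hxy hq X hφ (hXm φ hφ) (hX φ hφ) n
  rw [← hST φ hφ, ← hST (X φ) (hXm φ hφ), hNS _ (Ts_mem h2 hxy n hφ)] at e1
  -- injectivity of N and S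
  have e2 : SF (X (Ts x y n φ)) = SF (Ts x y n (X φ)) := by
    rw [← N_N h2 hxy hq (SF_mem h2 hxy (hXm _ (Ts_mem h2 hxy n hφ))), e1,
      N_N h2 hxy hq (SF_mem h2 hxy (Ts_mem h2 hxy n (hXm _ hφ)))]
  have e3 : SF (SF (X (Ts x y n φ))) = SF (SF (Ts x y n (X φ))) := by rw [e2]
  funext z
  have e4 := congrFun e3 z
  rw [SF_SF, SF_SF] at e4
  exact mul_left_cancel₀ h4 e4

end

end Pool.Agent.N880.HQ
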