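import Pool.Agent.N880.HQ.Theta

/-! # Hecke operators on functions on `F_q²` -/

set_option autoImplicit false

open Complex Matrix

namespace Pool.Agent.N880.HQ

open Hur

variable {q : ℕ} [Fact q.Prime]

/-- The Hecke operator `(T_n φ)(v) = (1/24) ∑_{N(α) = n} φ(v α)`. -/
noncomputable def T (x y : ZMod q) (n : ℕ) : ((Fin 2 → ZMod q) → ℂ) →ₗ[ℂ] ((Fin 2 → ZMod q) → ℂ) where
  toFun φ v := (1 / 24 : ℂ) * ∑ α ∈ S n, φ (v ᵥ* mat x y α)
  map_add' φ ψ := by
    ext v
    simp [Finset.sum_add_distrib, mul_add]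
  map_smul' c φ := by
    ext v
    simp only [Pi.smul_apply, smul_eq_mul, RingHom.id_apply, ← Finset.mul_sum]
    ring

/-- the diamond operator `(⟨c⟩ φ)(v) = φ(c v)` -/
def Dm (c : ZMod q) : ((Fin 2 → ZMod q) → ℂ) →ₗ[ℂ] ((Fin 2 → ZMod q) → ℂ) where
  toFun φ v := φ (c • v)
  map_add' _ _ := rfl
  map_smul' _ _ := rfl

/-- the symplectic Fourier transform as a linear map -/
noncomputable def SFl : ((Fin 2 → ZMod q) → ℂ) →ₗ[ℂ] ((Fin 2 → ZMod q) → ℂ) where
  toFun φ := SF φ
  map_add' φ ψ := by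
    ext v
    simp [SF, Finset.sum_add_distrib, add_mul]
  map_smul' c φ := by
    ext v
    simp only [SF, Pi.smul_apply, smul_eq_mul, RingHom.id_apply, Finset.mul_sum]
    exact Finset.sum_congr rfl fun _ _ => by ring

variable {x y : ZMod q}

lemma T_apply (n : ℕ) (φ : (Fin 2 → ZMod q) → ℂ) (v : Fin 2 → ZMod q) :
    T x y n φ v = (1 / 24 : ℂ) * ∑ α ∈ S n, φ (v ᵥ* mat x y α) := rfl

lemma Dm_apply (c : ZMod q) (φ : (Fin 2 → ZMod q) → ℂ) (v : Fin 2 → ZMod q) :
    Dm c φ v = φ (c • v) := rfl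

lemma SFl_apply (φ : (Fin 2 → ZMod q) → ℂ) : SFl φ = SF φ := rfl

/-- invariance under the units -/
def UInv (x y : ZMod q) (φ : (Fin 2 → ZMod q) → ℂ) : Prop :=
  ∀ u ∈ S 1, ∀ v : Fin 2 → ZMod q, φ (v ᵥ* mat x y u) = φ v

section
variable (h2 : (2 : ZMod q) ≠ 0) (hxy : x ^ 2 + y ^ 2 = -1)
include h2 hxy

lemma T_T (m n : ℕ) (φ : (Fin 2 → ZMod q) → ℂ) (v : Fin 2 → ZMod q) :
    T x y m (T x y n φ) v = (1 / 24 : ℂ) * ((1 / 24 : ℂ) * ∑ α ∈ S m, ∑ β ∈ S n,
      φ (v ᵥ* mat x y (α * β))) := by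
  rw [T_apply]
  congr 1
  rw [Finset.mul_sum]
  refine Finset.sum_congr rfl fun α _ => ?_
  rw [T_apply]
  congr 1
  refine Finset.sum_congr rfl fun β _ => ?_
  rw [mat_mul h2 hxy, Matrix.vecMul_vecMul]

lemma T_mul {m n : ℕ} (hm : 0 < m) (hn : 0 < n) (hc : Nat.Coprime m n) :
    T x y m ∘ₗ T x y n = T x y (m * n) := by
  refine LinearMap.ext fun φ => funext fun v => ?_
  rw [LinearMap.comp_apply, T_T h2 hxy, sum_coprime hm hn hc (fun γ => φ (v ᵥ* mat x y γ)), T_apply]
  simp only [nsmul_eq_mul]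
  push_cast
  ring

lemma T_prime {p : ℕ} (hp : p.Prime) (hp2 : p ≠ 2) (k : ℕ) :
    T x y p ∘ₗ T x y (p ^ (k + 1)) =
      T x y (p ^ (k + 2)) + (p : ℂ) • (Dm (p : ZMod q) ∘ₗ T x y (p ^ k)) := by
  have : Fact p.Prime := ⟨hp⟩
  refine LinearMap.ext fun φ => funext fun v => ?_
  have h := sum_prime hp k (fun γ => φ (v ᵥ* mat x y γ))
  rw [card_S_prime hp2] at h
  have e : ∀ γ : Hur, φ (v ᵥ* mat x y ((p : Hur) * γ)) = φ (((p : ZMod q) • v) ᵥ* mat x y γ) := by
    intro γ
    rw [mat_mul h2 hxy, mat_natCast h2, Matrix.smul_mul, one_mul, Matrix.vecMul_smul,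
      Matrix.smul_vecMul]
  simp only [e] at h
  simp only [LinearMap.comp_apply, LinearMap.add_apply, LinearMap.smul_apply, Pi.add_apply,
    Pi.smul_apply, smul_eq_mul]
  rw [T_T h2 hxy, T_apply, Dm_apply, T_apply]
  simp only [nsmul_eq_mul] at h
  push_cast at h
  linear_combination (1 / 576 : ℂ) * h

omit hxy h2 in
lemma T_one {φ : (Fin 2 → ZMod q) → ℂ} (hφ : UInv x y φ) : T x y 1 φ = φ := by
  funext v
  rw [T_apply, Finset.sum_congr rfl (fun α hα => hφ α hα v), Finset.sum_const, card_S_one]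
  simp

lemma T_uinv (n : ℕ) (φ : (Fin 2 → ZMod q) → ℂ) : UInv x y (T x y n φ) := by
  intro u hu v
  rw [T_apply, T_apply]
  congr 1
  have hu' : nrm u = 1 := by have := mem_S.1 hu; simpa using this
  refine Finset.sum_bij (fun α _ => u * α) (fun α hα => unit_mul_mem hu hα) ?_ ?_ ?_
  · intro a _ b _ h
    exact mul_left_cancel' (by rintro rfl; rw [nrm_zero] at hu'; omega) h
  · intro b hb
    refine ⟨conj u * b, unit_mul_mem (conj_mem_S hu) hb, ?_⟩
    rw [← mul_assoc, (isUnit_of_nrm hu').2, one_mul]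
  · intro a _
    rw [mat_mul h2 hxy, Matrix.vecMul_vecMul]

omit h2 hxy in
lemma sum_two (n : ℕ) (f : Hur → ℂ) : ∑ γ ∈ S (2 * n), f γ = ∑ ε ∈ S n, f (pi2 * ε) := by
  symm
  have hpi0 : pi2 ≠ 0 := by
    intro h
    have := congrArg Hur.a h
    simp [pi2] at this
  refine Finset.sum_bij (fun ε _ => pi2 * ε) ?_ ?_ ?_ (fun _ _ => rfl)
  · intro ε hε
    rw [mem_S] at hε ⊢
    rw [nrm_mul, nrm_pi2, hε]
    push_cast
    ring
  · intro a _ b _ h
    exact mul_left_cancel' hpi0 h
  · intro γ hγ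
    rw [mem_S] at hγ
    push_cast at hγ
    obtain ⟨ε, hε⟩ := exists_left_pi2 (γ := γ) ⟨n, hγ⟩
    refine ⟨ε, ?_, hε.symm⟩
    rw [mem_S]
    rw [hε, nrm_mul, nrm_pi2] at hγ
    omega

lemma T_two (n : ℕ) {φ : (Fin 2 → ZMod q) → ℂ} (v : Fin 2 → ZMod q) :
    T x y (2 * n) φ v = T x y n φ (v ᵥ* mat x y pi2) := by
  rw [T_apply, T_apply, sum_two]
  congr 1
  refine Finset.sum_congr rfl fun ε _ => ?_
  rw [mat_mul h2 hxy, Matrix.vecMul_vecMul]

lemma T_two_comp (n : ℕ) : T x y 2 ∘ₗ T x y n = T x y (2 * n) := by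
  refine LinearMap.ext fun φ => funext fun v => ?_
  rw [LinearMap.comp_apply, T_two h2 hxy n v]
  have := T_two h2 hxy 1 (φ := T x y n φ) v
  rw [mul_one] at this
  rw [this, T_one (T_uinv h2 hxy n φ)]

omit h2 hxy in
lemma Dm_T (c : ZMod q) (n : ℕ) : Dm c ∘ₗ T x y n = T x y n ∘ₗ Dm c := by
  refine LinearMap.ext fun φ => funext fun v => ?_
  simp only [LinearMap.comp_apply, Dm_apply, T_apply]
  congr 1
  refine Finset.sum_congr rfl fun α _ => ?_
  rw [Matrix.smul_vecMul]

omit h2 hxy [Fact q.Prime] in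
lemma S_zero : S 0 = {0} := by
  ext α
  rw [mem_S, Finset.mem_singleton, Nat.cast_zero, nrm_eq_zero]

omit h2 hxy in
lemma T_zero {φ : (Fin 2 → ZMod q) → ℂ} (h0 : φ 0 = 0) : T x y 0 φ = 0 := by
  funext v
  rw [T_apply, S_zero, Finset.sum_singleton, mat_zero, Matrix.vecMul_zero, h0]
  simp

omit h2 hxy in
lemma T_at_zero (n : ℕ) {φ : (Fin 2 → ZMod q) → ℂ} (h0 : φ 0 = 0) : T x y n φ 0 = 0 := by
  rw [T_apply, Finset.sum_eq_zero (fun α _ => by rw [Matrix.zero_vecMul, h0]), mul_zero]

/-! ### the Fourier transform -/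

omit h2 hxy in
lemma SF_at_zero {φ : (Fin 2 → ZMod q) → ℂ} (hs : ∑ v, φ v = 0) : SF φ 0 = 0 := by
  unfold SF
  have : ∀ u : Fin 2 → ZMod q, sy u (0 : Fin 2 → ZMod q) = 0 := fun u => by simp [sy]
  simp_rw [this, AddChar.map_zero_eq_one, mul_one]
  exact hs

omit h2 hxy in
lemma SF_sum (φ : (Fin 2 → ZMod q) → ℂ) (h0 : φ 0 = 0) : ∑ v, SF φ v = 0 := by
  unfold SF
  rw [Finset.sum_comm]
  simp_rw [← Finset.mul_sum, sum_sy]
  simp [h0]

/-- action of an invertible element commutes with the Fourier transform up to conjugation -/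
lemma mat_unit {α : Hur} (hα : ((nrm α : ℤ) : ZMod q) ≠ 0) :
    Function.Bijective (fun v : Fin 2 → ZMod q => v ᵥ* mat x y α) := by
  have hinj : Function.Injective (fun v : Fin 2 → ZMod q => v ᵥ* mat x y α) := by
    intro v w h
    have h1 : (v ᵥ* mat x y α) ᵥ* mat x y (conj α) = (w ᵥ* mat x y α) ᵥ* mat x y (conj α) := by
      simp only at h
      rw [h]
    rw [Matrix.vecMul_vecMul, Matrix.vecMul_vecMul, ← mat_mul h2 hxy, Hur.mul_conj, mat_intCast h2,
      Matrix.vecMul_smul, Matrix.vecMul_smul, Matrix.vecMul_one, Matrix.vecMul_one] at h1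
    exact smul_right_injective _ hα h1
  exact (Finite.injective_iff_bijective).1 hinj

lemma SF_uinv {φ : (Fin 2 → ZMod q) → ℂ} (hφ : UInv x y φ) : UInv x y (SF φ) := by
  intro u hu v
  have hu' : nrm u = 1 := by have := mem_S.1 hu; simpa using this
  unfold SF
  have hb := mat_unit h2 hxy (α := u) (by rw [hu']; simp)
  rw [← (Equiv.ofBijective _ hb).sum_comp]
  refine Finset.sum_congr rfl fun w _ => ?_
  simp only [Equiv.ofBijective_apply]
  rw [hφ _ hu, sy_vecMul, Matrix.vecMul_vecMul, ← mat_conj h2, ← mat_mul h2 hxy, Hur.mul_conj, hu',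
    Int.cast_one, mat_one h2, Matrix.vecMul_one]

end

/-! ### the space of forms -/

/-- The space of automorphic forms of level `Γ₁(q)`: functions `φ` on `F_q²` with `φ(0) = 0`,
`∑ φ = 0` and `φ(v u) = φ(v)` for the 24 units `u`. -/
def A0 (x y : ZMod q) : Submodule ℂ ((Fin 2 → ZMod q) → ℂ) where
  carrier := {φ | φ 0 = 0 ∧ ∑ v, φ v = 0 ∧ UInv x y φ}
  zero_mem' := ⟨rfl, by simp, fun _ _ _ => rfl⟩
  add_mem' := by
    rintro φ ψ ⟨a1, a2, a3⟩ ⟨b1, b2, b3⟩
    refine ⟨by simp [a1, b1], by simp [Finset.sum_add_distrib, a2, b2], fun u hu v => ?_⟩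
    simp [a3 u hu v, b3 u hu v]
  smul_mem' := by
    rintro c φ ⟨a1, a2, a3⟩
    refine ⟨by simp [a1], ?_, fun u hu v => ?_⟩
    · simp [← Finset.mul_sum, a2]
    · simp [a3 u hu v]

lemma mem_A0 {φ : (Fin 2 → ZMod q) → ℂ} :
    φ ∈ A0 x y ↔ φ 0 = 0 ∧ ∑ v, φ v = 0 ∧ UInv x y φ := Iff.rfl

section
variable (h2 : (2 : ZMod q) ≠ 0) (hxy : x ^ 2 + y ^ 2 = -1)
include h2 hxy

lemma SF_mem {φ : (Fin 2 → ZMod q) → ℂ} (h : φ ∈ A0 x y) : SF φ ∈ A0 x y :=
  ⟨SF_at_zero h.2.1, SF_sum φ h.1, SF_uinv h2 hxy h.2.2⟩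

omit h2 hxy in
lemma Dm_mem {φ : (Fin 2 → ZMod q) → ℂ} (h : φ ∈ A0 x y) {c : ZMod q} (hc : c ≠ 0) :
    Dm c φ ∈ A0 x y := by
  refine ⟨?_, ?_, fun u hu v => ?_⟩
  · rw [Dm_apply, smul_zero, h.1]
  · have hb : Function.Bijective (fun v : Fin 2 → ZMod q => c • v) :=
      (Finite.injective_iff_bijective).1 (smul_right_injective _ hc)
    have := (Equiv.ofBijective _ hb).sum_comp φ
    simp only [Equiv.ofBijective_apply] at this
    simp only [Dm_apply]
    rw [this, h.2.1]
  · rw [Dm_apply, Dm_apply, ← Matrix.smul_vecMul, h.2.2 u hu]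

/-- `T_p` preserves the sum being zero, `p ≠ q` -/
lemma T_sum_coprime {n : ℕ} (hn : ¬ q ∣ n) {φ : (Fin 2 → ZMod q) → ℂ} (hs : ∑ v, φ v = 0) :
    ∑ v, T x y n φ v = 0 := by
  simp_rw [T_apply]
  rw [← Finset.mul_sum, Finset.sum_comm]
  rw [Finset.sum_eq_zero, mul_zero]
  intro α hα
  have hα' := mem_S.1 hα
  have hb := mat_unit h2 hxy (α := α) (by
    rw [hα', Int.cast_natCast, Ne, ZMod.natCast_eq_zero_iff]
    exact hn)
  have := (Equiv.ofBijective _ hb).sum_comp φ
  simp only [Equiv.ofBijective_apply] at this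
  rw [this, hs]

/-- `T_q` preserves the sum being zero -/
lemma T_sum_q (hq2 : q ≠ 2) {φ : (Fin 2 → ZMod q) → ℂ} (h0 : φ 0 = 0) (hs : ∑ v, φ v = 0) :
    ∑ v, T x y q φ v = 0 := by
  classical
  simp_rw [T_apply]
  rw [← Finset.mul_sum, Finset.sum_comm]
  -- for every α of norm q: ∑_v φ(v α) = q ∑_{u : u (conj α) = 0} φ(u)
  have key : ∀ α ∈ S q, ∑ v : Fin 2 → ZMod q, φ (v ᵥ* mat x y α) =
      q * ∑ u : Fin 2 → ZMod q, if u ᵥ* mat x y (conj α) = 0 then φ u else 0 := by
    intro α hα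
    have hα' := mem_S.1 hα
    have hconj : conj α ∈ S q := conj_mem_S hα
    have hk := card_left_ker h2 hxy hα
    rw [← Finset.sum_fiberwise_of_maps_to (s := Finset.univ) (t := Finset.univ)
      (g := fun v : Fin 2 → ZMod q => v ᵥ* mat x y α) (fun _ _ => Finset.mem_univ _),
      Finset.mul_sum]
    refine Finset.sum_congr rfl fun u _ => ?_
    have e1 : ∑ v ∈ Finset.univ.filter (fun v : Fin 2 → ZMod q => v ᵥ* mat x y α = u),
        φ (v ᵥ* mat x y α) = ((Finset.univ.filter
          (fun v : Fin 2 → ZMod q => v ᵥ* mat x y α = u)).card : ℂ) * φ u := by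
      rw [Finset.sum_congr rfl (fun v hv => by rw [(Finset.mem_filter.1 hv).2]), Finset.sum_const,
        nsmul_eq_mul]
    rw [e1]
    -- the fibre is empty or has q elements
    have hcard0 : (Finset.univ.filter (fun v : Fin 2 → ZMod q => v ᵥ* mat x y α = 0)).card = q := by
      have : (Finset.univ.filter (fun v : Fin 2 → ZMod q => v ᵥ* mat x y α = 0)) =
          insert 0 (Finset.univ.filter (fun v : Fin 2 → ZMod q => v ≠ 0 ∧ v ᵥ* mat x y α = 0)) := by
        ext v
        simp only [Finset.mem_filter, Finset.mem_univ, true_and, Finset.mem_insert]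
        by_cases hv : v = 0
        · simp [hv]
        · simp [hv]
      rw [this, Finset.card_insert_of_notMem (by simp), hk]
      have := (Fact.out : q.Prime).one_lt
      omega
    have hzero : ∀ w : Fin 2 → ZMod q, (w ᵥ* mat x y α) ᵥ* mat x y (conj α) = 0 := by
      intro w
      rw [Matrix.vecMul_vecMul, ← mat_mul h2 hxy, Hur.mul_conj, hα', mat_intCast h2]
      simp
    by_cases hu : u ᵥ* mat x y (conj α) = 0
    · rw [if_pos hu]
      congr 1
      -- find w with w α = u
      have hex : ∃ w : Fin 2 → ZMod q, w ᵥ* mat x y α = u := by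
        -- the images form a set with at least q elements inside the kernel of conj α, which has q elements
        have hker : (Finset.univ.filter (fun v : Fin 2 → ZMod q => v ᵥ* mat x y (conj α) = 0)).card
            = q := by
          have hk' := card_left_ker h2 hxy hconj
          have : (Finset.univ.filter (fun v : Fin 2 → ZMod q => v ᵥ* mat x y (conj α) = 0)) =
              insert 0 (Finset.univ.filter
                (fun v : Fin 2 → ZMod q => v ≠ 0 ∧ v ᵥ* mat x y (conj α) = 0)) := by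
            ext v
            simp only [Finset.mem_filter, Finset.mem_univ, true_and, Finset.mem_insert]
            by_cases hv : v = 0
            · simp [hv]
            · simp [hv]
          rw [this, Finset.card_insert_of_notMem (by simp), hk']
          have := (Fact.out : q.Prime).one_lt
          omega
        set Im : Finset (Fin 2 → ZMod q) := Finset.univ.image (fun v => v ᵥ* mat x y α) with hIm
        have hsub : Im ⊆ Finset.univ.filter (fun v : Fin 2 → ZMod q => v ᵥ* mat x y (conj α) = 0) := by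
          intro z hz
          rw [hIm, Finset.mem_image] at hz
          obtain ⟨w, _, rfl⟩ := hz
          rw [Finset.mem_filter]
          exact ⟨Finset.mem_univ _, hzero w⟩
        have hfib : ∀ z ∈ Im, (Finset.univ.filter
            (fun v : Fin 2 → ZMod q => v ᵥ* mat x y α = z)).card = q := by
          intro z hz
          rw [hIm, Finset.mem_image] at hz
          obtain ⟨w, _, rfl⟩ := hz
          refine (Finset.card_bij (fun v _ => v - w) ?_ ?_ ?_).trans hcard0
          · intro v hv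
            rw [Finset.mem_filter] at hv ⊢
            rw [Matrix.sub_vecMul, hv.2, sub_self]
            exact ⟨Finset.mem_univ _, rfl⟩
          · intro a _ b _ h
            exact sub_left_injective h
          · intro b hb
            rw [Finset.mem_filter] at hb
            refine ⟨b + w, ?_, by simp⟩
            rw [Finset.mem_filter, Matrix.add_vecMul, hb.2, zero_add]
            exact ⟨Finset.mem_univ _, rfl⟩
        have hcardI : Im.card * q = q ^ 2 := by
          have := Finset.card_eq_sum_card_image (fun v : Fin 2 → ZMod q => v ᵥ* mat x y α)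
            Finset.univ
          rw [Finset.card_univ, Fintype.card_fun, ZMod.card, Fintype.card_fin] at this
          rw [this, ← hIm, Finset.sum_congr rfl hfib, Finset.sum_const, smul_eq_mul]
        have hI : Im.card = q := by
          have hq0 := (Fact.out : q.Prime).pos
          have : Im.card * q = q * q := by rw [hcardI]; ring
          exact Nat.eq_of_mul_eq_mul_right hq0 this
        have heq := Finset.eq_of_subset_of_card_le hsub (by rw [hker, hI])
        have : u ∈ Im := by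
          rw [heq, Finset.mem_filter]
          exact ⟨Finset.mem_univ _, hu⟩
        rw [hIm, Finset.mem_image] at this
        obtain ⟨w, _, hw⟩ := this
        exact ⟨w, hw⟩
      obtain ⟨w, hw⟩ := hex
      have : (Finset.univ.filter (fun v : Fin 2 → ZMod q => v ᵥ* mat x y α = u)).card = q := by
        refine (Finset.card_bij (fun v _ => v - w) ?_ ?_ ?_).trans hcard0
        · intro v hv
          rw [Finset.mem_filter] at hv ⊢
          rw [Matrix.sub_vecMul, hv.2, hw, sub_self]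
          exact ⟨Finset.mem_univ _, rfl⟩
        · intro a _ b _ h
          exact sub_left_injective h
        · intro b hb
          rw [Finset.mem_filter] at hb
          refine ⟨b + w, ?_, by simp⟩
          rw [Finset.mem_filter, Matrix.add_vecMul, hb.2, zero_add]
          exact ⟨Finset.mem_univ _, hw⟩
      rw [this]
    · rw [if_neg hu]
      have : (Finset.univ.filter (fun v : Fin 2 → ZMod q => v ᵥ* mat x y α = u)) = ∅ := by
        rw [Finset.filter_eq_empty_iff]
        intro w _ hw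
        apply hu
        rw [← hw]
        exact hzero w
      rw [this]
      simp
  rw [Finset.sum_congr rfl key, ← Finset.mul_sum, Finset.sum_comm]
  have e2 : ∀ u : Fin 2 → ZMod q, ∑ α ∈ S q, (if u ᵥ* mat x y (conj α) = 0 then φ u else 0) =
      24 * φ u := by
    intro u
    by_cases hu : u = 0
    · subst hu
      simp [h0]
    · have hc : ((S q).filter (fun α => u ᵥ* mat x y (conj α) = 0)).card = 24 := by
        rw [← card_ker h2 hxy hu]
        refine Finset.card_bij (fun α _ => conj α) ?_ ?_ ?_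
        · intro α hα
          rw [Finset.mem_filter] at hα ⊢
          exact ⟨conj_mem_S hα.1, hα.2⟩
        · intro a _ b _ h
          have h' : conj a = conj b := h
          rw [← Hur.conj_conj a, ← Hur.conj_conj b, h']
        · intro b hb
          rw [Finset.mem_filter] at hb
          refine ⟨conj b, ?_, Hur.conj_conj b⟩
          rw [Finset.mem_filter, Hur.conj_conj]
          exact ⟨conj_mem_S hb.1, hb.2⟩
      rw [← Finset.sum_filter, Finset.sum_const, hc, nsmul_eq_mul]
      norm_num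
  simp_rw [e2]
  rw [← Finset.mul_sum, hs]
  simp

lemma T_mem_prime (hq2 : q ≠ 2) {p : ℕ} (hp : p.Prime) {φ : (Fin 2 → ZMod q) → ℂ}
    (h : φ ∈ A0 x y) : T x y p φ ∈ A0 x y := by
  refine ⟨T_at_zero p h.1, ?_, T_uinv h2 hxy p φ⟩
  by_cases hpq : p = q
  · subst hpq
    exact T_sum_q h2 hxy hq2 h.1 h.2.1
  · refine T_sum_coprime h2 hxy ?_ h.2.1
    intro hd
    exact hpq ((Nat.prime_dvd_prime_iff_eq (Fact.out : q.Prime) hp).1 hd).symm

lemma two_pow_succ (k : ℕ) : T x y 2 ∘ₗ T x y (2 ^ (k + 1)) = T x y (2 ^ (k + 2)) := by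
  rw [T_two_comp h2 hxy, ← pow_succ']

/-- `⟨0⟩` kills forms -/
lemma Dm_zero_of {φ : (Fin 2 → ZMod q) → ℂ} (h : φ 0 = 0) : Dm (0 : ZMod q) φ = 0 := by
  funext v
  rw [Dm_apply, zero_smul, h]
  rfl

lemma T_mem (hq2 : q ≠ 2) (n : ℕ) {φ : (Fin 2 → ZMod q) → ℂ} (h : φ ∈ A0 x y) :
    T x y n φ ∈ A0 x y := by
  induction n using Nat.recOnPosPrimePosCoprime generalizing φ with
  | prime_pow p n hp hn =>
    -- strong induction on the exponent
    have key : ∀ k : ℕ, ∀ φ : (Fin 2 → ZMod q) → ℂ, φ ∈ A0 x y →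
        T x y (p ^ k) φ ∈ A0 x y ∧ T x y (p ^ (k + 1)) φ ∈ A0 x y := by
      intro k
      induction k with
      | zero =>
        intro φ h
        rw [pow_zero, T_one h.2.2, zero_add, pow_one]
        exact ⟨h, T_mem_prime h2 hxy hq2 hp h⟩
      | succ k ih =>
        intro φ h
        obtain ⟨i1, i2⟩ := ih φ h
        refine ⟨i2, ?_⟩
        by_cases hp2 : p = 2
        · subst hp2
          have := congrFun (congrArg DFunLike.coe (two_pow_succ h2 hxy k)) φ
          rw [LinearMap.comp_apply] at this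
          rw [← this]
          exact T_mem_prime h2 hxy hq2 hp i2
        · have := congrFun (congrArg DFunLike.coe (T_prime h2 hxy hp hp2 k)) φ
          rw [LinearMap.comp_apply, LinearMap.add_apply, LinearMap.smul_apply,
            LinearMap.comp_apply] at this
          have e : T x y (p ^ (k + 2)) φ = T x y p (T x y (p ^ (k + 1)) φ) -
              (p : ℂ) • Dm (p : ZMod q) (T x y (p ^ k) φ) := by
            rw [this, add_sub_cancel_right]
          rw [e]
          refine Submodule.sub_mem _ (T_mem_prime h2 hxy hq2 hp i2) (Submodule.smul_mem _ _ ?_)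
          by_cases hc : (p : ZMod q) = 0
          · rw [hc, Dm_zero_of h2 hxy i1.1]
            exact Submodule.zero_mem _
          · exact Dm_mem i1 hc
    exact (key n φ h).1
  | zero => rw [T_zero h.1]; exact Submodule.zero_mem _
  | one => rw [T_one h.2.2]; exact h
  | coprime a b ha hb hab iha ihb =>
    have := congrFun (congrArg DFunLike.coe (T_mul h2 hxy (by omega : 0 < a) (by omega : 0 < b) hab)) φ
    rw [LinearMap.comp_apply] at this
    rw [← this]
    exact iha (ihb h)

/-- an operator which commutes with the `T_p` and `⟨p⟩` commutes with all `T_n` -/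
lemma comm_all (hq2 : q ≠ 2) (X : ((Fin 2 → ZMod q) → ℂ) →ₗ[ℂ] ((Fin 2 → ZMod q) → ℂ))
    (hX : ∀ φ ∈ A0 x y, X φ ∈ A0 x y)
    (hT : ∀ p : ℕ, p.Prime → ∀ φ ∈ A0 x y, X (T x y p φ) = T x y p (X φ))
    (hD : ∀ c : ZMod q, c ≠ 0 → ∀ φ ∈ A0 x y, X (Dm c φ) = Dm c (X φ)) (n : ℕ)
    {φ : (Fin 2 → ZMod q) → ℂ} (h : φ ∈ A0 x y) : X (T x y n φ) = T x y n (X φ) := by
  induction n using Nat.recOnPosPrimePosCoprime generalizing φ with
  | prime_pow p n hp hn =>
    have key : ∀ k : ℕ, ∀ φ : (Fin 2 → ZMod q) → ℂ, φ ∈ A0 x y →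
        X (T x y (p ^ k) φ) = T x y (p ^ k) (X φ) ∧
        X (T x y (p ^ (k + 1)) φ) = T x y (p ^ (k + 1)) (X φ) := by
      intro k
      induction k with
      | zero =>
        intro φ h
        rw [pow_zero, T_one h.2.2, T_one (hX φ h).2.2, zero_add, pow_one]
        exact ⟨rfl, hT p hp φ h⟩
      | succ k ih =>
        intro φ h
        obtain ⟨i1, i2⟩ := ih φ h
        refine ⟨i2, ?_⟩
        by_cases hp2 : p = 2
        · subst hp2
          have e1 := congrFun (congrArg DFunLike.coe (two_pow_succ h2 hxy k)) φ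
          have e2 := congrFun (congrArg DFunLike.coe (two_pow_succ h2 hxy k)) (X φ)
          rw [LinearMap.comp_apply] at e1 e2
          rw [← e1, ← e2, hT 2 hp _ (T_mem h2 hxy hq2 _ h), i2]
        · have e1 := congrFun (congrArg DFunLike.coe (T_prime h2 hxy hp hp2 k)) φ
          have e2 := congrFun (congrArg DFunLike.coe (T_prime h2 hxy hp hp2 k)) (X φ)
          rw [LinearMap.comp_apply, LinearMap.add_apply, LinearMap.smul_apply,
            LinearMap.comp_apply] at e1 e2
          have f1 : T x y (p ^ (k + 2)) φ = T x y p (T x y (p ^ (k + 1)) φ) -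
              (p : ℂ) • Dm (p : ZMod q) (T x y (p ^ k) φ) := by
            rw [e1, add_sub_cancel_right]
          have f2 : T x y (p ^ (k + 2)) (X φ) = T x y p (T x y (p ^ (k + 1)) (X φ)) -
              (p : ℂ) • Dm (p : ZMod q) (T x y (p ^ k) (X φ)) := by
            rw [e2, add_sub_cancel_right]
          rw [f1, f2, map_sub, map_smul, hT p hp _ (T_mem h2 hxy hq2 _ h), i2]
          by_cases hc : (p : ZMod q) = 0
          · rw [hc, Dm_zero_of h2 hxy (T_mem h2 hxy hq2 _ h).1,
              Dm_zero_of h2 hxy (T_mem h2 hxy hq2 _ (hX φ h)).1, map_zero]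
          · rw [hD _ hc _ (T_mem h2 hxy hq2 _ h), i1]
    exact (key n φ h).1
  | zero => rw [T_zero h.1, T_zero (hX φ h).1, map_zero]
  | one => rw [T_one h.2.2, T_one (hX φ h).2.2]
  | coprime a b ha hb hab iha ihb =>
    have e1 := congrFun (congrArg DFunLike.coe (T_mul h2 hxy (by omega : 0 < a)
      (by omega : 0 < b) hab)) φ
    have e2 := congrFun (congrArg DFunLike.coe (T_mul h2 hxy (by omega : 0 < a)
      (by omega : 0 < b) hab)) (X φ)
    rw [LinearMap.comp_apply] at e1 e2
    rw [← e1, ← e2, iha (T_mem h2 hxy hq2 _ h), ihb h]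

/-- the Hecke operators commute on forms -/
lemma T_comm (hq2 : q ≠ 2) (m n : ℕ) {φ : (Fin 2 → ZMod q) → ℂ} (h : φ ∈ A0 x y) :
    T x y m (T x y n φ) = T x y n (T x y m φ) := by
  have hD : ∀ k : ℕ, ∀ c : ZMod q, c ≠ 0 → ∀ φ ∈ A0 x y,
      T x y k (Dm c φ) = Dm c (T x y k φ) := by
    intro k c _ φ _
    have := congrFun (congrArg DFunLike.coe (Dm_T (x := x) (y := y) c k)) φ
    rw [LinearMap.comp_apply, LinearMap.comp_apply] at this
    exact this.symm
  -- first `m` prime
  have hpp : ∀ p : ℕ, p.Prime → ∀ l : ℕ, l.Prime → ∀ φ ∈ A0 x y,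
      T x y p (T x y l φ) = T x y l (T x y p φ) := by
    intro p hp l hl φ _
    by_cases hpl : p = l
    · rw [hpl]
    · have c1 := (Nat.coprime_primes hp hl).2 hpl
      have e1 := congrFun (congrArg DFunLike.coe (T_mul h2 hxy hp.pos hl.pos c1)) φ
      have e2 := congrFun (congrArg DFunLike.coe (T_mul h2 hxy hl.pos hp.pos c1.symm)) φ
      rw [LinearMap.comp_apply] at e1 e2
      rw [e1, e2, mul_comm]
  have hpn : ∀ p : ℕ, p.Prime → ∀ k : ℕ, ∀ φ ∈ A0 x y,
      T x y p (T x y k φ) = T x y k (T x y p φ) := fun p hp k φ h =>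
    comm_all h2 hxy hq2 (T x y p) (fun φ h => T_mem h2 hxy hq2 p h) (hpp p hp) (hD p) k h
  exact comm_all h2 hxy hq2 (T x y m) (fun φ h => T_mem h2 hxy hq2 m h)
    (fun p hp φ h => (hpn p hp m φ h).symm) (hD m) n h

end

end Pool.Agent.N880.HQ
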