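import Pool.Agent.N880.HQ.Ker

/-! # Poisson summation over `ℤ⁴` for shifted Gaussians with a character -/

set_option autoImplicit false

open Complex

namespace Pool.Agent.N880.HQ

/-- one variable term -/
noncomputable def ga (t β s : ℝ) (n : ℤ) : ℂ :=
  cexp (2 * Real.pi * I * (n + s) * β - Real.pi * t * (n + s) ^ 2)

/-- the dual term -/
noncomputable def gd (t β s : ℝ) (m : ℤ) : ℂ :=
  cexp (2 * Real.pi * I * m * s - Real.pi / t * (m - β) ^ 2)

lemma ga_eq {t : ℝ} (β s : ℝ) (n : ℤ) : ga t β s n =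
    cexp (2 * Real.pi * I * s * β - Real.pi * t * s ^ 2) *
      jacobiTheta₂_term n (β + I * t * s) (I * t) := by
  unfold ga jacobiTheta₂_term
  rw [← Complex.exp_add]
  congr 1
  linear_combination (-(Real.pi * t * (n : ℂ) ^ 2 + 2 * Real.pi * n * t * s)) * (I_sq)

lemma gd_eq {t : ℝ} (ht : 0 < t) (β s : ℝ) (m : ℤ) : gd t β s m =
    cexp (- Real.pi / t * β ^ 2) *
      jacobiTheta₂_term m (s - I * β / t) (I / t) := by
  unfold gd jacobiTheta₂_term
  rw [← Complex.exp_add]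
  congr 1
  have : (t : ℂ) ≠ 0 := by exact_mod_cast ht.ne'
  field_simp
  linear_combination (2 * (m : ℂ) * β - (m : ℂ) ^ 2) * (I_sq)

lemma ga_summable {t : ℝ} (ht : 0 < t) (β s : ℝ) : Summable (fun n => ‖ga t β s n‖) := by
  have h : Summable (fun n : ℤ => jacobiTheta₂_term n (β + I * t * s) (I * t)) := by
    rw [summable_jacobiTheta₂_term_iff]
    simpa using ht
  have h2 := h.norm.mul_left ‖cexp (2 * Real.pi * I * s * β - Real.pi * t * s ^ 2)‖
  refine h2.congr fun n => ?_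
  rw [ga_eq, norm_mul]

lemma gd_summable {t : ℝ} (ht : 0 < t) (β s : ℝ) : Summable (fun n => ‖gd t β s n‖) := by
  have h : Summable (fun n : ℤ => jacobiTheta₂_term n (s - I * β / t) (I / t)) := by
    rw [summable_jacobiTheta₂_term_iff]
    have : (I / (t : ℂ)).im = t⁻¹ := by
      rw [Complex.div_ofReal_im]
      simp
    rw [this]
    positivity
  have h2 := h.norm.mul_left ‖cexp (- Real.pi / t * β ^ 2)‖
  refine h2.congr fun n => ?_
  rw [gd_eq ht, norm_mul]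

lemma pois1 {t : ℝ} (ht : 0 < t) (β s : ℝ) :
    ∑' n : ℤ, ga t β s n = 1 / ((t : ℂ) ^ (1 / 2 : ℂ)) * ∑' m : ℤ, gd t β s m := by
  have h := Complex.tsum_exp_neg_quadratic (a := (t : ℂ)) (by simpa using ht) (I * β - t * s)
  have htc : (t : ℂ) ≠ 0 := by exact_mod_cast ht.ne'
  have e1 : ∀ n : ℤ, ga t β s n = cexp (2 * Real.pi * I * s * β - Real.pi * t * s ^ 2) *
      cexp (-Real.pi * t * n ^ 2 + 2 * Real.pi * (I * β - t * s) * n) := by
    intro n
    unfold ga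
    rw [← Complex.exp_add]
    congr 1
    ring
  have e2 : ∀ m : ℤ, gd t β s m = cexp (2 * Real.pi * I * s * β - Real.pi * t * s ^ 2) *
      cexp (-Real.pi / t * (m + I * (I * β - t * s)) ^ 2) := by
    intro m
    unfold gd
    rw [← Complex.exp_add]
    congr 1
    field_simp
    have h4 : (I : ℂ) ^ 4 = 1 := I_pow_four
    have h3 : (I : ℂ) ^ 3 = -I := by rw [pow_succ, I_sq]; ring
    ring_nf
    rw [h4, h3, I_sq]
    ring
  simp_rw [e1, e2]
  rw [tsum_mul_left, tsum_mul_left, h]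
  ring

lemma prod4 {f g h k : ℤ → ℂ} (hf : Summable (fun n => ‖f n‖)) (hg : Summable (fun n => ‖g n‖))
    (hh : Summable (fun n => ‖h n‖)) (hk : Summable (fun n => ‖k n‖)) :
    Summable (fun p : ℤ × ℤ × ℤ × ℤ => ‖f p.1 * (g p.2.1 * (h p.2.2.1 * k p.2.2.2))‖) ∧
    ∑' p : ℤ × ℤ × ℤ × ℤ, f p.1 * (g p.2.1 * (h p.2.2.1 * k p.2.2.2)) =
      (∑' n, f n) * ((∑' n, g n) * ((∑' n, h n) * ∑' n, k n)) := by
  have s1 : Summable (fun p : ℤ × ℤ => ‖h p.1 * k p.2‖) := by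
    have := summable_mul_of_summable_norm (f := fun n => ‖h n‖) (g := fun n => ‖k n‖)
      (by simpa using hh) (by simpa using hk)
    simpa [norm_mul] using this
  have s2 : Summable (fun p : ℤ × ℤ × ℤ => ‖g p.1 * (h p.2.1 * k p.2.2)‖) := by
    have := summable_mul_of_summable_norm (f := fun n => ‖g n‖)
      (g := fun p : ℤ × ℤ => ‖h p.1 * k p.2‖) (by simpa using hg) (by simpa using s1)
    exact this.congr fun p => (norm_mul _ _).symm
  have s3 : Summable (fun p : ℤ × ℤ × ℤ × ℤ => ‖f p.1 * (g p.2.1 * (h p.2.2.1 * k p.2.2.2))‖) := by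
    have := summable_mul_of_summable_norm (f := fun n => ‖f n‖)
      (g := fun p : ℤ × ℤ × ℤ => ‖g p.1 * (h p.2.1 * k p.2.2)‖) (by simpa using hf)
      (by simpa using s2)
    exact this.congr fun p => (norm_mul _ _).symm
  refine ⟨s3, ?_⟩
  rw [tsum_mul_tsum_of_summable_norm hh hk, tsum_mul_tsum_of_summable_norm hg s1,
    tsum_mul_tsum_of_summable_norm hf s2]

/-- Poisson summation over `ℤ⁴` -/
theorem pois4 {t : ℝ} (ht : 0 < t) (β : Fin 4 → ℝ) (s : ℝ) :
    ∑' p : ℤ × ℤ × ℤ × ℤ, ga t (β 0) s p.1 * (ga t (β 1) s p.2.1 *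
      (ga t (β 2) s p.2.2.1 * ga t (β 3) s p.2.2.2)) =
    1 / (t : ℂ) ^ 2 * ∑' p : ℤ × ℤ × ℤ × ℤ, gd t (β 0) s p.1 * (gd t (β 1) s p.2.1 *
      (gd t (β 2) s p.2.2.1 * gd t (β 3) s p.2.2.2)) := by
  rw [(prod4 (ga_summable ht _ _) (ga_summable ht _ _) (ga_summable ht _ _)
    (ga_summable ht _ _)).2, (prod4 (gd_summable ht _ _) (gd_summable ht _ _)
    (gd_summable ht _ _) (gd_summable ht _ _)).2, pois1 ht, pois1 ht, pois1 ht, pois1 ht]
  have hr : ((t : ℂ) ^ (1 / 2 : ℂ)) ^ 2 = t := by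
    rw [← Complex.cpow_nat_mul]
    norm_num
  have h4 : ((t : ℂ) ^ (1 / 2 : ℂ)) ^ 4 = (t : ℂ) ^ 2 := by
    rw [show (4 : ℕ) = 2 * 2 by norm_num, pow_mul, hr]
  rw [← h4]
  ring

end Pool.Agent.N880.HQ
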