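import Pool.Agent.N880.HQ.Arith

/-! # The Hurwitz order modulo an odd prime as a matrix ring -/

set_option autoImplicit false

namespace Pool.Agent.N880.HQ

open Hur Matrix

section field
variable {F : Type*} [Field F]

/-- The image of a Hurwitz quaternion in the 2 by 2 matrices over `F`:
`i ↦ (0, 1; -1, 0)`, `j ↦ (x, y; y, -x)`, where `x² + y² = -1`. -/
def mat (x y : F) (α : Hur) : Matrix (Fin 2) (Fin 2) F :=
  !![(α.a : F) * ((1 + x + y) / 2) + α.c * x + α.d * y,
      (α.a : F) * ((1 + y - x) / 2) + α.b + α.c * y - α.d * x;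
     (α.a : F) * ((-1 + y - x) / 2) - α.b + α.c * y - α.d * x,
      (α.a : F) * ((1 - x - y) / 2) - α.c * x - α.d * y]

variable {x y : F}

lemma mat_zero : mat x y 0 = 0 := by
  ext i j; fin_cases i <;> fin_cases j <;> simp [mat]

lemma mat_add (α β : Hur) : mat x y (α + β) = mat x y α + mat x y β := by
  ext i j; fin_cases i <;> fin_cases j <;> simp [mat] <;> ring

lemma mat_sub (α β : Hur) : mat x y (α - β) = mat x y α - mat x y β := by
  ext i j; fin_cases i <;> fin_cases j <;> simp [mat] <;> ring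

lemma mat_neg (α : Hur) : mat x y (-α) = -mat x y α := by
  ext i j; fin_cases i <;> fin_cases j <;> simp [mat] <;> ring

lemma mat_mul (h2 : (2 : F) ≠ 0) (hxy : x ^ 2 + y ^ 2 = -1) (α β : Hur) :
    mat x y (α * β) = mat x y α * mat x y β := by
  ext i j
  fin_cases i <;> fin_cases j <;>
    simp only [mat, mul_a, mul_b, mul_c, mul_d, Matrix.mul_apply, Fin.sum_univ_two, Fin.zero_eta,
      Fin.mk_one, Fin.isValue, of_apply, cons_val', cons_val_zero, cons_val_one, cons_val_fin_one] <;>
    push_cast <;> field_simp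
  · linear_combination (-((α.a + 2 * α.c : F) * (β.a + 2 * β.c) + (α.a + 2 * α.d) * (β.a + 2 * β.d))) * hxy
  · linear_combination (-((α.a + 2 * α.d : F) * (β.a + 2 * β.c) - (α.a + 2 * α.c) * (β.a + 2 * β.d))) * hxy
  · linear_combination (-((α.a + 2 * α.c : F) * (β.a + 2 * β.d) - (α.a + 2 * α.d) * (β.a + 2 * β.c))) * hxy
  · linear_combination (-((α.a + 2 * α.c : F) * (β.a + 2 * β.c) + (α.a + 2 * α.d) * (β.a + 2 * β.d))) * hxy

lemma mat_intCast (h2 : (2 : F) ≠ 0) (n : ℤ) : mat x y (n : Hur) = (n : F) • 1 := by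
  ext i j
  fin_cases i <;> fin_cases j <;> simp [mat] <;> field_simp <;> ring

lemma mat_natCast (h2 : (2 : F) ≠ 0) (n : ℕ) : mat x y (n : Hur) = (n : F) • 1 := by
  have := mat_intCast (x := x) (y := y) h2 (n : ℤ)
  simpa using this

lemma mat_one (h2 : (2 : F) ≠ 0) : mat x y 1 = 1 := by
  have := mat_natCast (x := x) (y := y) h2 1
  simpa using this

lemma mat_det (h2 : (2 : F) ≠ 0) (hxy : x ^ 2 + y ^ 2 = -1) (α : Hur) :
    (mat x y α).det = ((nrm α : ℤ) : F) := by
  rw [Matrix.det_fin_two]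
  simp only [mat, nrm, Matrix.of_apply, Matrix.cons_val', Matrix.cons_val_zero, Matrix.cons_val_one,
    Matrix.cons_val_fin_one]
  push_cast
  field_simp
  linear_combination (-((α.a + 2 * α.c : F) ^ 2 + (α.a + 2 * α.d) ^ 2)) * hxy

lemma mat_conj (h2 : (2 : F) ≠ 0) (α : Hur) : mat x y (conj α) = (mat x y α).adjugate := by
  rw [Matrix.adjugate_fin_two]
  ext i j
  fin_cases i <;> fin_cases j <;> simp [mat] <;> field_simp <;> ring

end field

section prime
variable {p : ℕ} [Fact p.Prime] {x y : ZMod p}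

lemma mat_surj (h2 : (2 : ZMod p) ≠ 0) (hxy : x ^ 2 + y ^ 2 = -1)
    (M : Matrix (Fin 2) (Fin 2) (ZMod p)) : ∃ α : Hur, mat x y α = M := by
  -- coefficients of `1, i, j, k`
  set e := (M 0 0 + M 1 1) / 2 with he
  set f := (M 0 1 - M 1 0) / 2 with hf
  set s := (M 0 0 - M 1 1) / 2 with hs
  set t := (M 0 1 + M 1 0) / 2 with ht
  set g := -(x * s + y * t) with hg
  set k := -(y * s - x * t) with hk
  have c : ∀ z : ZMod p, (((ZMod.val z : ℕ) : ℤ) : ZMod p) = z := fun z => by
    rw [Int.cast_natCast]; exact ZMod.natCast_zmod_val z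
  refine ⟨⟨(ZMod.val (2 * e) : ℤ), (ZMod.val (f - e) : ℤ), (ZMod.val (g - e) : ℤ),
    (ZMod.val (k - e) : ℤ)⟩, ?_⟩
  ext i j
  fin_cases i <;> fin_cases j <;> simp only [mat, c, Fin.zero_eta, Fin.mk_one, Fin.isValue,
    of_apply, cons_val', cons_val_zero, cons_val_one, cons_val_fin_one]
  · have : M 0 0 = e + s := by rw [he, hs]; field_simp; ring
    rw [this, hg, hk]; field_simp; linear_combination (-s) * hxy
  · have : M 0 1 = f + t := by rw [hf, ht]; field_simp; ring
    rw [this, hg, hk]; field_simp; linear_combination (-t) * hxy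
  · have : M 1 0 = t - f := by rw [hf, ht]; field_simp; ring
    rw [this, hg, hk]; field_simp; linear_combination (-t) * hxy
  · have : M 1 1 = e - s := by rw [he, hs]; field_simp; ring
    rw [this, hg, hk]; field_simp; linear_combination s * hxy

lemma mat_eq_zero (h2 : (2 : ZMod p) ≠ 0) (hxy : x ^ 2 + y ^ 2 = -1) (α : Hur) :
    mat x y α = 0 ↔ ∃ δ : Hur, α = (p : Hur) * δ := by
  constructor
  · intro h
    have h00 := congrFun (congrFun h 0) 0
    have h01 := congrFun (congrFun h 0) 1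
    have h10 := congrFun (congrFun h 1) 0
    have h11 := congrFun (congrFun h 1) 1
    simp only [mat, of_apply, cons_val', cons_val_zero, cons_val_one, cons_val_fin_one,
      Matrix.zero_apply] at h00 h01 h10 h11
    have ha : (α.a : ZMod p) = 0 := by
      have : (α.a : ZMod p) = ((α.a : ZMod p) * ((1 + x + y) / 2) + α.c * x + α.d * y) +
        ((α.a : ZMod p) * ((1 - x - y) / 2) - α.c * x - α.d * y) := by field_simp; ring
      rw [this, h00, h11, add_zero]
    rw [ha] at h00 h01 h10 h11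
    have hb : (α.b : ZMod p) = 0 := by
      have : 2 * (α.b : ZMod p) = 0 := by linear_combination h01 - h10
      exact (mul_eq_zero.1 this).resolve_left h2
    rw [hb] at h01
    have hc : (α.c : ZMod p) = 0 := by linear_combination (-x) * h00 + (-y) * h01 + (α.c : ZMod p) * hxy
    have hd : (α.d : ZMod p) = 0 := by linear_combination (-y) * h00 + (x) * h01 + (α.d : ZMod p) * hxy
    rw [ZMod.intCast_zmod_eq_zero_iff_dvd] at ha hb hc hd
    obtain ⟨a', ha'⟩ := ha
    obtain ⟨b', hb'⟩ := hb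
    obtain ⟨c', hc'⟩ := hc
    obtain ⟨d', hd'⟩ := hd
    refine ⟨⟨a', b', c', d'⟩, ?_⟩
    ext
    · rw [natCast_mul_a]; exact ha'
    · rw [natCast_mul_b]; exact hb'
    · rw [natCast_mul_c]; exact hc'
    · rw [natCast_mul_d]; exact hd'
  · rintro ⟨δ, rfl⟩
    rw [mat_mul h2 hxy, mat_natCast h2]
    simp

end prime

end Pool.Agent.N880.HQ
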