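import Pool.Agent.N880.HQ.HPois

/-! # The functional equation of the theta series `∑ φ(v α) exp(-π t N(α))` -/

set_option autoImplicit false

open Complex Matrix

namespace Pool.Agent.N880.HQ

open Hur

variable {q : ℕ} [Fact q.Prime]

/-- the symplectic Fourier transform -/
noncomputable def SF (φ : (Fin 2 → ZMod q) → ℂ) (v : Fin 2 → ZMod q) : ℂ :=
  ∑ u : Fin 2 → ZMod q, φ u * ZMod.stdAddChar (sy u v)

lemma sum_char (a : ZMod q) : ∑ t : ZMod q, (ZMod.stdAddChar (a * t) : ℂ) = if a = 0 then (q : ℂ) else 0 := by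
  have h := AddChar.sum_mulShift (R := ZMod q) (R' := ℂ) a (ZMod.isPrimitive_stdAddChar q)
  simp_rw [mul_comm a]
  rw [h, ZMod.card]
  split_ifs <;> simp

lemma sum_fin2 (f : (Fin 2 → ZMod q) → ℂ) : ∑ u, f u = ∑ s : ZMod q, ∑ t : ZMod q, f ![s, t] := by
  rw [← Fintype.sum_prod_type' (f := fun s t => f ![s, t])]
  rw [← (finTwoArrowEquiv (ZMod q)).sum_comp (g := fun p : ZMod q × ZMod q => f ![p.1, p.2])]
  refine Finset.sum_congr rfl fun u _ => ?_
  congr 1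
  ext i
  fin_cases i <;> rfl

lemma sum_sy (a : Fin 2 → ZMod q) : ∑ w : Fin 2 → ZMod q, (ZMod.stdAddChar (sy a w) : ℂ) =
    if a = 0 then (q : ℂ) ^ 2 else 0 := by
  rw [sum_fin2]
  have h : ∀ s t : ZMod q, (ZMod.stdAddChar (sy a ![s, t]) : ℂ) =
      ZMod.stdAddChar ((-(a 1)) * s) * ZMod.stdAddChar (a 0 * t) := by
    intro s t
    rw [← AddChar.map_add_eq_mul]
    congr 1
    simp [sy]
    ring
  simp_rw [h, ← Finset.mul_sum, ← Finset.sum_mul, sum_char]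
  by_cases h0 : a 0 = 0 <;> by_cases h1 : a 1 = 0
  · have : a = 0 := by
      ext i; fin_cases i
      · exact h0
      · exact h1
    simp [this, sq]
  · have : a ≠ 0 := fun h => h1 (by rw [h]; rfl)
    simp [this, h1]
  · have : a ≠ 0 := fun h => h0 (by rw [h]; rfl)
    simp [this, h0]
  · have : a ≠ 0 := fun h => h0 (by rw [h]; rfl)
    simp [this, h0]

lemma sy_sub_left (u z w : Fin 2 → ZMod q) : sy (u - z) w = sy u w - sy z w := by
  simp [sy]; ring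

/-- Fourier inversion -/
lemma SF_SF (φ : (Fin 2 → ZMod q) → ℂ) (z : Fin 2 → ZMod q) : SF (SF φ) z = (q : ℂ) ^ 2 * φ z := by
  unfold SF
  simp_rw [Finset.sum_mul]
  rw [Finset.sum_comm]
  have h : ∀ u w : Fin 2 → ZMod q, φ u * (ZMod.stdAddChar (sy u w) : ℂ) * ZMod.stdAddChar (sy w z) =
      φ u * ZMod.stdAddChar (sy (u - z) w) := by
    intro u w
    rw [mul_assoc, ← AddChar.map_add_eq_mul, sy_sub_left, sy_neg w z, ← sub_eq_add_neg]
  simp_rw [h, ← Finset.mul_sum, sum_sy, sub_eq_zero]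
  simp [mul_comm]

lemma inversion (φ : (Fin 2 → ZMod q) → ℂ) (z : Fin 2 → ZMod q) :
    φ z = ((q : ℂ) ^ 2)⁻¹ * ∑ w : Fin 2 → ZMod q, SF φ w * ZMod.stdAddChar (sy w z) := by
  have hq : ((q : ℂ) ^ 2) ≠ 0 := by
    have : (q : ℂ) ≠ 0 := by exact_mod_cast (Fact.out : q.Prime).ne_zero
    positivity
  have h := SF_SF φ z
  unfold SF at h ⊢
  rw [h, ← mul_assoc, inv_mul_cancel₀ hq, one_mul]

variable {x y : ZMod q}

lemma sy_mat (w v : Fin 2 → ZMod q) (α : Hur) : sy w (v ᵥ* mat x y α) =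
    Lf (sy w (v ᵥ* mat x y ⟨1, 0, 0, 0⟩)) (sy w (v ᵥ* mat x y ⟨0, 1, 0, 0⟩))
      (sy w (v ᵥ* mat x y ⟨0, 0, 1, 0⟩)) (sy w (v ᵥ* mat x y ⟨0, 0, 0, 1⟩)) α := by
  simp only [vecMul_two, sy, Lf, mat, of_apply, cons_val', cons_val_zero, cons_val_one,
    cons_val_fin_one]
  push_cast
  ring

lemma cond_iff (h2 : (2 : ZMod q) ≠ 0) (hxy : x ^ 2 + y ^ 2 = -1) {w v u : Fin 2 → ZMod q}
    (hu : sy u v = 1) (μ : Hur) :
    Cond (sy w (v ᵥ* mat x y ⟨1, 0, 0, 0⟩)) (sy w (v ᵥ* mat x y ⟨0, 1, 0, 0⟩))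
      (sy w (v ᵥ* mat x y ⟨0, 0, 1, 0⟩)) (sy w (v ᵥ* mat x y ⟨0, 0, 0, 1⟩)) μ ↔
    v ᵥ* mat x y μ = 0 ∧ w = (2 : ZMod q)⁻¹ • (u ᵥ* mat x y μ) := by
  have e1 : 2 * (2 * sy w (v ᵥ* mat x y ⟨1, 0, 0, 0⟩) - sy w (v ᵥ* mat x y ⟨0, 1, 0, 0⟩) -
      sy w (v ᵥ* mat x y ⟨0, 0, 1, 0⟩) - sy w (v ᵥ* mat x y ⟨0, 0, 0, 1⟩)) =
      2 * (w 0 * v 1 - w 1 * v 0) := by
    simp only [vecMul_two, sy, mat, of_apply, cons_val', cons_val_zero, cons_val_one,
      cons_val_fin_one]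
    push_cast
    field_simp
    ring
  have e2 : sy w (v ᵥ* mat x y ⟨0, 1, 0, 0⟩) = w 0 * v 0 + w 1 * v 1 := by
    simp only [vecMul_two, sy, mat, of_apply, cons_val', cons_val_zero, cons_val_one,
      cons_val_fin_one]
    push_cast
    ring
  have e3 : sy w (v ᵥ* mat x y ⟨0, 0, 1, 0⟩) =
      w 0 * (v 0 * y - v 1 * x) - w 1 * (v 0 * x + v 1 * y) := by
    simp only [vecMul_two, sy, mat, of_apply, cons_val', cons_val_zero, cons_val_one,
      cons_val_fin_one]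
    push_cast
    ring
  have e4 : sy w (v ᵥ* mat x y ⟨0, 0, 0, 1⟩) =
      -(w 0 * (v 0 * x + v 1 * y)) - w 1 * (v 0 * y - v 1 * x) := by
    simp only [vecMul_two, sy, mat, of_apply, cons_val', cons_val_zero, cons_val_one,
      cons_val_fin_one]
    push_cast
    ring
  unfold Cond
  rw [e1, e2, e3, e4]
  push_cast
  have hu' : u 0 * v 1 - u 1 * v 0 = 1 := hu
  have m00 : mat x y μ 0 0 = (μ.a : ZMod q) * ((1 + x + y) / 2) + μ.c * x + μ.d * y := rfl
  have m01 : mat x y μ 0 1 = (μ.a : ZMod q) * ((1 + y - x) / 2) + μ.b + μ.c * y - μ.d * x := rfl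
  have m10 : mat x y μ 1 0 = (μ.a : ZMod q) * ((-1 + y - x) / 2) - μ.b + μ.c * y - μ.d * x := rfl
  have m11 : mat x y μ 1 1 = (μ.a : ZMod q) * ((1 - x - y) / 2) - μ.c * x - μ.d * y := rfl
  constructor
  · rintro ⟨c0, c1, c2, c3⟩
    -- the matrix is `2 J vᵀ w`
    have k00 : mat x y μ 0 0 = 2 * v 1 * w 0 := by
      rw [m00]
      have : (μ.a : ZMod q) * ((1 + x + y) / 2) + μ.c * x + μ.d * y =
        (μ.a + (μ.a + 2 * μ.c) * x + (μ.a + 2 * μ.d) * y) / 2 := by field_simp; ring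
      rw [this, c2, c3, c0]
      field_simp
      linear_combination (-(w 0 * v 1 + w 1 * v 0)) * hxy
    have k01 : mat x y μ 0 1 = 2 * v 1 * w 1 := by
      rw [m01]
      have : (μ.a : ZMod q) * ((1 + y - x) / 2) + μ.b + μ.c * y - μ.d * x =
        ((μ.a + 2 * μ.b) + (μ.a + 2 * μ.c) * y - (μ.a + 2 * μ.d) * x) / 2 := by field_simp; ring
      rw [this, c2, c3, c1]
      field_simp
      linear_combination (w 0 * v 0 - w 1 * v 1) * hxy
    have k10 : mat x y μ 1 0 = -(2 * v 0 * w 0) := by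
      rw [m10]
      have : (μ.a : ZMod q) * ((-1 + y - x) / 2) - μ.b + μ.c * y - μ.d * x =
        (-(μ.a + 2 * μ.b) + (μ.a + 2 * μ.c) * y - (μ.a + 2 * μ.d) * x) / 2 := by field_simp; ring
      rw [this, c2, c3, c1]
      field_simp
      linear_combination (w 0 * v 0 - w 1 * v 1) * hxy
    have k11 : mat x y μ 1 1 = -(2 * v 0 * w 1) := by
      rw [m11]
      have : (μ.a : ZMod q) * ((1 - x - y) / 2) - μ.c * x - μ.d * y =
        (μ.a - (μ.a + 2 * μ.c) * x - (μ.a + 2 * μ.d) * y) / 2 := by field_simp; ring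
      rw [this, c2, c3, c0]
      field_simp
      linear_combination (w 0 * v 1 + w 1 * v 0) * hxy
    rw [vecMul_two, vecMul_two, k00, k01, k10, k11]
    constructor
    · ext i; fin_cases i <;> simp <;> ring
    · ext i
      fin_cases i
      · simp only [Fin.zero_eta, Fin.isValue, Pi.smul_apply, cons_val_zero, smul_eq_mul]
        field_simp
        linear_combination (-(w 0)) * hu'
      · simp only [Fin.mk_one, Fin.isValue, Pi.smul_apply, cons_val_one, cons_val_fin_one,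
          smul_eq_mul]
        field_simp
        linear_combination (-(w 1)) * hu'
  · rintro ⟨hv0, hw⟩
    rw [vecMul_two] at hv0 hw
    have a0 := congrFun hv0 0
    have a1 := congrFun hv0 1
    have b0 := congrFun hw 0
    have b1 := congrFun hw 1
    simp only [Fin.isValue, cons_val_zero, Pi.zero_apply, cons_val_one, cons_val_fin_one,
      Pi.smul_apply, smul_eq_mul] at a0 a1 b0 b1
    have b0' : u 0 * mat x y μ 0 0 + u 1 * mat x y μ 1 0 = 2 * w 0 := by rw [b0]; field_simp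
    have b1' : u 0 * mat x y μ 0 1 + u 1 * mat x y μ 1 1 = 2 * w 1 := by rw [b1]; field_simp
    have k00 : mat x y μ 0 0 = 2 * v 1 * w 0 := by
      linear_combination (v 1) * b0' - (u 1) * a0 - mat x y μ 0 0 * hu'
    have k01 : mat x y μ 0 1 = 2 * v 1 * w 1 := by
      linear_combination (v 1) * b1' - (u 1) * a1 - mat x y μ 0 1 * hu'
    have k10 : mat x y μ 1 0 = -(2 * v 0 * w 0) := by
      linear_combination (-(v 0)) * b0' + (u 0) * a0 - mat x y μ 1 0 * hu'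
    have k11 : mat x y μ 1 1 = -(2 * v 0 * w 1) := by
      linear_combination (-(v 0)) * b1' + (u 0) * a1 - mat x y μ 1 1 * hu'
    have c0 : (μ.a : ZMod q) = mat x y μ 0 0 + mat x y μ 1 1 := by rw [m00, m11]; field_simp; ring
    have c1 : (μ.a + 2 * μ.b : ZMod q) = mat x y μ 0 1 - mat x y μ 1 0 := by
      rw [m01, m10]; field_simp; ring
    have d1 : (μ.a + 2 * μ.c : ZMod q) * x + (μ.a + 2 * μ.d) * y = mat x y μ 0 0 - mat x y μ 1 1 := by
      rw [m00, m11]; field_simp; ring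
    have d2 : (μ.a + 2 * μ.c : ZMod q) * y - (μ.a + 2 * μ.d) * x = mat x y μ 0 1 + mat x y μ 1 0 := by
      rw [m01, m10]; field_simp; ring
    have c2 : (μ.a + 2 * μ.c : ZMod q) = -(x * (mat x y μ 0 0 - mat x y μ 1 1) +
        y * (mat x y μ 0 1 + mat x y μ 1 0)) := by
      rw [← d1, ← d2]; linear_combination (μ.a + 2 * μ.c : ZMod q) * hxy
    have c3 : (μ.a + 2 * μ.d : ZMod q) = -(y * (mat x y μ 0 0 - mat x y μ 1 1) -
        x * (mat x y μ 0 1 + mat x y μ 1 0)) := by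
      rw [← d1, ← d2]; linear_combination (μ.a + 2 * μ.d : ZMod q) * hxy
    rw [c1, c2, c3, c0, k00, k01, k10, k11]
    refine ⟨?_, ?_, ?_, ?_⟩ <;> ring

/-- The dual point of `v`. -/
noncomputable def nu (x y : ZMod q) (u : Fin 2 → ZMod q) (δ : Hur) : Fin 2 → ZMod q :=
  (2 : ZMod q)⁻¹ • (u ᵥ* mat x y (δ * pi2))

open Classical in
/-- the theta series -/
noncomputable def Th (x y : ZMod q) (φ : (Fin 2 → ZMod q) → ℂ) (v : Fin 2 → ZMod q) (t : ℝ) : ℂ :=
  ∑' α : Hur, φ (v ᵥ* mat x y α) * ((Real.exp (-Real.pi * t * nrm α) : ℝ) : ℂ)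

lemma exp_summable (hq : Odd q) {t : ℝ} (ht : 0 < t) :
    Summable (fun α : Hur => Real.exp (-Real.pi * t * nrm α)) := by
  have h := (hpois (q := q) hq 0 0 0 0 ht).1
  refine h.congr fun α => ?_
  unfold Gp
  have : Lf (0 : ZMod q) 0 0 0 α = 0 := by simp [Lf]
  rw [this, AddChar.map_zero_eq_one, one_mul, Complex.norm_real, Real.norm_eq_abs,
    abs_of_pos (Real.exp_pos _)]

lemma Th_summable (hq : Odd q) {t : ℝ} (ht : 0 < t) (φ : (Fin 2 → ZMod q) → ℂ)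
    (v : Fin 2 → ZMod q) : Summable (fun α : Hur => φ (v ᵥ* mat x y α) *
      ((Real.exp (-Real.pi * t * nrm α) : ℝ) : ℂ)) := by
  have hb : ∀ w : Fin 2 → ZMod q, ‖φ w‖ ≤ ∑ u, ‖φ u‖ := fun w =>
    Finset.single_le_sum (f := fun u => ‖φ u‖) (fun _ _ => norm_nonneg _) (Finset.mem_univ w)
  refine Summable.of_norm_bounded (g := fun α => (∑ u, ‖φ u‖) * Real.exp (-Real.pi * t * nrm α))
    ((exp_summable hq ht).mul_left _) fun α => ?_
  rw [norm_mul, Complex.norm_real, Real.norm_eq_abs, abs_of_pos (Real.exp_pos _)]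
  exact mul_le_mul_of_nonneg_right (hb _) (Real.exp_pos _).le

/-- **Functional equation of the theta series.** -/
theorem Th_fe (hq : Odd q) (hxy : x ^ 2 + y ^ 2 = -1) (φ : (Fin 2 → ZMod q) → ℂ)
    {u v : Fin 2 → ZMod q} (hu : sy u v = 1) {δ : Hur} (hδ : nrm δ = q)
    (hδv : v ᵥ* mat x y δ = 0) (hgen : ∀ γ : Hur, v ᵥ* mat x y γ = 0 → ∃ ε : Hur, γ = δ * ε)
    {t : ℝ} (ht : 0 < t) :
    Th x y φ v t = (2 / ((q : ℂ) ^ 2 * (t : ℂ) ^ 2)) * Th x y (SF φ) (nu x y u δ) (2 / (q * t)) := by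
  classical
  have hqp : q.Prime := Fact.out
  have h2 : (2 : ZMod q) ≠ 0 := by
    intro h
    have h' : ((2 : ℕ) : ZMod q) = 0 := by exact_mod_cast h
    rw [ZMod.natCast_eq_zero_iff] at h'
    have := (Nat.prime_dvd_prime_iff_eq hqp Nat.prime_two).1 h'
    rw [this] at hq
    exact absurd hq (by decide)
  have hqR : (0 : ℝ) < q := by exact_mod_cast hqp.pos
  have hqZ : (0 : ℤ) < q := by exact_mod_cast hqp.pos
  -- abbreviations for the four values
  set lh := fun w : Fin 2 → ZMod q => sy w (v ᵥ* mat x y ⟨1, 0, 0, 0⟩) with hlh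
  set li := fun w : Fin 2 → ZMod q => sy w (v ᵥ* mat x y ⟨0, 1, 0, 0⟩) with hli
  set lj := fun w : Fin 2 → ZMod q => sy w (v ᵥ* mat x y ⟨0, 0, 1, 0⟩) with hlj
  set lk := fun w : Fin 2 → ZMod q => sy w (v ᵥ* mat x y ⟨0, 0, 0, 1⟩) with hlk
  have hP := fun w : Fin 2 → ZMod q => hpois hq (lh w) (li w) (lj w) (lk w) ht
  have s1 : Th x y φ v t = ((q : ℂ) ^ 2)⁻¹ * ∑ w : Fin 2 → ZMod q, SF φ w *
      ∑' α : Hur, Gp (lh w) (li w) (lj w) (lk w) t α := by
    have e : ∀ w : Fin 2 → ZMod q, SF φ w * ∑' α : Hur, Gp (lh w) (li w) (lj w) (lk w) t α =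
        ∑' α : Hur, SF φ w * Gp (lh w) (li w) (lj w) (lk w) t α := fun w => tsum_mul_left.symm
    simp_rw [e]
    rw [← Summable.tsum_finsetSum (fun w _ => (hP w).1.of_norm.mul_left _), ← tsum_mul_left]
    refine tsum_congr fun α => ?_
    rw [inversion φ (v ᵥ* mat x y α), mul_assoc, Finset.sum_mul]
    congr 1
    refine Finset.sum_congr rfl fun w _ => ?_
    unfold Gp
    rw [sy_mat]
    ring
  have s2 : ∑ w : Fin 2 → ZMod q, SF φ w * ∑' α : Hur, Gp (lh w) (li w) (lj w) (lk w) t α =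
      (2 / (t : ℂ) ^ 2) * ∑' μ : Hur, ∑ w : Fin 2 → ZMod q,
        SF φ w * Gd (lh w) (li w) (lj w) (lk w) t μ := by
    have e : ∀ w : Fin 2 → ZMod q, SF φ w * ∑' α : Hur, Gp (lh w) (li w) (lj w) (lk w) t α =
        (2 / (t : ℂ) ^ 2) * ∑' μ : Hur, SF φ w * Gd (lh w) (li w) (lj w) (lk w) t μ := by
      intro w
      rw [(hP w).2.2, tsum_mul_left]
      ring
    simp_rw [e]
    rw [← Finset.mul_sum, Summable.tsum_finsetSum (fun w _ => (hP w).2.1.of_norm.mul_left _)]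
  -- evaluate the inner sum
  have s3 : ∀ μ : Hur, ∑ w : Fin 2 → ZMod q, SF φ w * Gd (lh w) (li w) (lj w) (lk w) t μ =
      if 2 ∣ nrm μ ∧ v ᵥ* mat x y μ = 0 then SF φ ((2 : ZMod q)⁻¹ • (u ᵥ* mat x y μ)) *
        ((Real.exp (-Real.pi * nrm μ / (q ^ 2 * t)) : ℝ) : ℂ) else 0 := by
    intro μ
    by_cases h : 2 ∣ nrm μ ∧ v ᵥ* mat x y μ = 0
    · rw [if_pos h, Finset.sum_eq_single ((2 : ZMod q)⁻¹ • (u ᵥ* mat x y μ))]
      · unfold Gd
        rw [if_pos]
        exact ⟨h.1, (cond_iff h2 hxy hu μ).2 ⟨h.2, rfl⟩⟩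
      · intro w _ hw
        unfold Gd
        rw [if_neg, mul_zero]
        rintro ⟨_, hc⟩
        exact hw ((cond_iff h2 hxy hu μ).1 hc).2
      · intro h'
        exact absurd (Finset.mem_univ _) h'
    · rw [if_neg h]
      refine Finset.sum_eq_zero fun w _ => ?_
      unfold Gd
      rw [if_neg, mul_zero]
      rintro ⟨h1, hc⟩
      exact h ⟨h1, ((cond_iff h2 hxy hu μ).1 hc).1⟩
  -- reindex
  have hδ0 : δ ≠ 0 := by
    rintro rfl
    rw [nrm_zero] at hδ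
    omega
  have hpi0 : pi2 ≠ 0 := by
    intro h
    have := congrArg Hur.a h
    simp [pi2] at this
  have hdp : δ * pi2 ≠ 0 := by
    intro h
    have := congrArg nrm h
    rw [nrm_mul, hδ, nrm_pi2, nrm_zero] at this
    omega
  have hinj : Function.Injective (fun ε : Hur => δ * pi2 * ε) := fun a b h => mul_left_cancel' hdp h
  have hn : ∀ ε : Hur, nrm (δ * pi2 * ε) = 2 * (q * nrm ε) := by
    intro ε
    rw [nrm_mul, nrm_mul, hδ, nrm_pi2]; ring
  set F : Hur → ℂ := fun μ => if 2 ∣ nrm μ ∧ v ᵥ* mat x y μ = 0 then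
      SF φ ((2 : ZMod q)⁻¹ • (u ᵥ* mat x y μ)) *
        ((Real.exp (-Real.pi * nrm μ / (q ^ 2 * t)) : ℝ) : ℂ) else 0 with hF
  have hsupp : Function.support F ⊆ Set.range (fun ε : Hur => δ * pi2 * ε) := by
    intro μ hμ
    rw [Function.mem_support, hF] at hμ
    have hc : 2 ∣ nrm μ ∧ v ᵥ* mat x y μ = 0 := by
      by_contra h
      simp only [if_neg h] at hμ
      exact hμ rfl
    obtain ⟨γ, hγ⟩ := hgen μ hc.2
    have hev : 2 ∣ nrm γ := by
      have h3 : 2 ∣ (q : ℤ) * nrm γ := by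
        rw [← hδ, ← nrm_mul, ← hγ]; exact hc.1
      have hqo : IsCoprime (2 : ℤ) q := by
        obtain ⟨k, hk⟩ := hq
        exact ⟨-k, 1, by rw [hk]; push_cast; ring⟩
      exact hqo.dvd_of_dvd_mul_left h3
    obtain ⟨ε, hε⟩ := exists_left_pi2 hev
    exact ⟨ε, by simp only; rw [hγ, hε, mul_assoc]⟩
  rw [s1, s2]
  simp_rw [s3]
  rw [← hinj.tsum_eq hsupp]
  unfold Th
  have e5 : ∀ ε : Hur, F (δ * pi2 * ε) = SF φ (nu x y u δ ᵥ* mat x y ε) *
      ((Real.exp (-Real.pi * (2 / (q * t)) * nrm ε) : ℝ) : ℂ) := by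
    intro ε
    rw [hF]
    simp only
    rw [if_pos]
    · congr 2
      · unfold nu
        rw [Matrix.smul_vecMul, Matrix.vecMul_vecMul, ← mat_mul h2 hxy]
      · rw [hn]
        push_cast
        congr 1
        field_simp
    · refine ⟨⟨q * nrm ε, hn ε⟩, ?_⟩
      rw [mul_assoc, mat_mul h2 hxy, ← Matrix.vecMul_vecMul, hδv, Matrix.zero_vecMul]
  simp_rw [e5]
  rw [← mul_assoc]
  congr 1
  have : (q : ℂ) ≠ 0 := by exact_mod_cast hqp.ne_zero
  have : (t : ℂ) ≠ 0 := by exact_mod_cast ht.ne'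
  field_simp

end Pool.Agent.N880.HQ
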